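import Mathlib
import Pool.Agent.H11.Selberg.Defs
import Pool.Agent.H11.SC.Defs
import Pool.Agent.H39.Pol.Defs

/-!
# Polar functions of degree two (helper11): definitions

PROJECT.  Theorem: an element `F` of the Selberg class of degree `2` (any real conductor) with a pole
at `s = 1` and `S_F(x) = O(log log x)` is `ζ(s) L(s + iτ, χ)`.

Notation: `b(n) = a(n) n^(-iδ)` (pole of order `M + 1` at `1 + iθ`), `E(β, s) = ∑ b(n) e(-nβ) n^(-s)`.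
-/

set_option autoImplicit false

namespace Pool.Agent.H11.PC

open Complex Filter Topology Pool.Agent.H11.Selberg Pool.Agent.H11.SC Pool.Agent.H39.Pol

/-- completely multiplicative and bounded by one -/
structure CM (g : ℕ → ℂ) : Prop where
  one : g 1 = 1
  mul : ∀ m n : ℕ, g (m * n) = g m * g n
  bd : ∀ n : ℕ, ‖g n‖ ≤ 1

/-- the twisted series `∑ b(n) g(n) n^(-s)` -/
noncomputable def LT (b g : ℕ → ℂ) (s : ℂ) : ℂ := LSeries (fun n => b n * g n) s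

/-- the sum `∑_p c(p) p^(-s)` over the primes -/
noncomputable def PS (c : ℕ → ℂ) (s : ℂ) : ℂ :=
  ∑' p : Nat.Primes, c (p : ℕ) * ((p : ℕ) : ℂ) ^ (-s)

/-- the additive twist `E(β, s) = ∑ b(n) e(-nβ) n^(-s)` -/
noncomputable def Es (b : ℕ → ℂ) (β : ℝ) (s : ℂ) : ℂ :=
  LSeries (fun n => b n * cexp (-(2 * (Real.pi : ℂ) * n * β * I))) s

/-- What is used on the coefficients `b`: all of it follows from the axioms of the Selberg class and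
`S_F(x) = O(log log x)` (module PDOF). -/
structure PD (b : ℕ → ℂ) : Prop where
  one : b 1 = 1
  mul : ∀ m n : ℕ, Nat.Coprime m n → b (m * n) = b m * b n
  ram : ∀ δ : ℝ, 0 < δ → ∃ C : ℝ, ∀ n : ℕ, 1 ≤ n → ‖b n‖ ≤ C * (n : ℝ) ^ δ
  /-- the Euler factor at `p` has no zero in `|X| ≤ p^(-1/2)` -/
  loc : ∀ p : ℕ, p.Prime → ∀ X : ℂ, ‖X‖ ≤ (p : ℝ) ^ (-(1 / 2) : ℝ) → ∑' k : ℕ, b (p ^ k) * X ^ k ≠ 0
  /-- logarithm of the twisted series, uniformly in the twist -/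
  log : ∃ K : ℝ, 0 ≤ K ∧ ∀ g : ℕ → ℂ, CM g → ∀ s : ℂ, 1 < s.re →
    ∃ R : ℂ, ‖R‖ ≤ K ∧ LT b g s = cexp (PS (fun n => b n * g n) s + R)
  sb : ∃ C : ℝ, ∀ x : ℝ, 16 ≤ x → S b x ≤ C * Real.log (Real.log x)

/-- the indicator function of the integers not divisible by `r` -/
noncomputable def ind (r n : ℕ) : ℂ := if r ∣ n then 0 else 1

/-- all prime factors of `d ≥ 1` divide `N` -/
def Smo (N d : ℕ) : Prop := d ≠ 0 ∧ ∀ p : ℕ, p.Prime → p ∣ d → p ∣ N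

/-- `e(-x/N)` as a function of `x` modulo `N` -/
noncomputable def eN (N : ℕ) [NeZero N] (x : ZMod N) : ℂ := ZMod.stdAddChar (-x)

/-- the Gauss sum `∑_y e(-yd/N) conj χ(y)` over the units `y` -/
noncomputable def GS (N : ℕ) [NeZero N] (χ : DirichletCharacter ℂ N) (d : ℕ) : ℂ :=
  ∑ y : (ZMod N)ˣ, eN N ((y : ZMod N) * (d : ZMod N)) * χ⁻¹ (y : ZMod N)

open Classical in
/-- `κ_χ(g, s) = φ(N)⁻¹ ∑_{d | N^∞} b(d) g(d) d^(-s) G(d, χ)` -/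
noncomputable def kap (b : ℕ → ℂ) (N : ℕ) [NeZero N] (g : ℕ → ℂ) (χ : DirichletCharacter ℂ N)
    (s : ℂ) : ℂ :=
  (1 / (Nat.totient N : ℂ)) * ∑' d : ℕ,
    if Smo N d then b d * g d * (d : ℂ) ^ (-s) * GS N χ d else 0

/-- the component at `χ` of the additive twists with denominator `N` -/
noncomputable def gam (b : ℕ → ℂ) (N : ℕ) [NeZero N] (χ : DirichletCharacter ℂ N) (s : ℂ) : ℂ :=
  kap b N (fun _ => 1) χ s * LT b (fun n => χ (n : ZMod N)) s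

/-- the Euler factor at `r` as a power series -/
noncomputable def FL (b : ℕ → ℂ) (r : ℕ) (X : ℂ) : ℂ := ∑' j : ℕ, b (r ^ j) * X ^ j

/-- `Λ_k(X) = (-b(r^(k-1)) X^(k-1)/(r-1) + ∑_{j ≥ k} b(r^j) X^j) / ∑_{j ≥ 0} b(r^j) X^j` -/
noncomputable def Lam (b : ℕ → ℂ) (r k : ℕ) (X : ℂ) : ℂ :=
  (-(1 / ((r : ℂ) - 1)) * b (r ^ (k - 1)) * X ^ (k - 1) + ∑' j : ℕ, b (r ^ (j + k)) * X ^ (j + k)) /
    FL b r X

/-- a character of modulus `N` times a character of modulus `r^e` -/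
noncomputable def prodChar {N L : ℕ} (χ : DirichletCharacter ℂ N) (ψ : DirichletCharacter ℂ L)
    (n : ℕ) : ℂ := χ (n : ZMod N) * ψ (n : ZMod L)

/-- `r` is good for the filter `U`: all twists by characters which are not principal at `r` are
`o(α^(-(M+1)))` along `U` at the point `1 - iθ + α` -/
def Good (b : ℕ → ℂ) (N : ℕ) (M : ℕ) (θ : ℝ) (U : Filter ℝ) (r : ℕ) : Prop :=
  ∀ (e : ℕ) (χ : DirichletCharacter ℂ N) (ψ : DirichletCharacter ℂ (r ^ e)), ψ ≠ 1 →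
    Tendsto (fun α : ℝ => (α : ℂ) ^ (M + 1) * LT b (prodChar χ ψ) (1 - θ * I + α)) U (𝓝 0)

/-- The data at the cusps `a0/(N m)`, `m ≥ 1`, and at the pole. -/
structure CD (b : ℕ → ℂ) (N a0 M : ℕ) (θ : ℝ) (w w0 : ℂ) : Prop where
  pd : PD b
  Npos : 1 ≤ N
  cop : Nat.Coprime a0 N
  a0pos : 1 ≤ a0
  w_ne : w ≠ 0
  w0_ne : w0 ≠ 0
  val : ∀ m : ℕ, 1 ≤ m → Tendsto
    (fun α : ℝ => (α : ℂ) ^ (M + 1) * Es b ((a0 : ℝ) / ((N : ℝ) * m)) (1 - θ * I + α)) (𝓝[>] 0)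
    (𝓝 (w * (m : ℂ) ^ (-1 + 2 * θ * I : ℂ)))
  zero : Tendsto (fun α : ℝ => (α : ℂ) ^ (M + 1) * Es b 0 (1 + θ * I + α)) (𝓝[>] 0) (𝓝 w0)
  zero' : θ ≠ 0 →
    Tendsto (fun α : ℝ => (α : ℂ) ^ (M + 1) * Es b 0 (1 - θ * I + α)) (𝓝[>] 0) (𝓝 0)
  logz : ∃ C : ℝ, ∀ α : ℝ, 0 < α → α ≤ 1 →
    ‖PS b (1 + θ * I + α) + ((M : ℂ) + 1) * (Real.log α : ℂ)‖ ≤ C

end Pool.Agent.H11.PC
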