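import Mathlib
import Pool.Agent.H11.SC4.TwoC
import Pool.Agent.H11.SC7.EulL
import Pool.Agent.H11.PC.Defs

/-!
# FDCO: the quotient `F / (ζ(s) L(s + iτ, χ))`

`g n = χ(n) n^(-iτ)` (completely multiplicative, `‖g n‖ ≤ 1`), `z_p = g p`.  Define `d = a * μ * (μ g)` (Dirichlet convolution of arithmetic
functions; `a` is multiplicative on coprime integers, see `H11/SC7/Factor.lean`) or directly the multiplicative function with
`d(p^k) = a(p^k) - (1 + z_p) a(p^(k-1)) + z_p a(p^(k-2))` (`n.factorization.prod`); then `a = 1 * g * d` (equality of multiplicative functions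
on prime powers, as in `Factor.lean`; `∑_{i+j+l=k} z^j d(p^l) = a(p^k)` because the generating series of `1 * g` at `p` is
`1/((1-X)(1-zX))`), so `LSeries a = ζ(s) LSeries g LSeries d` for `Re s > 1` (`twist_eq`).
For `p ∉ 𝔅`: `a(p^k) = ∑_{i≤k} z^i`, so `d(p^k) = 0` for `k ≥ 1`.  So `d n ≠ 0` only if all prime factors of `n` are in `𝔅`; and
`‖d(p^k)‖ ≤ 4 C p^(k/8)` (`hS.ramanujan (1/8)`), so `∑_n ‖d n‖ n^(-1/4) ≤ ∏_{p ∈ 𝔅} ∑_k ‖d(p^k)‖ p^(-k/4) < ∞`
(`EulerProduct.summable_and_hasSum_factoredNumbers_prod_filter_prime_tsum`).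
-/

set_option autoImplicit false

namespace Pool.Agent.H11.PC

open Complex Filter Topology Pool.Agent.H11.Selberg

/-- `χ(p) p^(-iτ)` -/
noncomputable def zch {N : ℕ} (χ : DirichletCharacter ℂ N) (τ : ℝ) (p : ℕ) : ℂ :=
  χ (p : ZMod N) * (p : ℂ) ^ (-((τ : ℂ) * I))

/-- the Dirichlet coefficients of the quotient -/
structure DC (a : ℕ → ℂ) {N : ℕ} [NeZero N] (χ : DirichletCharacter ℂ N) (τ : ℝ) (d : ℕ → ℂ) : Prop where
  zero : d 0 = 0
  one : d 1 = 1
  mul : ∀ m n : ℕ, Nat.Coprime m n → d (m * n) = d m * d n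
  pr : ∀ p : ℕ, p.Prime → d p = a p - (1 + zch χ τ p)
  pk : ∀ p : ℕ, p.Prime → ∀ k : ℕ, d (p ^ (k + 2)) =
    a (p ^ (k + 2)) - (1 + zch χ τ p) * a (p ^ (k + 1)) + zch χ τ p * a (p ^ k)
  sum : Summable (fun n : ℕ => ‖d n‖ * (n : ℝ) ^ (-(1 / 4) : ℝ))
  ser : ∀ s : ℂ, 1 < s.re → LSeries a s = riemannZeta s * χ.LFunction (s + τ * I) * LSeries d s

private noncomputable def fdAF (a : ℕ → ℂ) : ArithmeticFunction ℂ :=
  ⟨fun n => if n = 0 then 0 else a n, by simp⟩

private theorem fdAF_apply (a : ℕ → ℂ) {n : ℕ} (hn : n ≠ 0) : fdAF a n = a n := by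
  show (if n = 0 then 0 else a n) = a n
  rw [if_neg hn]

private theorem fdAF_mult (a : ℕ → ℂ) (h1 : a 1 = 1)
    (hm : ∀ m n : ℕ, m * n ≠ 0 → Nat.Coprime m n → a (m * n) = a m * a n) :
    (fdAF a).IsMultiplicative := by
  refine ⟨by rw [fdAF_apply a one_ne_zero, h1], ?_⟩
  intro m n hmn
  rcases Nat.eq_zero_or_pos m with rfl | hm0
  · simp
  rcases Nat.eq_zero_or_pos n with rfl | hn0
  · simp
  have h0 : m * n ≠ 0 := by positivity
  rw [fdAF_apply a h0, fdAF_apply a hm0.ne', fdAF_apply a hn0.ne', hm m n h0 hmn]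

private theorem fd_mul_pp (f g : ArithmeticFunction ℂ) (p k : ℕ) (hp : p.Prime) :
    (f * g) (p ^ k) = ∑ i ∈ Finset.range (k + 1), f (p ^ i) * g (p ^ (k - i)) := by
  rw [ArithmeticFunction.mul_apply, Nat.sum_divisorsAntidiagonal (fun x y => f x * g y),
    Nat.sum_divisors_prime_pow hp]
  refine Finset.sum_congr rfl (fun i hi => ?_)
  rw [Nat.pow_div (Nat.lt_succ_iff.mp (Finset.mem_range.mp hi)) hp.pos]

private theorem fd_three (f g : ArithmeticFunction ℂ) (p : ℕ) (hp : p.Prime) (u v : ℂ)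
    (h0 : f 1 = 1) (h1 : f p = u) (h2 : f (p ^ 2) = v) (h3 : ∀ j : ℕ, f (p ^ (j + 3)) = 0) :
    (f * g) p = g p + u * g 1 ∧
      ∀ k : ℕ, (f * g) (p ^ (k + 2)) = g (p ^ (k + 2)) + u * g (p ^ (k + 1)) + v * g (p ^ k) := by
  constructor
  · have h := fd_mul_pp f g p 1 hp
    rw [pow_one] at h
    rw [h, Finset.sum_range_succ, Finset.sum_range_succ, Finset.sum_range_zero]
    simp [h0, h1]
  · intro k
    rw [fd_mul_pp f g p (k + 2) hp, Finset.sum_range_succ', Finset.sum_range_succ',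
      Finset.sum_range_succ']
    rw [Finset.sum_eq_zero (fun j _ => by rw [show j + 1 + 1 + 1 = j + 3 by ring, h3, zero_mul])]
    have e1 : k + 2 - (0 + 1 + 1) = k := by omega
    have e2 : k + 2 - (0 + 1) = k + 1 := by omega
    have e3 : k + 2 - 0 = k + 2 := by omega
    rw [e1, e2, e3]
    simp only [zero_add, pow_one, pow_zero, h0, h1]
    rw [show 1 + 1 = 2 by rfl, h2]
    ring

theorem dco (a : ℕ → ℂ) (F : ℂ → ℂ) (hS : IsSelberg a F) {N : ℕ} [NeZero N]
    (χ : DirichletCharacter ℂ N) (τ : ℝ) (B : Set ℕ) (hB : B.Finite)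
    (hloc : ∀ p : ℕ, p.Prime → p ∉ B → ∀ k : ℕ, a (p ^ k) = ∑ i ∈ Finset.range (k + 1), zch χ τ p ^ i) :
    ∃ d : ℕ → ℂ, DC a χ τ d := by
  classical
  obtain ⟨b0, θ0, C0, hθ0, hb0, hE⟩ := hS.euler
  have hE' : ∀ s : ℂ, 1 < s.re → HasProd
      (fun p : Nat.Primes => Complex.exp (∑' l : ℕ, b0 ((p : ℕ) ^ (l + 1)) *
        ((p : ℕ) : ℂ) ^ (-((l : ℂ) + 1) * s))) (LSeries a s) := fun s hs => by
    rw [← hS.eq_LSeries s hs]; exact hE s hs
  have hrec := conv_rec a hS.summable b0 θ0 C0 hθ0 hb0 hE'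
  have hmul0 := Pool.Agent.H11.SC.twoc_mul a F hS b0 hrec
  obtain ⟨g, hg⟩ : ∃ g : ℕ → ℂ, g = fun n : ℕ => χ (n : ZMod N) * (n : ℂ) ^ (-((τ : ℂ) * I)) :=
    ⟨_, rfl⟩
  have hg1 : g 1 = 1 := by
    rw [hg]
    simp
  have hgm : ∀ m n : ℕ, g (m * n) = g m * g n := by
    intro m n
    rw [hg]
    simp only [Nat.cast_mul, map_mul]
    rw [natCast_mul_natCast_cpow]
    ring
  have hgp : ∀ p i : ℕ, g (p ^ i) = (g p) ^ i := by
    intro p i
    induction i with
    | zero => rw [pow_zero, pow_zero, hg1]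
    | succ i ih => rw [pow_succ, hgm, ih, pow_succ]
  have hgz : ∀ p : ℕ, g p = zch χ τ p := by
    intro p
    rw [hg]
    rfl
  have hA := fdAF_mult a hS.one hmul0
  have hG := fdAF_mult g hg1 (fun m n _ _ => hgm m n)
  set Z : ArithmeticFunction ℂ :=
    ((ArithmeticFunction.zeta : ArithmeticFunction ℕ) : ArithmeticFunction ℂ) with hZdef
  set M : ArithmeticFunction ℂ :=
    ((ArithmeticFunction.moebius : ArithmeticFunction ℤ) : ArithmeticFunction ℂ) with hMdef
  have hZ : Z.IsMultiplicative := ArithmeticFunction.isMultiplicative_zeta.natCast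
  have hM : M.IsMultiplicative := ArithmeticFunction.isMultiplicative_moebius.intCast
  set H : ArithmeticFunction ℂ := M.pmul (fdAF g) with hHdef
  have hH : H.IsMultiplicative := hM.pmul hG
  have hZM : Z * M = 1 := ArithmeticFunction.coe_zeta_mul_coe_moebius
  have hM1 : ∀ p : ℕ, p.Prime → M p = -1 := by
    intro p hp
    rw [hMdef, ArithmeticFunction.intCoe_apply, ArithmeticFunction.moebius_apply_prime hp]
    simp
  have hM2 : ∀ p : ℕ, p.Prime → ∀ j : ℕ, M (p ^ (j + 2)) = 0 := by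
    intro p hp j
    rw [hMdef, ArithmeticFunction.intCoe_apply,
      ArithmeticFunction.moebius_apply_prime_pow hp (by omega), if_neg (by omega)]
    simp
  have hH1 : ∀ p : ℕ, p.Prime → H p = -(g p) := by
    intro p hp
    rw [hHdef, ArithmeticFunction.pmul_apply, hM1 p hp, fdAF_apply g hp.ne_zero]
    ring
  have hH2 : ∀ p : ℕ, p.Prime → ∀ j : ℕ, H (p ^ (j + 2)) = 0 := by
    intro p hp j
    rw [hHdef, ArithmeticFunction.pmul_apply, hM2 p hp j, zero_mul]
  have hHG : H * fdAF g = 1 := by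
    rw [ArithmeticFunction.IsMultiplicative.eq_iff_eq_on_prime_powers _ (hH.mul hG) _
      ArithmeticFunction.isMultiplicative_one]
    intro p k hp
    obtain ⟨h1, h2⟩ := fd_three H (fdAF g) p hp (-(g p)) 0 hH.1 (hH1 p hp) (hH2 p hp 0)
      (fun j => hH2 p hp (j + 1))
    rcases k with _ | _ | k
    · rw [pow_zero]
      rw [(hH.mul hG).1, ArithmeticFunction.one_one]
    · rw [zero_add, pow_one, h1, fdAF_apply g hp.ne_zero, fdAF_apply g one_ne_zero, hg1,
        ArithmeticFunction.one_apply_ne hp.one_lt.ne']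
      ring
    · have hne : p ^ (k + 1 + 1) ≠ 1 := (Nat.one_lt_pow (by omega) hp.one_lt).ne'
      rw [show k + 1 + 1 = k + 2 by rfl] at hne ⊢
      rw [h2 k, fdAF_apply g (pow_ne_zero _ hp.ne_zero), fdAF_apply g (pow_ne_zero _ hp.ne_zero),
        hgp, hgp, ArithmeticFunction.one_apply_ne hne]
      ring
  set E : ArithmeticFunction ℂ := M * H with hEdef
  have hEm : E.IsMultiplicative := hM.mul hH
  have hE1 : ∀ p : ℕ, p.Prime → E p = -(1 + g p) := by
    intro p hp
    rw [hEdef, (fd_three M H p hp (-1) 0 hM.1 (hM1 p hp) (hM2 p hp 0)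
      (fun j => hM2 p hp (j + 1))).1, hH1 p hp, hH.1]
    ring
  have hE2 : ∀ p : ℕ, p.Prime → ∀ k : ℕ, E (p ^ (k + 2)) = - H (p ^ (k + 1)) := by
    intro p hp k
    rw [hEdef, (fd_three M H p hp (-1) 0 hM.1 (hM1 p hp) (hM2 p hp 0)
      (fun j => hM2 p hp (j + 1))).2 k, hH2 p hp k]
    ring
  have hE2' : ∀ p : ℕ, p.Prime → E (p ^ 2) = g p := by
    intro p hp
    have := hE2 p hp 0
    rw [zero_add, zero_add, pow_one, hH1 p hp, neg_neg] at this
    exact this
  have hE3 : ∀ p : ℕ, p.Prime → ∀ k : ℕ, E (p ^ (k + 3)) = 0 := by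
    intro p hp k
    have := hE2 p hp (k + 1)
    rw [show k + 1 + 2 = k + 3 by ring, show k + 1 + 1 = k + 2 by ring, hH2 p hp k, neg_zero] at this
    exact this
  set D : ArithmeticFunction ℂ := E * fdAF a with hDdef
  have hDm : D.IsMultiplicative := hEm.mul hA
  have hD1 : ∀ p : ℕ, p.Prime → D p = a p - (1 + g p) := by
    intro p hp
    rw [hDdef, (fd_three E (fdAF a) p hp _ _ hEm.1 (hE1 p hp) (hE2' p hp) (hE3 p hp)).1,
      fdAF_apply a hp.ne_zero, fdAF_apply a one_ne_zero, hS.one]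
    ring
  have hD2 : ∀ p : ℕ, p.Prime → ∀ k : ℕ, D (p ^ (k + 2)) =
      a (p ^ (k + 2)) - (1 + g p) * a (p ^ (k + 1)) + g p * a (p ^ k) := by
    intro p hp k
    rw [hDdef, (fd_three E (fdAF a) p hp _ _ hEm.1 (hE1 p hp) (hE2' p hp) (hE3 p hp)).2 k,
      fdAF_apply a (pow_ne_zero _ hp.ne_zero), fdAF_apply a (pow_ne_zero _ hp.ne_zero),
      fdAF_apply a (pow_ne_zero _ hp.ne_zero)]
    ring
  have hfac : fdAF a = (Z * fdAF g) * D := by
    calc fdAF a = 1 * 1 * fdAF a := by rw [one_mul, one_mul]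
      _ = (Z * M) * (H * fdAF g) * fdAF a := by rw [hZM, hHG]
      _ = _ := by rw [hDdef, hEdef]; ring
  -- vanishing outside `B`
  have hD0 : ∀ p : ℕ, p.Prime → p ∉ B → ∀ k : ℕ, D (p ^ (k + 1)) = 0 := by
    intro p hp hpB k
    have hl := hloc p hp hpB
    rcases k with _ | k
    · rw [zero_add, pow_one, hD1 p hp]
      have := hl 1
      rw [pow_one, Finset.sum_range_succ, Finset.sum_range_succ, Finset.sum_range_zero, pow_zero,
        pow_one, zero_add] at this
      rw [this, hgz]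
      ring
    · rw [show k + 1 + 1 = k + 2 by rfl, hD2 p hp k, hl, hl, hl, hgz]
      have e0 : ∀ n : ℕ, ∑ i ∈ Finset.range (n + 1 + 1), zch χ τ p ^ i =
          zch χ τ p * (∑ i ∈ Finset.range (n + 1), zch χ τ p ^ i) + 1 := by
        intro n
        rw [Finset.sum_range_succ', Finset.mul_sum, pow_zero]
        congr 1
        exact Finset.sum_congr rfl (fun i _ => by rw [pow_succ]; ring)
      rw [show k + 2 + 1 = (k + 1) + 1 + 1 by rfl, e0 (k + 1), e0 k]
      ring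
  -- the bound
  obtain ⟨C', hC'⟩ := hS.ramanujan (1 / 8) (by norm_num)
  set C := max C' 0 with hCdef
  have hC0 : 0 ≤ C := le_max_right _ _
  have hC : ∀ n : ℕ, 1 ≤ n → ‖a n‖ ≤ C * (n : ℝ) ^ (1 / 8 : ℝ) := fun n hn =>
    (hC' n hn).trans (mul_le_mul_of_nonneg_right (le_max_left _ _) (by positivity))
  have hgn : ∀ n : ℕ, ‖g n‖ ≤ 1 := by
    intro n
    rw [hg]
    show ‖χ (n : ZMod N) * (n : ℂ) ^ (-((τ : ℂ) * I))‖ ≤ 1
    rw [norm_mul]
    have h1 : ‖χ (n : ZMod N)‖ ≤ 1 := χ.norm_le_one _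
    have h2 : ‖(n : ℂ) ^ (-((τ : ℂ) * I))‖ ≤ 1 := by
      rcases Nat.eq_zero_or_pos n with rfl | hn
      · rw [Nat.cast_zero]
        by_cases h : -((τ : ℂ) * I) = 0
        · rw [h, cpow_zero, norm_one]
        · rw [zero_cpow h, norm_zero]
          exact zero_le_one
      · rw [norm_natCast_cpow_of_pos hn]
        simp
    calc ‖χ (n : ZMod N)‖ * ‖(n : ℂ) ^ (-((τ : ℂ) * I))‖ ≤ 1 * 1 :=
          mul_le_mul h1 h2 (norm_nonneg _) zero_le_one
      _ = 1 := one_mul 1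
  have hDb : ∀ p : ℕ, p.Prime → ∀ k : ℕ, ‖D (p ^ k)‖ ≤ (4 * C + 4) * ((p ^ k : ℕ) : ℝ) ^ (1 / 8 : ℝ) := by
    intro p hp k
    have hp1 : (1 : ℝ) ≤ p := by exact_mod_cast hp.one_le
    have hmono : ∀ i j : ℕ, i ≤ j → ((p ^ i : ℕ) : ℝ) ^ (1 / 8 : ℝ) ≤ ((p ^ j : ℕ) : ℝ) ^ (1 / 8 : ℝ) := by
      intro i j hij
      apply Real.rpow_le_rpow (Nat.cast_nonneg _) _ (by norm_num)
      exact_mod_cast Nat.pow_le_pow_right hp.pos hij
    have hone : ∀ j : ℕ, (1 : ℝ) ≤ ((p ^ j : ℕ) : ℝ) ^ (1 / 8 : ℝ) := by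
      intro j
      have := hmono 0 j (Nat.zero_le j)
      simpa using this
    have hab : ∀ i j : ℕ, i ≤ j → ‖a (p ^ i)‖ ≤ C * ((p ^ j : ℕ) : ℝ) ^ (1 / 8 : ℝ) := fun i j hij =>
      (hC (p ^ i) (Nat.one_le_iff_ne_zero.mpr (pow_ne_zero _ hp.ne_zero))).trans
        (mul_le_mul_of_nonneg_left (hmono i j hij) hC0)
    have hg1' : ‖(1 : ℂ) + g p‖ ≤ 2 := by
      refine (norm_add_le _ _).trans ?_
      rw [norm_one]
      linarith [hgn p]
    rcases k with _ | _ | k
    · rw [pow_zero, hDm.1, norm_one]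
      simp
      linarith
    · rw [zero_add, pow_one, hD1 p hp]
      have h1 := hab 1 1 le_rfl
      have h2 := hone 1
      rw [pow_one] at h1 h2
      refine (norm_sub_le _ _).trans ?_
      nlinarith
    · rw [show k + 1 + 1 = k + 2 by rfl, hD2 p hp k]
      have h1 := hab (k + 2) (k + 2) le_rfl
      have h2 := hab (k + 1) (k + 2) (by omega)
      have h3 := hab k (k + 2) (by omega)
      have h0 := hone (k + 2)
      set X := ((p ^ (k + 2) : ℕ) : ℝ) ^ (1 / 8 : ℝ) with hX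
      calc ‖a (p ^ (k + 2)) - (1 + g p) * a (p ^ (k + 1)) + g p * a (p ^ k)‖
          ≤ ‖a (p ^ (k + 2)) - (1 + g p) * a (p ^ (k + 1))‖ + ‖g p * a (p ^ k)‖ := norm_add_le _ _
        _ ≤ (‖a (p ^ (k + 2))‖ + ‖(1 + g p) * a (p ^ (k + 1))‖) + ‖g p * a (p ^ k)‖ :=
            add_le_add (norm_sub_le _ _) le_rfl
        _ = (‖a (p ^ (k + 2))‖ + ‖(1 : ℂ) + g p‖ * ‖a (p ^ (k + 1))‖) + ‖g p‖ * ‖a (p ^ k)‖ := by
            rw [norm_mul, norm_mul]
        _ ≤ (C * X + 2 * (C * X)) + 1 * (C * X) := by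
            refine add_le_add (add_le_add h1 (mul_le_mul hg1' h2 (norm_nonneg _) (by norm_num)))
              (mul_le_mul (hgn p) h3 (norm_nonneg _) zero_le_one)
        _ ≤ (4 * C + 4) * X := by nlinarith
  -- summability
  have hsum : Summable (fun n : ℕ => ‖D n‖ * (n : ℝ) ^ (-(1 / 4) : ℝ)) := by
    set f : ℕ → ℝ := fun n : ℕ => ‖D n‖ * (n : ℝ) ^ (-(1 / 4) : ℝ) with hf
    have hf1 : f 1 = 1 := by
      rw [hf]
      simp [hDm.1]
    have hfm : ∀ {m n : ℕ}, m.Coprime n → f (m * n) = f m * f n := by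
      intro m n hmn
      rw [hf]
      simp only
      rw [hDm.2 hmn, norm_mul, Nat.cast_mul, Real.mul_rpow (Nat.cast_nonneg _) (Nat.cast_nonneg _)]
      ring
    have hfs : ∀ {p : ℕ}, p.Prime → Summable (fun n : ℕ => ‖f (p ^ n)‖) := by
      intro p hp
      have hp1 : (1 : ℝ) < p := by exact_mod_cast hp.one_lt
      have hp0 : (0 : ℝ) < p := by linarith
      set r : ℝ := (p : ℝ) ^ (-(1 / 8) : ℝ) with hr
      have hr0 : 0 ≤ r := by positivity
      have hr1 : r < 1 := Real.rpow_lt_one_of_one_lt_of_neg hp1 (by norm_num)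
      refine Summable.of_nonneg_of_le (fun _ => norm_nonneg _) (fun n => ?_)
        ((summable_geometric_of_lt_one hr0 hr1).mul_left (4 * C + 4))
      rw [hf]
      simp only
      rw [norm_mul, norm_norm, Real.norm_of_nonneg (by positivity)]
      have hpn : (0 : ℝ) < ((p ^ n : ℕ) : ℝ) := by
        exact_mod_cast pow_pos hp.pos n
      calc ‖D (p ^ n)‖ * ((p ^ n : ℕ) : ℝ) ^ (-(1 / 4) : ℝ)
          ≤ ((4 * C + 4) * ((p ^ n : ℕ) : ℝ) ^ (1 / 8 : ℝ)) * ((p ^ n : ℕ) : ℝ) ^ (-(1 / 4) : ℝ) :=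
            mul_le_mul_of_nonneg_right (hDb p hp n) (by positivity)
        _ = (4 * C + 4) * ((p ^ n : ℕ) : ℝ) ^ (-(1 / 8) : ℝ) := by
            rw [mul_assoc, ← Real.rpow_add hpn]
            norm_num
        _ = (4 * C + 4) * r ^ n := by
            rw [hr, Nat.cast_pow, ← Real.rpow_natCast, ← Real.rpow_natCast,
              ← Real.rpow_mul hp0.le, ← Real.rpow_mul hp0.le]
            ring_nf
    have h1 := (EulerProduct.summable_and_hasSum_factoredNumbers_prod_filter_prime_tsum hf1 hfm hfs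
      hB.toFinset).1
    have h2 : Summable (fun m : Nat.factoredNumbers hB.toFinset => f m) := h1.of_norm
    have h3 : ∀ n : ℕ, n ∉ Set.range (Subtype.val : Nat.factoredNumbers hB.toFinset → ℕ) → f n = 0 := by
      intro n hn
      rcases Nat.eq_zero_or_pos n with rfl | hn0
      · rw [hf]
        simp
      · have h4 : n ∉ Nat.factoredNumbers hB.toFinset := fun h => hn ⟨⟨n, h⟩, rfl⟩
        rw [Nat.mem_factoredNumbers] at h4
        push Not at h4
        obtain ⟨p, hp, hpB⟩ := h4 hn0.ne'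
        have hpp := Nat.prime_of_mem_primeFactorsList hp
        have hpd := Nat.dvd_of_mem_primeFactorsList hp
        have hpB' : p ∉ B := by
          intro h
          exact hpB (hB.mem_toFinset.mpr h)
        obtain ⟨j, m, hm, hnm⟩ := Nat.exists_eq_pow_mul_and_not_dvd hn0.ne' p hpp.ne_one
        have hj : j ≠ 0 := by
          rintro rfl
          rw [pow_zero, one_mul] at hnm
          exact hm (hnm ▸ hpd)
        obtain ⟨i, rfl⟩ := Nat.exists_eq_succ_of_ne_zero hj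
        have hcop : Nat.Coprime (p ^ (i.succ)) m :=
          Nat.Coprime.pow_left _ ((Nat.Prime.coprime_iff_not_dvd hpp).mpr hm)
        have : D n = 0 := by
          rw [hnm, hDm.2 hcop, Nat.succ_eq_add_one, hD0 p hpp hpB' i, zero_mul]
        rw [hf]
        simp [this]
    exact (Function.Injective.summable_iff Subtype.val_injective h3).mp h2
  refine ⟨D, ⟨ArithmeticFunction.map_zero, hDm.1, fun m n hmn => hDm.2 hmn, ?_, ?_, hsum, ?_⟩⟩
  · intro p hp
    rw [hD1 p hp, hgz]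
  · intro p hp k
    rw [hD2 p hp k, hgz]
  · intro s hs
    have hLa : LSeries a s = LSeries (fun n => fdAF a n) s :=
      LSeries_congr (fun {n} hn => (fdAF_apply a hn).symm) s
    have hLg : LSeries g s = LSeries (fun n => fdAF g n) s :=
      LSeries_congr (fun {n} hn => (fdAF_apply g hn).symm) s
    have hsg : LSeriesSummable g s := by
      rw [hg]
      exact Pool.Agent.H11.SC7.twist_summable χ τ s hs
    have hsg' : LSeriesSummable (fun n => fdAF g n) s :=
      (LSeriesSummable_congr s (fun {n} hn => (fdAF_apply g hn).symm)).1 hsg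
    have hsz : LSeriesSummable (fun n => Z n) s :=
      ArithmeticFunction.LSeriesSummable_zeta_iff.2 hs
    have hLz : LSeries (fun n => Z n) s = riemannZeta s :=
      ArithmeticFunction.LSeries_zeta_eq_riemannZeta hs
    have hsd : LSeriesSummable (fun n => D n) s := by
      refine Summable.of_norm_bounded hsum (fun n => ?_)
      rcases Nat.eq_zero_or_pos n with rfl | hn
      · simp
      · have hn1 : (1 : ℝ) ≤ n := by exact_mod_cast hn
        rw [LSeries.norm_term_eq, if_neg hn.ne', div_eq_mul_inv, ← Real.rpow_neg (by linarith)]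
        refine mul_le_mul_of_nonneg_left ?_ (norm_nonneg _)
        exact Real.rpow_le_rpow_of_exponent_le hn1 (by linarith)
    have hszg : LSeriesSummable (fun n => (Z * fdAF g) n) s :=
      ArithmeticFunction.LSeriesSummable_mul hsz hsg'
    rw [hLa, hfac, ArithmeticFunction.LSeries_mul' hszg hsd, ArithmeticFunction.LSeries_mul' hsz hsg',
      hLz, ← hLg, Pool.Agent.H11.SC7.twist_eq χ τ s hs, hg]

end Pool.Agent.H11.PC
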