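import Mathlib
import Pool.Agent.H11.PC.FDCO
import Pool.Agent.H11.SC7.ZetaO

/-!
# FCONT: the factorisation of `F` for `Re s > 1/4`

`G s = (s-1)^m F s` entire (`hS.continuation`); `K s = (s-1)² ζ(s) L(s + iτ, χ)` extends to an entire function (`zeta_cont` of
`H11/SC7/ZetaO.lean`; if `χ ≠ 1` `L` is entire, `DirichletCharacter.differentiable_LFunction`; if `N = 1`, `τ = 0`, `L(s + iτ, χ) = ζ(s)`,
`DirichletCharacter.LFunction_modOne_eq`).  `LSeries d` is analytic in `Re s > 1/4` (absolute convergence from `D.sum`: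
`LSeries.abscissaOfAbsConv ≤ 1/4`, `LSeries_analyticOnNhd`).  On the half plane `Re s > 1/4` (convex) the analytic functions
`(s-1)² G s` and `(s-1)^m K s LSeries d s` agree for `Re s > 1` (`hS.eq_LSeries`, `D.ser`), hence everywhere
(`AnalyticOnNhd.eqOn_of_preconnected_of_eventuallyEq`).  Divide by `(s-1)^(m+2)` for `s ≠ 1`.
`dense_line`: `s ↦ K s` is entire and not identically zero (`K 2 ≠ 0`), so its zeros are isolated
(`AnalyticOnNhd.eq_of_frequently_eq` or `AnalyticAt.eventually_eq_zero_or_eventually_ne_zero`), so the `t` with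
`ζ(1/2+it) L(1/2+it+iτ) = 0` contain no open interval.
-/

set_option autoImplicit false

namespace Pool.Agent.H11.PC

open Complex Filter Topology Pool.Agent.H11.Selberg

theorem fcont_K {N : ℕ} [NeZero N] (χ : DirichletCharacter ℂ N) (τ : ℝ)
    (hχ : χ ≠ 1 ∨ (N = 1 ∧ τ = 0)) : ∃ K : ℂ → ℂ, Differentiable ℂ K ∧
    ∀ s, s ≠ 1 → K s = (s - 1) ^ 2 * (riemannZeta s * χ.LFunction (s + τ * I)) := by
  obtain ⟨G, hG, -, hGs⟩ := SC7.zeta_cont
  rcases hχ with h | ⟨hN, hτ⟩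
  · refine ⟨fun s => (s - 1) * G s * χ.LFunction (s + τ * I), ?_, ?_⟩
    · have h1 := DirichletCharacter.differentiable_LFunction h
      have h2 : Differentiable ℂ fun s : ℂ => χ.LFunction (s + τ * I) :=
        h1.comp (differentiable_id.add_const _)
      exact ((differentiable_id.sub_const 1).mul hG).mul h2
    · intro s hs
      simp only
      rw [hGs s hs]
      ring
  · subst hN
    refine ⟨fun s => G s * G s, hG.mul hG, ?_⟩
    intro s hs
    simp only
    rw [hGs s hs, DirichletCharacter.LFunction_modOne_eq, hτ]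
    have e1 : s + ((0 : ℝ) : ℂ) * I = s := by simp
    rw [e1]
    ring

theorem fcont_an {d : ℕ → ℂ} (hsum : Summable (fun n : ℕ => ‖d n‖ * (n : ℝ) ^ (-(1 / 4) : ℝ))) :
    AnalyticOnNhd ℂ (LSeries d) {s : ℂ | 1 / 4 < s.re} := by
  have h1 : LSeriesSummable d ((1 / 4 : ℝ) : ℂ) := by
    unfold LSeriesSummable
    refine Summable.of_norm_bounded hsum fun n => ?_
    rw [LSeries.norm_term_eq]
    by_cases hn : n = 0
    · rw [if_pos hn]
      positivity
    · rw [if_neg hn, Complex.ofReal_re, Real.rpow_neg (Nat.cast_nonneg n), div_eq_mul_inv]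
  have h2 := h1.abscissaOfAbsConv_le
  refine (LSeries_analyticOnNhd d).mono fun s hs => ?_
  refine lt_of_le_of_lt h2 ?_
  rw [Complex.ofReal_re]
  exact_mod_cast hs

theorem fcont (a : ℕ → ℂ) (F : ℂ → ℂ) (hS : IsSelberg a F) {N : ℕ} [NeZero N]
    (χ : DirichletCharacter ℂ N) (τ : ℝ) (hχ : χ ≠ 1 ∨ (N = 1 ∧ τ = 0)) (d : ℕ → ℂ)
    (D : DC a χ τ d) (s : ℂ) (hs : 1 / 4 < s.re) (h1 : s ≠ 1) :
    F s = riemannZeta s * χ.LFunction (s + τ * I) * LSeries d s := by
  obtain ⟨m, G, hG, -, hGs⟩ := hS.continuation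
  obtain ⟨K, hK, hKs⟩ := fcont_K χ τ hχ
  have hU : IsPreconnected {s : ℂ | 1 / 4 < s.re} := (convex_halfSpace_re_gt (1 / 4)).isPreconnected
  have hA : AnalyticOnNhd ℂ (fun s => (s - 1) ^ 2 * G s) {s : ℂ | 1 / 4 < s.re} := by
    have : Differentiable ℂ fun s : ℂ => (s - 1) ^ 2 * G s :=
      ((differentiable_id.sub_const 1).pow 2).mul hG
    exact fun z _ => this.analyticAt z
  have hB : AnalyticOnNhd ℂ (fun s => (s - 1) ^ m * K s * LSeries d s) {s : ℂ | 1 / 4 < s.re} := by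
    have h2 : Differentiable ℂ fun s : ℂ => (s - 1) ^ m * K s :=
      ((differentiable_id.sub_const 1).pow m).mul hK
    exact fun z hz => (h2.analyticAt z).mul (fcont_an D.sum z hz)
  have h3 : (fun s => (s - 1) ^ 2 * G s) =ᶠ[𝓝 (2 : ℂ)] fun s => (s - 1) ^ m * K s * LSeries d s := by
    have h4 : {s : ℂ | 1 < s.re} ∈ 𝓝 (2 : ℂ) := by
      refine (isOpen_lt continuous_const Complex.continuous_re).mem_nhds ?_
      norm_num
    filter_upwards [h4] with z hz
    have hz1 : z ≠ 1 := by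
      rintro rfl
      have hz' : 1 < (1 : ℂ).re := hz
      norm_num at hz'
    rw [hGs z hz1, hKs z hz1, hS.eq_LSeries z hz, D.ser z hz]
    ring
  have h5 := hA.eqOn_of_preconnected_of_eventuallyEq hB hU
    (show (2 : ℂ) ∈ {s : ℂ | 1 / 4 < s.re} by
      show (1 / 4 : ℝ) < (2 : ℂ).re
      norm_num) h3
  have h6 := h5 hs
  simp only at h6
  rw [hGs s h1, hKs s h1] at h6
  have h7 : (s - 1) ^ (m + 2) ≠ 0 := pow_ne_zero _ (sub_ne_zero.2 h1)
  apply mul_left_cancel₀ h7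
  rw [pow_add]
  linear_combination h6

theorem dense_line {N : ℕ} [NeZero N] (χ : DirichletCharacter ℂ N) (τ : ℝ)
    (hχ : χ ≠ 1 ∨ (N = 1 ∧ τ = 0)) :
    Dense {t : ℝ | riemannZeta (1 / 2 + t * I) ≠ 0 ∧ χ.LFunction (1 / 2 + t * I + τ * I) ≠ 0} := by
  obtain ⟨K, hK, hKs⟩ := fcont_K χ τ hχ
  have hne : ∀ t : ℝ, (1 / 2 + t * I : ℂ) ≠ 1 := by
    intro t h
    have := congrArg Complex.re h
    norm_num at this
  have hsub : {t : ℝ | K (1 / 2 + t * I) ≠ 0} ⊆
      {t : ℝ | riemannZeta (1 / 2 + t * I) ≠ 0 ∧ χ.LFunction (1 / 2 + t * I + τ * I) ≠ 0} := by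
    intro t ht
    have h1 : K (1 / 2 + t * I) ≠ 0 := ht
    rw [hKs _ (hne t)] at h1
    have h2 := right_ne_zero_of_mul h1
    exact ⟨left_ne_zero_of_mul h2, right_ne_zero_of_mul h2⟩
  refine Dense.mono hsub ?_
  rw [dense_iff_inter_open]
  intro U hU hUne
  by_contra hcon
  rw [Set.not_nonempty_iff_eq_empty] at hcon
  have hz : ∀ t ∈ U, K (1 / 2 + t * I) = 0 := by
    intro t ht
    by_contra h
    have : t ∈ U ∩ {t : ℝ | K (1 / 2 + t * I) ≠ 0} := ⟨ht, h⟩
    rw [hcon] at this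
    exact this
  obtain ⟨t0, ht0⟩ := hUne
  have hcont : Continuous fun t : ℝ => (1 / 2 + t * I : ℂ) := by fun_prop
  have hinj : Function.Injective fun t : ℝ => (1 / 2 + t * I : ℂ) := by
    intro t t' h
    have := congrArg Complex.im h
    simpa using this
  have htend : Tendsto (fun t : ℝ => (1 / 2 + t * I : ℂ)) (𝓝[≠] t0) (𝓝[≠] (1 / 2 + t0 * I)) := by
    refine tendsto_nhdsWithin_of_tendsto_nhds_of_eventually_within _
      (hcont.continuousAt.tendsto.mono_left nhdsWithin_le_nhds) ?_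
    filter_upwards [self_mem_nhdsWithin] with t ht
    exact fun h => ht (hinj h)
  have hev : ∀ᶠ t in 𝓝[≠] t0, K (1 / 2 + (t : ℝ) * I) = (0 : ℂ → ℂ) (1 / 2 + (t : ℝ) * I) := by
    have h0 : U ∈ 𝓝[≠] t0 := mem_nhdsWithin_of_mem_nhds (hU.mem_nhds ht0)
    filter_upwards [h0] with t ht
    exact hz t ht
  have hfreq : ∃ᶠ z in 𝓝[≠] (1 / 2 + t0 * I : ℂ), K z = (0 : ℂ → ℂ) z := htend.frequently hev.frequently
  have hKan : AnalyticOnNhd ℂ K Set.univ := fun z _ => hK.analyticAt z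
  have h0an : AnalyticOnNhd ℂ (0 : ℂ → ℂ) Set.univ := fun z _ => analyticAt_const
  have hK0 : K = 0 := hKan.eq_of_frequently_eq h0an hfreq
  have h2 := hKs 2 (by norm_num)
  rw [hK0] at h2
  have h3 : riemannZeta 2 ≠ 0 := riemannZeta_ne_zero_of_one_le_re (by norm_num)
  have h4 : χ.LFunction (2 + τ * I) ≠ 0 := by
    apply DirichletCharacter.LFunction_ne_zero_of_one_le_re
    · right
      intro h
      have := congrArg Complex.re h
      norm_num at this
    · norm_num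
  have h5 : ((2 : ℂ) - 1) ^ 2 * (riemannZeta 2 * χ.LFunction (2 + τ * I)) ≠ 0 := by
    refine mul_ne_zero ?_ (mul_ne_zero h3 h4)
    norm_num
  exact h5 h2.symm

end Pool.Agent.H11.PC
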