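import Mathlib

/-!
# FCRA: comparison of three functional equations on the critical line

At a point `t` with `f2 t ≠ 0`, `f3 t ≠ 0`: from `c_i f_i = ε_i conj(c_i f_i)`, `f1 = f2 f3 P`:
`P = f1/(f2 f3) = (ε1/(ε2 ε3)) (q1/(q2 q3)) conj P`, `q_i = conj(c_i)/c_i` (`conj f1/(conj f2 conj f3) = conj P`).  Both sides are
continuous in `t` (`c_i` continuous and nonzero), so the equation holds for all `t > 0` (density, `hd`).  `q_i e^(2i(Λ_i φ + A_i t + κ_i log t)) →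
C_i`, `φ = t log t - t`, `Λ1 = Λ2 + Λ3`: `q1/(q2 q3) = (C + o(1)) e^(-2i((A1-A2-A3) t + (κ1-κ2-κ3) log t))`, `C = C1/(C2 C3)`, and `conj P`
is bounded.
-/

set_option autoImplicit false

namespace Pool.Agent.H11.PC

open Complex Filter Topology

theorem compare (f1 f2 f3 P c1 c2 c3 : ℝ → ℂ) (hf1 : Continuous f1) (hf2 : Continuous f2)
    (hf3 : Continuous f3) (hP : Continuous P) (hc1 : Continuous c1) (hc2 : Continuous c2)
    (hc3 : Continuous c3) (n1 : ∀ t, c1 t ≠ 0) (n2 : ∀ t, c2 t ≠ 0) (n3 : ∀ t, c3 t ≠ 0)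
    (ε1 ε2 ε3 : ℂ) (he1 : ‖ε1‖ = 1) (he2 : ‖ε2‖ = 1) (he3 : ‖ε3‖ = 1)
    (e1 : ∀ t, c1 t * f1 t = ε1 * (starRingEnd ℂ) (c1 t * f1 t))
    (e2 : ∀ t, c2 t * f2 t = ε2 * (starRingEnd ℂ) (c2 t * f2 t))
    (e3 : ∀ t, c3 t * f3 t = ε3 * (starRingEnd ℂ) (c3 t * f3 t))
    (hf : ∀ t, f1 t = f2 t * f3 t * P t) (hd : Dense {t : ℝ | f2 t ≠ 0 ∧ f3 t ≠ 0})
    (K : ℝ) (hK : ∀ t, ‖P t‖ ≤ K) (L1 L2 L3 A1 A2 A3 k1 k2 k3 : ℝ) (hL : L1 = L2 + L3)
    (C1 C2 C3 : ℂ) (hC1 : ‖C1‖ = 1) (hC2 : ‖C2‖ = 1) (hC3 : ‖C3‖ = 1)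
    (p1 : Tendsto (fun t : ℝ => (starRingEnd ℂ) (c1 t) / c1 t *
      cexp (((2 * (L1 * (t * Real.log t - t) + A1 * t + k1 * Real.log t) : ℝ) : ℂ) * I)) atTop (𝓝 C1))
    (p2 : Tendsto (fun t : ℝ => (starRingEnd ℂ) (c2 t) / c2 t *
      cexp (((2 * (L2 * (t * Real.log t - t) + A2 * t + k2 * Real.log t) : ℝ) : ℂ) * I)) atTop (𝓝 C2))
    (p3 : Tendsto (fun t : ℝ => (starRingEnd ℂ) (c3 t) / c3 t *
      cexp (((2 * (L3 * (t * Real.log t - t) + A3 * t + k3 * Real.log t) : ℝ) : ℂ) * I)) atTop (𝓝 C3)) :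
    ∃ (ω0 : ℂ) (A κ : ℝ), Tendsto (fun t : ℝ => P t -
      ω0 * cexp (((A * t + κ * Real.log t : ℝ) : ℂ) * I) * (starRingEnd ℂ) (P t)) atTop (𝓝 0) := by
  have hKn : 0 ≤ K := (norm_nonneg _).trans (hK 0)
  obtain ⟨q1, hq1⟩ : ∃ q : ℝ → ℂ, q = fun t => (starRingEnd ℂ) (c1 t) / c1 t := ⟨_, rfl⟩
  obtain ⟨q2, hq2⟩ : ∃ q : ℝ → ℂ, q = fun t => (starRingEnd ℂ) (c2 t) / c2 t := ⟨_, rfl⟩
  obtain ⟨q3, hq3⟩ : ∃ q : ℝ → ℂ, q = fun t => (starRingEnd ℂ) (c3 t) / c3 t := ⟨_, rfl⟩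
  have hg : ∀ (c : ℝ → ℂ) (_ : ∀ t, c t ≠ 0) (t : ℝ),
      ‖(starRingEnd ℂ) (c t) / c t‖ = 1 := by
    intro c hc t
    rw [norm_div, RCLike.norm_conj, div_self (norm_ne_zero_iff.2 (hc t))]
  have hq1n : ∀ t, ‖q1 t‖ = 1 := fun t => by rw [hq1]; exact hg c1 n1 t
  have hq2n : ∀ t, ‖q2 t‖ = 1 := fun t => by rw [hq2]; exact hg c2 n2 t
  have hq3n : ∀ t, ‖q3 t‖ = 1 := fun t => by rw [hq3]; exact hg c3 n3 t
  have hq1c : Continuous q1 := by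
    rw [hq1]
    exact (Complex.continuous_conj.comp hc1).div hc1 n1
  have hq2c : Continuous q2 := by
    rw [hq2]
    exact (Complex.continuous_conj.comp hc2).div hc2 n2
  have hq3c : Continuous q3 := by
    rw [hq3]
    exact (Complex.continuous_conj.comp hc3).div hc3 n3
  -- the functional equations
  have hfe : ∀ (c f : ℝ → ℂ) (ε : ℂ) (_ : ∀ t, c t ≠ 0)
      (_ : ∀ t, c t * f t = ε * (starRingEnd ℂ) (c t * f t)) (t : ℝ),
      f t = ε * ((starRingEnd ℂ) (c t) / c t) * (starRingEnd ℂ) (f t) := by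
    intro c f ε hc h t
    have h1 := h t
    rw [map_mul] at h1
    have h2 := hc t
    field_simp
    rw [mul_comm (f t) (c t), h1]
    ring
  have g1 : ∀ t, f1 t = ε1 * q1 t * (starRingEnd ℂ) (f1 t) := fun t => by
    rw [hq1]; exact hfe c1 f1 ε1 n1 e1 t
  have g2 : ∀ t, f2 t = ε2 * q2 t * (starRingEnd ℂ) (f2 t) := fun t => by
    rw [hq2]; exact hfe c2 f2 ε2 n2 e2 t
  have g3 : ∀ t, f3 t = ε3 * q3 t * (starRingEnd ℂ) (f3 t) := fun t => by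
    rw [hq3]; exact hfe c3 f3 ε3 n3 e3 t
  have key : (fun t => ε2 * ε3 * (q2 t * q3 t) * P t) =
      fun t => ε1 * q1 t * (starRingEnd ℂ) (P t) := by
    refine Continuous.ext_on hd ?_ ?_ ?_
    · exact (continuous_const.mul (hq2c.mul hq3c)).mul hP
    · exact (continuous_const.mul hq1c).mul (Complex.continuous_conj.comp hP)
    · intro t ht
      obtain ⟨ht2, ht3⟩ := ht
      have h2 : (starRingEnd ℂ) (f2 t) ≠ 0 := by
        rw [Ne, map_eq_zero]; exact ht2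
      have h3 : (starRingEnd ℂ) (f3 t) ≠ 0 := by
        rw [Ne, map_eq_zero]; exact ht3
      have h4 : f2 t * f3 t * P t = ε1 * q1 t * (starRingEnd ℂ) (f2 t * f3 t * P t) := by
        rw [← hf]; exact g1 t
      rw [map_mul, map_mul] at h4
      have h5 : f2 t * f3 t = ε2 * q2 t * (starRingEnd ℂ) (f2 t) *
          (ε3 * q3 t * (starRingEnd ℂ) (f3 t)) := by
        rw [← g2, ← g3]
      rw [h5] at h4
      have h6 : (starRingEnd ℂ) (f2 t) * (starRingEnd ℂ) (f3 t) ≠ 0 := mul_ne_zero h2 h3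
      apply mul_left_cancel₀ h6
      show (starRingEnd ℂ) (f2 t) * (starRingEnd ℂ) (f3 t) * (ε2 * ε3 * (q2 t * q3 t) * P t) =
        (starRingEnd ℂ) (f2 t) * (starRingEnd ℂ) (f3 t) * (ε1 * q1 t * (starRingEnd ℂ) (P t))
      linear_combination h4
  have key' : ∀ t, ε2 * ε3 * (q2 t * q3 t) * P t = ε1 * q1 t * (starRingEnd ℂ) (P t) :=
    fun t => congrFun key t
  -- phases
  obtain ⟨T1, hT1⟩ : ∃ T : ℝ → ℝ, T = fun t =>
    2 * (L1 * (t * Real.log t - t) + A1 * t + k1 * Real.log t) := ⟨_, rfl⟩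
  obtain ⟨T2, hT2⟩ : ∃ T : ℝ → ℝ, T = fun t =>
    2 * (L2 * (t * Real.log t - t) + A2 * t + k2 * Real.log t) := ⟨_, rfl⟩
  obtain ⟨T3, hT3⟩ : ∃ T : ℝ → ℝ, T = fun t =>
    2 * (L3 * (t * Real.log t - t) + A3 * t + k3 * Real.log t) := ⟨_, rfl⟩
  have p1' : Tendsto (fun t => q1 t * cexp ((T1 t : ℂ) * I)) atTop (𝓝 C1) := by
    rw [hq1, hT1]; exact p1
  have p2' : Tendsto (fun t => q2 t * cexp ((T2 t : ℂ) * I)) atTop (𝓝 C2) := by
    rw [hq2, hT2]; exact p2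
  have p3' : Tendsto (fun t => q3 t * cexp ((T3 t : ℂ) * I)) atTop (𝓝 C3) := by
    rw [hq3, hT3]; exact p3
  have hC2' : C2 ≠ 0 := by
    intro h; rw [h, norm_zero] at hC2; exact zero_ne_one hC2
  have hC3' : C3 ≠ 0 := by
    intro h; rw [h, norm_zero] at hC3; exact zero_ne_one hC3
  have he2' : ε2 ≠ 0 := by
    intro h; rw [h, norm_zero] at he2; exact zero_ne_one he2
  have he3' : ε3 ≠ 0 := by
    intro h; rw [h, norm_zero] at he3; exact zero_ne_one he3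
  have hR : Tendsto (fun t => (q1 t * cexp ((T1 t : ℂ) * I)) /
      ((q2 t * cexp ((T2 t : ℂ) * I)) * (q3 t * cexp ((T3 t : ℂ) * I)))) atTop
      (𝓝 (C1 / (C2 * C3))) := p1'.div (p2'.mul p3') (mul_ne_zero hC2' hC3')
  refine ⟨ε1 / (ε2 * ε3) * (C1 / (C2 * C3)), -2 * (A1 - A2 - A3), -2 * (k1 - k2 - k3), ?_⟩
  have hlim : Tendsto (fun t => ‖(q1 t * cexp ((T1 t : ℂ) * I)) /
      ((q2 t * cexp ((T2 t : ℂ) * I)) * (q3 t * cexp ((T3 t : ℂ) * I))) - C1 / (C2 * C3)‖ * K)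
      atTop (𝓝 0) := by
    have h1 := (hR.sub_const (C1 / (C2 * C3))).norm.mul_const K
    rwa [sub_self, norm_zero, zero_mul] at h1
  refine squeeze_zero_norm (fun t => ?_) hlim
  have hq2' : q2 t ≠ 0 := by
    intro h; have := hq2n t; rw [h, norm_zero] at this; exact zero_ne_one this
  have hq3' : q3 t ≠ 0 := by
    intro h; have := hq3n t; rw [h, norm_zero] at this; exact zero_ne_one this
  have hPt : P t = ε1 / (ε2 * ε3) * (q1 t / (q2 t * q3 t)) * (starRingEnd ℂ) (P t) := by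
    have h1 := key' t
    field_simp
    linear_combination h1
  have hph : q1 t / (q2 t * q3 t) = (q1 t * cexp ((T1 t : ℂ) * I)) /
      ((q2 t * cexp ((T2 t : ℂ) * I)) * (q3 t * cexp ((T3 t : ℂ) * I))) *
      cexp (((-2 * (A1 - A2 - A3) * t + -2 * (k1 - k2 - k3) * Real.log t : ℝ) : ℂ) * I) := by
    have h1 : cexp (((-2 * (A1 - A2 - A3) * t + -2 * (k1 - k2 - k3) * Real.log t : ℝ) : ℂ) * I) *
        cexp ((T1 t : ℂ) * I) = cexp ((T2 t : ℂ) * I) * cexp ((T3 t : ℂ) * I) := by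
      rw [← Complex.exp_add, ← Complex.exp_add, ← add_mul, ← add_mul, ← ofReal_add, ← ofReal_add]
      congr 3
      rw [hT1, hT2, hT3, hL]
      ring
    have h2 := Complex.exp_ne_zero ((T2 t : ℂ) * I)
    have h3 := Complex.exp_ne_zero ((T3 t : ℂ) * I)
    rw [div_mul_eq_mul_div, div_eq_div_iff (mul_ne_zero hq2' hq3')
      (mul_ne_zero (mul_ne_zero hq2' h2) (mul_ne_zero hq3' h3))]
    linear_combination (-(q1 t * q2 t * q3 t)) * h1
  have hE : ‖cexp (((-2 * (A1 - A2 - A3) * t + -2 * (k1 - k2 - k3) * Real.log t : ℝ) : ℂ) * I)‖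
      = 1 := Complex.norm_exp_ofReal_mul_I _
  generalize hEd : cexp (((-2 * (A1 - A2 - A3) * t + -2 * (k1 - k2 - k3) * Real.log t : ℝ) : ℂ) * I)
    = E at hE hph ⊢
  generalize hRd : (q1 t * cexp ((T1 t : ℂ) * I)) /
      ((q2 t * cexp ((T2 t : ℂ) * I)) * (q3 t * cexp ((T3 t : ℂ) * I))) = R at hph ⊢
  have hfin : P t - ε1 / (ε2 * ε3) * (C1 / (C2 * C3)) * E * (starRingEnd ℂ) (P t) =
      ε1 / (ε2 * ε3) * (R - C1 / (C2 * C3)) * E * (starRingEnd ℂ) (P t) := by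
    rw [hph] at hPt
    linear_combination hPt
  have h1 : (1 : ℝ) / (1 * 1) = 1 := by norm_num
  rw [hfin, norm_mul, norm_mul, norm_mul, norm_div, norm_mul, he1, he2, he3, hE, mul_one, h1,
    one_mul, RCLike.norm_conj]
  exact mul_le_mul_of_nonneg_left (hK t) (norm_nonneg _)

end Pool.Agent.H11.PC
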