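import Mathlib
import Pool.Agent.H11.SC.Stir2
import Pool.Agent.H11.SC.Stir3

/-!
# FPHASE: the phase of the Gamma factors on the critical line

`stirling_bound` (`H11/SC/Stir2.lean`) at `z_j = lam_j (1/2 + it) + mu_j = x_j + i y_j`, `x_j > 0` fixed, `y_j = lam_j t + ν_j`,
`ν_j = Im mu_j`, `t → ∞`: `Γ(z) = √(2π) exp((z - 1/2) log z - z + ρ)`, `ρ → 0`.  The imaginary part of the exponent is
`y log|z| + (x - 1/2) arg z - y + o(1)`; `log |z| = log y + O(1/y²)`, `arg z → π/2`,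
`y log y = (λt + ν)(log(λt) + ν/(λt) + O(t^(-2))) = λ t log t + λ t log λ + ν log t + ν log λ + ν + o(1)`.  So it is
`λ(t log t - t) + t λ log λ + ν log t + const + o(1)`.  With `Q^(1/2+it)` (phase `t log Q`):
`arg cF = Λ(t log t - t) + A t + κ log t + const + o(1)`, `Λ = ∑ lam`, `A = log Q + ∑ λ log λ`, `κ = ∑ ν_j`.
For a complex number `c = |c| e^(iφ) ≠ 0` `conj c / c = e^(-2iφ)`.  (`cF ≠ 0`: `Γ` has no zeros.)
Suggestion: prove for one factor first (`conj(Γ z)/Γ z * exp(2i(...)) → const` of norm one), then multiply.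
-/

set_option autoImplicit false

namespace Pool.Agent.H11.PC

open Complex Filter Topology

/-- the factor `Q^s ∏ Γ(lam s + mu)` at `s = 1/2 + it` -/
noncomputable def cF (Q : ℝ) {r : ℕ} (lam : Fin r → ℝ) (mu : Fin r → ℂ) (t : ℝ) : ℂ :=
  (Q : ℂ) ^ (1 / 2 + t * I : ℂ) * ∏ j, Gamma ((lam j : ℂ) * (1 / 2 + t * I) + mu j)

open Pool.Agent.H11.SC in
private theorem fph_E (a : ℂ) :
    Tendsto (fun τ : ℝ => Gamma (τ * I + a) / SS a τ) atTop (𝓝 1) := by
  obtain ⟨C, T0, hT0, h⟩ := stirling_vert ‖a‖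
  rw [tendsto_iff_norm_sub_tendsto_zero]
  have h1 : Tendsto (fun τ : ℝ => ‖BB a‖ / τ + C / τ ^ 2) atTop (𝓝 0) := by
    have h2 : Tendsto (fun τ : ℝ => ‖BB a‖ / τ) atTop (𝓝 0) :=
      tendsto_const_nhds.div_atTop tendsto_id
    have h3 : Tendsto (fun τ : ℝ => C / τ ^ 2) atTop (𝓝 0) :=
      tendsto_const_nhds.div_atTop (tendsto_pow_atTop two_ne_zero)
    have h4 := h2.add h3
    rwa [add_zero] at h4
  refine squeeze_zero' (Eventually.of_forall fun τ => norm_nonneg _) ?_ h1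
  filter_upwards [eventually_ge_atTop T0] with τ hτ
  have hτ0 : 0 < τ := lt_of_lt_of_le hT0 hτ
  obtain ⟨r, hr1, hr2⟩ := h a le_rfl τ hτ
  have hS : SS a τ ≠ 0 := by
    unfold SS
    refine mul_ne_zero ?_ (Complex.exp_ne_zero _)
    have : 0 < Real.sqrt (2 * Real.pi) := Real.sqrt_pos.2 (by positivity)
    exact_mod_cast this.ne'
  rw [hr1, mul_div_cancel_left₀ _ hS]
  have h5 : (1 - BB a * I / τ + r) - 1 = -(BB a * I / τ) + r := by ring
  rw [h5]
  refine (norm_add_le _ _).trans (add_le_add ?_ hr2)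
  rw [norm_neg, norm_div, norm_mul, Complex.norm_I, mul_one, Complex.norm_real, Real.norm_eq_abs,
    abs_of_pos hτ0]

open Pool.Agent.H11.SC in
private theorem fph_SS_ne (a : ℂ) (τ : ℝ) : SS a τ ≠ 0 := by
  unfold SS
  refine mul_ne_zero ?_ (Complex.exp_ne_zero _)
  have : 0 < Real.sqrt (2 * Real.pi) := Real.sqrt_pos.2 (by positivity)
  exact_mod_cast this.ne'

private theorem fph_exp (X : ℂ) :
    (starRingEnd ℂ) (cexp X) / cexp X = cexp (((-2 * X.im : ℝ) : ℂ) * I) := by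
  rw [← Complex.exp_conj, ← Complex.exp_sub]
  congr 1
  have h1 := Complex.sub_conj X
  have h2 : (starRingEnd ℂ) X - X = -(X - (starRingEnd ℂ) X) := by ring
  rw [h2, h1]
  push_cast
  ring

open Pool.Agent.H11.SC in
private theorem fph_SS (a : ℂ) (τ : ℝ) : (starRingEnd ℂ) (SS a τ) / SS a τ =
    cexp (((-2 * ((a.re - 1 / 2) * (Real.pi / 2) + (τ + a.im) * Real.log τ - τ) : ℝ) : ℂ) * I) := by
  unfold SS
  have hc : ((Real.sqrt (2 * Real.pi) : ℝ) : ℂ) ≠ 0 := by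
    have : 0 < Real.sqrt (2 * Real.pi) := Real.sqrt_pos.2 (by positivity)
    exact_mod_cast this.ne'
  rw [map_mul, Complex.conj_ofReal, mul_div_mul_left _ _ hc, fph_exp]
  congr 4
  simp only [sub_im, mul_im, add_im, mul_re, add_re, sub_re, ofReal_re, ofReal_im, I_re, I_im,
    one_re, one_im, div_ofNat_re, div_ofNat_im]
  ring

private theorem fph_one (l : ℝ) (mu : ℂ) (hl : 0 < l) : Tendsto (fun t : ℝ =>
    (starRingEnd ℂ) (Gamma ((l : ℂ) * (1 / 2 + t * I) + mu)) /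
      Gamma ((l : ℂ) * (1 / 2 + t * I) + mu) *
      cexp (((2 * (l * (t * Real.log t - t) + l * Real.log l * t + mu.im * Real.log t) : ℝ) : ℂ) * I))
    atTop (𝓝 (cexp (((-2 * (mu.im * Real.log l + (l / 2 + mu.re - 1 / 2) * (Real.pi / 2)) : ℝ) : ℂ)
      * I))) := by
  set a : ℂ := ((l / 2 : ℝ) : ℂ) + mu with ha
  have hre : a.re = l / 2 + mu.re := by rw [ha, add_re, ofReal_re]
  have him : a.im = mu.im := by rw [ha, add_im, ofReal_im, zero_add]
  have hE := (fph_E a).comp (tendsto_id.const_mul_atTop hl)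
  have hU : Tendsto (fun t : ℝ =>
      (starRingEnd ℂ) (Gamma (((l * t : ℝ) : ℂ) * I + a) / Pool.Agent.H11.SC.SS a (l * t)) /
        (Gamma (((l * t : ℝ) : ℂ) * I + a) / Pool.Agent.H11.SC.SS a (l * t))) atTop (𝓝 1) := by
    have h1 : Tendsto (fun t : ℝ =>
      (starRingEnd ℂ) (Gamma (((l * t : ℝ) : ℂ) * I + a) / Pool.Agent.H11.SC.SS a (l * t)))
        atTop (𝓝 ((starRingEnd ℂ) 1)) :=
      (Complex.continuous_conj.tendsto 1).comp hE
    have h2 := h1.div hE one_ne_zero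
    rw [map_one, div_one] at h2
    exact h2
  have h3 := hU.mul_const (cexp (((-2 * (mu.im * Real.log l +
    (l / 2 + mu.re - 1 / 2) * (Real.pi / 2)) : ℝ) : ℂ) * I))
  rw [one_mul] at h3
  refine h3.congr' ?_
  filter_upwards [eventually_gt_atTop 0] with t ht
  have h4 : (l : ℂ) * (1 / 2 + t * I) + mu = ((l * t : ℝ) : ℂ) * I + a := by
    rw [ha]
    push_cast
    ring
  rw [h4]
  have hS := fph_SS_ne a (l * t)
  have hSc : (starRingEnd ℂ) (Pool.Agent.H11.SC.SS a (l * t)) ≠ 0 :=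
    (map_ne_zero _).2 hS
  have h5 : cexp (((-2 * (mu.im * Real.log l + (l / 2 + mu.re - 1 / 2) * (Real.pi / 2)) : ℝ) : ℂ)
      * I) = (starRingEnd ℂ) (Pool.Agent.H11.SC.SS a (l * t)) / Pool.Agent.H11.SC.SS a (l * t) *
      cexp (((2 * (l * (t * Real.log t - t) + l * Real.log l * t + mu.im * Real.log t) : ℝ) : ℂ)
        * I) := by
    rw [fph_SS, ← Complex.exp_add, ← add_mul, ← ofReal_add, hre, him, Real.log_mul hl.ne' ht.ne']
    congr 3
    ring
  rw [h5, map_div₀]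
  by_cases hG : Gamma (((l * t : ℝ) : ℂ) * I + a) = 0
  · rw [hG]
    simp
  · field_simp

theorem cF_ne (Q : ℝ) (hQ : 0 < Q) {r : ℕ} (lam : Fin r → ℝ) (mu : Fin r → ℂ)
    (hlam : ∀ j, 0 < lam j) (hmu : ∀ j, 0 ≤ (mu j).re) (t : ℝ) : cF Q lam mu t ≠ 0 := by
  unfold cF
  refine mul_ne_zero ?_ (Finset.prod_ne_zero_iff.2 fun j _ => ?_)
  · rw [Ne, Complex.cpow_eq_zero_iff]
    rintro ⟨h, -⟩
    exact hQ.ne' (by exact_mod_cast h)
  · apply Complex.Gamma_ne_zero_of_re_pos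
    have h1 : ((lam j : ℂ) * (1 / 2 + t * I) + mu j).re = lam j / 2 + (mu j).re := by
      simp only [add_re, mul_re, ofReal_re, ofReal_im, I_re, I_im, one_re, div_ofNat_re]
      ring
    rw [h1]
    linarith [hlam j, hmu j]

theorem cF_cont (Q : ℝ) (hQ : 0 < Q) {r : ℕ} (lam : Fin r → ℝ) (mu : Fin r → ℂ)
    (hlam : ∀ j, 0 < lam j) (hmu : ∀ j, 0 ≤ (mu j).re) : Continuous (cF Q lam mu) := by
  unfold cF
  refine Continuous.mul ?_ (continuous_finset_prod _ fun j _ => ?_)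
  · refine Continuous.const_cpow (by fun_prop) (Or.inl ?_)
    exact_mod_cast hQ.ne'
  · rw [continuous_iff_continuousAt]
    intro t
    have h1 : ((lam j : ℂ) * (1 / 2 + t * I) + mu j).re = lam j / 2 + (mu j).re := by
      simp only [add_re, mul_re, ofReal_re, ofReal_im, I_re, I_im, one_re, div_ofNat_re]
      ring
    have h2 : 0 < ((lam j : ℂ) * (1 / 2 + t * I) + mu j).re := by
      rw [h1]
      linarith [hlam j, hmu j]
    have h3 : ContinuousAt Gamma ((lam j : ℂ) * (1 / 2 + t * I) + mu j) := by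
      refine (Complex.differentiableAt_Gamma _ fun m h => ?_).continuousAt
      rw [h] at h2
      simp only [neg_re, natCast_re] at h2
      have : (0 : ℝ) ≤ m := Nat.cast_nonneg m
      linarith
    have h4 : ContinuousAt (fun t : ℝ => (lam j : ℂ) * (1 / 2 + t * I) + mu j) t := by
      fun_prop
    exact ContinuousAt.comp (f := fun t : ℝ => (lam j : ℂ) * (1 / 2 + t * I) + mu j) h3 h4

theorem phase (Q : ℝ) (hQ : 0 < Q) {r : ℕ} (lam : Fin r → ℝ) (mu : Fin r → ℂ)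
    (hlam : ∀ j, 0 < lam j) (hmu : ∀ j, 0 ≤ (mu j).re) :
    ∃ (C0 : ℂ) (A κ : ℝ), ‖C0‖ = 1 ∧ Tendsto (fun t : ℝ =>
      (starRingEnd ℂ) (cF Q lam mu t) / cF Q lam mu t *
        cexp (((2 * ((∑ j, lam j) * (t * Real.log t - t) + A * t + κ * Real.log t) : ℝ) : ℂ) * I))
      atTop (𝓝 C0) := by
  refine ⟨∏ j, cexp (((-2 * ((mu j).im * Real.log (lam j) +
    (lam j / 2 + (mu j).re - 1 / 2) * (Real.pi / 2)) : ℝ) : ℂ) * I),
    Real.log Q + ∑ j, lam j * Real.log (lam j), ∑ j, (mu j).im, ?_, ?_⟩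
  · rw [norm_prod]
    exact Finset.prod_eq_one fun j _ => Complex.norm_exp_ofReal_mul_I _
  · have h1 := tendsto_finset_prod Finset.univ (fun j _ => fph_one (lam j) (mu j) (hlam j))
    refine h1.congr fun t => ?_
    unfold cF
    rw [Finset.prod_mul_distrib, ← Complex.exp_sum, Finset.prod_div_distrib]
    have hQc : (Q : ℂ) ≠ 0 := by exact_mod_cast hQ.ne'
    have h2 : (starRingEnd ℂ) ((Q : ℂ) ^ (1 / 2 + t * I : ℂ)) / (Q : ℂ) ^ (1 / 2 + t * I : ℂ) =
        cexp (((-2 * (t * Real.log Q) : ℝ) : ℂ) * I) := by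
      rw [Complex.cpow_def_of_ne_zero hQc, fph_exp, ← Complex.ofReal_log hQ.le]
      congr 4
      simp only [mul_im, add_im, ofReal_re, ofReal_im, add_re, mul_re, I_re, I_im, one_im,
        div_ofNat_im]
      ring
    rw [map_mul, map_prod, mul_div_mul_comm, h2, mul_comm (cexp _) (_ / _), mul_assoc,
      ← Complex.exp_add, ← add_mul, ← ofReal_add]
    congr 2
    rw [← Finset.sum_mul, ← ofReal_sum]
    congr 2
    rw [← Finset.mul_sum, Finset.sum_add_distrib, Finset.sum_add_distrib, ← Finset.sum_mul,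
      ← Finset.sum_mul, ← Finset.sum_mul]
    ring

end Pool.Agent.H11.PC
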