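import Mathlib
import Pool.Agent.H11.PC.FDCO
import Pool.Agent.H39.Pol.LocP

/-!
# FLOC: the local polynomial is trivial

Let `c n = d n n^(-1/2)` satisfy the conclusion of `ap_rigid` with `D0`.  `p` prime, `D0 = p^k D'`, `p ∤ D'`.
`n = 1`: `1 = ω0 conj(c D0)`; `n = D0`: `c D0 = ω0 conj(c 1) = ω0`; so `‖ω0‖ = 1`, `‖c D0‖ = 1`; `n = p^k`:
`c(p^k) = ω0 conj(c D')`, and `c D0 = c(p^k) c(D')` (`D.mul`), so `‖c(p^k)‖ = ‖c D'‖` and their product is `1`: `‖d(p^k)‖ = p^(k/2)`.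
For `j > k` `p^j ∤ D0`, so `d(p^j) = 0`.  Suppose `k ≥ 1`.  The polynomial `f(X) = ∑_{j≤k} d(p^j) X^j` has constant term `1` and leading
coefficient `d(p^k)`, so the product of its `k` roots (over `ℂ`) has modulus `p^(-k/2)`
(`Polynomial.coeff_zero_eq_leadingCoeff_mul_prod_roots_of_splits` or `IsAlgClosed`, `Polynomial.prod_roots...`), so some root has
`‖X‖ ≤ p^(-1/2) < 1`.  But for `‖X‖ < 1`, `f(X) = ∑_j d(p^j) X^j = (1-X)(1-z_p X) ∑_k a(p^k) X^k` (`D.pr`, `D.pk`; `hS.ramanujan` for convergence), which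
is `≠ 0` for `‖X‖ ≤ p^(-1/2)` (`loc_ne`; `‖z_p‖ ≤ 1`).  Contradiction; so `k = 0` and `d(p^j) = 0` for all `j ≥ 1`.
Then `a(p) = 1 + z`, `a(p^(k+2)) = (1+z) a(p^(k+1)) - z a(p^k)`, so `a(p^k) = ∑_{i≤k} z^i` by induction.
-/

set_option autoImplicit false

namespace Pool.Agent.H11.PC

open Complex Filter Topology Pool.Agent.H11.Selberg

private theorem floc_prod (s : Multiset ℂ) (q : ℝ) (hq : 0 < q) (h : ∀ r ∈ s, q < ‖r‖) :
    q ^ s.card ≤ ‖s.prod‖ ∧ (0 < s.card → q ^ s.card < ‖s.prod‖) := by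
  induction s using Multiset.induction_on with
  | empty => simp
  | cons a s ih =>
    have ha := h a (Multiset.mem_cons_self a s)
    obtain ⟨h1, -⟩ := ih (fun r hr => h r (Multiset.mem_cons_of_mem hr))
    have h2 : q ^ (a ::ₘ s).card < ‖(a ::ₘ s).prod‖ := by
      rw [Multiset.card_cons, Multiset.prod_cons, norm_mul, pow_succ, mul_comm]
      exact mul_lt_mul ha h1 (by positivity) (norm_nonneg _)
    exact ⟨h2.le, fun _ => h2⟩

private theorem floc_root (e : ℕ → ℂ) (k : ℕ) (hk : 1 ≤ k) (he0 : e 0 = 1) (q : ℝ) (hq : 0 < q)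
    (hek : ‖e k‖ * q ^ k = 1) :
    ∃ X : ℂ, ‖X‖ ≤ q ∧ ∑ j ∈ Finset.range (k + 1), e j * X ^ j = 0 := by
  set f : Polynomial ℂ := ∑ j ∈ Finset.range (k + 1), Polynomial.C (e j) * Polynomial.X ^ j with hf
  have hc : ∀ i, f.coeff i = if i < k + 1 then e i else 0 := by
    intro i
    rw [hf, Polynomial.finsetSum_coeff]
    simp only [Polynomial.coeff_C_mul, Polynomial.coeff_X_pow, mul_ite, mul_one, mul_zero]
    rw [Finset.sum_ite_eq]
    simp only [Finset.mem_range]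
  have hek0 : e k ≠ 0 := by
    intro h
    rw [h] at hek
    simp at hek
  have hdeg : f.natDegree = k := by
    apply le_antisymm
    · rw [Polynomial.natDegree_le_iff_coeff_eq_zero]
      intro i hi
      rw [hc, if_neg (by omega)]
    · apply Polynomial.le_natDegree_of_ne_zero
      rw [hc, if_pos (by omega)]
      exact hek0
  have hlead : f.leadingCoeff = e k := by
    rw [Polynomial.leadingCoeff, hdeg, hc, if_pos (by omega)]
  have hsp : f.Splits := IsAlgClosed.splits f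
  have hcard : f.roots.card = k := by
    rw [← hdeg]
    exact (Polynomial.splits_iff_card_roots.1 hsp)
  have hprod := hsp.coeff_zero_eq_leadingCoeff_mul_prod_roots
  by_contra hcon
  push Not at hcon
  have hroots : ∀ r ∈ f.roots, q < ‖r‖ := by
    intro r hr
    by_contra h
    push Not at h
    apply hcon r h
    have := Polynomial.isRoot_of_mem_roots hr
    rw [Polynomial.IsRoot.def, hf, Polynomial.eval_finsetSum] at this
    simpa using this
  have h1 := (floc_prod f.roots q hq hroots).2 (by omega)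
  rw [hcard] at h1
  rw [hc, if_pos (by omega), he0, hlead, hdeg] at hprod
  have h2 : ‖e k‖ * ‖f.roots.prod‖ = 1 := by
    have := congrArg norm hprod
    rw [norm_mul, norm_mul, norm_pow, norm_neg, norm_one, one_pow, one_mul] at this
    exact this.symm
  have h3 : 0 < ‖e k‖ := norm_pos_iff.2 hek0
  have h4 := mul_lt_mul_of_pos_left h1 h3
  linarith

private theorem floc_series (a e : ℕ → ℂ) (z X : ℂ) (k : ℕ)
    (ha0 : a 0 = 1) (he0 : e 0 = 1) (he1 : e 1 = a 1 - (1 + z))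
    (he2 : ∀ j, e (j + 2) = a (j + 2) - (1 + z) * a (j + 1) + z * a j)
    (hz : ∀ j, k < j → e j = 0)
    (hs : Summable (fun j => a j * X ^ j)) :
    (1 - X) * (1 - z * X) * ∑' j, a j * X ^ j = ∑ j ∈ Finset.range (k + 1), e j * X ^ j := by
  have hz' : ∀ j ∉ Finset.range (k + 1), e j * X ^ j = 0 := by
    intro j hj
    rw [Finset.mem_range] at hj
    rw [hz j (by omega), zero_mul]
  have h1 : ∑' j, e j * X ^ j = ∑ j ∈ Finset.range (k + 1), e j * X ^ j := tsum_eq_sum hz'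
  have hse : Summable (fun j => e j * X ^ j) := summable_of_ne_finset_zero hz'
  have hs1 : Summable (fun j => a (j + 1) * X ^ (j + 1)) := (summable_nat_add_iff (f := fun j => a j * X ^ j) 1).2 hs
  have hs2 : Summable (fun j => a (j + 2) * X ^ (j + 2)) := (summable_nat_add_iff (f := fun j => a j * X ^ j) 2).2 hs
  have h2 := hse.sum_add_tsum_nat_add 2
  have h3 := hs.sum_add_tsum_nat_add 1
  have h4 := hs.sum_add_tsum_nat_add 2
  have h5 : ∑' j, e (j + 2) * X ^ (j + 2) = ∑' j, a (j + 2) * X ^ (j + 2) -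
      (1 + z) * X * ∑' j, a (j + 1) * X ^ (j + 1) + z * X ^ 2 * ∑' j, a j * X ^ j := by
    rw [← tsum_mul_left, ← tsum_mul_left, ← hs2.tsum_sub (hs1.mul_left _),
      ← (hs2.sub (hs1.mul_left _)).tsum_add (hs.mul_left _)]
    apply tsum_congr
    intro j
    rw [he2]
    ring
  rw [← h1, ← h2, h5]
  simp only [Finset.sum_range_succ, Finset.sum_range_zero, he0, he1, ha0, pow_zero, pow_one,
    mul_one, zero_add] at h3 h4 ⊢
  have h6 : ∑' j, a (j + 1) * X ^ (j + 1) = ∑' j, a j * X ^ j - 1 := by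
    rw [← h3]
    ring
  have h7 : ∑' j, a (j + 2) * X ^ (j + 2) = ∑' j, a j * X ^ j - (1 + a 1 * X) := by
    rw [← h4]
    ring
  rw [h6, h7]
  ring

private theorem floc_sum (a : ℕ → ℂ) (F : ℂ → ℂ) (h : IsSelberg a F) (p : ℕ) (hp : p.Prime) (X : ℂ)
    (hX : ‖X‖ ≤ (p : ℝ) ^ (-(1 / 2) : ℝ)) : Summable (fun k : ℕ => a (p ^ k) * X ^ k) := by
  have hp1 : (1 : ℝ) < p := by exact_mod_cast hp.one_lt
  have hp0 : (0 : ℝ) < p := by linarith
  obtain ⟨C, hC⟩ := h.ramanujan (1 / 4) (by norm_num)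
  have hC0 : 0 ≤ C := by
    have := hC 1 le_rfl
    simp only [Nat.cast_one, Real.one_rpow, mul_one] at this
    exact (norm_nonneg _).trans this
  have hXk : ∀ k : ℕ, ‖X‖ ^ k ≤ (p : ℝ) ^ (-((k : ℝ) / 2)) := by
    intro k
    have h1 : (p : ℝ) ^ (-((k : ℝ) / 2)) = ((p : ℝ) ^ (-(1 / 2) : ℝ)) ^ k := by
      rw [← Real.rpow_natCast, ← Real.rpow_mul hp0.le]
      congr 1
      ring
    rw [h1]
    exact pow_le_pow_left₀ (norm_nonneg _) hX k
  have s2 : Summable (fun k : ℕ => ‖a (p ^ k) * X ^ k‖) := by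
    set r : ℝ := (p : ℝ) ^ (-(1 / 4) : ℝ) with hr
    have hr0 : 0 ≤ r := by positivity
    have hr1 : r < 1 := Real.rpow_lt_one_of_one_lt_of_neg hp1 (by norm_num)
    refine Summable.of_nonneg_of_le (fun k => norm_nonneg _) (fun k => ?_)
      ((summable_geometric_of_lt_one hr0 hr1).mul_left C)
    rw [norm_mul, norm_pow]
    have h1 := hC (p ^ k) (Nat.one_le_pow _ _ hp.pos)
    have e1 : (((p ^ k : ℕ) : ℝ)) ^ (1 / 4 : ℝ) = (p : ℝ) ^ ((k : ℝ) / 4) := by
      push_cast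
      rw [← Real.rpow_natCast, ← Real.rpow_mul hp0.le]
      congr 1
      ring
    rw [e1] at h1
    have e2 : r ^ k = (p : ℝ) ^ ((k : ℝ) / 4) * (p : ℝ) ^ (-((k : ℝ) / 2)) := by
      rw [hr, ← Real.rpow_natCast, ← Real.rpow_mul hp0.le, ← Real.rpow_add hp0]
      congr 1
      ring
    calc ‖a (p ^ k)‖ * ‖X‖ ^ k ≤ (C * (p : ℝ) ^ ((k : ℝ) / 4)) * (p : ℝ) ^ (-((k : ℝ) / 2)) := by
          apply mul_le_mul h1 (hXk k) (by positivity) (by positivity)
      _ = C * r ^ k := by rw [e2]; ring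
  exact s2.of_norm

private theorem floc_norm_sq {u w : ℂ} (h : ‖u‖ = ‖w‖) (h2 : ‖u * w‖ = 1) : ‖u‖ = 1 := by
  rw [norm_mul, ← h] at h2
  have h0 := norm_nonneg u
  nlinarith

private theorem floc_zch {N : ℕ} [NeZero N] (χ : DirichletCharacter ℂ N) (τ : ℝ) (p : ℕ)
    (hp : 0 < p) : ‖zch χ τ p‖ ≤ 1 := by
  rw [zch, norm_mul, norm_natCast_cpow_of_pos hp]
  have h : (-((τ : ℂ) * I)).re = 0 := by simp
  rw [h, Real.rpow_zero, mul_one]
  exact DirichletCharacter.norm_le_one χ _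

theorem floc (a : ℕ → ℂ) (F : ℂ → ℂ) (hS : IsSelberg a F) {N : ℕ} [NeZero N]
    (χ : DirichletCharacter ℂ N) (τ : ℝ) (d : ℕ → ℂ) (D : DC a χ τ d) (ω0 : ℂ) (D0 : ℕ)
    (hD0 : 1 ≤ D0)
    (h1 : ∀ n : ℕ, 1 ≤ n → n ∣ D0 → d n * (n : ℂ) ^ (-(1 / 2) : ℂ) =
      ω0 * (starRingEnd ℂ) (d (D0 / n) * ((D0 / n : ℕ) : ℂ) ^ (-(1 / 2) : ℂ)))
    (h2 : ∀ n : ℕ, ¬ n ∣ D0 → d n * (n : ℂ) ^ (-(1 / 2) : ℂ) = 0) :
    ∀ p : ℕ, p.Prime → ∀ k : ℕ, a (p ^ k) = ∑ i ∈ Finset.range (k + 1), zch χ τ p ^ i := by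
  intro p hp
  have hp1 : (1 : ℝ) < p := by exact_mod_cast hp.one_lt
  have hp0 : (0 : ℝ) < p := by linarith
  obtain ⟨c, hc⟩ : ∃ c : ℕ → ℂ, c = fun n => d n * (n : ℂ) ^ (-(1 / 2) : ℂ) := ⟨_, rfl⟩
  have hc1 : ∀ n : ℕ, 1 ≤ n → n ∣ D0 → c n = ω0 * (starRingEnd ℂ) (c (D0 / n)) := by
    intro n hn hn'
    rw [hc]
    exact h1 n hn hn'
  have hc2 : ∀ n : ℕ, ¬ n ∣ D0 → c n = 0 := by
    intro n hn
    rw [hc]
    exact h2 n hn
  have hone : c 1 = 1 := by
    rw [hc]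
    simp [D.one]
  have hD : c D0 = ω0 := by
    have := hc1 D0 hD0 dvd_rfl
    rw [Nat.div_self (by omega), hone] at this
    simpa using this
  have hω : ‖ω0‖ = 1 := by
    have := hc1 1 le_rfl (one_dvd _)
    rw [Nat.div_one, hone, hD] at this
    have h3 := congrArg norm this
    rw [norm_mul, RCLike.norm_conj, norm_one] at h3
    have h0 := norm_nonneg ω0
    nlinarith
  have hmul : ∀ m n : ℕ, Nat.Coprime m n → c (m * n) = c m * c n := by
    intro m n hmn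
    rw [hc]
    show d (m * n) * ((m * n : ℕ) : ℂ) ^ (-(1 / 2) : ℂ) =
      d m * (m : ℂ) ^ (-(1 / 2) : ℂ) * (d n * (n : ℂ) ^ (-(1 / 2) : ℂ))
    rw [D.mul m n hmn, Nat.cast_mul, natCast_mul_natCast_cpow]
    ring
  obtain ⟨k, D', hD', hDk⟩ := Nat.exists_eq_pow_mul_and_not_dvd (n := D0) (by omega) p hp.ne_one
  have hcop : Nat.Coprime (p ^ k) D' := Nat.Coprime.pow_left _ ((Nat.Prime.coprime_iff_not_dvd hp).2 hD')
  have hpk : ‖c (p ^ k)‖ = 1 := by
    have h3 := hc1 (p ^ k) (Nat.one_le_pow _ _ hp.pos) ⟨D', hDk⟩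
    have h4 : D0 / p ^ k = D' := by
      rw [hDk]
      exact Nat.mul_div_cancel_left _ (pow_pos hp.pos k)
    rw [h4] at h3
    have h5 : ‖c (p ^ k)‖ = ‖c D'‖ := by
      rw [h3, norm_mul, RCLike.norm_conj, hω, one_mul]
    apply floc_norm_sq h5
    rw [← hmul _ _ hcop, ← hDk, hD, hω]
  obtain ⟨q, hq⟩ : ∃ q : ℝ, q = (p : ℝ) ^ (-(1 / 2) : ℝ) := ⟨_, rfl⟩
  have hq0 : 0 < q := by rw [hq]; positivity
  have hq1 : q < 1 := by
    rw [hq]
    exact Real.rpow_lt_one_of_one_lt_of_neg hp1 (by norm_num)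
  have hdpk : ‖d (p ^ k)‖ * q ^ k = 1 := by
    rw [hc] at hpk
    have h3 : ‖((p ^ k : ℕ) : ℂ) ^ (-(1 / 2) : ℂ)‖ = q ^ k := by
      rw [norm_natCast_cpow_of_pos (pow_pos hp.pos k), hq]
      have h4 : (-(1 / 2) : ℂ).re = -(1 / 2) := by norm_num
      rw [h4, ← Real.rpow_natCast, ← Real.rpow_mul hp0.le]
      push_cast
      rw [← Real.rpow_natCast, ← Real.rpow_mul hp0.le]
      congr 1
      ring
    rw [← h3, ← norm_mul]
    exact hpk
  have hbig : ∀ j : ℕ, k < j → d (p ^ j) = 0 := by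
    intro j hj
    have h3 : ¬ p ^ j ∣ D0 := by
      intro h4
      rw [hDk] at h4
      have h5 : p ^ (k + 1) ∣ p ^ k * D' := (pow_dvd_pow p hj).trans h4
      rw [pow_succ] at h5
      exact hD' (Nat.dvd_of_mul_dvd_mul_left (pow_pos hp.pos k) h5)
    have h4 := h2 _ h3
    rcases mul_eq_zero.1 h4 with h5 | h5
    · exact h5
    · exfalso
      have h6 : ((p ^ j : ℕ) : ℂ) ≠ 0 := by exact_mod_cast (pow_pos hp.pos j).ne'
      rw [cpow_eq_zero_iff] at h5
      exact h6 h5.1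
  have hk0 : k = 0 := by
    by_contra hkne
    obtain ⟨X, hX, hX0⟩ := floc_root (fun j => d (p ^ j)) k (by omega)
      (by rw [pow_zero]; exact D.one) q hq0 hdpk
    have hs := floc_sum a F hS p hp X (by rw [← hq]; exact hX)
    have h3 := floc_series (fun j => a (p ^ j)) (fun j => d (p ^ j)) (zch χ τ p) X k
      (by rw [pow_zero]; exact hS.one) (by rw [pow_zero]; exact D.one)
      (by rw [pow_one]; exact D.pr p hp) (fun j => D.pk p hp j) hbig hs
    rw [hX0] at h3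
    have h4 := Pool.Agent.H39.Pol.loc_ne a F hS p hp X (by rw [← hq]; exact hX)
    rcases mul_eq_zero.1 h3 with h5 | h5
    · rcases mul_eq_zero.1 h5 with h6 | h6
      · have h7 : X = 1 := by linear_combination -h6
        rw [h7, norm_one] at hX
        linarith
      · have h7 : zch χ τ p * X = 1 := by linear_combination -h6
        have h8 := congrArg norm h7
        rw [norm_mul, norm_one] at h8
        have h9 := floc_zch χ τ p hp.pos
        nlinarith [norm_nonneg X, norm_nonneg (zch χ τ p)]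
    · exact h4 h5
  have hd0 : ∀ j : ℕ, d (p ^ (j + 1)) = 0 := fun j => hbig _ (by omega)
  have ha1 : a (p ^ 1) = 1 + zch χ τ p := by
    have h3 := D.pr p hp
    have h4 := hd0 0
    rw [zero_add, pow_one] at h4
    rw [h4] at h3
    rw [pow_one]
    linear_combination -h3
  have ha2 : ∀ j : ℕ, a (p ^ (j + 2)) = (1 + zch χ τ p) * a (p ^ (j + 1)) - zch χ τ p * a (p ^ j) := by
    intro j
    have h3 := D.pk p hp j
    rw [hd0 (j + 1)] at h3
    linear_combination -h3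
  have hind : ∀ j : ℕ, a (p ^ j) = ∑ i ∈ Finset.range (j + 1), zch χ τ p ^ i ∧
      a (p ^ (j + 1)) = ∑ i ∈ Finset.range (j + 2), zch χ τ p ^ i := by
    intro j
    induction j with
    | zero =>
      refine ⟨?_, ?_⟩
      · rw [pow_zero, hS.one]
        simp
      · rw [zero_add, ha1]
        simp [Finset.sum_range_succ]
    | succ j ih =>
      refine ⟨ih.2, ?_⟩
      rw [show j + 1 + 1 = j + 2 by ring, ha2 j, ih.1, ih.2, Finset.sum_range_succ _ (j + 2),
        Finset.sum_range_succ _ (j + 1)]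
      ring
  exact fun j => (hind j).1

end Pool.Agent.H11.PC
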