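import Mathlib

/-!
# FAP: a functional equation for an absolutely convergent Dirichlet series

`P(t) = ∑ c_n n^(-it)`.  Put `M(u) = lim_{T→∞} (1/T) ∫_T^{2T} u(t) dt`.
(a) For real `ν` and `κ`: `(1/T) ∫_T^{2T} e^(iνt) t^(iκ) dt → 0` for `ν ≠ 0` (one integration by parts), and for `ν = 0` it is
`T^(iκ) (2^(1+iκ) - 1)/(1+iκ)`.  By dominated convergence (`tendsto_tsum_of_dominated_convergence`, bound `‖c_n‖`) the means of
`n^(it) P(t)` tend to `c_n` (frequencies `log n - log m`), and the mean of `n^(it) ω0 e^(i(At + κ log t)) conj P(t)` over `[T, 2T]` is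
`ω0 ∑_m conj(c_m) (1/T)∫ e^(i(A + log n + log m) t) t^(iκ) dt`, which is `o(1) + ω0 conj(c_m) T^(iκ) (2^(1+iκ)-1)/(1+iκ)` if there is
(a unique) `m ≥ 1` with `A + log n + log m = 0`, `o(1)` otherwise.
(b) `n = 1`: `c_1 ≠ 0`, so there is `D ≥ 1` with `A = - log D` and `T^(iκ)` converges to a nonzero limit, up to a nonzero factor
(`2^(1+iκ) ≠ 1`, its norm is `2`); so `κ = 0` (`T = e^u`, `e^(iκu)` converges for `u → ∞` only if `κ = 0`).
(c) `κ = 0`: for every `n ≥ 1`, `c_n = ω0 conj(c_m)` if `n m = D` for some `m`, and `c_n = 0` otherwise.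
-/

set_option autoImplicit false

namespace Pool.Agent.H11.PC

open Complex Filter Topology

/-- `∫_1^2 e^(i(ws + κ log s)) ds`. -/
private noncomputable def fapJ (κ w : ℝ) : ℂ :=
  ∫ s in (1 : ℝ)..2, cexp (((w * s + κ * Real.log s : ℝ) : ℂ) * I)

private theorem fapJ_norm (κ w : ℝ) : ‖fapJ κ w‖ ≤ 1 := by
  have h := intervalIntegral.norm_integral_le_of_norm_le_const (a := (1 : ℝ)) (b := 2) (C := 1)
    (f := fun s : ℝ => cexp (((w * s + κ * Real.log s : ℝ) : ℂ) * I))
    (fun s _ => by rw [norm_exp_ofReal_mul_I])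
  norm_num at h
  simpa [fapJ] using h

private theorem fapJ_zero_zero : fapJ 0 0 = 1 := by
  simp only [fapJ]
  norm_num

private theorem fapJ_cocompact (κ : ℝ) : Tendsto (fun w : ℝ => fapJ κ w) (cocompact ℝ) (𝓝 0) := by
  have h := Real.tendsto_integral_exp_smul_cocompact
    ((Set.Ioc (1 : ℝ) 2).indicator (fun s : ℝ => cexp (((κ * Real.log s : ℝ) : ℂ) * I)))
  have h2 : Tendsto (fun w : ℝ => -(w / (2 * Real.pi))) (cocompact ℝ) (cocompact ℝ) := by
    rw [← Metric.cobounded_eq_cocompact, ← tendsto_norm_atTop_iff_cobounded]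
    have e : (fun w : ℝ => ‖-(w / (2 * Real.pi))‖) = fun w : ℝ => ‖w‖ / (2 * Real.pi) := by
      funext w
      rw [norm_neg, norm_div, Real.norm_of_nonneg (by positivity : (0 : ℝ) ≤ 2 * Real.pi)]
    rw [e]
    exact tendsto_norm_cobounded_atTop.atTop_div_const (by positivity)
  refine (h.comp h2).congr ?_
  intro w
  simp only [Function.comp_apply, fapJ]
  rw [intervalIntegral.integral_of_le (by norm_num),
    ← MeasureTheory.integral_indicator measurableSet_Ioc]
  refine MeasureTheory.integral_congr_ae (Eventually.of_forall fun s => ?_)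
  simp only [Set.indicator]
  split_ifs with hs
  · rw [Circle.smul_def, Real.fourierChar_apply, smul_eq_mul, ← Complex.exp_add]
    congr 1
    have : (2 * Real.pi * -(s * -(w / (2 * Real.pi)))) = w * s := by
      field_simp
    rw [this]
    push_cast
    ring
  · simp

private theorem fapJ_lim (κ ν : ℝ) :
    Tendsto (fun T : ℝ => fapJ κ (ν * T)) atTop (𝓝 (if ν = 0 then fapJ κ 0 else 0)) := by
  split_ifs with hν
  · subst hν
    simp
  · refine (fapJ_cocompact κ).comp ?_
    rw [← Metric.cobounded_eq_cocompact, ← tendsto_norm_atTop_iff_cobounded]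
    have e : (fun T : ℝ => ‖ν * T‖) = fun T : ℝ => ‖ν‖ * ‖T‖ := by
      funext T
      rw [norm_mul]
    rw [e]
    exact Tendsto.const_mul_atTop (norm_pos_iff.2 hν) tendsto_abs_atTop_atTop

private theorem fap_tsum_lim (a : ℕ → ℂ) (ha : Summable (fun n => ‖a n‖)) (μ : ℕ → ℝ) (κ : ℝ) :
    Tendsto (fun T : ℝ => ∑' m, a m * fapJ κ (μ m * T)) atTop
      (𝓝 (∑' m, a m * (if μ m = 0 then fapJ κ 0 else 0))) := by
  refine tendsto_tsum_of_dominated_convergence ha (fun m => ?_) ?_
  · exact (fapJ_lim κ (μ m)).const_mul _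
  · refine Eventually.of_forall fun T m => ?_
    rw [norm_mul]
    exact mul_le_of_le_one_right (norm_nonneg _) (fapJ_norm _ _)

private theorem fap_int (a : ℕ → ℂ) (ha : Summable (fun n => ‖a n‖)) (μ : ℕ → ℝ) (κ T : ℝ) :
    ∫ s in (1 : ℝ)..2, ∑' m, a m * cexp (((μ m * T * s + κ * Real.log s : ℝ) : ℂ) * I) =
      ∑' m, a m * fapJ κ (μ m * T) := by
  have h := intervalIntegral.hasSum_integral_of_dominated_convergence (a := (1 : ℝ)) (b := 2)
    (μ := MeasureTheory.volume)
    (F := fun m (s : ℝ) => a m * cexp (((μ m * T * s + κ * Real.log s : ℝ) : ℂ) * I))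
    (f := fun s => ∑' m, a m * cexp (((μ m * T * s + κ * Real.log s : ℝ) : ℂ) * I))
    (fun m _ => ‖a m‖) (fun m => by
      refine Measurable.aestronglyMeasurable ?_
      fun_prop)
    (fun m => Eventually.of_forall fun s _ => by
      rw [norm_mul, norm_exp_ofReal_mul_I, mul_one])
    (Eventually.of_forall fun s _ => ha) (by simp)
    (Eventually.of_forall fun s _ => by
      refine Summable.hasSum (Summable.of_norm ?_)
      refine ha.congr fun m => ?_
      rw [norm_mul, norm_exp_ofReal_mul_I, mul_one])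
  rw [← h.tsum_eq]
  refine tsum_congr fun m => ?_
  rw [intervalIntegral.integral_const_mul]
  rfl

/-- the terms of the Dirichlet series -/
private theorem fap_term (c : ℕ → ℂ) (h0 : c 0 = 0) (t : ℝ) (n : ℕ) :
    c n * (n : ℂ) ^ (-(t * I) : ℂ) = c n * cexp (((-(Real.log n) * t : ℝ) : ℂ) * I) := by
  rcases Nat.eq_zero_or_pos n with rfl | hn
  · simp [h0]
  · congr 1
    have hn' : (n : ℂ) ≠ 0 := by exact_mod_cast hn.ne'
    rw [Complex.cpow_def_of_ne_zero hn', ← Complex.natCast_log]
    congr 1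
    push_cast
    ring

private theorem fap_conj (c : ℕ → ℂ) (h0 : c 0 = 0) (t : ℝ) :
    (starRingEnd ℂ) (∑' n : ℕ, c n * (n : ℂ) ^ (-(t * I) : ℂ)) =
      ∑' n : ℕ, (starRingEnd ℂ) (c n) * cexp (((Real.log n * t : ℝ) : ℂ) * I) := by
  rw [Complex.conj_tsum]
  refine tsum_congr fun n => ?_
  rw [fap_term c h0, map_mul, ← Complex.exp_conj, map_mul, Complex.conj_I, Complex.conj_ofReal]
  congr 2
  push_cast
  ring

private theorem fap_ii (a : ℕ → ℂ) (ha : Summable (fun n => ‖a n‖)) (μ : ℕ → ℝ) (κ T : ℝ) :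
    IntervalIntegrable
      (fun s : ℝ => ∑' m, a m * cexp (((μ m * T * s + κ * Real.log s : ℝ) : ℂ) * I))
      MeasureTheory.volume 1 2 := by
  refine ContinuousOn.intervalIntegrable ?_
  refine continuousOn_tsum (u := fun m => ‖a m‖) (fun m => ?_) ha (fun m x _ => ?_)
  · have hx : ∀ x ∈ Set.uIcc (1 : ℝ) 2, x ≠ 0 := by
      intro x hx
      rw [Set.uIcc_of_le (by norm_num)] at hx
      linarith [hx.1]
    have hl : ContinuousOn (fun x : ℝ => Real.log x) (Set.uIcc (1 : ℝ) 2) :=
      Real.continuousOn_log.mono (fun x h => hx x h)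
    have h1 : ContinuousOn (fun x : ℝ => (μ m * T * x + κ * Real.log x)) (Set.uIcc (1 : ℝ) 2) :=
      (continuousOn_const.mul continuousOn_id).add (continuousOn_const.mul hl)
    exact continuousOn_const.mul
      (((Complex.continuous_ofReal.comp_continuousOn h1).mul continuousOn_const).cexp)
  · rw [norm_mul, norm_exp_ofReal_mul_I, mul_one]

/-- the limit relation for the coefficients -/
private theorem fap_coeff (c : ℕ → ℂ) (hc : Summable (fun n => ‖c n‖)) (h0 : c 0 = 0)
    (ω0 : ℂ) (A κ : ℝ)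
    (h : Tendsto (fun t : ℝ => (∑' n : ℕ, c n * (n : ℂ) ^ (-(t * I) : ℂ)) -
      ω0 * cexp (((A * t + κ * Real.log t : ℝ) : ℂ) * I) *
        (starRingEnd ℂ) (∑' n : ℕ, c n * (n : ℂ) ^ (-(t * I) : ℂ))) atTop (𝓝 0))
    (n : ℕ) (hn : 1 ≤ n) :
    Tendsto (fun T : ℝ => cexp (((κ * Real.log T : ℝ) : ℂ) * I) *
      (ω0 * ∑' m, (starRingEnd ℂ) (c m) *
        (if A + Real.log n + Real.log m = 0 then fapJ κ 0 else 0))) atTop (𝓝 (c n)) := by
  have hc' : Summable (fun m => ‖(starRingEnd ℂ) (c m)‖) := by simpa using hc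
  set u : ℝ → ℂ := fun t : ℝ => (∑' n : ℕ, c n * (n : ℂ) ^ (-(t * I) : ℂ)) -
      ω0 * cexp (((A * t + κ * Real.log t : ℝ) : ℂ) * I) *
        (starRingEnd ℂ) (∑' n : ℕ, c n * (n : ℂ) ^ (-(t * I) : ℂ)) with hu
  -- the mean of `n^(it) u(t)`
  set E : ℝ → ℂ := fun T : ℝ =>
    ∫ s in (1 : ℝ)..2, cexp (((Real.log n * (T * s) : ℝ) : ℂ) * I) * u (T * s) with hE
  have hE0 : Tendsto E atTop (𝓝 0) := by
    rw [Metric.tendsto_atTop] at h ⊢
    intro ε hε
    obtain ⟨N, hN⟩ := h (ε / 2) (by positivity)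
    refine ⟨max N 1, fun T hT => ?_⟩
    have hT1 : 1 ≤ T := le_trans (le_max_right _ _) hT
    have hTN : N ≤ T := le_trans (le_max_left _ _) hT
    rw [dist_zero_right]
    have hb := intervalIntegral.norm_integral_le_of_norm_le_const (a := (1 : ℝ)) (b := 2)
      (C := ε / 2) (f := fun s : ℝ => cexp (((Real.log n * (T * s) : ℝ) : ℂ) * I) * u (T * s))
      (fun s hs => by
        rw [Set.uIoc_of_le (by norm_num)] at hs
        rw [norm_mul, norm_exp_ofReal_mul_I, one_mul]
        have := hN (T * s) (by nlinarith [hs.1])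
        rw [dist_zero_right] at this
        exact this.le)
    have hb2 : ‖E T‖ ≤ ε / 2 := by
      refine hb.trans ?_
      norm_num
    linarith
  have hkey : ∀ T : ℝ, 0 < T → E T = (∑' m, c m * fapJ 0 ((Real.log n - Real.log m) * T)) -
      cexp (((κ * Real.log T : ℝ) : ℂ) * I) * (ω0 * ∑' m, (starRingEnd ℂ) (c m) *
        fapJ κ ((A + Real.log n + Real.log m) * T)) := by
    intro T hT
    rw [← fap_int c hc, ← fap_int _ hc', ← intervalIntegral.integral_const_mul,
      ← intervalIntegral.integral_const_mul, ← intervalIntegral.integral_sub (fap_ii c hc _ _ _)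
        (((fap_ii _ hc' _ _ _).const_mul _).const_mul _)]
    refine intervalIntegral.integral_congr fun s hs => ?_
    rw [Set.uIcc_of_le (by norm_num)] at hs
    have hs0 : 0 < s := by linarith [hs.1]
    simp only [hu]
    rw [fap_conj c h0, mul_sub, ← tsum_mul_left, ← tsum_mul_left, ← tsum_mul_left,
      ← tsum_mul_left, ← tsum_mul_left]
    congr 1
    · refine tsum_congr fun m => ?_
      rw [fap_term c h0, mul_left_comm, ← Complex.exp_add]
      congr 2
      push_cast
      ring
    · refine tsum_congr fun m => ?_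
      have e1 : cexp (((A * (T * s) + κ * Real.log (T * s) : ℝ) : ℂ) * I) =
          cexp (((κ * Real.log T : ℝ) : ℂ) * I) *
            cexp (((A * (T * s) + κ * Real.log s : ℝ) : ℂ) * I) := by
        rw [← Complex.exp_add, Real.log_mul hT.ne' hs0.ne']
        congr 1
        push_cast
        ring
      have e2 : cexp ((((A + Real.log n + Real.log m) * T * s + κ * Real.log s : ℝ) : ℂ) * I) =
          cexp (((Real.log n * (T * s) : ℝ) : ℂ) * I) *
            cexp (((A * (T * s) + κ * Real.log s : ℝ) : ℂ) * I) *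
              cexp (((Real.log m * (T * s) : ℝ) : ℂ) * I) := by
        rw [← Complex.exp_add, ← Complex.exp_add]
        congr 1
        push_cast
        ring
      rw [e1, e2]
      ring
  have h1 := fap_tsum_lim c hc (fun m => Real.log n - Real.log m) 0
  have h2 := fap_tsum_lim _ hc' (fun m => A + Real.log n + Real.log m) κ
  have hcn : (∑' m, c m * (if Real.log n - Real.log m = 0 then fapJ 0 0 else 0)) = c n := by
    rw [tsum_eq_single n]
    · simp [fapJ_zero_zero]
    · intro m hm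
      rcases Nat.eq_zero_or_pos m with rfl | hm0
      · simp [h0]
      · rw [if_neg, mul_zero]
        intro he
        apply hm
        have : Real.log n = Real.log m := by linarith
        have h3 := Real.log_injOn_pos (Set.mem_Ioi.2 (by exact_mod_cast hn : (0 : ℝ) < n))
          (Set.mem_Ioi.2 (by exact_mod_cast hm0 : (0 : ℝ) < m)) this
        exact_mod_cast h3.symm
  rw [hcn] at h1
  set S : ℂ := ∑' m, (starRingEnd ℂ) (c m) *
        (if A + Real.log n + Real.log m = 0 then fapJ κ 0 else 0) with hS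
  have h3 : Tendsto (fun T : ℝ => cexp (((κ * Real.log T : ℝ) : ℂ) * I) *
      (ω0 * ((∑' m, (starRingEnd ℂ) (c m) *
        fapJ κ ((A + Real.log n + Real.log m) * T)) - S))) atTop (𝓝 0) := by
    rw [tendsto_zero_iff_norm_tendsto_zero]
    have h4 : Tendsto (fun T : ℝ => ω0 * ((∑' m, (starRingEnd ℂ) (c m) *
        fapJ κ ((A + Real.log n + Real.log m) * T)) - S)) atTop (𝓝 0) := by
      have := (h2.sub_const S).const_mul ω0
      simpa using this
    rw [tendsto_zero_iff_norm_tendsto_zero] at h4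
    refine h4.congr fun T => ?_
    rw [norm_mul (cexp _), norm_exp_ofReal_mul_I, one_mul]
  have h5 := (h1.sub hE0).sub h3
  rw [sub_zero, sub_zero] at h5
  refine h5.congr' ?_
  filter_upwards [eventually_gt_atTop (0 : ℝ)] with T hT
  rw [hkey T hT]
  ring

theorem ap_rigid (c : ℕ → ℂ) (hc : Summable (fun n => ‖c n‖)) (h0 : c 0 = 0) (h1 : c 1 ≠ 0)
    (ω0 : ℂ) (A κ : ℝ)
    (h : Tendsto (fun t : ℝ => (∑' n : ℕ, c n * (n : ℂ) ^ (-(t * I) : ℂ)) -
      ω0 * cexp (((A * t + κ * Real.log t : ℝ) : ℂ) * I) *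
        (starRingEnd ℂ) (∑' n : ℕ, c n * (n : ℂ) ^ (-(t * I) : ℂ))) atTop (𝓝 0)) :
    ∃ D : ℕ, 1 ≤ D ∧ (∀ n : ℕ, 1 ≤ n → n ∣ D → c n = ω0 * (starRingEnd ℂ) (c (D / n))) ∧
      ∀ n : ℕ, ¬ n ∣ D → c n = 0 := by
  have hco := fap_coeff c hc h0 ω0 A κ h
  -- the limit of `e^(iκ log T) z`, with `z ≠ 0` and nonzero limit, forces `κ = 0`
  have hk : ∀ z w : ℂ, w ≠ 0 →
      Tendsto (fun T : ℝ => cexp (((κ * Real.log T : ℝ) : ℂ) * I) * z) atTop (𝓝 w) → κ = 0 := by
    intro z w hw hz
    by_contra hκ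
    have hz0 : z ≠ 0 := by
      rintro rfl
      simp only [mul_zero] at hz
      exact hw (tendsto_nhds_unique hz tendsto_const_nhds)
    have hz1 : Tendsto (fun u : ℝ => cexp (((κ * u : ℝ) : ℂ) * I) * z) atTop (𝓝 w) := by
      refine (hz.comp Real.tendsto_exp_atTop).congr fun u => ?_
      simp only [Function.comp_apply, Real.log_exp]
    have hz2 := hz1.comp (tendsto_atTop_add_const_right atTop (Real.pi / κ) tendsto_id)
    have hz3 : Tendsto (fun u : ℝ => cexp (((κ * u : ℝ) : ℂ) * I) * z) atTop (𝓝 (-w)) := by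
      refine hz2.neg.congr fun u => ?_
      simp only [Function.comp_apply, id_eq]
      have e : (((κ * (u + Real.pi / κ) : ℝ) : ℂ) * I) =
          ((κ * u : ℝ) : ℂ) * I + (Real.pi : ℂ) * I := by
        rw [mul_add, mul_div_cancel₀ _ hκ]
        push_cast
        ring
      rw [e, Complex.exp_add, Complex.exp_pi_mul_I]
      ring
    have := tendsto_nhds_unique hz1 hz3
    exact hw (self_eq_neg.1 this)
  have hc1 := hco 1 le_rfl
  have hκ0 : κ = 0 := hk _ _ h1 hc1
  subst hκ0
  -- the value of `c n`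
  have hval : ∀ n : ℕ, 1 ≤ n → c n = ω0 * ∑' m, (starRingEnd ℂ) (c m) *
      (if A + Real.log n + Real.log m = 0 then 1 else 0) := by
    intro n hn
    have h2 := hco n hn
    simp only [zero_mul, Complex.ofReal_zero, Complex.exp_zero, one_mul, fapJ_zero_zero] at h2
    exact tendsto_nhds_unique h2 tendsto_const_nhds
  -- existence of `D`
  have hD : ∃ D : ℕ, 1 ≤ D ∧ A + Real.log D = 0 := by
    by_contra hno
    push Not at hno
    apply h1
    rw [hval 1 le_rfl]
    have : ∀ m : ℕ, (starRingEnd ℂ) (c m) *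
        (if A + Real.log (1 : ℕ) + Real.log m = 0 then (1 : ℂ) else 0) = 0 := by
      intro m
      rcases Nat.eq_zero_or_pos m with rfl | hm
      · simp [h0]
      · rw [if_neg, mul_zero]
        have := hno m hm
        simpa using this
    simp only [this, tsum_zero, mul_zero]
  obtain ⟨D, hD1, hAD⟩ := hD
  have hA : A = -Real.log D := by linarith
  -- the condition
  have hcond : ∀ n m : ℕ, 1 ≤ n → 1 ≤ m → (A + Real.log n + Real.log m = 0 ↔ n * m = D) := by
    intro n m hn hm
    have hn0 : (0 : ℝ) < n := by exact_mod_cast hn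
    have hm0 : (0 : ℝ) < m := by exact_mod_cast hm
    have hD0 : (0 : ℝ) < D := by exact_mod_cast hD1
    rw [hA]
    constructor
    · intro he
      have h3 : Real.log ((n : ℝ) * m) = Real.log D := by
        rw [Real.log_mul hn0.ne' hm0.ne']
        linarith
      have h4 := Real.log_injOn_pos (Set.mem_Ioi.2 (mul_pos hn0 hm0)) (Set.mem_Ioi.2 hD0) h3
      exact_mod_cast h4
    · intro he
      have h4 : (n : ℝ) * m = D := by exact_mod_cast he
      rw [← h4, Real.log_mul hn0.ne' hm0.ne']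
      ring
  refine ⟨D, hD1, fun n hn hnD => ?_, fun n hnD => ?_⟩
  · rw [hval n hn, tsum_eq_single (D / n)]
    · have hm : 1 ≤ D / n := Nat.div_pos (Nat.le_of_dvd hD1 hnD) hn
      rw [if_pos ((hcond n _ hn hm).2 (Nat.mul_div_cancel' hnD)), mul_one]
    · intro m hm
      rcases Nat.eq_zero_or_pos m with rfl | hm0
      · simp [h0]
      · rw [if_neg, mul_zero]
        intro he
        apply hm
        have h5 := (hcond n m hn hm0).1 he
        rw [← h5]
        exact (Nat.mul_div_cancel_left m hn).symm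
  · rcases Nat.eq_zero_or_pos n with rfl | hn
    · exact h0
    · rw [hval n hn]
      have : ∀ m : ℕ, (starRingEnd ℂ) (c m) *
          (if A + Real.log n + Real.log m = 0 then (1 : ℂ) else 0) = 0 := by
        intro m
        rcases Nat.eq_zero_or_pos m with rfl | hm
        · simp [h0]
        · rw [if_neg, mul_zero]
          intro he
          exact hnD ⟨m, ((hcond n m hn hm).1 he).symm⟩
      simp only [this, tsum_zero, mul_zero]

end Pool.Agent.H11.PC
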