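import Mathlib
import Pool.Agent.H11.PC.Defs

/-!
# CMG: examples of bounded completely multiplicative functions

All short.  `cm_pow`: `Complex.natCast_mul_natCast_cpow`; norm: for `n ≥ 1` it is `1`
(`Complex.norm_natCast_cpow_of_pos`), `0 ^ (t I)` is `0` or `1`.  `cm_ind`: `Nat.Prime.dvd_mul`.
`cm_char`: `map_mul`, `DirichletCharacter.norm_le_one`.  `LT_shift`, `PS_shift`: termwise
(`n ≠ 0`: `n^(tI) / n^s = 1 / n^(s - tI)`; the term `n = 0` of an L-series is `0`).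
-/

set_option autoImplicit false

namespace Pool.Agent.H11.PC

open Complex Filter Topology

theorem cm_one : CM (fun _ => 1) := by
  refine ⟨rfl, ?_, ?_⟩
  · intro m n; simp
  · intro n; simp

theorem CM.times {g h : ℕ → ℂ} (hg : CM g) (hh : CM h) : CM (fun n => g n * h n) := by
  refine ⟨?_, ?_, ?_⟩
  · show g 1 * h 1 = 1
    rw [hg.one, hh.one, mul_one]
  · intro m n
    show g (m * n) * h (m * n) = g m * h m * (g n * h n)
    rw [hg.mul, hh.mul]; ring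
  · intro n
    show ‖g n * h n‖ ≤ 1
    rw [norm_mul]
    exact mul_le_one₀ (hg.bd n) (norm_nonneg _) (hh.bd n)

theorem CM.star {g : ℕ → ℂ} (hg : CM g) : CM (fun n => (starRingEnd ℂ) (g n)) := by
  refine ⟨?_, ?_, ?_⟩
  · show (starRingEnd ℂ) (g 1) = 1
    rw [hg.one, map_one]
  · intro m n
    show (starRingEnd ℂ) (g (m * n)) = (starRingEnd ℂ) (g m) * (starRingEnd ℂ) (g n)
    rw [hg.mul, map_mul]
  · intro n
    show ‖(starRingEnd ℂ) (g n)‖ ≤ 1
    rw [RCLike.norm_conj]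
    exact hg.bd n

theorem CM.pow {g : ℕ → ℂ} (hg : CM g) (n k : ℕ) : g (n ^ k) = g n ^ k := by
  induction k with
  | zero => rw [pow_zero, pow_zero, hg.one]
  | succ k ih => rw [pow_succ, hg.mul, ih, pow_succ]

theorem cm_pow (t : ℝ) : CM (fun n : ℕ => (n : ℂ) ^ ((t : ℂ) * I)) := by
  refine ⟨?_, ?_, ?_⟩
  · show ((1 : ℕ) : ℂ) ^ ((t : ℂ) * I) = 1
    rw [Nat.cast_one, one_cpow]
  · intro m n
    show ((m * n : ℕ) : ℂ) ^ ((t : ℂ) * I) = (m : ℂ) ^ ((t : ℂ) * I) * (n : ℂ) ^ ((t : ℂ) * I)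
    rw [Nat.cast_mul, natCast_mul_natCast_cpow]
  · intro n
    show ‖(n : ℂ) ^ ((t : ℂ) * I)‖ ≤ 1
    rcases Nat.eq_zero_or_pos n with h0 | hn
    · subst h0
      rw [Nat.cast_zero]
      by_cases h : (t : ℂ) * I = 0
      · rw [h, cpow_zero, norm_one]
      · rw [zero_cpow h, norm_zero]; exact zero_le_one
    · rw [norm_natCast_cpow_of_pos hn]
      have h : ((t : ℂ) * I).re = 0 := by simp
      rw [h, Real.rpow_zero]

theorem cm_char {N : ℕ} (χ : DirichletCharacter ℂ N) : CM (fun n : ℕ => χ (n : ZMod N)) := by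
  refine ⟨?_, ?_, ?_⟩
  · show χ ((1 : ℕ) : ZMod N) = 1
    rw [Nat.cast_one, map_one]
  · intro m n
    show χ ((m * n : ℕ) : ZMod N) = χ (m : ZMod N) * χ (n : ZMod N)
    rw [Nat.cast_mul, map_mul]
  · intro n
    exact χ.norm_le_one _

theorem cm_ind (r : ℕ) (hr : r.Prime) : CM (ind r) := by
  refine ⟨?_, ?_, ?_⟩
  · unfold ind
    rw [if_neg]
    intro h
    exact hr.one_lt.ne' (Nat.dvd_one.mp h)
  · intro m n
    unfold ind
    by_cases hm : r ∣ m
    · rw [if_pos hm, if_pos (hm.mul_right n), zero_mul]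
    · by_cases hn : r ∣ n
      · rw [if_pos hn, if_pos (hn.mul_left m), mul_zero]
      · rw [if_neg hm, if_neg hn, if_neg (fun h => (hr.dvd_mul.mp h).elim hm hn), mul_one]
  · intro n
    unfold ind
    split_ifs <;> simp

theorem cm_prod {N L : ℕ} (χ : DirichletCharacter ℂ N) (ψ : DirichletCharacter ℂ L) :
    CM (prodChar χ ψ) := (cm_char χ).times (cm_char ψ)

theorem LT_shift (b g : ℕ → ℂ) (t : ℝ) (s : ℂ) :
    LT b (fun n => g n * (n : ℂ) ^ ((t : ℂ) * I)) s = LT b g (s - t * I) := by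
  unfold LT LSeries
  refine tsum_congr fun n => ?_
  rcases Nat.eq_zero_or_pos n with h0 | hn
  · subst h0; rw [LSeries.term_zero, LSeries.term_zero]
  · have hn0 : n ≠ 0 := hn.ne'
    have hc : (n : ℂ) ≠ 0 := Nat.cast_ne_zero.mpr hn0
    rw [LSeries.term_of_ne_zero hn0, LSeries.term_of_ne_zero hn0, cpow_sub _ _ hc]
    have h1 : (n : ℂ) ^ s ≠ 0 := by
      rw [Ne, cpow_eq_zero_iff]; exact fun h => hc h.1
    have h2 : (n : ℂ) ^ ((t : ℂ) * I) ≠ 0 := by
      rw [Ne, cpow_eq_zero_iff]; exact fun h => hc h.1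
    field_simp

theorem PS_shift (c : ℕ → ℂ) (t : ℝ) (s : ℂ) :
    PS (fun n => c n * (n : ℂ) ^ ((t : ℂ) * I)) s = PS c (s - t * I) := by
  unfold PS
  refine tsum_congr fun p => ?_
  have hc : ((p : ℕ) : ℂ) ≠ 0 := Nat.cast_ne_zero.mpr p.prop.ne_zero
  show c (p : ℕ) * ((p : ℕ) : ℂ) ^ ((t : ℂ) * I) * ((p : ℕ) : ℂ) ^ (-s)
    = c (p : ℕ) * ((p : ℕ) : ℂ) ^ (-(s - t * I))
  rw [mul_assoc, ← cpow_add _ _ hc]
  congr 2
  ring

end Pool.Agent.H11.PC
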