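import Mathlib
import Pool.Agent.H11.PC.Defs
import Pool.Agent.H11.PC.CMG
import Pool.Agent.H11.Selberg.Line
import Pool.Agent.H11.SC7.EulL

/-!
# DIR: prime sums of Dirichlet characters near the line `Re s = 1`

Apply `euler_L χ 0` (`H11/SC7/EulL.lean`), `log_rep` (`H11/Selberg/LogData.lean`) and `local_log`
(`H11/Selberg/Local.lean`) to `c = b1 (χ(n) n^(-i0))`, `F = χ.LFunction`, `s0 = 1 + it`:
* `dir_bdd`: `m0 = 0`, `g = F`: `F` is analytic at `s0` (`DirichletCharacter.differentiableAt_LFunction`, on a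
  neighbourhood) and `F s0 ≠ 0` (`DirichletCharacter.LFunction_ne_zero_of_one_le_re`), since `χ ≠ 1` or `s0 ≠ 1`.  This gives
  a radius `ρ` and `‖LSeries c s‖ ≤ K` for `Re s > 1`, `‖s - s0‖ < ρ`.  For `α ≥ ρ/2`:
  `‖PS‖ ≤ ∑_n n^(-1-ρ/2)`.
* `dir_one`: `χ = 1` modulo `L`, `s0 = 1`, `m0 = -1`, `g(s) = (s - 1) F(s)` with the value
  `∏_{p | L} (1 - 1/p) ≠ 0` at `1` (`DirichletCharacter.LFunctionTrivChar_residue_one`; `LFunctionTrivChar_eq_mul_riemannZeta`,
  `riemannZeta_residue_one`).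
`LSeries (b1 f) s = PS f s` for `‖f‖ ≤ 1`, `Re s > 1`.
-/

set_option autoImplicit false

namespace Pool.Agent.H11.PC

open Complex Filter Topology Pool.Agent.H11.Selberg

private theorem dirx_PS (f : ℕ → ℂ) (s : ℂ) : LSeries (b1 f) s = PS f s := by
  unfold PS LSeries
  have h1 : ∑' p : Nat.Primes, f (p : ℕ) * ((p : ℕ) : ℂ) ^ (-s) =
      ∑' n : ℕ, Set.indicator {p : ℕ | p.Prime} (fun n => f n * (n : ℂ) ^ (-s)) n :=
    tsum_subtype {p : ℕ | p.Prime} (fun n => f n * (n : ℂ) ^ (-s))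
  rw [h1]
  refine tsum_congr fun n => ?_
  rw [LSeries.term_def]
  by_cases hn : n.Prime
  · have hm : n ∈ {p : ℕ | p.Prime} := hn
    rw [Set.indicator_of_mem hm, if_neg hn.ne_zero]
    unfold b1
    rw [if_pos hn, cpow_neg, div_eq_mul_inv]
  · have hm : n ∉ {p : ℕ | p.Prime} := hn
    rw [Set.indicator_of_notMem hm]
    unfold b1
    rw [if_neg hn, zero_div, ite_self]

private theorem dirx_tail (a : ℕ → ℂ) (ha : ∀ n, ‖a n‖ ≤ 1) (r : ℝ) (hr : 0 < r) : ∃ C : ℝ,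
    ∀ s : ℂ, 1 + r ≤ s.re → ‖LSeries (b1 a) s‖ ≤ C := by
  have hs : Summable (fun n : ℕ => (n : ℝ) ^ (-(1 + r))) :=
    Real.summable_nat_rpow.2 (by linarith)
  refine ⟨∑' n : ℕ, (n : ℝ) ^ (-(1 + r)), fun s hsr => ?_⟩
  unfold LSeries
  refine tsum_of_norm_bounded hs.hasSum fun n => ?_
  rw [LSeries.norm_term_eq]
  split_ifs with hn
  · exact Real.rpow_nonneg (Nat.cast_nonneg _) _
  · have hn1 : (1 : ℝ) ≤ n := by exact_mod_cast Nat.pos_of_ne_zero hn
    have h1 : ‖b1 a n‖ ≤ 1 := by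
      unfold b1
      split_ifs
      · exact ha n
      · rw [norm_zero]; exact zero_le_one
    rw [div_eq_mul_inv, ← Real.rpow_neg (by linarith)]
    calc ‖b1 a n‖ * (n : ℝ) ^ (-s.re) ≤ 1 * (n : ℝ) ^ (-(1 + r)) := by
          refine mul_le_mul h1 ?_ (Real.rpow_nonneg (by linarith) _) zero_le_one
          exact Real.rpow_le_rpow_of_exponent_le hn1 (by linarith)
      _ = (n : ℝ) ^ (-(1 + r)) := one_mul _

private theorem dirx_gen {L : ℕ} [NeZero L] (Ψ : DirichletCharacter ℂ L) (t : ℝ) (m0 : ℤ)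
    (g : ℂ → ℂ) (hg : AnalyticAt ℂ g (1 + t * I)) (hg0 : g (1 + t * I) ≠ 0)
    (hFg : ∀ s : ℂ, 1 < s.re → Ψ.LFunction s = (s - (1 + t * I)) ^ m0 * g s) :
    ∃ C : ℝ, ∀ α : ℝ, 0 < α → α ≤ 1 →
      ‖PS (fun n => Ψ (n : ZMod L)) (1 + t * I + α) - m0 * (Real.log α : ℂ)‖ ≤ C := by
  set a : ℕ → ℂ := fun n => Ψ (n : ZMod L) with ha
  have ha1 : a 1 = 1 := by simp [ha]
  have hab : ∀ n, ‖a n‖ ≤ 1 := fun n => Ψ.norm_le_one _
  have hsum : ∀ s : ℂ, 1 < s.re → LSeriesSummable a s := fun s hs =>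
    DirichletCharacter.LSeriesSummable_of_one_lt_re Ψ hs
  have hF : ∀ s : ℂ, 1 < s.re → Ψ.LFunction s = LSeries a s := fun s hs =>
    Ψ.LFunction_eq_LSeries hs
  obtain ⟨b, hb, hE⟩ := Pool.Agent.H11.SC7.euler_L Ψ 0
  have haa : (fun n : ℕ => Ψ (n : ZMod L) * (n : ℂ) ^ (-(((0 : ℝ) : ℂ) * I))) = a := by
    funext n
    rw [ofReal_zero, zero_mul, neg_zero, cpow_zero, mul_one]
  rw [haa] at hE
  obtain ⟨h1, ⟨K, hK0, hK⟩, h3⟩ := log_rep a Ψ.LFunction ha1 hsum hF b 0 1 (by norm_num)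
    (by
      intro p hp l hl
      rw [Real.rpow_zero, one_mul]
      exact hb p hp l hl)
    (by
      intro s hs
      rw [hF s hs]
      exact hE s hs)
  obtain ⟨r, hr, K', hK'0, hK'⟩ := local_log (b1 a) Ψ.LFunction (LSeries (b2 b))
    (fun s hs => b1_LSeriesSummable a s (hsum s hs)) h1 h3 (1 + t * I) (by simp) m0 g hg hg0
    (Filter.Eventually.of_forall hFg)
  obtain ⟨C2, hC2⟩ := dirx_tail a hab r hr
  refine ⟨max (K' + K) (C2 + |(m0 : ℝ)| * |Real.log r|), fun α hα hα1 => ?_⟩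
  have hre : (1 + t * I + α : ℂ).re = 1 + α := by simp
  rw [← dirx_PS]
  rcases lt_or_ge α r with h | h
  · refine le_trans ?_ (le_max_left _ _)
    have e1 : (1 + t * I + α : ℂ) - (1 + t * I) = (α : ℂ) := by ring
    have h4 := hK' (1 + t * I + α) (by rw [hre]; linarith) (by
      rw [e1, norm_real, Real.norm_of_nonneg hα.le]
      exact h)
    have h5 := hK (1 + t * I + α) (by rw [hre]; linarith)
    rw [e1, ← ofReal_log hα.le] at h4
    have e2 : LSeries (b1 a) (1 + t * I + α) - m0 * (Real.log α : ℂ) =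
        (LSeries (b1 a) (1 + t * I + α) + LSeries (b2 b) (1 + t * I + α) -
          m0 * (Real.log α : ℂ)) - LSeries (b2 b) (1 + t * I + α) := by ring
    rw [e2]
    exact (norm_sub_le _ _).trans (add_le_add h4 h5)
  · refine le_trans ?_ (le_max_right _ _)
    have h4 := hC2 (1 + t * I + α) (by rw [hre]; linarith)
    refine (norm_sub_le _ _).trans (add_le_add h4 ?_)
    rw [norm_mul, norm_real, Complex.norm_intCast, Real.norm_eq_abs]
    refine mul_le_mul_of_nonneg_left ?_ (abs_nonneg _)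
    have h5 : Real.log α ≤ 0 := Real.log_nonpos hα.le hα1
    have h6 : Real.log r ≤ Real.log α := Real.log_le_log hr h
    rw [abs_of_nonpos h5, abs_of_nonpos (h6.trans h5)]
    linarith

theorem dir_bdd {L : ℕ} [NeZero L] (Ψ : DirichletCharacter ℂ L) (t : ℝ) (h : Ψ ≠ 1 ∨ t ≠ 0) :
    ∃ C : ℝ, ∀ α : ℝ, 0 < α → α ≤ 1 → ‖PS (fun n => Ψ (n : ZMod L)) (1 + t * I + α)‖ ≤ C := by
  have hs : Ψ ≠ 1 ∨ (1 + t * I : ℂ) ≠ 1 := by
    refine h.imp_right fun ht h1 => ?_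
    have := congrArg Complex.im h1
    simp at this
    exact ht this
  have hga : AnalyticAt ℂ Ψ.LFunction (1 + t * I) := by
    rw [Complex.analyticAt_iff_eventually_differentiableAt]
    rcases hs with hs | hs
    · exact Filter.Eventually.of_forall fun z => Ψ.differentiableAt_LFunction z (Or.inr hs)
    · filter_upwards [isOpen_ne.mem_nhds hs] with z hz
      exact Ψ.differentiableAt_LFunction z (Or.inl hz)
  obtain ⟨C, hC⟩ := dirx_gen Ψ t 0 Ψ.LFunction hga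
    (Ψ.LFunction_ne_zero_of_one_le_re hs (by simp)) (fun s _ => by rw [zpow_zero, one_mul])
  refine ⟨C, fun α hα hα1 => ?_⟩
  have := hC α hα hα1
  rwa [Int.cast_zero, zero_mul, sub_zero] at this

theorem dir_one {L : ℕ} [NeZero L] : ∃ C : ℝ, ∀ α : ℝ, 0 < α → α ≤ 1 →
    ‖PS (fun n => (1 : DirichletCharacter ℂ L) (n : ZMod L)) (1 + α) + (Real.log α : ℂ)‖ ≤ C := by
  have e0 : (1 + ((0 : ℝ) : ℂ) * I) = 1 := by simp
  obtain ⟨C, hC⟩ := dirx_gen (1 : DirichletCharacter ℂ L) 0 (-1)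
    (DirichletCharacter.LFunctionTrivChar₁ L)
    ((DirichletCharacter.differentiable_LFunctionTrivChar₁ L).analyticAt _)
    (by
      rw [e0]
      exact DirichletCharacter.LFunctionTrivChar₁_apply_one_ne_zero L) (by
      intro s hs
      have hs1 : s ≠ 1 := by
        rintro rfl
        simp at hs
      have h2 : s - 1 ≠ 0 := sub_ne_zero.mpr hs1
      rw [e0, DirichletCharacter.LFunctionTrivChar₁, Function.update_of_ne hs1, zpow_neg_one,
        inv_mul_cancel_left₀ h2])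
  refine ⟨C, fun α hα hα1 => ?_⟩
  have := hC α hα hα1
  rw [e0] at this
  have e1 : PS (fun n => (1 : DirichletCharacter ℂ L) (n : ZMod L)) (1 + α) +
      (Real.log α : ℂ) = PS (fun n => (1 : DirichletCharacter ℂ L) (n : ZMod L)) (1 + α) -
      ((-1 : ℤ) : ℂ) * (Real.log α : ℂ) := by
    push_cast
    ring
  rw [e1]
  exact this

end Pool.Agent.H11.PC
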