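import Mathlib
import Pool.Agent.H11.PC.Defs
import Pool.Agent.H11.PC.CMG
import Pool.Agent.H11.SC4.TwoC
import Pool.Agent.H39.Pol.LocP
import Pool.Agent.H39.Pol.NormP

/-!
# PDOF: the axioms of the Selberg class give `PD`

`b n = a n * n^(-iδ)`.
* `one`, `mul` (as in `inv_data` of `H39/Pol/MainP.lean`: `conv_rec`, `twoc_mul`), `ram` (`‖b n‖ = ‖a n‖`, `n ≥ 1`),
  `loc` (`loc_twist` of `H39/Pol`), `sb` (`S b x = S a x`) are immediate.
* `log`: let `b0`, `θ0 < 1/2`, `C0` be the data of `hS.euler`.  By `conv_rec` (`H11/Selberg/Mult.lean`), for `n ≥ 1`,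
  `(log n) a(n) = ∑_{q | n} a(n/q) (log q) bb b0 q` where `bb b0` is `b0` on prime powers and `0` elsewhere, and
  `b0 p = a p` (`b_prime`).  Let `g` be `CM` and `g' n = g n * n^(-iδ)` (also `CM`); multiply by `g'(n) = g'(n/q) g'(q)`: with
  `A = a g'`, `B = (bb b0) g'`: `(log n) A(n) = ∑ A(n/q) (log q) B(q)`, i.e. `LSeries(A)' = LSeries(A) LSeries(B)'` for
  `Re s > 1` (`LSeries_deriv`, `LSeries_convolution'`), so `LSeries(A) exp(-LSeries(B))` is constant on the half plane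
  `Re s > 1` (convex), and it tends to `1` for `s → +∞` (`LSeries.tendsto_atTop`, `A 1 = 1`, `B 1 = 0`).  Hence
  `LT b g s = LSeries A s = exp(LSeries B s)`, and `LSeries B s = ∑_p a(p) g'(p) p^(-s) + R`,
  `R = ∑ over the prime powers p^l, l ≥ 2`, `‖R‖ ≤ ∑ ‖b2 b0 n‖ / n =: K` (`b2_summable`, `b2_bound` of
  `H11/Selberg/Log2.lean`), which does not depend on `g`.  (`LSeries (b1 ...)` over `ℕ` against the sum over `Nat.Primes`:
  `tsum_subtype`-type rewriting.)
-/

set_option autoImplicit false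

namespace Pool.Agent.H11.PC

open Complex Filter Topology Pool.Agent.H11.Selberg Pool.Agent.H11.SC Pool.Agent.H39.Pol

theorem abs_lt_of_one_lt {A : ℕ → ℂ} (hA : ∀ s : ℂ, 1 < s.re → LSeriesSummable A s) {s : ℂ}
    (hs : 1 < s.re) : LSeries.abscissaOfAbsConv A < s.re := by
  refine lt_of_le_of_lt (abscissa_le_one A hA) ?_
  have : (1 : EReal) = ((1 : ℝ) : EReal) := by norm_num
  rw [this, EReal.coe_lt_coe_iff]
  exact hs

/-- the recursion gives `LSeries A = exp (LSeries B)` -/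
theorem exp_of_rec (A B : ℕ → ℂ) (hA1 : A 1 = 1) (hB1 : B 1 = 0)
    (hA : ∀ s : ℂ, 1 < s.re → LSeriesSummable A s)
    (hB : ∀ s : ℂ, 1 < s.re → LSeriesSummable B s)
    (hrec : ∀ n : ℕ, n ≠ 0 → LSeries.logMul A n = (LSeries.convolution A (LSeries.logMul B)) n)
    (s : ℂ) (hs : 1 < s.re) : LSeries A s = cexp (LSeries B s) := by
  have hd : ∀ z : ℂ, 1 < z.re →
      HasDerivAt (fun z => LSeries A z * cexp (-LSeries B z)) 0 z := by
    intro z hz
    have h1 := LSeries_hasDerivAt (abs_lt_of_one_lt hA hz)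
    have h2 := (LSeries_hasDerivAt (abs_lt_of_one_lt hB hz)).neg.cexp
    have h3 := h1.mul h2
    have h4 : LSeries (LSeries.logMul A) z = LSeries A z * LSeries (LSeries.logMul B) z := by
      rw [LSeries_congr (fun {n} hn => hrec n hn) z, LSeries_convolution' (hA z hz)
        (LSeriesSummable_logMul_of_lt_re (abs_lt_of_one_lt hB hz))]
    have h5 : -LSeries (LSeries.logMul A) z * cexp ((-LSeries B) z) +
        LSeries A z * (cexp ((-LSeries B) z) * - -LSeries (LSeries.logMul B) z) = 0 := by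
      rw [h4]
      ring
    exact h3.congr_deriv h5
  have ho : IsOpen {z : ℂ | 1 < z.re} := isOpen_lt continuous_const Complex.continuous_re
  have hc : IsPreconnected {z : ℂ | 1 < z.re} := (convex_halfSpace_re_gt 1).isPreconnected
  have hconst : ∀ z : ℂ, 1 < z.re → LSeries A z * cexp (-LSeries B z) =
      LSeries A s * cexp (-LSeries B s) := by
    intro z hz
    exact ho.is_const_of_deriv_eq_zero hc
      (fun w hw => (hd w hw).differentiableAt.differentiableWithinAt)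
      (fun w hw => (hd w hw).deriv) hz hs
  have hlt : ∀ {D : ℕ → ℂ}, (∀ s : ℂ, 1 < s.re → LSeriesSummable D s) →
      LSeries.abscissaOfAbsConv D < ⊤ := by
    intro D hD
    exact (abs_lt_of_one_lt hD (s := 2) (by norm_num)).trans (EReal.coe_lt_top _)
  have ht : Tendsto (fun x : ℝ => LSeries A x * cexp (-LSeries B x)) atTop
      (𝓝 (A 1 * cexp (-B 1))) :=
    (LSeries.tendsto_atTop (hlt hA)).mul ((LSeries.tendsto_atTop (hlt hB)).neg.cexp)
  have ht2 : Tendsto (fun x : ℝ => LSeries A x * cexp (-LSeries B x)) atTop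
      (𝓝 (LSeries A s * cexp (-LSeries B s))) := by
    refine Tendsto.congr' ?_ tendsto_const_nhds
    filter_upwards [eventually_gt_atTop (1 : ℝ)] with x hx
    exact (hconst x (by simpa using hx)).symm
  have h5 := tendsto_nhds_unique ht2 ht
  rw [hA1, hB1, neg_zero, Complex.exp_zero, mul_one, Complex.exp_neg] at h5
  have h6 := Complex.exp_ne_zero (LSeries B s)
  field_simp at h5
  exact h5

/-- the prime part of the logarithm -/
theorem b1_PS (c : ℕ → ℂ) (s : ℂ) : LSeries (b1 c) s = PS c s := by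
  unfold LSeries PS
  have hinj : Function.Injective (fun p : Nat.Primes => (p : ℕ)) := Subtype.coe_injective
  have hz : Function.support (LSeries.term (b1 c) s) ⊆ Set.range (fun p : Nat.Primes => (p : ℕ)) := by
    intro n hn
    by_contra hc
    apply hn
    have : ¬ n.Prime := fun hp => hc ⟨⟨n, hp⟩, rfl⟩
    simp [LSeries.term, b1, this]
  rw [← hinj.tsum_eq hz]
  apply tsum_congr
  intro p
  rw [LSeries.term_of_ne_zero p.prop.ne_zero, b1, if_pos p.prop, Complex.cpow_neg, div_eq_mul_inv]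

theorem norm_term_mul_le (f g : ℕ → ℂ) (hg : ∀ n, ‖g n‖ ≤ 1) (s : ℂ) (n : ℕ) :
    ‖LSeries.term (fun n => f n * g n) s n‖ ≤ ‖LSeries.term f s n‖ := by
  rw [LSeries.norm_term_eq, LSeries.norm_term_eq]
  split_ifs
  · exact le_refl _
  · apply div_le_div_of_nonneg_right _ (by positivity)
    rw [norm_mul]
    exact mul_le_of_le_one_right (norm_nonneg _) (hg n)

theorem summable_mul_of (f g : ℕ → ℂ) (hg : ∀ n, ‖g n‖ ≤ 1) (s : ℂ) (h : LSeriesSummable f s) :
    LSeriesSummable (fun n => f n * g n) s :=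
  Summable.of_norm_bounded h.norm (fun n => norm_term_mul_le f g hg s n)

/-- the logarithm of the twisted series, uniformly in the twist -/
theorem log_twist (a : ℕ → ℂ) (F : ℂ → ℂ) (hS : IsSelberg a F) : ∃ K : ℝ, 0 ≤ K ∧
    ∀ g : ℕ → ℂ, CM g → ∀ s : ℂ, 1 < s.re →
      ∃ R : ℂ, ‖R‖ ≤ K ∧ LT a g s = cexp (PS (fun n => a n * g n) s + R) := by
  classical
  obtain ⟨b0, θ0, C0, hθ0, hb0, hE⟩ := hS.euler
  have hE' : ∀ s : ℂ, 1 < s.re → HasProd
      (fun p : Nat.Primes => Complex.exp (∑' l : ℕ, b0 ((p : ℕ) ^ (l + 1)) *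
        ((p : ℕ) : ℂ) ^ (-((l : ℂ) + 1) * s))) (LSeries a s) := fun s hs => by
    rw [← hS.eq_LSeries s hs]; exact hE s hs
  have hrec := conv_rec a hS.summable b0 θ0 C0 hθ0 hb0 hE'
  have hprime := b_prime a hS.one hS.summable b0 θ0 C0 hθ0 hb0 hE'
  have hsum2 := b2_summable b0 θ0 C0 hθ0 hb0
  refine ⟨∑' n : ℕ, ‖b2 b0 n‖ / (n : ℝ), tsum_nonneg (fun n => by positivity), ?_⟩
  intro g hg s hs
  have hbb : ∀ n : ℕ, bb b0 n = b1 a n + b2 b0 n := by
    intro n
    by_cases hp : n.Prime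
    · have hpp : IsPrimePow n := hp.isPrimePow
      simp [bb, b1, b2, hp, hpp, hprime n hp]
    · by_cases hpp : IsPrimePow n
      · simp [bb, b1, b2, hp, hpp]
      · simp [bb, b1, b2, hp, hpp]
  have hb1 : ∀ z : ℂ, 1 < z.re → LSeriesSummable (fun n => b1 a n * g n) z := fun z hz =>
    summable_mul_of _ g hg.bd z (b1_LSeriesSummable a z (hS.summable z hz))
  have hb2 : ∀ z : ℂ, 1 < z.re → LSeriesSummable (fun n => b2 b0 n * g n) z := fun z hz =>
    summable_mul_of _ g hg.bd z (b2_LSeriesSummable b0 hsum2 z hz.le)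
  have hfun : (fun n => bb b0 n * g n) = (fun n => b1 a n * g n) + (fun n => b2 b0 n * g n) := by
    funext n
    rw [Pi.add_apply, hbb n, add_mul]
  have hB : ∀ z : ℂ, 1 < z.re → LSeriesSummable (fun n => bb b0 n * g n) z := fun z hz => by
    rw [hfun]; exact (hb1 z hz).add (hb2 z hz)
  have hA : ∀ z : ℂ, 1 < z.re → LSeriesSummable (fun n => a n * g n) z := fun z hz =>
    summable_mul_of _ g hg.bd z (hS.summable z hz)
  have hB1 : (fun n => bb b0 n * g n) 1 = 0 := by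
    simp [bb, not_isPrimePow_one]
  have hA1 : (fun n => a n * g n) 1 = 1 := by
    show a 1 * g 1 = 1
    rw [hS.one, hg.one, mul_one]
  have hrec2 : ∀ n : ℕ, n ≠ 0 → LSeries.logMul (fun n => a n * g n) n =
      (LSeries.convolution (fun n => a n * g n) (LSeries.logMul (fun n => bb b0 n * g n))) n := by
    intro n hn
    rw [LSeries.convolution_def]
    simp only [LSeries.logMul]
    rw [Nat.sum_divisorsAntidiagonal'
      (fun i j => a i * g i * (Complex.log j * (bb b0 j * g j)))]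
    rw [← Complex.natCast_log, ← mul_assoc, hrec n hn, Finset.sum_mul]
    apply Finset.sum_congr rfl
    intro q hq
    have hqn : n / q * q = n := Nat.div_mul_cancel (Nat.dvd_of_mem_divisors hq)
    have hgn : g n = g (n / q) * g q := by rw [← hg.mul, hqn]
    rw [hgn, ← Complex.natCast_log]
    ring
  have hexp := exp_of_rec _ _ hA1 hB1 hA hB hrec2 s hs
  refine ⟨LSeries (fun n => b2 b0 n * g n) s, ?_, ?_⟩
  · unfold LSeries
    exact tsum_of_norm_bounded hsum2.hasSum (fun n =>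
      (norm_term_mul_le _ g hg.bd s n).trans (term_norm_le _ s hs.le n))
  · unfold LT
    rw [hexp, hfun, LSeries_add (hb1 s hs) (hb2 s hs)]
    have h1 : (fun n => b1 a n * g n) = b1 (fun n => a n * g n) := by
      funext n
      simp only [b1]
      split_ifs
      · rfl
      · rw [zero_mul]
    rw [← b1_PS (fun n => a n * g n) s, ← h1]

theorem pd_of (a : ℕ → ℂ) (F : ℂ → ℂ) (hS : IsSelberg a F)
    (hO : ∃ C : ℝ, ∀ x : ℝ, 16 ≤ x → S a x ≤ C * Real.log (Real.log x)) (δ : ℝ) :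
    PD (fun n => a n * (n : ℂ) ^ (-(δ * I) : ℂ)) := by
  obtain ⟨b0, θ0, C0, hθ0, hb0, hE⟩ := hS.euler
  have hE' : ∀ s : ℂ, 1 < s.re → HasProd
      (fun p : Nat.Primes => Complex.exp (∑' l : ℕ, b0 ((p : ℕ) ^ (l + 1)) *
        ((p : ℕ) : ℂ) ^ (-((l : ℂ) + 1) * s))) (LSeries a s) := fun s hs => by
    rw [← hS.eq_LSeries s hs]; exact hE s hs
  have hrec := conv_rec a hS.summable b0 θ0 C0 hθ0 hb0 hE'
  have hmul0 := twoc_mul a F hS b0 hrec
  have hmul : ∀ m n : ℕ, Nat.Coprime m n → a (m * n) = a m * a n := by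
    intro m n hmn
    by_cases h0 : m * n = 0
    · rcases Nat.mul_eq_zero.mp h0 with rfl | rfl
      · rw [Nat.coprime_zero_left] at hmn
        subst hmn
        rw [mul_one, hS.one, mul_one]
      · rw [Nat.coprime_zero_right] at hmn
        subst hmn
        rw [one_mul, hS.one, one_mul]
    · exact hmul0 m n h0 hmn
  have hnorm : ∀ n : ℕ, 1 ≤ n → ‖a n * (n : ℂ) ^ (-(δ * I) : ℂ)‖ = ‖a n‖ := by
    intro n hn
    rw [norm_mul, norm_natCast_cpow_of_pos (by omega)]
    simp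
  have hcast : (-((δ : ℂ) * I)) = (((-δ : ℝ) : ℂ) * I) := by push_cast; ring
  refine ⟨?_, ?_, ?_, ?_, ?_, ?_⟩
  · show a 1 * ((1 : ℕ) : ℂ) ^ (-(δ * I) : ℂ) = 1
    rw [hS.one, Nat.cast_one, one_cpow, mul_one]
  · intro m n hmn
    show a (m * n) * ((m * n : ℕ) : ℂ) ^ (-(δ * I) : ℂ) =
      a m * (m : ℂ) ^ (-(δ * I) : ℂ) * (a n * (n : ℂ) ^ (-(δ * I) : ℂ))
    rw [hmul m n hmn, Nat.cast_mul, natCast_mul_natCast_cpow]
    ring
  · intro ε hε
    obtain ⟨C, hC⟩ := hS.ramanujan ε hε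
    refine ⟨C, fun n hn => ?_⟩
    show ‖a n * (n : ℂ) ^ (-(δ * I) : ℂ)‖ ≤ _
    rw [hnorm n hn]
    exact hC n hn
  · intro p hp X hX
    exact loc_twist a F hS δ p hp X hX
  · obtain ⟨K, hK, hlog⟩ := log_twist a F hS
    refine ⟨K, hK, fun g hg s hs => ?_⟩
    have hg2 : CM (fun n => (n : ℂ) ^ (((-δ : ℝ) : ℂ) * I) * g n) := (cm_pow (-δ)).times hg
    obtain ⟨R, hR, hRe⟩ := hlog _ hg2 s hs
    refine ⟨R, hR, ?_⟩
    have e1 : (fun n : ℕ => a n * ((n : ℂ) ^ (((-δ : ℝ) : ℂ) * I) * g n)) =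
        fun n : ℕ => (fun n : ℕ => a n * (n : ℂ) ^ (-(δ * I) : ℂ)) n * g n := by
      funext n
      rw [hcast]
      ring
    unfold LT at hRe ⊢
    rw [e1] at hRe
    exact hRe
  · obtain ⟨C, hC⟩ := hO
    refine ⟨C, fun x hx => ?_⟩
    have e : S (fun n => a n * (n : ℂ) ^ (-(δ * I) : ℂ)) x = S a x := by
      unfold S
      apply Finset.sum_congr rfl
      intro p hp
      rw [Finset.mem_filter, Finset.mem_Icc] at hp
      show ‖a p * (p : ℂ) ^ (-(δ * I) : ℂ)‖ ^ 2 / (p : ℝ) = _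
      rw [hnorm p hp.1.1]
    rw [e]
    exact hC x hx

end Pool.Agent.H11.PC
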