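import Mathlib
import Pool.Agent.H11.PC.Defs

/-!
# NTRIV: the quotient of two characters which are nonprincipal at different primes

`L = N * r1^e1 * r2^e2`, `Ψ = χ1 ψ1 χ2⁻¹ ψ2⁻¹` with all factors lifted to level `L`
(`DirichletCharacter.changeLevel`).  Equality for all `n`: if `n` is coprime to `L` both sides are the product of the
values (`changeLevel_eq_cast_of_dvd`, `conj (χ n) = χ⁻¹ n`); otherwise both sides are `0`: a common prime factor `p` of `n`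
and `L` divides `N` (then `χ1 n = 0`), or `r1^e1` (then `ψ1 n = 0`) or `r2^e2` (then `ψ2 n = 0`).
`Ψ ≠ 1`: `ψ1 ≠ 1` takes a value `≠ 1` at a unit `z` modulo `r1^e1`; by the Chinese remainder theorem (`r1^e1` is coprime to
`N * r2^e2`) take `n ≡ z (mod r1^e1)`, `n ≡ 1 (mod N * r2^e2)`: `Ψ n = ψ1 z ≠ 1` while `n` is coprime to `L`.
-/

set_option autoImplicit false

namespace Pool.Agent.H11.PC

open Complex

theorem ntr_level {N L : ℕ} (hNL : N ∣ L) (χ : DirichletCharacter ℂ N) (n : ℕ)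
    (hn : Nat.Coprime n L) :
    (DirichletCharacter.changeLevel hNL χ) (n : ZMod L) = χ (n : ZMod N) := by
  have h1 := DirichletCharacter.changeLevel_eq_cast_of_dvd χ hNL (ZMod.unitOfCoprime n hn)
  rw [ZMod.coe_unitOfCoprime, ZMod.cast_natCast hNL] at h1
  exact h1

theorem ntr_zero {N n p : ℕ} (hp : p.Prime) (hpn : p ∣ n) (hpN : p ∣ N)
    (χ : DirichletCharacter ℂ N) : χ (n : ZMod N) = 0 := by
  apply MulChar.map_nonunit
  rw [ZMod.isUnit_iff_coprime]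
  exact Nat.Prime.not_coprime_iff_dvd.2 ⟨p, hp, hpn, hpN⟩

theorem ntriv {N : ℕ} [NeZero N] {r1 r2 e1 e2 : ℕ} (h1 : r1.Prime) (h2 : r2.Prime) (h12 : r1 ≠ r2)
    (hN1 : ¬ r1 ∣ N) (χ1 χ2 : DirichletCharacter ℂ N) (ψ1 : DirichletCharacter ℂ (r1 ^ e1))
    (ψ2 : DirichletCharacter ℂ (r2 ^ e2)) (hψ : ψ1 ≠ 1) :
    ∃ (L : ℕ) (_ : NeZero L) (Ψ : DirichletCharacter ℂ L), Ψ ≠ 1 ∧
      ∀ n : ℕ, prodChar χ1 ψ1 n * (starRingEnd ℂ) (prodChar χ2 ψ2 n) = Ψ (n : ZMod L) := by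
  have hNL : N ∣ r1 ^ e1 * (N * r2 ^ e2) := Dvd.dvd.mul_left (Nat.dvd_mul_right _ _) _
  have hr1L : r1 ^ e1 ∣ r1 ^ e1 * (N * r2 ^ e2) := Nat.dvd_mul_right _ _
  have hr2L : r2 ^ e2 ∣ r1 ^ e1 * (N * r2 ^ e2) := Dvd.dvd.mul_left (Nat.dvd_mul_left _ _) _
  have hL0 : r1 ^ e1 * (N * r2 ^ e2) ≠ 0 :=
    mul_ne_zero (pow_ne_zero _ h1.ne_zero) (mul_ne_zero (NeZero.ne N) (pow_ne_zero _ h2.ne_zero))
  have hval : ∀ n : ℕ, prodChar χ1 ψ1 n * (starRingEnd ℂ) (prodChar χ2 ψ2 n) =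
      (DirichletCharacter.changeLevel hNL χ1 * DirichletCharacter.changeLevel hr1L ψ1 *
        (DirichletCharacter.changeLevel hNL χ2⁻¹ * DirichletCharacter.changeLevel hr2L ψ2⁻¹) :
        DirichletCharacter ℂ (r1 ^ e1 * (N * r2 ^ e2))) (n : ZMod (r1 ^ e1 * (N * r2 ^ e2))) := by
    intro n
    unfold prodChar
    have hs1 : (starRingEnd ℂ) (χ2 (n : ZMod N)) = χ2⁻¹ (n : ZMod N) :=
      MulChar.star_apply' χ2 (n : ZMod N)
    have hs2 : (starRingEnd ℂ) (ψ2 (n : ZMod (r2 ^ e2))) = ψ2⁻¹ (n : ZMod (r2 ^ e2)) :=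
      MulChar.star_apply' ψ2 (n : ZMod (r2 ^ e2))
    rw [map_mul, hs1, hs2]
    by_cases hn : Nat.Coprime n (r1 ^ e1 * (N * r2 ^ e2))
    · rw [MulChar.mul_apply, MulChar.mul_apply, MulChar.mul_apply, ntr_level hNL χ1 n hn,
        ntr_level hr1L ψ1 n hn, ntr_level hNL χ2⁻¹ n hn, ntr_level hr2L ψ2⁻¹ n hn]
    · have hR : ∀ Ψ : DirichletCharacter ℂ (r1 ^ e1 * (N * r2 ^ e2)),
          Ψ (n : ZMod (r1 ^ e1 * (N * r2 ^ e2))) = 0 := by
        intro Ψ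
        apply MulChar.map_nonunit
        rw [ZMod.isUnit_iff_coprime]
        exact hn
      rw [hR]
      obtain ⟨p, hp, hpn, hpL⟩ := Nat.Prime.not_coprime_iff_dvd.1 hn
      rcases (Nat.Prime.dvd_mul hp).1 hpL with h | h
      · rw [ntr_zero hp hpn h ψ1]
        ring
      · rcases (Nat.Prime.dvd_mul hp).1 h with h | h
        · rw [ntr_zero hp hpn h χ1]
          ring
        · rw [ntr_zero hp hpn h ψ2⁻¹]
          ring
  refine ⟨r1 ^ e1 * (N * r2 ^ e2), ⟨hL0⟩, _, ?_, hval⟩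
  intro hone
  obtain ⟨z, hz⟩ := MulChar.ne_one_iff.1 hψ
  have hr1n : NeZero (r1 ^ e1) := ⟨pow_ne_zero _ h1.ne_zero⟩
  have hcop : Nat.Coprime (r1 ^ e1) (N * r2 ^ e2) := by
    apply Nat.Coprime.pow_left
    apply Nat.Coprime.mul_right
    · exact (Nat.Prime.coprime_iff_not_dvd h1).2 hN1
    · exact Nat.Coprime.pow_right _ ((Nat.coprime_primes h1 h2).2 h12)
  obtain ⟨n, hn1, hn2⟩ := Nat.chineseRemainder hcop (z : ZMod (r1 ^ e1)).val 1
  have e1' : ((n : ℕ) : ZMod (r1 ^ e1)) = z := by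
    have h3 := (ZMod.natCast_eq_natCast_iff _ _ _).2 hn1
    rw [h3, ZMod.natCast_val, ZMod.cast_id]
  have e2' : ((n : ℕ) : ZMod N) = 1 := by
    have h3 := (ZMod.natCast_eq_natCast_iff _ _ _).2 (hn2.of_mul_right _)
    rw [h3, Nat.cast_one]
  have e3' : ((n : ℕ) : ZMod (r2 ^ e2)) = 1 := by
    have h3 := (ZMod.natCast_eq_natCast_iff _ _ _).2 (hn2.of_mul_left _)
    rw [h3, Nat.cast_one]
  have h4 := hval n
  rw [hone] at h4
  unfold prodChar at h4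
  rw [e1', e2', e3', map_one, map_one, map_one, one_mul, mul_one, map_one, mul_one] at h4
  by_cases hu : IsUnit ((n : ℕ) : ZMod (r1 ^ e1 * (N * r2 ^ e2)))
  · rw [MulChar.one_apply hu] at h4
    exact hz h4
  · rw [MulChar.map_nonunit _ hu] at h4
    have h5 : IsUnit (ψ1 (z : ZMod (r1 ^ e1))) := z.isUnit.map ψ1
    exact h5.ne_zero h4

end Pool.Agent.H11.PC
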