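import Mathlib
import Pool.Agent.H75.AP.MertensB
import Pool.Agent.H11.Selberg.Defs

/-!
# BDD: bounded coefficients at the primes give `S_F(x) = O(log log x)`
-/

set_option autoImplicit false

namespace Pool.Agent.H11.PC

open Pool.Agent.H11.Selberg

theorem bounded_S (a : ℕ → ℂ) (K : ℝ) (hK : ∀ p : ℕ, p.Prime → ‖a p‖ ≤ K) :
    ∃ C : ℝ, ∀ x : ℝ, 16 ≤ x → S a x ≤ C * Real.log (Real.log x) := by
  obtain ⟨C, hC, hm⟩ := Pool.Agent.H75.AP.mertens_upper
  refine ⟨K ^ 2 * (1 + C), fun x hx => ?_⟩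
  have h1 : 1 ≤ Real.log (Real.log x) := by
    have h1 : Real.exp 1 ≤ Real.log x := by
      have h2 : Real.log 16 ≤ Real.log x := Real.log_le_log (by norm_num) hx
      have h3 : Real.log 16 = 4 * Real.log 2 := by
        rw [show (16 : ℝ) = 2 ^ 4 by norm_num, Real.log_pow]
        norm_num
      have h4 := Real.log_two_gt_d9
      have h5 := Real.exp_one_lt_d9
      linarith
    rw [Real.le_log_iff_exp_le (lt_of_lt_of_le (Real.exp_pos 1) h1)]
    exact h1
  have h2 : S a x ≤ K ^ 2 * ∑ p ∈ Pool.Agent.H75.AP.PI 0 x, 1 / (p : ℝ) := by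
    unfold S
    rw [Finset.mul_sum]
    have hsub : (Finset.Icc 1 ⌊x⌋₊).filter Nat.Prime ⊆ Pool.Agent.H75.AP.PI 0 x := by
      intro p hp
      rw [Finset.mem_filter, Finset.mem_Icc] at hp
      unfold Pool.Agent.H75.AP.PI
      rw [Finset.mem_filter, Finset.mem_range]
      exact ⟨Nat.lt_succ_of_le hp.1.2, hp.2, by exact_mod_cast hp.2.pos⟩
    refine le_trans (Finset.sum_le_sum (fun p hp => ?_))
      (Finset.sum_le_sum_of_subset_of_nonneg hsub (fun p _ _ => by positivity))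
    rw [Finset.mem_filter] at hp
    have h3 := hK p hp.2
    have h4 : ‖a p‖ ^ 2 ≤ K ^ 2 := pow_le_pow_left₀ (norm_nonneg _) h3 2
    rw [mul_one_div]
    gcongr
  have h3 := hm x (by linarith)
  calc S a x ≤ K ^ 2 * ∑ p ∈ Pool.Agent.H75.AP.PI 0 x, 1 / (p : ℝ) := h2
    _ ≤ K ^ 2 * (Real.log (Real.log x) + C) := by gcongr
    _ ≤ K ^ 2 * (Real.log (Real.log x) + C * Real.log (Real.log x)) := by
        gcongr
        exact le_mul_of_one_le_right hC.le h1
    _ = K ^ 2 * (1 + C) * Real.log (Real.log x) := by ring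

end Pool.Agent.H11.PC
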