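import Mathlib
import Pool.Agent.H11.PC.Defs

/-!
# CHI: Fourier inversion on the units modulo `N`

`GS N χ d = ∑_z eN(z d) χ⁻¹(z)`, so `∑_χ χ(y) GS N χ d = ∑_z eN(z d) ∑_χ χ(y) χ⁻¹(z) = φ(N) eN(y d)`
(`DirichletCharacter.sum_char_inv_mul_char_eq`; `χ⁻¹ z = χ z⁻¹` for units).  `‖eN‖ = 1`, `‖χ⁻¹ y‖ ≤ 1`.
`eN_coe`: `ZMod.stdAddChar_coe`; with `x = (n a0 : ℕ)`: `eN N (n * a0) = e(-n a0/N)`.
-/

set_option autoImplicit false

namespace Pool.Agent.H11.PC

open Complex Filter Topology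

private theorem chix_sum (N : ℕ) [NeZero N] (d : ℕ) (y : (ZMod N)ˣ) :
    ∑ χ : DirichletCharacter ℂ N, χ (y : ZMod N) * GS N χ d =
      eN N ((y : ZMod N) * (d : ZMod N)) * (Nat.totient N : ℂ) := by
  unfold GS
  simp_rw [Finset.mul_sum]
  rw [Finset.sum_comm]
  have h1 : ∀ z : (ZMod N)ˣ, ∑ χ : DirichletCharacter ℂ N,
      χ (y : ZMod N) * (eN N ((z : ZMod N) * (d : ZMod N)) * χ⁻¹ (z : ZMod N)) =
      eN N ((z : ZMod N) * (d : ZMod N)) *
        (if (z : ZMod N) = (y : ZMod N) then (Nat.totient N : ℂ) else 0) := by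
    intro z
    rw [← DirichletCharacter.sum_char_inv_mul_char_eq ℂ z.isUnit (y : ZMod N), Finset.mul_sum]
    refine Finset.sum_congr rfl fun χ _ => ?_
    have h2 : χ⁻¹ (z : ZMod N) = χ (z : ZMod N)⁻¹ := by
      rw [MulChar.inv_apply, Ring.inverse_unit, ZMod.inv_coe_unit]
    rw [h2]
    ring
  rw [Finset.sum_congr rfl (fun z _ => h1 z), Finset.sum_eq_single y]
  · rw [if_pos rfl]
  · intro z _ hz
    rw [if_neg (fun h => hz (Units.ext h)), mul_zero]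
  · intro h
    exact absurd (Finset.mem_univ _) h

theorem fourier_eN (N : ℕ) [NeZero N] (d : ℕ) (y : (ZMod N)ˣ) :
    eN N ((y : ZMod N) * (d : ZMod N)) =
      (1 / (Nat.totient N : ℂ)) * ∑ χ : DirichletCharacter ℂ N, χ (y : ZMod N) * GS N χ d := by
  have h0 : (Nat.totient N : ℂ) ≠ 0 := by
    exact_mod_cast (Nat.totient_pos.2 (Nat.pos_of_ne_zero (NeZero.ne N))).ne'
  rw [chix_sum]
  field_simp

theorem eN_norm (N : ℕ) [NeZero N] (x : ZMod N) : ‖eN N x‖ = 1 := by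
  unfold eN
  rw [ZMod.stdAddChar_apply]
  exact Circle.norm_coe _

theorem GS_bound (N : ℕ) [NeZero N] (χ : DirichletCharacter ℂ N) (d : ℕ) :
    ‖GS N χ d‖ ≤ Nat.totient N := by
  unfold GS
  refine (norm_sum_le _ _).trans ?_
  calc ∑ y : (ZMod N)ˣ, ‖eN N ((y : ZMod N) * (d : ZMod N)) * χ⁻¹ (y : ZMod N)‖
      ≤ ∑ y : (ZMod N)ˣ, (1 : ℝ) := by
        refine Finset.sum_le_sum fun y _ => ?_
        rw [norm_mul, eN_norm, one_mul]
        exact DirichletCharacter.norm_le_one _ _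
    _ = Nat.totient N := by
        rw [Finset.sum_const, nsmul_eq_mul, mul_one, Finset.card_univ, ZMod.card_units_eq_totient]

theorem eN_coe (N : ℕ) [NeZero N] (x : ℕ) :
    eN N (x : ZMod N) = cexp (-(2 * (Real.pi : ℂ) * x / N * I)) := by
  unfold eN
  have h1 : (-(x : ZMod N)) = ((-(x : ℤ) : ℤ) : ZMod N) := by push_cast; rfl
  rw [h1, ZMod.stdAddChar_coe]
  congr 1
  push_cast
  ring

end Pool.Agent.H11.PC
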