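import Mathlib
import Pool.Agent.H11.PC.Defs

/-!
# SMD: every `n ≥ 1` is uniquely `d m` with `d | N^∞` and `m` coprime to `N`

`d = ∏_{p | N} p^(v_p(n))` (e.g. `(n.factorization.prod` restricted to `N.primeFactors)`, or
`d = gcd(n, N^n)`), `m = n / d`.  So `(d, m) ↦ d m` is a bijection of `{(d, m) : Smo N d, Coprime m N, m ≠ 0}` onto the positive
integers; `m = 0` is coprime to `N` only for `N = 1`, and then `f (d * 0) = f 0 = 0`.  Both statements follow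
(`Summable.tsum_prod`, `Function.Injective.summable_iff`, `tsum_subtype`...).
-/

set_option autoImplicit false

namespace Pool.Agent.H11.PC

open Complex Filter Topology
theorem smd_exists (N n : ℕ) (hn : n ≠ 0) :
    ∃ d m : ℕ, Smo N d ∧ Nat.Coprime m N ∧ m ≠ 0 ∧ d * m = n := by
  induction n using Nat.strong_induction_on with
  | _ n ih =>
    by_cases hc : Nat.Coprime n N
    · exact ⟨1, n, ⟨one_ne_zero, fun p hp h1 => absurd (Nat.dvd_one.1 h1) hp.one_lt.ne'⟩, hc, hn, one_mul n⟩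
    · obtain ⟨p, hp, hpn, hpN⟩ := Nat.Prime.not_coprime_iff_dvd.1 hc
      obtain ⟨k, hk⟩ := hpn
      have hk0 : k ≠ 0 := by
        intro h
        rw [h, mul_zero] at hk
        exact hn hk
      have hlt : k < n := by
        rw [hk]
        exact lt_mul_of_one_lt_left (Nat.pos_of_ne_zero hk0) hp.one_lt
      obtain ⟨d, m, ⟨hd0, hd⟩, hm, hm0, hdm⟩ := ih k hlt hk0
      refine ⟨p * d, m, ⟨mul_ne_zero hp.ne_zero hd0, ?_⟩, hm, hm0, ?_⟩
      · intro q hq hqd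
        rcases (Nat.Prime.dvd_mul hq).1 hqd with h | h
        · rw [(Nat.prime_dvd_prime_iff_eq hq hp).1 h]
          exact hpN
        · exact hd q hq h
      · rw [hk, ← hdm, mul_assoc]

theorem smd_dvd {N d m d' m' : ℕ} (hd : Smo N d) (hm' : Nat.Coprime m' N)
    (h : d * m = d' * m') : d ∣ d' := by
  have hc : Nat.Coprime d m' := by
    rw [Nat.coprime_iff_gcd_eq_one]
    by_contra hg
    obtain ⟨p, hp, hpg⟩ := Nat.exists_prime_and_dvd hg
    have h1 : p ∣ d := hpg.trans (Nat.gcd_dvd_left _ _)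
    have h2 : p ∣ m' := hpg.trans (Nat.gcd_dvd_right _ _)
    have h3 : p ∣ N := hd.2 p hp h1
    have h4 : p ∣ Nat.gcd m' N := Nat.dvd_gcd h2 h3
    rw [hm'] at h4
    exact hp.one_lt.ne' (Nat.dvd_one.1 h4)
  exact hc.dvd_of_dvd_mul_right (Dvd.intro m h)

/-- the set of pairs -/
def smdS (N : ℕ) : Set (ℕ × ℕ) := {x | Smo N x.1 ∧ Nat.Coprime x.2 N ∧ x.2 ≠ 0}

theorem smd_inj (N : ℕ) : Function.Injective (fun x : smdS N => (x : ℕ × ℕ).1 * (x : ℕ × ℕ).2) := by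
  rintro ⟨⟨d, m⟩, hd, hm, hm0⟩ ⟨⟨d', m'⟩, hd', hm', hm0'⟩ h
  simp only at h hd hm hm0 hd' hm' hm0'
  have h1 : d = d' := Nat.dvd_antisymm (smd_dvd hd hm' h) (smd_dvd hd' hm h.symm)
  subst h1
  have h2 : m = m' := Nat.eq_of_mul_eq_mul_left (Nat.pos_of_ne_zero hd.1) h
  subst h2
  rfl

open Classical in
theorem smd_ind (N : ℕ) (f : ℕ → ℂ) (h0 : f 0 = 0) :
    (fun x : ℕ × ℕ => (if Smo N x.1 ∧ Nat.Coprime x.2 N then f (x.1 * x.2) else 0 : ℂ)) =
      (smdS N).indicator (fun x : ℕ × ℕ => f (x.1 * x.2)) := by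
  funext x
  by_cases hx : x ∈ smdS N
  · rw [Set.indicator_of_mem hx, if_pos ⟨hx.1, hx.2.1⟩]
  · rw [Set.indicator_of_notMem hx]
    by_cases hs : Smo N x.1 ∧ Nat.Coprime x.2 N
    · rw [if_pos hs]
      have h2 : x.2 = 0 := by
        by_contra h
        exact hx ⟨hs.1, hs.2, h⟩
      rw [h2, mul_zero, h0]
    · rw [if_neg hs]

open Classical in
theorem smooth_summable (N : ℕ) (hN : 1 ≤ N) (f : ℕ → ℂ) (hf : Summable (fun n => ‖f n‖))
    (h0 : f 0 = 0) : Summable (fun x : ℕ × ℕ =>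
      ‖(if Smo N x.1 ∧ Nat.Coprime x.2 N then f (x.1 * x.2) else 0 : ℂ)‖) := by
  have h1 : (fun x : ℕ × ℕ =>
      ‖(if Smo N x.1 ∧ Nat.Coprime x.2 N then f (x.1 * x.2) else 0 : ℂ)‖) =
      (smdS N).indicator (fun x : ℕ × ℕ => ‖f (x.1 * x.2)‖) := by
    funext x
    have h2 : (if Smo N x.1 ∧ Nat.Coprime x.2 N then f (x.1 * x.2) else 0 : ℂ) =
        (smdS N).indicator (fun x : ℕ × ℕ => f (x.1 * x.2)) x := congrFun (smd_ind N f h0) x
    rw [h2, norm_indicator_eq_indicator_norm]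
  rw [h1, ← summable_subtype_iff_indicator]
  exact hf.comp_injective (smd_inj N)

open Classical in
theorem smooth_sum (N : ℕ) (hN : 1 ≤ N) (f : ℕ → ℂ) (hf : Summable (fun n => ‖f n‖))
    (h0 : f 0 = 0) : ∑' n, f n =
      ∑' d : ℕ, ∑' m : ℕ, if Smo N d ∧ Nat.Coprime m N then f (d * m) else 0 := by
  have hs := smooth_summable N hN f hf h0
  have h1 : ∑' x : ℕ × ℕ, (if Smo N x.1 ∧ Nat.Coprime x.2 N then f (x.1 * x.2) else 0 : ℂ) =
      ∑' d : ℕ, ∑' m : ℕ, if Smo N d ∧ Nat.Coprime m N then f (d * m) else 0 :=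
    hs.of_norm.tsum_prod
  rw [← h1, smd_ind N f h0, ← tsum_subtype]
  symm
  refine (smd_inj N).tsum_eq (f := f) ?_
  intro n hn
  have hn0 : n ≠ 0 := by
    intro h
    rw [h] at hn
    exact hn h0
  obtain ⟨d, m, hd, hm, hm0, hdm⟩ := smd_exists N n hn0
  exact ⟨⟨(d, m), hd, hm, hm0⟩, hdm⟩

end Pool.Agent.H11.PC
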