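import Mathlib
import Pool.Agent.H11.PC.Defs
import Pool.Agent.H11.PC.CHI

/-!
# EXPC: the additive character of denominator `N r^e` on the integers prime to `r`

Let `R` be an inverse of `r^e` modulo `N` and `N'` an inverse of `N` modulo `r^e`: `N N' + r^e R ≡ 1 (mod N r^e)`, so
`n a0/(N r^e) ≡ n a0 R/N + n a0 N'/r^e (mod 1)` and `e(-n a0/(N r^e)) = eN N (n a0 R) e(-n a0 N'/r^e)`.  The function
`y ↦ e(-y a0 N'/r^e)` on the units `y` modulo `r^e` is a linear combination `∑_ψ c_ψ ψ(y)` (`c_ψ` = its mean against `conj ψ`;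
as in `fourier_eN`), and `c_1 = φ(r^e)⁻¹ ∑_{y unit} e(-y a0 N'/r^e)`, a Ramanujan sum since `a0 N'` is a unit modulo `r^e`
(`r ∤ a0`): the sum over all `y` modulo `r^e` is `0`, the sum over the multiples of `r` is `0` if `e ≥ 2` and `1` if
`e = 1`; so `c_1 = -1/(r-1)` if `e = 1` and `0` if `e ≥ 2`.
Here `u = a0 * (r^e)⁻¹` in `(ZMod N)ˣ`.
-/

set_option autoImplicit false

namespace Pool.Agent.H11.PC

open Complex Filter Topology

theorem expc_eN_one (M : ℕ) [NeZero M] (x : ZMod M) : eN M x = 1 ↔ x = 0 := by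
  unfold eN
  constructor
  · intro h
    have h1 : -x = 0 := by
      apply ZMod.injective_stdAddChar
      rw [h, AddChar.map_zero_eq_one]
    exact neg_eq_zero.1 h1
  · rintro rfl
    rw [neg_zero, AddChar.map_zero_eq_one]

theorem expc_eN_add (M : ℕ) [NeZero M] (x y : ZMod M) : eN M (x + y) = eN M x * eN M y := by
  unfold eN
  rw [neg_add, AddChar.map_add_eq_mul]

theorem expc_unit_sum (M : ℕ) [NeZero M] (d : ZMod M) :
    ∑ y : (ZMod M)ˣ, eN M ((y : ZMod M) * d) * (1 : DirichletCharacter ℂ M)⁻¹ (y : ZMod M) =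
      ∑ x ∈ Finset.univ.filter (fun x : ZMod M => IsUnit x), eN M (x * d) := by
  refine Finset.sum_bij (fun (y : (ZMod M)ˣ) _ => (y : ZMod M)) ?_ ?_ ?_ ?_
  · intro y _
    exact Finset.mem_filter.2 ⟨Finset.mem_univ _, y.isUnit⟩
  · intro y _ z _ h
    exact Units.ext h
  · intro x hx
    obtain ⟨y, hy⟩ := (Finset.mem_filter.1 hx).2
    exact ⟨y, Finset.mem_univ _, hy⟩
  · intro y _
    rw [inv_one, MulChar.one_apply_coe, mul_one]

theorem expc_prime (M : ℕ) [NeZero M] (hM : M.Prime) (d : ZMod M) (hd : d ≠ 0) :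
    ∑ x ∈ Finset.univ.filter (fun x : ZMod M => IsUnit x), eN M (x * d) = -1 := by
  have : Fact M.Prime := ⟨hM⟩
  have h1 : ∑ x : ZMod M, eN M (x * d) = 0 := by
    have h2 := AddChar.sum_mulShift (-d) (ZMod.isPrimitive_stdAddChar M)
    rw [if_neg (neg_ne_zero.2 hd), Nat.cast_zero] at h2
    rw [← h2]
    refine Finset.sum_congr rfl fun x _ => ?_
    unfold eN
    rw [mul_neg]
  have h3 : Finset.univ.filter (fun x : ZMod M => IsUnit x) = Finset.univ.erase 0 := by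
    ext x
    simp [isUnit_iff_ne_zero]
  rw [h3, Finset.sum_erase_eq_sub (Finset.mem_univ _), h1, zero_mul, (expc_eN_one M 0).2 rfl]
  norm_num

theorem expc_high (r e : ℕ) (hr : r.Prime) (he : 2 ≤ e) [NeZero (r ^ e)] (d : ZMod (r ^ e))
    (hd : IsUnit d) :
    ∑ x ∈ Finset.univ.filter (fun x : ZMod (r ^ e) => IsUnit x), eN (r ^ e) (x * d) = 0 := by
  set t : ZMod (r ^ e) := ((r ^ (e - 1) : ℕ) : ZMod (r ^ e)) with ht
  have ht0 : t ≠ 0 := by
    rw [ht, Ne, ZMod.natCast_eq_zero_iff]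
    intro h
    have h1 := (Nat.pow_dvd_pow_iff_le_right hr.one_lt).1 h
    omega
  have htn : IsNilpotent t := by
    refine ⟨2, ?_⟩
    rw [ht, ← Nat.cast_pow, ZMod.natCast_eq_zero_iff, ← pow_mul]
    exact Nat.pow_dvd_pow r (by omega)
  have hu : ∀ x : ZMod (r ^ e), IsUnit (x + t) ↔ IsUnit x := by
    intro x
    constructor
    · intro h
      have h1 := IsNilpotent.isUnit_add_left_of_commute (htn.neg) h (Commute.all _ _)
      have e1 : -t + (x + t) = x := by ring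
      have e2 : x + t + -t = x := by ring
      first
        | rwa [e1] at h1
        | rwa [e2] at h1
    · intro h
      have h1 := IsNilpotent.isUnit_add_left_of_commute htn h (Commute.all _ _)
      exact h1
  have h1 : ∑ x : ZMod (r ^ e), (if IsUnit x then eN (r ^ e) (x * d) else 0) =
      eN (r ^ e) (t * d) * ∑ x : ZMod (r ^ e), (if IsUnit x then eN (r ^ e) (x * d) else 0) := by
    rw [Finset.mul_sum]
    have e0 := Equiv.sum_comp (Equiv.addRight t)
      (fun x : ZMod (r ^ e) => if IsUnit x then eN (r ^ e) (x * d) else 0)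
    rw [← e0]
    refine Finset.sum_congr rfl fun x _ => ?_
    rw [Equiv.coe_addRight]
    by_cases hx : IsUnit x
    · rw [if_pos hx, if_pos ((hu x).2 hx), add_mul, expc_eN_add, mul_comm]
    · rw [if_neg hx, if_neg fun h => hx ((hu x).1 h), mul_zero]
  rw [Finset.sum_filter]
  have h2 : eN (r ^ e) (t * d) ≠ 1 := by
    rw [Ne, expc_eN_one]
    intro h
    exact ht0 ((hd.mul_left_eq_zero).1 h)
  set S := ∑ x : ZMod (r ^ e), (if IsUnit x then eN (r ^ e) (x * d) else 0)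
  have h3 : (1 - eN (r ^ e) (t * d)) * S = 0 := by
    rw [sub_mul, one_mul, ← h1, sub_self]
  rcases mul_eq_zero.1 h3 with h4 | h4
  · exact absurd (sub_eq_zero.1 h4).symm h2
  · exact h4

theorem expc_ram (r e : ℕ) (hr : r.Prime) (he : 1 ≤ e) [NeZero (r ^ e)] (d : ℕ)
    (hd : ¬ r ∣ d) :
    GS (r ^ e) 1 d = (Nat.totient (r ^ e) : ℂ) * (if e = 1 then -(1 / ((r : ℂ) - 1)) else 0) := by
  have hdu : IsUnit (d : ZMod (r ^ e)) := by
    rw [ZMod.isUnit_iff_coprime]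
    exact ((hr.coprime_iff_not_dvd.2 hd).symm).pow_right e
  unfold GS
  rw [expc_unit_sum]
  by_cases h1 : e = 1
  · subst h1
    rw [if_pos rfl]
    have hp : (r ^ 1).Prime := by rw [pow_one]; exact hr
    have : Fact (r ^ 1).Prime := ⟨hp⟩
    rw [expc_prime (r ^ 1) hp _ hdu.ne_zero, pow_one, Nat.totient_prime hr, Nat.cast_pred hr.pos]
    have h2 : (r : ℂ) - 1 ≠ 0 := by
      rw [sub_ne_zero]
      exact_mod_cast hr.one_lt.ne'
    field_simp
  · rw [if_neg h1, mul_zero]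
    exact expc_high r e hr (by omega) _ hdu

theorem exp_char (N : ℕ) [NeZero N] (r : ℕ) (hr : r.Prime) (hrN : Nat.Coprime r N) (a0 : ℕ)
    (ha : Nat.Coprime a0 N) (hra : ¬ r ∣ a0) (e : ℕ) (he : 1 ≤ e) [NeZero (r ^ e)] :
    ∃ c : DirichletCharacter ℂ (r ^ e) → ℂ, c 1 = 0 ∧ ∀ n : ℕ, ¬ r ∣ n →
      cexp (-(2 * (Real.pi : ℂ) * n * (((a0 : ℝ) / ((N : ℝ) * (r : ℝ) ^ e) : ℝ) : ℂ) * I)) =
      eN N ((n : ZMod N) *
        (((ZMod.unitOfCoprime a0 ha) * ((ZMod.unitOfCoprime r hrN)⁻¹) ^ e : (ZMod N)ˣ) : ZMod N)) *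
      ((if e = 1 then -(1 / ((r : ℂ) - 1)) else 0) +
        ∑ ψ : DirichletCharacter ℂ (r ^ e), c ψ * ψ (n : ZMod (r ^ e))) := by
  classical
  have hcop : Nat.Coprime (r ^ e) N := hrN.pow_left e
  -- inverses
  set R : ℕ := (((r ^ e : ℕ) : ZMod N)⁻¹).val with hR
  set N' : ℕ := (((N : ℕ) : ZMod (r ^ e))⁻¹).val with hN'
  have hR1 : ((R : ℕ) : ZMod N) = ((r ^ e : ℕ) : ZMod N)⁻¹ := by
    rw [hR, ZMod.natCast_zmod_val]
  have hN1 : ((N' : ℕ) : ZMod (r ^ e)) = ((N : ℕ) : ZMod (r ^ e))⁻¹ := by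
    rw [hN', ZMod.natCast_zmod_val]
  have hR2 : ((r ^ e : ℕ) : ZMod N) * (R : ZMod N) = 1 := by
    rw [hR1]
    exact ZMod.coe_mul_inv_eq_one _ hcop
  have hN2 : ((N : ℕ) : ZMod (r ^ e)) * (N' : ZMod (r ^ e)) = 1 := by
    rw [hN1]
    exact ZMod.coe_mul_inv_eq_one _ hcop.symm
  -- the integer k
  have hk : ((N * r ^ e : ℕ) : ℤ) ∣ ((N : ℤ) * N' + r ^ e * R - 1) := by
    have h1 : (N : ℤ) ∣ ((N : ℤ) * N' + r ^ e * R - 1) := by
      rw [← ZMod.intCast_zmod_eq_zero_iff_dvd]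
      push_cast at hR2 ⊢
      rw [ZMod.natCast_self, zero_mul, zero_add, hR2, sub_self]
    have h2 : ((r ^ e : ℕ) : ℤ) ∣ ((N : ℤ) * N' + r ^ e * R - 1) := by
      rw [← ZMod.intCast_zmod_eq_zero_iff_dvd]
      have h3 : (((r ^ e : ℕ)) : ZMod (r ^ e)) = 0 := ZMod.natCast_self _
      push_cast at hN2 h3 ⊢
      rw [h3, zero_mul, add_zero, hN2, sub_self]
    have h4 : IsCoprime (N : ℤ) ((r ^ e : ℕ) : ℤ) := by
      rw [Nat.isCoprime_iff_coprime]
      exact hcop.symm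
    push_cast at h2 h4 ⊢
    exact h4.mul_dvd h1 h2
  obtain ⟨k, hk⟩ := hk
  have hdiv : ¬ r ∣ a0 * N' := by
    intro h
    rcases (hr.dvd_mul).1 h with h1 | h1
    · exact hra h1
    · have h2 : IsUnit ((N' : ℕ) : ZMod (r ^ e)) := IsUnit.of_mul_eq_one_right _ hN2
      rw [ZMod.isUnit_iff_coprime] at h2
      have h3 : Nat.Coprime N' r := Nat.Coprime.coprime_dvd_right (dvd_pow_self r (by omega)) h2
      have h4 := Nat.dvd_gcd h1 (dvd_refl r)
      rw [h3] at h4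
      exact hr.one_lt.ne' (Nat.dvd_one.1 h4)
  refine ⟨fun ψ => if ψ = 1 then 0 else
    (1 / (Nat.totient (r ^ e) : ℂ)) * GS (r ^ e) ψ (a0 * N'), if_pos rfl, fun n hn => ?_⟩
  have hnc : Nat.Coprime n (r ^ e) := ((hr.coprime_iff_not_dvd.2 hn).symm).pow_right e
  have hN0 : (N : ℂ) ≠ 0 := by exact_mod_cast NeZero.ne N
  have hr0 : (r : ℂ) ^ e ≠ 0 := by
    have := NeZero.ne (r ^ e)
    exact_mod_cast this
  -- the splitting
  have hsplit : cexp (-(2 * (Real.pi : ℂ) * n * (((a0 : ℝ) / ((N : ℝ) * (r : ℝ) ^ e) : ℝ) : ℂ) * I)) =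
      eN N ((n * a0 * R : ℕ) : ZMod N) * eN (r ^ e) ((n * (a0 * N') : ℕ) : ZMod (r ^ e)) := by
    rw [eN_coe, eN_coe, ← Complex.exp_add]
    rw [Complex.exp_eq_exp_iff_exists_int]
    refine ⟨k * (n * a0), ?_⟩
    have hkC : (N : ℂ) * N' + (r : ℂ) ^ e * R - 1 = N * (r : ℂ) ^ e * k := by
      exact_mod_cast congrArg (Int.cast : ℤ → ℂ) hk
    push_cast
    have h5 : (1 : ℂ) / (N * (r : ℂ) ^ e) = N' / (r : ℂ) ^ e + R / N - k := by
      field_simp
      linear_combination -hkC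
    have h6 : (a0 : ℂ) / (N * (r : ℂ) ^ e) = a0 * (N' / (r : ℂ) ^ e + R / N - k) := by
      rw [← h5]
      ring
    rw [h6]
    ring
  rw [hsplit]
  congr 1
  · congr 1
    have h7 : (r : ZMod N) * (((ZMod.unitOfCoprime r hrN)⁻¹ : (ZMod N)ˣ) : ZMod N) = 1 := by
      have h8 := Units.mul_inv (ZMod.unitOfCoprime r hrN)
      rwa [ZMod.coe_unitOfCoprime] at h8
    have h9 : (R : ZMod N) = (((ZMod.unitOfCoprime r hrN)⁻¹ : (ZMod N)ˣ) : ZMod N) ^ e := by
      push_cast at hR2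
      calc (R : ZMod N) = (R : ZMod N) *
            ((r : ZMod N) * (((ZMod.unitOfCoprime r hrN)⁻¹ : (ZMod N)ˣ) : ZMod N)) ^ e := by
            rw [h7, one_pow, mul_one]
        _ = ((r : ZMod N) ^ e * R) * (((ZMod.unitOfCoprime r hrN)⁻¹ : (ZMod N)ˣ) : ZMod N) ^ e := by
            rw [mul_pow]
            ring
        _ = _ := by rw [hR2, one_mul]
    rw [Units.val_mul, Units.val_pow_eq_pow_val, ZMod.coe_unitOfCoprime, ← h9]
    push_cast
    ring
  · have hf := fourier_eN (r ^ e) (a0 * N') (ZMod.unitOfCoprime n hnc)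
    rw [ZMod.coe_unitOfCoprime] at hf
    have e1 : ((n * (a0 * N') : ℕ) : ZMod (r ^ e)) = (n : ZMod (r ^ e)) * ((a0 * N' : ℕ) : ZMod (r ^ e)) := by
      push_cast
      ring
    rw [e1, hf, ← Finset.add_sum_erase Finset.univ _ (Finset.mem_univ (1 : DirichletCharacter ℂ (r ^ e))),
      ← Finset.add_sum_erase Finset.univ (fun ψ : DirichletCharacter ℂ (r ^ e) =>
        (if ψ = 1 then 0 else (1 / (Nat.totient (r ^ e) : ℂ)) * GS (r ^ e) ψ (a0 * N')) *
          ψ (n : ZMod (r ^ e))) (Finset.mem_univ (1 : DirichletCharacter ℂ (r ^ e)))]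
    rw [if_pos rfl, zero_mul, zero_add, mul_add]
    have h0 : (Nat.totient (r ^ e) : ℂ) ≠ 0 := by
      have := Nat.totient_pos.2 (NeZero.pos (r ^ e))
      exact_mod_cast this.ne'
    congr 1
    · rw [expc_ram r e hr he _ hdiv]
      have h8 : (1 : DirichletCharacter ℂ (r ^ e)) (n : ZMod (r ^ e)) = 1 := by
        have := MulChar.one_apply_coe (R' := ℂ) (ZMod.unitOfCoprime n hnc)
        rwa [ZMod.coe_unitOfCoprime] at this
      rw [h8, one_mul, ← mul_assoc, one_div_mul_cancel h0, one_mul]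
    · rw [Finset.mul_sum]
      refine Finset.sum_congr rfl fun ψ hψ => ?_
      rw [if_neg (Finset.ne_of_mem_erase hψ)]
      ring

end Pool.Agent.H11.PC
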