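import Mathlib
import Pool.Agent.H11.PC.Defs

/-!
# MEL: the Mellin transform of `gs b 3` on a vertical line

`gs b 3 (y + βI) = ∑ b(n) n³ e(-nβ) e^(-2πny)`, and for `n ≥ 1`
`∫_0^∞ e^(-2πny) y^(s+2) dy = Γ(s+3) (2πn)^(-(s+3))` (`Complex.integral_cpow_mul_exp_neg_mul_Ioi`); exchange sum and integral
(`MeasureTheory.hasSum_integral_of_summable_integral_norm`, `∑ ‖b n‖ n^(-Re s) < ∞`).  The term `n = 0` vanishes.
`gs_bd`: for `y > 0` `‖gs b 3 (y + βI)‖ ≤ ∑ C n^4 e^(-2πny) ≤ C' e^(-y) y^(-5)`, say.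
-/

set_option autoImplicit false

namespace Pool.Agent.H11.PC

open Complex Filter Topology Pool.Agent.H11.SC

theorem mel_tsum_integrable {F : ℕ → ℝ → ℂ} {μ : MeasureTheory.Measure ℝ}
    (hF_int : ∀ i, MeasureTheory.Integrable (F i) μ)
    (hF_sum : Summable fun i => ∫ a, ‖F i a‖ ∂μ)
    (hs : ∀ᵐ a ∂μ, Summable fun i => F i a) :
    MeasureTheory.Integrable (fun a => ∑' i, F i a) μ := by
  have h1 (i : ℕ) : ∫⁻ a, ‖F i a‖ₑ ∂μ = ‖∫ a, ‖F i a‖ ∂μ‖ₑ := by
    dsimp [enorm]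
    rw [MeasureTheory.lintegral_coe_eq_integral _ (hF_int i).norm, ENNReal.coe_nnreal_eq, coe_nnnorm,
      Real.norm_of_nonneg (MeasureTheory.integral_nonneg (fun a ↦ norm_nonneg (F i a)))]
    simp only [coe_nnnorm]
  have h2 : ∑' i, ∫⁻ a, ‖F i a‖ₑ ∂μ ≠ ⊤ := by
    rw [funext h1]
    exact ENNReal.tsum_coe_ne_top_iff_summable.2 <| NNReal.summable_coe.1 hF_sum.abs
  have h3 : ∫⁻ a, ∑' i, ‖F i a‖ₑ ∂μ ≠ ⊤ := by
    rw [MeasureTheory.lintegral_tsum (fun i => (hF_int i).1.enorm)]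
    exact h2
  refine ⟨?_, ?_⟩
  · refine aestronglyMeasurable_of_tendsto_ae atTop
      (f := fun (n : ℕ) a => ∑ i ∈ Finset.range n, F i a) (fun n => ?_) ?_
    · exact Finset.aestronglyMeasurable_fun_sum _ (fun i _ => (hF_int i).1)
    · filter_upwards [hs] with a ha
      exact ha.hasSum.tendsto_sum_nat
  · refine lt_of_le_of_lt (MeasureTheory.lintegral_mono (fun a => ?_)) (lt_top_iff_ne_top.2 h3)
    exact enorm_tsum_le_tsum_enorm

theorem mel_term_norm (b : ℕ → ℂ) (β y : ℝ) (n : ℕ) :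
    ‖b n * (n : ℂ) ^ 3 * cexp (-(2 * (Real.pi : ℂ) * n * (y + β * I)))‖ =
      ‖b n‖ * (n : ℝ) ^ 3 * Real.exp (-(2 * Real.pi * n * y)) := by
  rw [norm_mul, norm_mul, norm_pow, Complex.norm_natCast, Complex.norm_exp]
  congr 2
  simp

theorem mel_bound {b : ℕ → ℂ} {C : ℝ} (hC : ∀ n : ℕ, 1 ≤ n → ‖b n‖ ≤ C * (n : ℝ) ^ (1 : ℝ))
    (β y : ℝ) (n : ℕ) :
    ‖b n * (n : ℂ) ^ 3 * cexp (-(2 * (Real.pi : ℂ) * n * (y + β * I)))‖ ≤
      C * ((n : ℝ) ^ 4 * Real.exp (-(2 * Real.pi * y) * n)) := by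
  rw [mel_term_norm]
  rcases Nat.eq_zero_or_pos n with rfl | hn
  · simp
  · have := hC n hn
    rw [Real.rpow_one] at this
    have e : -(2 * Real.pi * n * y) = -(2 * Real.pi * y) * n := by ring
    rw [e]
    calc ‖b n‖ * (n : ℝ) ^ 3 * Real.exp (-(2 * Real.pi * y) * n)
        ≤ (C * n) * (n : ℝ) ^ 3 * Real.exp (-(2 * Real.pi * y) * n) := by gcongr
      _ = _ := by ring

theorem mel_summable {b : ℕ → ℂ} {C : ℝ} (hC : ∀ n : ℕ, 1 ≤ n → ‖b n‖ ≤ C * (n : ℝ) ^ (1 : ℝ))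
    (β : ℝ) {y : ℝ} (hy : 0 < y) :
    Summable fun n : ℕ => b n * (n : ℂ) ^ 3 * cexp (-(2 * (Real.pi : ℂ) * n * (y + β * I))) := by
  have h := (Real.summable_pow_mul_exp_neg_nat_mul 4 (r := 2 * Real.pi * y) (by positivity)).mul_left C
  exact Summable.of_norm_bounded h (fun n => mel_bound hC β y n)

theorem mellin_gs {b : ℕ → ℂ}
    (ram : ∀ δ : ℝ, 0 < δ → ∃ C : ℝ, ∀ n : ℕ, 1 ≤ n → ‖b n‖ ≤ C * (n : ℝ) ^ δ)
    (β : ℝ) (s : ℂ) (hs : 1 < s.re) :
    MeasureTheory.IntegrableOn (fun y : ℝ => gs b 3 (y + β * I) * (y : ℂ) ^ (s + 2))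
      (Set.Ioi 0) ∧
    ∫ y in Set.Ioi (0 : ℝ), gs b 3 (y + β * I) * (y : ℂ) ^ (s + 2) =
      Gamma (s + 3) * (2 * (Real.pi : ℂ)) ^ (-(s + 3)) * Es b β s := by
  obtain ⟨C, hC⟩ := ram 1 one_pos
  set δ : ℝ := (s.re - 1) / 2 with hδ
  obtain ⟨D, hD⟩ := ram δ (by rw [hδ]; linarith)
  set a : ℕ → ℂ := fun n => b n * (n : ℂ) ^ 3 * cexp (-(2 * (Real.pi : ℂ) * n * β * I)) with ha
  set p : ℕ → ℝ := fun n => 2 * Real.pi * n with hp
  have hterm : ∀ (n : ℕ) (y : ℝ), b n * (n : ℂ) ^ 3 * cexp (-(2 * (Real.pi : ℂ) * n * (y + β * I))) =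
      a n * (Real.exp (-p n * y) : ℝ) := by
    intro n y
    rw [ha, hp]
    simp only
    rw [Complex.ofReal_exp, mul_assoc (b n * (n : ℂ) ^ 3), ← Complex.exp_add]
    congr 2
    push_cast
    ring
  have han : ∀ n : ℕ, ‖a n‖ = ‖b n‖ * (n : ℝ) ^ 3 := by
    intro n
    rw [ha]
    simp only
    rw [norm_mul, norm_mul, norm_pow, Complex.norm_natCast, Complex.norm_exp]
    simp
  have hpp : ∀ i, a i = 0 ∨ 0 < p i := by
    intro i
    rcases Nat.eq_zero_or_pos i with rfl | hi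
    · left
      simp [ha]
    · right
      rw [hp]
      simp only
      positivity
  have hs3 : 0 < (s + 3).re := by
    simp
    linarith
  have hF : ∀ t ∈ Set.Ioi (0 : ℝ), HasSum (fun i ↦ a i * ((Real.exp (-p i * t) : ℝ) : ℂ))
      (gs b 3 (t + β * I)) := by
    intro t ht
    have h := (mel_summable hC β (Set.mem_Ioi.1 ht)).hasSum
    rw [gs]
    simp only [hterm] at h ⊢
    exact h
  have h_sum : Summable fun i ↦ ‖a i‖ / (p i) ^ (s + 3).re := by
    have hsm : Summable fun n : ℕ => |D| * (1 / (n : ℝ) ^ (1 + δ)) :=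
      (Real.summable_one_div_nat_rpow.2 (by rw [hδ]; linarith)).mul_left _
    refine Summable.of_nonneg_of_le (fun i => ?_) (fun i => ?_) hsm
    · apply div_nonneg (norm_nonneg _)
      apply Real.rpow_nonneg
      rw [hp]
      positivity
    · rcases Nat.eq_zero_or_pos i with rfl | hi
      · rw [han]
        simp
        positivity
      · have hi' : (0 : ℝ) < i := by exact_mod_cast hi
        rw [han, hp]
        simp only
        rw [div_le_iff₀ (by positivity)]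
        have h1 := hD i hi
        have h2 : (i : ℝ) ^ (s + 3).re ≤ (2 * Real.pi * i) ^ (s + 3).re := by
          apply Real.rpow_le_rpow hi'.le _ hs3.le
          have : (1 : ℝ) ≤ 2 * Real.pi := by nlinarith [Real.pi_gt_three]
          nlinarith
        calc ‖b i‖ * (i : ℝ) ^ 3 ≤ (|D| * (i : ℝ) ^ δ) * (i : ℝ) ^ 3 := by
              gcongr
              exact h1.trans (by gcongr; exact le_abs_self D)
          _ = |D| * (1 / (i : ℝ) ^ (1 + δ)) * (i : ℝ) ^ (s + 3).re := by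
              have e1 : (i : ℝ) ^ (s + 3).re = (i : ℝ) ^ (1 + δ) * ((i : ℝ) ^ δ * (i : ℝ) ^ (3 : ℕ)) := by
                rw [← Real.rpow_natCast, ← Real.rpow_add hi', ← Real.rpow_add hi']
                congr 1
                simp
                rw [hδ]
                ring
              rw [e1]
              have : (i : ℝ) ^ (1 + δ) ≠ 0 := by positivity
              field_simp
          _ ≤ |D| * (1 / (i : ℝ) ^ (1 + δ)) * (2 * Real.pi * i) ^ (s + 3).re := by gcongr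
  have hm := hasSum_mellin hpp hs3 hF h_sum
  -- integrability
  have hII : MeasureTheory.IntegrableOn (fun y : ℝ => ∑' n : ℕ, (a n * ((Real.exp (-p n * y) : ℝ) : ℂ)) *
      (y : ℂ) ^ (s + 2)) (Set.Ioi 0) := by
    have hnorm : ∀ n : ℕ, 0 < n → ∫ y in Set.Ioi (0 : ℝ), ‖(a n * ((Real.exp (-p n * y) : ℝ) : ℂ)) *
        (y : ℂ) ^ (s + 2)‖ = Real.Gamma (s + 3).re * (‖a n‖ / (p n) ^ (s + 3).re) := by
      intro n hn
      have hpn : 0 < p n := by
        rw [hp]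
        positivity
      have h1 := Real.integral_rpow_mul_exp_neg_mul_Ioi hs3 hpn
      have h2 : ∫ y in Set.Ioi (0 : ℝ), ‖(a n * ((Real.exp (-p n * y) : ℝ) : ℂ)) *
        (y : ℂ) ^ (s + 2)‖ = ∫ y in Set.Ioi (0 : ℝ), ‖a n‖ * (y ^ ((s + 3).re - 1) * Real.exp (-(p n * y))) := by
        refine MeasureTheory.setIntegral_congr_fun measurableSet_Ioi (fun t ht => ?_)
        rw [norm_mul, norm_mul, norm_real, Real.norm_eq_abs, Real.abs_exp,
          norm_cpow_eq_rpow_re_of_pos ht]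
        have : (s + 3).re - 1 = (s + 2).re := by simp; ring
        rw [this]
        ring_nf
      rw [h2, MeasureTheory.integral_const_mul, h1, one_div, Real.inv_rpow hpn.le]
      ring
    refine mel_tsum_integrable (fun n => ?_) ?_ ?_
    · rcases Nat.eq_zero_or_pos n with rfl | hn
      · have : a 0 = 0 := by simp [ha]
        simp [this]
      · have hpi : 0 < p n := by
          rw [hp]
          positivity
        have := Complex.GammaIntegral_convergent hs3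
        rw [← mul_zero (p n), ← MeasureTheory.integrableOn_Ioi_comp_mul_left_iff _ _ hpi] at this
        have e := (MeasureTheory.IntegrableOn.congr_fun (this.const_mul (a n / p n ^ (s + 2)))
          (g := fun y : ℝ => (a n * ((Real.exp (-p n * y) : ℝ) : ℂ)) * (y : ℂ) ^ (s + 2))
          (fun t (ht : 0 < t) ↦ ?_) measurableSet_Ioi)
        · exact e
        · simp only
          have e2 : s + 3 - 1 = s + 2 := by ring
          rw [e2, ofReal_mul (p n) t, mul_cpow_ofReal_nonneg hpi.le ht.le]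
          have : (p n : ℂ) ^ (s + 2) ≠ 0 := by
            rw [Ne, cpow_eq_zero_iff, not_and_or]
            exact Or.inl (ofReal_ne_zero.mpr hpi.ne')
          have e3 : ((Real.exp (-(p n * t)) : ℝ) : ℂ) = ((Real.exp (-p n * t) : ℝ) : ℂ) := by
            rw [neg_mul]
          rw [e3]
          field_simp
    · refine Summable.congr (h_sum.mul_left (Real.Gamma (s + 3).re)) (fun n => ?_)
      rcases Nat.eq_zero_or_pos n with rfl | hn
      · have : a 0 = 0 := by simp [ha]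
        simp [this]
      · exact (hnorm n hn).symm
    · filter_upwards [MeasureTheory.self_mem_ae_restrict measurableSet_Ioi] with y hy
      exact (hF y hy).summable.mul_right _
  have hgs : ∀ y ∈ Set.Ioi (0 : ℝ), ∑' n : ℕ, (a n * ((Real.exp (-p n * y) : ℝ) : ℂ)) *
      (y : ℂ) ^ (s + 2) = gs b 3 (y + β * I) * (y : ℂ) ^ (s + 2) := by
    intro y hy
    rw [tsum_mul_right, (hF y hy).tsum_eq]
  refine ⟨hII.congr_fun hgs measurableSet_Ioi, ?_⟩
  have e1 : ∫ y in Set.Ioi (0 : ℝ), gs b 3 (y + β * I) * (y : ℂ) ^ (s + 2) =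
      mellin (fun t : ℝ => gs b 3 (t + β * I)) (s + 3) := by
    rw [mellin]
    refine MeasureTheory.setIntegral_congr_fun measurableSet_Ioi (fun t ht => ?_)
    simp only [smul_eq_mul]
    have : s + 3 - 1 = s + 2 := by ring
    rw [this]
    ring
  rw [e1, ← hm.tsum_eq, Es, LSeries, ← tsum_mul_left]
  refine tsum_congr (fun n => ?_)
  rcases Nat.eq_zero_or_pos n with rfl | hn
  · simp [ha]
  · rw [LSeries.term_of_ne_zero (by omega)]
    rw [ha, hp]
    simp only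
    have hn' : (0 : ℝ) < n := by exact_mod_cast hn
    have e2 : (((2 * Real.pi * (n : ℝ) : ℝ)) : ℂ) ^ (s + 3) =
        (2 * (Real.pi : ℂ)) ^ (s + 3) * ((n : ℂ) ^ s * (n : ℂ) ^ 3) := by
      rw [ofReal_mul, mul_cpow_ofReal_nonneg (by positivity) hn'.le]
      congr 1
      · push_cast
        rfl
      · rw [ofReal_natCast, cpow_add _ _ (by exact_mod_cast hn.ne')]
        congr 1
        exact_mod_cast cpow_natCast (n : ℂ) 3
    rw [e2, cpow_neg]
    have h1 : (2 * (Real.pi : ℂ)) ^ (s + 3) ≠ 0 := by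
      rw [Ne, cpow_eq_zero_iff, not_and_or]
      left
      norm_num [Real.pi_ne_zero]
    have h2 : (n : ℂ) ^ s ≠ 0 := by
      rw [Ne, cpow_eq_zero_iff, not_and_or]
      left
      exact_mod_cast hn.ne'
    have h3 : (n : ℂ) ≠ 0 := by exact_mod_cast hn.ne'
    field_simp

theorem mel_exp_bound {x : ℝ} (hx : 0 ≤ x) : x ^ 4 * Real.exp (-x) ≤ 384 * Real.exp (-(x / 2)) := by
  have h := Real.pow_div_factorial_le_exp (x / 2) (by positivity) 4
  have h2 : (x / 2) ^ 4 ≤ 24 * Real.exp (x / 2) := by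
    have : ((Nat.factorial 4 : ℕ) : ℝ) = 24 := by norm_num [Nat.factorial]
    rw [this] at h
    rw [div_le_iff₀ (by norm_num)] at h
    linarith
  have h3 : Real.exp (-x) = Real.exp (-(x / 2)) * Real.exp (-(x / 2)) := by
    rw [← Real.exp_add]
    congr 1
    ring
  have h4 : Real.exp (x / 2) * Real.exp (-(x / 2)) = 1 := by
    rw [← Real.exp_add]
    simp
  have h5 : 0 < Real.exp (-(x / 2)) := Real.exp_pos _
  calc x ^ 4 * Real.exp (-x) = 16 * ((x / 2) ^ 4) * (Real.exp (-(x / 2)) * Real.exp (-(x / 2))) := by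
        rw [h3]
        ring
    _ ≤ 16 * (24 * Real.exp (x / 2)) * (Real.exp (-(x / 2)) * Real.exp (-(x / 2))) := by gcongr
    _ = 384 * Real.exp (-(x / 2)) * (Real.exp (x / 2) * Real.exp (-(x / 2))) := by ring
    _ = _ := by rw [h4, mul_one]

theorem gs_bd {b : ℕ → ℂ}
    (ram : ∀ δ : ℝ, 0 < δ → ∃ C : ℝ, ∀ n : ℕ, 1 ≤ n → ‖b n‖ ≤ C * (n : ℝ) ^ δ) (β : ℝ) :
    ∃ C : ℝ, 0 ≤ C ∧ ∀ y : ℝ, 0 < y → ‖gs b 3 (y + β * I)‖ ≤ C * Real.exp (-y) * y ^ (-5 : ℝ) := by
  obtain ⟨C0, hC0⟩ := ram 1 one_pos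
  have hC : ∀ n : ℕ, 1 ≤ n → ‖b n‖ ≤ |C0| * (n : ℝ) ^ (1 : ℝ) := fun n hn =>
    (hC0 n hn).trans (by gcongr; exact le_abs_self C0)
  refine ⟨|C0| * 768, by positivity, fun y hy => ?_⟩
  have hgeo : HasSum (fun n : ℕ => Real.exp (-(y / 2)) ^ n) (1 - Real.exp (-(y / 2)))⁻¹ :=
    hasSum_geometric_of_lt_one (Real.exp_pos _).le (Real.exp_lt_one_iff.2 (by linarith))
  have hgeo1 : HasSum (fun n : ℕ => Real.exp (-(y / 2)) ^ (n + 1))
      (Real.exp (-(y / 2)) * (1 - Real.exp (-(y / 2)))⁻¹) := by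
    have := hgeo.mul_left (Real.exp (-(y / 2)))
    refine this.congr_fun ?_ |> fun h => h
    intro n
    rw [pow_succ]
    ring
  have hle : Real.exp (-(y / 2)) * (1 - Real.exp (-(y / 2)))⁻¹ ≤ 2 / y := by
    have h1 : Real.exp (-(y / 2)) < 1 := Real.exp_lt_one_iff.2 (by linarith)
    have h2 : y / 2 + 1 ≤ Real.exp (y / 2) := Real.add_one_le_exp _
    have h3 : Real.exp (-(y / 2)) * Real.exp (y / 2) = 1 := by
      rw [← Real.exp_add]
      simp
    rw [← div_eq_mul_inv, div_le_div_iff₀ (by linarith) hy]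
    nlinarith [Real.exp_pos (-(y / 2))]
  have hterm : ∀ n : ℕ, ‖b (n + 1) * ((n + 1 : ℕ) : ℂ) ^ 3 *
      cexp (-(2 * (Real.pi : ℂ) * (n + 1 : ℕ) * (y + β * I)))‖ ≤
      |C0| * 384 * Real.exp (-y) * (y ^ 4)⁻¹ * Real.exp (-(y / 2)) ^ (n + 1) := by
    intro n
    refine (mel_bound hC β y (n + 1)).trans ?_
    have hn : (0 : ℝ) ≤ ((n + 1 : ℕ) : ℝ) * y := by positivity
    have h1 := mel_exp_bound hn
    have h2 : Real.exp (-(2 * Real.pi * y) * (n + 1 : ℕ)) ≤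
        Real.exp (-y) * Real.exp (-(((n + 1 : ℕ) : ℝ) * y)) := by
      rw [← Real.exp_add]
      apply Real.exp_le_exp.2
      have : (1 : ℝ) ≤ ((n + 1 : ℕ) : ℝ) := by
        push_cast
        linarith [Nat.cast_nonneg (α := ℝ) n]
      have h3 := Real.pi_gt_three
      have h4 : (0 : ℝ) ≤ ((n + 1 : ℕ) : ℝ) * y := by positivity
      have h5 : y ≤ ((n + 1 : ℕ) : ℝ) * y := by nlinarith
      have h6 : 6 * (((n + 1 : ℕ) : ℝ) * y) ≤ 2 * Real.pi * (((n + 1 : ℕ) : ℝ) * y) := by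
        apply mul_le_mul_of_nonneg_right _ h4
        linarith
      nlinarith
    have h3 : Real.exp (-(((n + 1 : ℕ) : ℝ) * y / 2)) = Real.exp (-(y / 2)) ^ (n + 1) := by
      rw [← Real.exp_nat_mul]
      congr 1
      push_cast
      ring
    rw [h3] at h1
    have hy4 : 0 < y ^ 4 := by positivity
    calc |C0| * (((n + 1 : ℕ) : ℝ) ^ 4 * Real.exp (-(2 * Real.pi * y) * (n + 1 : ℕ)))
        ≤ |C0| * (((n + 1 : ℕ) : ℝ) ^ 4 * (Real.exp (-y) * Real.exp (-(((n + 1 : ℕ) : ℝ) * y)))) := by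
          gcongr
      _ = |C0| * Real.exp (-y) * (y ^ 4)⁻¹ *
          ((((n + 1 : ℕ) : ℝ) * y) ^ 4 * Real.exp (-(((n + 1 : ℕ) : ℝ) * y))) := by
          field_simp
      _ ≤ |C0| * Real.exp (-y) * (y ^ 4)⁻¹ * (384 * Real.exp (-(y / 2)) ^ (n + 1)) := by gcongr
      _ = _ := by ring
  have hsum := hgeo1.mul_left (|C0| * 384 * Real.exp (-y) * (y ^ 4)⁻¹)
  have hgs : gs b 3 (y + β * I) = ∑' n : ℕ, b (n + 1) * ((n + 1 : ℕ) : ℂ) ^ 3 *
      cexp (-(2 * (Real.pi : ℂ) * (n + 1 : ℕ) * (y + β * I))) := by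
    rw [gs, (mel_summable hC β hy).tsum_eq_zero_add]
    simp
  rw [hgs]
  have h := tsum_of_norm_bounded hsum hterm
  refine h.trans ?_
  have e : y ^ (-5 : ℝ) = (y ^ 4)⁻¹ * y⁻¹ := by
    rw [show (-5 : ℝ) = ((-5 : ℤ) : ℝ) by norm_num, Real.rpow_intCast]
    rw [zpow_neg]
    rw [← mul_inv]
    norm_cast
  rw [e]
  calc |C0| * 384 * Real.exp (-y) * (y ^ 4)⁻¹ * (Real.exp (-(y / 2)) * (1 - Real.exp (-(y / 2)))⁻¹)
      ≤ |C0| * 384 * Real.exp (-y) * (y ^ 4)⁻¹ * (2 / y) := by gcongr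
    _ = _ := by
      rw [div_eq_mul_inv]
      ring

end Pool.Agent.H11.PC
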