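import Mathlib
import Pool.Agent.H11.PC.Defs
import Pool.Agent.H11.PC.SUMM
import Pool.Agent.H11.Selberg.Line

/-!
# SB: `∑_p |b(p)|² p^(-1-α) ≤ C log(1/α) + C`

Let `S b x ≤ C0 log log x` (`x ≥ 16`), `C0 ≥ 0` w.l.o.g.; `S b` is nondecreasing (`S_mono`, `H11/Selberg/Line.lean`).
For `i ≥ 0` the primes with `e^(i/α) < p ≤ e^((i+1)/α)` contribute at most
`e^(-i) S b (e^((i+1)/α)) ≤ e^(-i) C0 (log((i+1)/α) + 2)` (`log log (max x 16) ≤ log((i+1)/α) + 2`), every prime lies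
in one of these intervals, and `∑_i e^(-i) (log(i+1) + 2) < ∞`.  (For finite partial sums: bound the sum over `p ≤ x` and
let `x → ∞`; or use the weights `p^(-α) ≤ e^(-i)` on the fibres of `p ↦ i`.)  Since `log(1/α) ≥ log 2`, constants can be absorbed.
-/

set_option autoImplicit false

namespace Pool.Agent.H11.PC

open Complex Filter Topology Pool.Agent.H11.Selberg

theorem sb_sum {b : ℕ → ℂ} (h : PD b) : ∃ C : ℝ, 0 ≤ C ∧ ∀ α : ℝ, 0 < α → α ≤ 1 / 2 →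
    ∑' p : Nat.Primes, ‖b (p : ℕ)‖ ^ 2 * ((p : ℕ) : ℝ) ^ (-(1 + α)) ≤
      C * Real.log (1 / α) + C := by
  classical
  obtain ⟨C1, hC1⟩ := h.sb
  obtain ⟨C0, hC00, hC10⟩ : ∃ C0 : ℝ, 0 ≤ C0 ∧ C1 ≤ C0 := ⟨max C1 0, le_max_right _ _, le_max_left _ _⟩
  have hsum : Summable (fun i : ℕ => ((i : ℝ) + 1) * Real.exp (-(i : ℝ))) := by
    have h1 := Real.summable_pow_mul_exp_neg_nat_mul 1 (r := 1) one_pos
    have h0 := Real.summable_pow_mul_exp_neg_nat_mul 0 (r := 1) one_pos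
    refine (h1.add h0).congr (fun i => ?_)
    simp only [pow_one, pow_zero, one_mul, neg_mul]
    ring
  have hK0 : 0 ≤ ∑' i : ℕ, ((i : ℝ) + 1) * Real.exp (-(i : ℝ)) :=
    tsum_nonneg (fun i => by positivity)
  refine ⟨C0 * ∑' i : ℕ, ((i : ℝ) + 1) * Real.exp (-(i : ℝ)), mul_nonneg hC00 hK0, ?_⟩
  intro α hα hα2
  have hL : 0 ≤ Real.log (1 / α) := Real.log_nonneg (by rw [le_div_iff₀ hα]; linarith)
  have hS : ∀ i : ℕ, S b (Real.exp (((i : ℝ) + 1) / α)) ≤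
      C0 * (((i : ℝ) + 1) + Real.log (1 / α)) := by
    intro i
    have hi : (0 : ℝ) ≤ i := Nat.cast_nonneg i
    have hq : 2 ≤ ((i : ℝ) + 1) / α := by
      rw [le_div_iff₀ hα]
      linarith
    have hq4 : 4 ≤ 2 * (((i : ℝ) + 1) / α) := by linarith
    have h16 : (16 : ℝ) ≤ Real.exp (2 * (((i : ℝ) + 1) / α)) := by
      have h1 : Real.exp 4 ≤ Real.exp (2 * (((i : ℝ) + 1) / α)) := Real.exp_le_exp.mpr hq4
      have h2 : (2 : ℝ) ≤ Real.exp 1 := by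
        have := Real.add_one_le_exp (1 : ℝ)
        linarith
      have h3 : Real.exp 4 = (Real.exp 1) ^ 4 := by
        rw [← Real.exp_nat_mul]
        norm_num
      have h4 : (2 : ℝ) ^ 4 ≤ (Real.exp 1) ^ 4 := pow_le_pow_left₀ (by norm_num) h2 4
      rw [h3] at h1
      linarith
    have hlog : Real.log (2 * (((i : ℝ) + 1) / α)) =
        Real.log 2 + (Real.log ((i : ℝ) + 1) + Real.log (1 / α)) := by
      have e1 : 2 * (((i : ℝ) + 1) / α) = 2 * (((i : ℝ) + 1) * (1 / α)) := by ring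
      rw [e1, Real.log_mul (by norm_num) (by positivity), Real.log_mul (by positivity) (by positivity)]
    have hl1 : Real.log ((i : ℝ) + 1) ≤ i := by
      have := Real.log_le_sub_one_of_pos (show (0 : ℝ) < (i : ℝ) + 1 by positivity)
      linarith
    have hl2 : Real.log 2 ≤ 1 := by
      have := Real.log_le_sub_one_of_pos (show (0 : ℝ) < 2 by norm_num)
      linarith
    have hlogpos : 0 ≤ Real.log (2 * (((i : ℝ) + 1) / α)) := Real.log_nonneg (by linarith)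
    calc S b (Real.exp (((i : ℝ) + 1) / α))
        ≤ S b (Real.exp (2 * (((i : ℝ) + 1) / α))) :=
          S_mono b _ _ (Real.exp_le_exp.mpr (by linarith))
      _ ≤ C1 * Real.log (Real.log (Real.exp (2 * (((i : ℝ) + 1) / α)))) := hC1 _ h16
      _ = C1 * Real.log (2 * (((i : ℝ) + 1) / α)) := by rw [Real.log_exp]
      _ ≤ C0 * Real.log (2 * (((i : ℝ) + 1) / α)) := mul_le_mul_of_nonneg_right hC10 hlogpos
      _ ≤ C0 * (((i : ℝ) + 1) + Real.log (1 / α)) := by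
          refine mul_le_mul_of_nonneg_left ?_ hC00
          rw [hlog]
          linarith
  have hf := pd_prime_sq h (1 + α) (by linarith)
  refine hf.tsum_le_of_sum_le (fun s => ?_)
  set ι : Nat.Primes → ℕ := fun p => ⌊α * Real.log ((p : ℕ) : ℝ)⌋₊ with hι
  have hstep1 : ∀ p : Nat.Primes, ‖b (p : ℕ)‖ ^ 2 * ((p : ℕ) : ℝ) ^ (-(1 + α)) ≤
      ‖b (p : ℕ)‖ ^ 2 / ((p : ℕ) : ℝ) * Real.exp (-(ι p : ℝ)) := by
    intro p
    have hp : (0 : ℝ) < ((p : ℕ) : ℝ) := by exact_mod_cast p.2.pos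
    have hp1 : (1 : ℝ) ≤ ((p : ℕ) : ℝ) := by exact_mod_cast p.2.one_le
    have hlp : 0 ≤ Real.log ((p : ℕ) : ℝ) := Real.log_nonneg hp1
    have e1 : ((p : ℕ) : ℝ) ^ (-(1 + α)) =
        ((p : ℕ) : ℝ)⁻¹ * Real.exp (-(α * Real.log ((p : ℕ) : ℝ))) := by
      rw [show -(1 + α) = -1 + -α by ring, Real.rpow_add hp, Real.rpow_neg_one,
        Real.rpow_def_of_pos hp (-α)]
      congr 2
      ring
    have e2 : (ι p : ℝ) ≤ α * Real.log ((p : ℕ) : ℝ) := Nat.floor_le (mul_nonneg hα.le hlp)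
    have e3 : Real.exp (-(α * Real.log ((p : ℕ) : ℝ))) ≤ Real.exp (-(ι p : ℝ)) :=
      Real.exp_le_exp.mpr (by linarith)
    rw [e1, div_eq_mul_inv, mul_assoc]
    exact mul_le_mul_of_nonneg_left (mul_le_mul_of_nonneg_left e3 (by positivity)) (by positivity)
  have hstep2 : ∀ i : ℕ, ∑ p ∈ s.filter (fun p => ι p = i),
      ‖b (p : ℕ)‖ ^ 2 / ((p : ℕ) : ℝ) * Real.exp (-(ι p : ℝ)) ≤
      Real.exp (-(i : ℝ)) * S b (Real.exp (((i : ℝ) + 1) / α)) := by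
    intro i
    have e1 : ∑ p ∈ s.filter (fun p => ι p = i),
        ‖b (p : ℕ)‖ ^ 2 / ((p : ℕ) : ℝ) * Real.exp (-(ι p : ℝ)) =
        Real.exp (-(i : ℝ)) * ∑ p ∈ s.filter (fun p => ι p = i),
          ‖b (p : ℕ)‖ ^ 2 / ((p : ℕ) : ℝ) := by
      rw [Finset.mul_sum]
      refine Finset.sum_congr rfl (fun p hp => ?_)
      rw [(Finset.mem_filter.mp hp).2, mul_comm]
    have e2 : ∑ p ∈ s.filter (fun p => ι p = i), ‖b (p : ℕ)‖ ^ 2 / ((p : ℕ) : ℝ) =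
        ∑ n ∈ (s.filter (fun p => ι p = i)).map ⟨fun p : Nat.Primes => (p : ℕ),
          Subtype.val_injective⟩, ‖b n‖ ^ 2 / (n : ℝ) := by
      rw [Finset.sum_map]
      rfl
    rw [e1, e2, S_eq]
    refine mul_le_mul_of_nonneg_left ?_ (Real.exp_pos _).le
    refine Finset.sum_le_sum_of_subset_of_nonneg ?_ (fun n _ _ => by positivity)
    intro n hn
    rw [Finset.mem_map] at hn
    obtain ⟨p, hp, hpn⟩ := hn
    have hpi := (Finset.mem_filter.mp hp).2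
    have hpn' : (p : ℕ) = n := hpn
    rw [mem_P, ← hpn']
    refine ⟨p.2, ?_⟩
    have hp0 : (0 : ℝ) < ((p : ℕ) : ℝ) := by exact_mod_cast p.2.pos
    have h1 : α * Real.log ((p : ℕ) : ℝ) < (i : ℝ) + 1 := by
      have := Nat.lt_floor_add_one (α * Real.log ((p : ℕ) : ℝ))
      rw [← hpi]
      exact this
    have h2 : Real.log ((p : ℕ) : ℝ) ≤ ((i : ℝ) + 1) / α := by
      rw [le_div_iff₀ hα]
      linarith
    calc ((p : ℕ) : ℝ) = Real.exp (Real.log ((p : ℕ) : ℝ)) := (Real.exp_log hp0).symm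
      _ ≤ _ := Real.exp_le_exp.mpr h2
  have hstep3 : ∀ i : ℕ, Real.exp (-(i : ℝ)) * S b (Real.exp (((i : ℝ) + 1) / α)) ≤
      (C0 * (1 + Real.log (1 / α))) * (((i : ℝ) + 1) * Real.exp (-(i : ℝ))) := by
    intro i
    have hi : (0 : ℝ) ≤ i := Nat.cast_nonneg i
    have e1 : C0 * (((i : ℝ) + 1) + Real.log (1 / α)) ≤
        C0 * ((1 + Real.log (1 / α)) * ((i : ℝ) + 1)) := by
      refine mul_le_mul_of_nonneg_left ?_ hC00
      nlinarith [mul_nonneg hL hi]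
    calc Real.exp (-(i : ℝ)) * S b (Real.exp (((i : ℝ) + 1) / α))
        ≤ Real.exp (-(i : ℝ)) * (C0 * ((1 + Real.log (1 / α)) * ((i : ℝ) + 1))) :=
          mul_le_mul_of_nonneg_left ((hS i).trans e1) (Real.exp_pos _).le
      _ = _ := by ring
  calc ∑ p ∈ s, ‖b (p : ℕ)‖ ^ 2 * ((p : ℕ) : ℝ) ^ (-(1 + α))
      ≤ ∑ p ∈ s, ‖b (p : ℕ)‖ ^ 2 / ((p : ℕ) : ℝ) * Real.exp (-(ι p : ℝ)) :=
        Finset.sum_le_sum (fun p _ => hstep1 p)
    _ = ∑ i ∈ s.image ι, ∑ p ∈ s.filter (fun p => ι p = i),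
          ‖b (p : ℕ)‖ ^ 2 / ((p : ℕ) : ℝ) * Real.exp (-(ι p : ℝ)) :=
        (Finset.sum_fiberwise_of_maps_to (fun p hp => Finset.mem_image_of_mem ι hp) _).symm
    _ ≤ ∑ i ∈ s.image ι, (C0 * (1 + Real.log (1 / α))) * (((i : ℝ) + 1) * Real.exp (-(i : ℝ))) :=
        Finset.sum_le_sum (fun i _ => (hstep2 i).trans (hstep3 i))
    _ = (C0 * (1 + Real.log (1 / α))) * ∑ i ∈ s.image ι, (((i : ℝ) + 1) * Real.exp (-(i : ℝ))) := by
        rw [Finset.mul_sum]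
    _ ≤ (C0 * (1 + Real.log (1 / α))) * ∑' i : ℕ, (((i : ℝ) + 1) * Real.exp (-(i : ℝ))) :=
        mul_le_mul_of_nonneg_left (hsum.sum_le_tsum _ (fun i _ => by positivity))
          (mul_nonneg hC00 (by linarith))
    _ = _ := by ring

end Pool.Agent.H11.PC
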