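import Mathlib
import Pool.Agent.H11.PC.Defs

/-!
# IDEF: definitions for the irrational case

If the conductor is irrational then `gs b 3` has a nonzero value at an irrational cusp `β`.  We show that this is impossible when
`S_F(x) = O(log log x)`: for `x = k²`, `k` the denominator of a convergent of `β`, the sum
`∑ b(n) n³ e^(-2πn/x) e(-nβ)` is `o(x⁴)`.
-/

set_option autoImplicit false

namespace Pool.Agent.H11.PC

/-- the primes in `((log x)^A, x^(1/4)]` -/
noncomputable def PP (A : ℕ) (x : ℝ) : Finset ℕ :=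
  (Finset.Icc 1 ⌊x⌋₊).filter (fun p : ℕ => p.Prime ∧ (Real.log x) ^ A < (p : ℝ) ∧
    (p : ℝ) ≤ x ^ (1 / 4 : ℝ))

/-- the weight `n³ e^(-2πn/x)` -/
noncomputable def ww (x : ℝ) (n : ℕ) : ℝ := (n : ℝ) ^ 3 * Real.exp (-(2 * Real.pi * n / x))

/-- `e(-nβ)` -/
noncomputable def ee (β : ℝ) (n : ℕ) : ℂ := Complex.exp (-(2 * (Real.pi : ℂ) * n * β * Complex.I))

/-- the number of primes of `PP A x` dividing `m` -/
noncomputable def om (A : ℕ) (x : ℝ) (m : ℕ) : ℕ := ((PP A x).filter (fun p => p ∣ m)).card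

open Classical in
/-- `|b(m)|` if no prime of `PP A x` divides `m`, otherwise `0` -/
noncomputable def gx (b : ℕ → ℂ) (A : ℕ) (x : ℝ) (m : ℕ) : ℝ :=
  if ∃ p ∈ PP A x, p ∣ m then 0 else ‖b m‖

end Pool.Agent.H11.PC
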