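import Mathlib

/-!
# VARI: an exponential sum with a smooth weight

`φ m = m^6 e^(-cm)`, unimodal with maximum `≤ (6/(ec))^6`.  `(1 - e(-θ)) ∑ φ(m) e(-mθ) = ∑ (φ(m) - φ(m-1)) e(-mθ)` (`φ 0 = 0`), absolute
value `≤` total variation `≤ 2 max φ`; `|1 - e(-θ)| = 2 |sin πθ| ≥ 4 |θ - round θ|` (`Real.mul_le_sin`-type concavity).
`∑ φ(m) ≤ C c^(-7)` for `0 < c ≤ 20`: `m^6 e^(-cm/2) ≤ C c^(-6)`, `∑ e^(-cm/2) ≤ C/c`.
-/

set_option autoImplicit false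

namespace Pool.Agent.H11.PC

theorem vari_pow6 (m : ℕ) : (m : ℂ) ^ 6 =
    1 * ((m + 0).choose 0 : ℕ) - 63 * ((m + 1).choose 1 : ℕ) + 602 * ((m + 2).choose 2 : ℕ)
      - 2100 * ((m + 3).choose 3 : ℕ) + 3360 * ((m + 4).choose 4 : ℕ)
      - 2520 * ((m + 5).choose 5 : ℕ) + 720 * ((m + 6).choose 6 : ℕ) := by
  have e : ∀ k : ℕ, (((m + 1).ascFactorial k : ℕ) : ℂ) = (k.factorial : ℂ) * ((m + k).choose k : ℕ) := by
    intro k
    rw [Nat.ascFactorial_eq_factorial_mul_choose m k]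
    push_cast
    ring
  have h0 := e 0
  have h1 := e 1
  have h2 := e 2
  have h3 := e 3
  have h4 := e 4
  have h5 := e 5
  have h6 := e 6
  simp only [Nat.ascFactorial, Nat.factorial] at h0 h1 h2 h3 h4 h5 h6
  push_cast at h0 h1 h2 h3 h4 h5 h6
  linear_combination h0 - 63 * h1 + 301 * h2 - 350 * h3 + 140 * h4 - 21 * h5 + h6

theorem vari_hasSum {z : ℂ} (hz : ‖z‖ < 1) : HasSum (fun m : ℕ => (m : ℂ) ^ 6 * z ^ m)
    (1 * (1 / (1 - z) ^ (0 + 1)) - 63 * (1 / (1 - z) ^ (1 + 1)) + 602 * (1 / (1 - z) ^ (2 + 1))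
      - 2100 * (1 / (1 - z) ^ (3 + 1)) + 3360 * (1 / (1 - z) ^ (4 + 1))
      - 2520 * (1 / (1 - z) ^ (5 + 1)) + 720 * (1 / (1 - z) ^ (6 + 1))) := by
  have e := fun k : ℕ => hasSum_choose_mul_geometric_of_norm_lt_one k hz
  have h := ((((((((e 0).mul_left 1).sub ((e 1).mul_left 63)).add ((e 2).mul_left 602)).sub
    ((e 3).mul_left 2100)).add ((e 4).mul_left 3360)).sub ((e 5).mul_left 2520)).add
    ((e 6).mul_left 720))
  have hfun : (fun m : ℕ => (m : ℂ) ^ 6 * z ^ m) = fun m : ℕ =>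
      1 * ((((m + 0).choose 0 : ℕ) : ℂ) * z ^ m) - 63 * ((((m + 1).choose 1 : ℕ) : ℂ) * z ^ m)
      + 602 * ((((m + 2).choose 2 : ℕ) : ℂ) * z ^ m)
      - 2100 * ((((m + 3).choose 3 : ℕ) : ℂ) * z ^ m)
      + 3360 * ((((m + 4).choose 4 : ℕ) : ℂ) * z ^ m)
      - 2520 * ((((m + 5).choose 5 : ℕ) : ℂ) * z ^ m)
      + 720 * ((((m + 6).choose 6 : ℕ) : ℂ) * z ^ m) := by
    funext m
    rw [vari_pow6 m]
    ring
  rw [hfun]
  exact h

/-- the bound from the closed form -/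
theorem vari_bound {z : ℂ} (hz : ‖z‖ < 1) {A B : ℝ} (hA : 1 ≤ A) (h1 : ‖1 / (1 - z)‖ ≤ A)
    (h2 : ‖1 / (1 - z)‖ ≤ B) :
    ‖∑' m : ℕ, (m : ℂ) ^ 6 * z ^ m‖ ≤ 9366 * A ^ 6 * B := by
  rw [(vari_hasSum hz).tsum_eq]
  set w : ℂ := 1 / (1 - z) with hw
  have e : ∀ k : ℕ, (1 : ℂ) / (1 - z) ^ (k + 1) = w ^ k * w := by
    intro k
    rw [hw, ← pow_succ, div_pow, one_pow]
  have hB : 0 ≤ B := le_trans (norm_nonneg _) h2
  have hk : ∀ k : ℕ, k ≤ 6 → ‖w ^ k * w‖ ≤ A ^ 6 * B := by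
    intro k hk
    rw [norm_mul, norm_pow]
    refine mul_le_mul ?_ h2 (norm_nonneg _) (by positivity)
    calc ‖w‖ ^ k ≤ A ^ k := pow_le_pow_left₀ (norm_nonneg _) h1 k
      _ ≤ A ^ 6 := pow_le_pow_right₀ hA hk
  rw [e, e, e, e, e, e, e]
  have hc : ∀ (a : ℝ) (k : ℕ), 0 ≤ a → k ≤ 6 → ‖(a : ℂ) * (w ^ k * w)‖ ≤ a * (A ^ 6 * B) := by
    intro a k ha hk'
    rw [norm_mul, Complex.norm_real, Real.norm_of_nonneg ha]
    exact mul_le_mul_of_nonneg_left (hk k hk') ha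
  have c0 := hc 1 0 (by norm_num) (by norm_num)
  have c1 := hc 63 1 (by norm_num) (by norm_num)
  have c2 := hc 602 2 (by norm_num) (by norm_num)
  have c3 := hc 2100 3 (by norm_num) (by norm_num)
  have c4 := hc 3360 4 (by norm_num) (by norm_num)
  have c5 := hc 2520 5 (by norm_num) (by norm_num)
  have c6 := hc 720 6 (by norm_num) (by norm_num)
  push_cast at c0 c1 c2 c3 c4 c5 c6
  have s1 := norm_sub_le (1 * (w ^ 0 * w)) (63 * (w ^ 1 * w))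
  have s2 := norm_add_le (1 * (w ^ 0 * w) - 63 * (w ^ 1 * w)) (602 * (w ^ 2 * w))
  have s3 := norm_sub_le (1 * (w ^ 0 * w) - 63 * (w ^ 1 * w) + 602 * (w ^ 2 * w))
    (2100 * (w ^ 3 * w))
  have s4 := norm_add_le (1 * (w ^ 0 * w) - 63 * (w ^ 1 * w) + 602 * (w ^ 2 * w)
    - 2100 * (w ^ 3 * w)) (3360 * (w ^ 4 * w))
  have s5 := norm_sub_le (1 * (w ^ 0 * w) - 63 * (w ^ 1 * w) + 602 * (w ^ 2 * w)
    - 2100 * (w ^ 3 * w) + 3360 * (w ^ 4 * w)) (2520 * (w ^ 5 * w))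
  have s6 := norm_add_le (1 * (w ^ 0 * w) - 63 * (w ^ 1 * w) + 602 * (w ^ 2 * w)
    - 2100 * (w ^ 3 * w) + 3360 * (w ^ 4 * w) - 2520 * (w ^ 5 * w)) (720 * (w ^ 6 * w))
  linarith

theorem vari_lower1 {c : ℝ} (hc : 0 < c) (hc2 : c ≤ 20) : c / 21 ≤ 1 - Real.exp (-c) := by
  have h1 := Real.add_one_le_exp c
  have h2 : Real.exp (-c) * Real.exp c = 1 := by
    rw [← Real.exp_add]; simp
  have h3 : 0 < Real.exp (-c) := Real.exp_pos _
  have h4 : Real.exp (-c) * (c + 1) ≤ 1 := by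
    calc Real.exp (-c) * (c + 1) ≤ Real.exp (-c) * Real.exp c :=
          mul_le_mul_of_nonneg_left h1 h3.le
      _ = 1 := h2
  have h5 : Real.exp (-c) ≤ 1 := by
    nlinarith
  nlinarith

theorem vari_lower2 (θ : ℝ) {r : ℝ} (hr0 : 0 ≤ r) (hr1 : r ≤ 1) :
    2 * |θ - round θ| ≤ ‖1 - (r : ℂ) * Complex.exp (-(2 * (Real.pi : ℂ) * θ * Complex.I))‖ := by
  set δ : ℝ := θ - round θ with hδ
  have hd : |δ| ≤ 1 / 2 := abs_sub_round θ
  have e1 : Complex.exp (-(2 * (Real.pi : ℂ) * θ * Complex.I)) =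
      Complex.exp (Complex.I * ((-(2 * Real.pi * δ) : ℝ) : ℂ)) := by
    have : -(2 * (Real.pi : ℂ) * θ * Complex.I) = Complex.I * ((-(2 * Real.pi * δ) : ℝ) : ℂ) +
        ((-(round θ) : ℤ) : ℂ) * (2 * Real.pi * Complex.I) := by
      rw [hδ]
      push_cast
      ring
    rw [this, Complex.exp_add, Complex.exp_int_mul_two_pi_mul_I, mul_one]
  rw [e1]
  set u : ℂ := Complex.exp (Complex.I * ((-(2 * Real.pi * δ) : ℝ) : ℂ)) with hu
  have hun : ‖u‖ = 1 := by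
    rw [hu, mul_comm]
    exact Complex.norm_exp_ofReal_mul_I _
  have h1 : ‖u - 1‖ = ‖2 * Real.sin (-(2 * Real.pi * δ) / 2)‖ :=
    Complex.norm_exp_I_mul_ofReal_sub_one _
  have h2 : 4 * |δ| ≤ ‖u - 1‖ := by
    rw [h1, norm_mul, Real.norm_eq_abs, Real.norm_eq_abs]
    have e2 : -(2 * Real.pi * δ) / 2 = -(Real.pi * δ) := by ring
    rw [e2, Real.sin_neg, abs_neg, abs_two]
    have hpi := Real.pi_pos
    have h3 : |Real.pi * δ| ≤ Real.pi / 2 := by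
      rw [abs_mul, abs_of_pos hpi]
      nlinarith
    have h4 := Real.mul_abs_le_abs_sin h3
    rw [abs_mul, abs_of_pos hpi] at h4
    have h5 : 2 / Real.pi * (Real.pi * |δ|) = 2 * |δ| := by
      field_simp
    rw [h5] at h4
    linarith
  have h3 : ‖u - 1‖ ≤ 2 * ‖1 - (r : ℂ) * u‖ := by
    have t1 : ‖u - 1‖ ≤ ‖u - (r : ℂ) * u‖ + ‖(r : ℂ) * u - 1‖ := by
      have := norm_add_le (u - (r : ℂ) * u) ((r : ℂ) * u - 1)
      simpa using this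
    have t2 : ‖u - (r : ℂ) * u‖ = 1 - r := by
      have : u - (r : ℂ) * u = ((1 - r : ℝ) : ℂ) * u := by push_cast; ring
      rw [this, norm_mul, hun, mul_one, Complex.norm_real, Real.norm_of_nonneg (by linarith)]
    have t3 : 1 - r ≤ ‖1 - (r : ℂ) * u‖ := by
      have h6 := norm_sub_norm_le (1 : ℂ) ((r : ℂ) * u)
      rw [norm_one, norm_mul, hun, mul_one, Complex.norm_real, Real.norm_of_nonneg hr0] at h6
      exact h6
    have t4 : ‖(r : ℂ) * u - 1‖ = ‖1 - (r : ℂ) * u‖ := norm_sub_rev _ _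
    linarith
  linarith

theorem vari : ∃ C : ℝ, 0 ≤ C ∧ ∀ c : ℝ, 0 < c → c ≤ 20 →
    Summable (fun m : ℕ => (m : ℝ) ^ 6 * Real.exp (-(c * m))) ∧
    ∑' m : ℕ, (m : ℝ) ^ 6 * Real.exp (-(c * m)) ≤ C * c⁻¹ ^ 7 ∧
    ∀ θ : ℝ, 0 < |θ - round θ| →
      ‖∑' m : ℕ, (((m : ℝ) ^ 6 * Real.exp (-(c * m)) : ℝ) : ℂ) *
        Complex.exp (-(2 * (Real.pi : ℂ) * m * θ * Complex.I))‖ ≤
        C * c⁻¹ ^ 6 * (1 / |θ - round θ|) := by
  refine ⟨9366 * 21 ^ 7, by positivity, ?_⟩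
  intro c hc hc2
  have hr1 : Real.exp (-c) < 1 := by
    have := Real.exp_lt_exp.mpr (show -c < 0 by linarith)
    simpa using this
  have hr0 : 0 < Real.exp (-c) := Real.exp_pos _
  have hA : 1 ≤ 21 * c⁻¹ := by
    rw [← div_eq_mul_inv, le_div_iff₀ hc]
    linarith
  have hterm : ∀ (θ : ℝ) (m : ℕ), (((m : ℝ) ^ 6 * Real.exp (-(c * m)) : ℝ) : ℂ) *
      Complex.exp (-(2 * (Real.pi : ℂ) * m * θ * Complex.I)) =
      (m : ℂ) ^ 6 * ((Real.exp (-c) : ℂ) *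
        Complex.exp (-(2 * (Real.pi : ℂ) * θ * Complex.I))) ^ m := by
    intro θ m
    rw [mul_pow, ← Complex.exp_nat_mul, Complex.ofReal_mul, Complex.ofReal_pow,
      Complex.ofReal_natCast, mul_assoc]
    congr 1
    have e1 : Real.exp (-(c * m)) = Real.exp (-c) ^ m := by
      rw [← Real.exp_nat_mul]
      congr 1
      ring
    rw [e1, Complex.ofReal_pow]
    congr 1
    congr 1
    ring
  have hnorm : ∀ θ : ℝ, ‖(Real.exp (-c) : ℂ) *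
      Complex.exp (-(2 * (Real.pi : ℂ) * θ * Complex.I))‖ = Real.exp (-c) := by
    intro θ
    have e1 : -(2 * (Real.pi : ℂ) * θ * Complex.I) = ((-(2 * Real.pi * θ) : ℝ) : ℂ) * Complex.I := by
      push_cast
      ring
    rw [norm_mul, e1, Complex.norm_exp_ofReal_mul_I, mul_one, Complex.norm_real,
      Real.norm_of_nonneg hr0.le]
  have hlow : ∀ θ : ℝ, ‖1 / (1 - (Real.exp (-c) : ℂ) *
      Complex.exp (-(2 * (Real.pi : ℂ) * θ * Complex.I)))‖ ≤ 21 * c⁻¹ := by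
    intro θ
    have h6 := norm_sub_norm_le (1 : ℂ) ((Real.exp (-c) : ℂ) *
      Complex.exp (-(2 * (Real.pi : ℂ) * θ * Complex.I)))
    rw [norm_one, hnorm θ] at h6
    have h7 := vari_lower1 hc hc2
    rw [norm_div, norm_one]
    have h8 : c / 21 ≤ ‖1 - (Real.exp (-c) : ℂ) *
      Complex.exp (-(2 * (Real.pi : ℂ) * θ * Complex.I))‖ := le_trans h7 h6
    calc 1 / ‖1 - (Real.exp (-c) : ℂ) * Complex.exp (-(2 * (Real.pi : ℂ) * θ * Complex.I))‖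
        ≤ 1 / (c / 21) := one_div_le_one_div_of_le (by positivity) h8
      _ = 21 * c⁻¹ := by
          rw [one_div_div, div_eq_mul_inv]
  have hz0 : ‖(Real.exp (-c) : ℂ)‖ < 1 := by
    rw [Complex.norm_real, Real.norm_of_nonneg hr0.le]
    exact hr1
  have hreal : ∀ m : ℕ, (((m : ℝ) ^ 6 * Real.exp (-(c * m)) : ℝ) : ℂ) =
      (m : ℂ) ^ 6 * (Real.exp (-c) : ℂ) ^ m := by
    intro m
    have := hterm 0 m
    simpa using this
  have hsumC : Summable (fun m : ℕ => (((m : ℝ) ^ 6 * Real.exp (-(c * m)) : ℝ) : ℂ)) := by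
    have h1 := (vari_hasSum hz0).summable
    refine h1.congr fun m => ?_
    exact (hreal m).symm
  have hsum : Summable (fun m : ℕ => (m : ℝ) ^ 6 * Real.exp (-(c * m))) :=
    Complex.summable_ofReal.1 hsumC
  refine ⟨hsum, ?_, ?_⟩
  · have h0 : 0 ≤ ∑' m : ℕ, (m : ℝ) ^ 6 * Real.exp (-(c * m)) :=
      tsum_nonneg fun m => by positivity
    have h1 : ((∑' m : ℕ, (m : ℝ) ^ 6 * Real.exp (-(c * m)) : ℝ) : ℂ) =
        ∑' m : ℕ, (m : ℂ) ^ 6 * (Real.exp (-c) : ℂ) ^ m := by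
      rw [Complex.ofReal_tsum]
      exact tsum_congr hreal
    have h2 : ‖1 / (1 - (Real.exp (-c) : ℂ))‖ ≤ 21 * c⁻¹ := by
      have := hlow 0
      simpa using this
    have h3 := vari_bound hz0 hA h2 h2
    rw [← h1, Complex.norm_real, Real.norm_of_nonneg h0] at h3
    calc ∑' m : ℕ, (m : ℝ) ^ 6 * Real.exp (-(c * m)) ≤ 9366 * (21 * c⁻¹) ^ 6 * (21 * c⁻¹) := h3
      _ = 9366 * 21 ^ 7 * c⁻¹ ^ 7 := by ring
  · intro θ hθ
    have e1 : ∑' m : ℕ, (((m : ℝ) ^ 6 * Real.exp (-(c * m)) : ℝ) : ℂ) *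
        Complex.exp (-(2 * (Real.pi : ℂ) * m * θ * Complex.I)) =
        ∑' m : ℕ, (m : ℂ) ^ 6 * ((Real.exp (-c) : ℂ) *
        Complex.exp (-(2 * (Real.pi : ℂ) * θ * Complex.I))) ^ m := tsum_congr (hterm θ)
    rw [e1]
    have h4 := vari_lower2 θ hr0.le hr1.le
    have h5 : ‖1 / (1 - (Real.exp (-c) : ℂ) *
        Complex.exp (-(2 * (Real.pi : ℂ) * θ * Complex.I)))‖ ≤ 1 / |θ - round θ| := by
      rw [norm_div, norm_one]
      exact one_div_le_one_div_of_le hθ (by linarith)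
    have h6 := vari_bound (z := (Real.exp (-c) : ℂ) *
        Complex.exp (-(2 * (Real.pi : ℂ) * θ * Complex.I))) (by rw [hnorm θ]; exact hr1) hA
        (hlow θ) h5
    refine le_trans h6 ?_
    apply mul_le_mul_of_nonneg_right _ (by positivity)
    have h7 : (0 : ℝ) ≤ c⁻¹ ^ 6 := by positivity
    calc 9366 * (21 * c⁻¹) ^ 6 = 9366 * 21 ^ 6 * c⁻¹ ^ 6 := by ring
      _ ≤ 9366 * 21 ^ 7 * c⁻¹ ^ 6 := by
          apply mul_le_mul_of_nonneg_right _ h7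
          norm_num

end Pool.Agent.H11.PC
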