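import Mathlib

/-!
# MULTB: a nonnegative multiplicative function is bounded on average by the exponential of its prime sum

`EulerProduct.summable_and_hasSum_smoothNumbers_prod_primesBelow_tsum` (for `f` multiplicative, all `f(p^n)` summable): the sum over the
`N`-smooth numbers is `∏_{p < N} (1 + ∑_{j ≥ 1} f(p^j)) ≤ exp(∑_{p < N} ∑_{j≥1} f(p^j)) ≤ exp(T)`.  Every finite set of positive integers
consists of `N`-smooth numbers for some `N`, so all finite partial sums are `≤ exp T`.
-/

set_option autoImplicit false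

namespace Pool.Agent.H11.PC

theorem mult_le_exp (f : ℕ → ℝ) (h0 : f 0 = 0) (h1 : f 1 = 1)
    (hm : ∀ m n : ℕ, Nat.Coprime m n → f (m * n) = f m * f n) (hn : ∀ n, 0 ≤ f n)
    (hj : ∀ p : Nat.Primes, Summable (fun j : ℕ => f ((p : ℕ) ^ (j + 1))))
    (hs : Summable (fun p : Nat.Primes => ∑' j : ℕ, f ((p : ℕ) ^ (j + 1)))) :
    Summable f ∧ ∑' n, f n ≤ Real.exp (∑' p : Nat.Primes, ∑' j : ℕ, f ((p : ℕ) ^ (j + 1))) := by
  classical
  have hsum : ∀ {p : ℕ}, p.Prime → Summable (fun n : ℕ => ‖f (p ^ n)‖) := by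
    intro p hp
    have h2 : Summable (fun n : ℕ => f (p ^ n)) := by
      rw [← summable_nat_add_iff 1]
      exact hj ⟨p, hp⟩
    exact h2.norm
  have hg : ∀ p : Nat.Primes, 0 ≤ ∑' j : ℕ, f ((p : ℕ) ^ (j + 1)) := fun p =>
    tsum_nonneg (fun j => hn _)
  have key : ∀ s : Finset ℕ, ∑ n ∈ s, f n ≤
      Real.exp (∑' p : Nat.Primes, ∑' j : ℕ, f ((p : ℕ) ^ (j + 1))) := by
    intro s
    set N : ℕ := s.sup id + 1 with hN
    obtain ⟨hsm, hhs⟩ := EulerProduct.summable_and_hasSum_smoothNumbers_prod_primesBelow_tsum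
      h1 (fun {m n} => hm m n) hsum N
    have hsm' : Summable (fun m : N.smoothNumbers => f m) := hhs.summable
    have hle : ∑ n ∈ s, f n ≤ ∑' m : N.smoothNumbers, f m := by
      have hmem : ∀ n ∈ s.filter (fun n => n ≠ 0), n ∈ N.smoothNumbers := by
        intro n hn'
        rw [Finset.mem_filter] at hn'
        apply Nat.mem_smoothNumbers_of_lt (Nat.pos_of_ne_zero hn'.2)
        have : id n ≤ s.sup id := Finset.le_sup hn'.1
        simp only [id] at this
        omega
      have h2 : ∑ n ∈ s, f n = ∑ n ∈ s.filter (fun n => n ≠ 0), f n := by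
        rw [Finset.sum_filter]
        apply Finset.sum_congr rfl
        intro n _
        split_ifs with h
        · rfl
        · push Not at h
          rw [h, h0]
      rw [h2, ← Finset.sum_subtype_of_mem (p := fun n => n ∈ N.smoothNumbers) f hmem]
      exact Summable.sum_le_tsum _ (fun m _ => hn m) hsm'
    refine hle.trans ?_
    rw [hhs.tsum_eq]
    have hp1 : ∀ p ∈ N.primesBelow, ∑' n : ℕ, f (p ^ n) ≤
        Real.exp (∑' j : ℕ, f (p ^ (j + 1))) := by
      intro p hp
      have hpp := Nat.prime_of_mem_primesBelow hp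
      have h2 : Summable (fun n : ℕ => f (p ^ n)) := by
        rw [← summable_nat_add_iff 1]
        exact hj ⟨p, hpp⟩
      rw [h2.tsum_eq_zero_add, pow_zero, h1, add_comm]
      exact Real.add_one_le_exp _
    refine (Finset.prod_le_prod (fun p _ => tsum_nonneg (fun n => hn _)) hp1).trans ?_
    rw [← Real.exp_sum, Real.exp_le_exp]
    have hmem2 : ∀ p ∈ N.primesBelow, Nat.Prime p := fun p hp => Nat.prime_of_mem_primesBelow hp
    rw [← Finset.sum_subtype_of_mem (p := Nat.Prime) (fun p => ∑' j : ℕ, f (p ^ (j + 1))) hmem2]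
    exact Summable.sum_le_tsum (f := fun p : Nat.Primes => ∑' j : ℕ, f ((p : ℕ) ^ (j + 1))) _
      (fun p _ => hg p) hs
  have hsf : Summable f := summable_of_sum_le hn key
  exact ⟨hsf, hsf.tsum_le_of_sum_le key⟩

end Pool.Agent.H11.PC
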