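import Mathlib

/-!
# ABT: an Abelian theorem

Let `φ : (0,1] → ℂ`, `φ → v` at `0+`.  `∫_0^1 y^(-1+α+iτ) (log 1/y)^M dy = M!/(α+iτ)^(M+1)` (`y = e^(-u)`:
`∫_0^∞ u^M e^(-(α+iτ)u) du`).  Split at `δ`: on `(0, δ)` replace `φ` by `v` with error `≤ ε ∫_0^1 y^(-1+α) (log 1/y)^M dy =
ε M! α^(-(M+1))`; on `(δ, 1)` everything is bounded independently of `α ∈ (0,1]` (`hb`: `φ` bounded), and disappears after
multiplication by `α^(M+1)`.  For `τ ≠ 0` `α^(M+1) (α+iτ)^(-(M+1)) → 0`, for `τ = 0` it is `1`.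
-/

set_option autoImplicit false

namespace Pool.Agent.H11.PC

open Complex Filter Topology

/-- the Gamma weight -/
noncomputable def ABT_g (M : ℕ) (u : ℝ) : ℝ := u ^ M * Real.exp (-u)

theorem ABT_g_int (M : ℕ) : MeasureTheory.IntegrableOn (ABT_g M) (Set.Ioi 0) := by
  have h := Real.GammaIntegral_convergent (s := (M : ℝ) + 1) (by positivity)
  refine h.congr_fun ?_ measurableSet_Ioi
  intro u hu
  simp only [ABT_g]
  rw [add_sub_cancel_right, Real.rpow_natCast, mul_comm]

theorem ABT_g_val (M : ℕ) : ∫ u in Set.Ioi (0 : ℝ), ABT_g M u = (M.factorial : ℝ) := by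
  have h := Real.Gamma_eq_integral (s := (M : ℝ) + 1) (by positivity)
  rw [Real.Gamma_nat_eq_factorial] at h
  rw [h]
  apply MeasureTheory.setIntegral_congr_fun measurableSet_Ioi
  intro u hu
  simp only [ABT_g]
  rw [add_sub_cancel_right, Real.rpow_natCast, mul_comm]

theorem ABT_g_nonneg (M : ℕ) (u : ℝ) (hu : 0 < u) : 0 ≤ ABT_g M u := by
  unfold ABT_g
  positivity

theorem ABT_image (α : ℝ) (hα : 0 < α) :
    (fun u : ℝ => Real.exp (-u / α)) '' Set.Ioi 0 = Set.Ioo 0 1 := by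
  ext y
  constructor
  · rintro ⟨u, hu, rfl⟩
    have hu' : 0 < u := hu
    refine ⟨Real.exp_pos _, ?_⟩
    rw [Real.exp_lt_one_iff]
    exact div_neg_of_neg_of_pos (by linarith) hα
  · rintro ⟨h1, h2⟩
    refine ⟨-α * Real.log y, ?_, ?_⟩
    · show 0 < -α * Real.log y
      have := Real.log_neg h1 h2
      nlinarith
    · show Real.exp (-(-α * Real.log y) / α) = y
      have : -(-α * Real.log y) / α = Real.log y := by
        field_simp
      rw [this, Real.exp_log h1]

theorem ABT_deriv (α : ℝ) : ∀ x ∈ Set.Ioi (0 : ℝ),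
    HasDerivWithinAt (fun u : ℝ => Real.exp (-u / α)) (Real.exp (-x / α) * (-1 / α)) (Set.Ioi 0) x := by
  intro x _
  apply HasDerivAt.hasDerivWithinAt
  have h1 : HasDerivAt (fun u : ℝ => -u / α) (-1 / α) x := by
    have := (hasDerivAt_id x).neg.div_const α
    exact this
  exact h1.exp

theorem ABT_inj (α : ℝ) (hα : 0 < α) :
    Set.InjOn (fun u : ℝ => Real.exp (-u / α)) (Set.Ioi 0) := by
  intro a _ b _ h
  have h1 := Real.exp_injective h
  field_simp at h1
  linarith

theorem ABT_meas (φ : ℝ → ℂ) (hm : MeasureTheory.AEStronglyMeasurable φ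
      (MeasureTheory.volume.restrict (Set.Ioc 0 1))) (A : ℝ)
    (hb : ∀ y : ℝ, 0 < y → y ≤ 1 → ‖φ y‖ ≤ A) (α : ℝ) (hα : 0 < α) :
    MeasureTheory.AEStronglyMeasurable (fun u : ℝ => φ (Real.exp (-u / α)))
      (MeasureTheory.volume.restrict (Set.Ioi 0)) := by
  have hint : MeasureTheory.IntegrableOn φ (Set.Ioo 0 1) := by
    have h1 : MeasureTheory.IntegrableOn φ (Set.Ioc 0 1) := by
      refine MeasureTheory.Integrable.of_bound hm A ?_
      rw [MeasureTheory.ae_restrict_iff' measurableSet_Ioc]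
      exact Filter.Eventually.of_forall (fun y hy => hb y hy.1 hy.2)
    exact h1.mono_set Set.Ioo_subset_Ioc_self
  rw [← ABT_image α hα, MeasureTheory.integrableOn_image_iff_integrableOn_abs_deriv_smul
    measurableSet_Ioi (ABT_deriv α) (ABT_inj α hα)] at hint
  have h2 := hint.aestronglyMeasurable
  have h3 : MeasureTheory.AEStronglyMeasurable (fun u : ℝ => (|Real.exp (-u / α) * (-1 / α)|)⁻¹)
      (MeasureTheory.volume.restrict (Set.Ioi 0)) := by
    apply Measurable.aestronglyMeasurable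
    fun_prop
  refine (h3.smul h2).congr ?_
  refine Filter.Eventually.of_forall (fun u => ?_)
  show (|Real.exp (-u / α) * (-1 / α)|)⁻¹ • (|Real.exp (-u / α) * (-1 / α)| • φ (Real.exp (-u / α))) = _
  rw [smul_smul, inv_mul_cancel₀, one_smul]
  have h4 := Real.exp_pos (-u / α)
  rw [abs_ne_zero]
  have : (-1 / α) ≠ 0 := by
    rw [div_ne_zero_iff]
    exact ⟨by norm_num, hα.ne'⟩
  exact mul_ne_zero h4.ne' this

/-- the substitution `y = exp(-u/α)` -/
theorem ABT_subst (φ : ℝ → ℂ) (M : ℕ) (τ α : ℝ) (hα : 0 < α) :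
    (α : ℂ) ^ (M + 1) * ∫ y in Set.Ioc (0 : ℝ) 1,
      φ y * (y : ℂ) ^ (-1 + α + τ * I : ℂ) * (((Real.log (1 / y)) ^ M : ℝ) : ℂ) =
    ∫ u in Set.Ioi (0 : ℝ), (ABT_g M u : ℂ) * Complex.exp (-(τ * u / α : ℝ) * I) *
      φ (Real.exp (-u / α)) := by
  rw [MeasureTheory.integral_Ioc_eq_integral_Ioo, ← ABT_image α hα,
    MeasureTheory.integral_image_eq_integral_abs_deriv_smul measurableSet_Ioi (ABT_deriv α)
      (ABT_inj α hα), ← MeasureTheory.integral_const_mul]
  apply MeasureTheory.setIntegral_congr_fun measurableSet_Ioi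
  intro u hu
  have hu' : 0 < u := hu
  have he := Real.exp_pos (-u / α)
  have hαc : (α : ℂ) ≠ 0 := by exact_mod_cast hα.ne'
  have habs : |Real.exp (-u / α) * (-1 / α)| = Real.exp (-u / α) / α := by
    rw [abs_mul, abs_of_pos he, abs_div, abs_neg, abs_one, abs_of_pos hα]
    ring
  have hlog : Real.log (1 / Real.exp (-u / α)) = u / α := by
    rw [one_div, Real.log_inv, Real.log_exp]
    ring
  have hcp : ((Real.exp (-u / α) : ℝ) : ℂ) ^ (-1 + α + τ * I : ℂ) =
      Complex.exp ((-u / α : ℝ) * (-1 + α + τ * I)) := by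
    rw [Complex.cpow_def_of_ne_zero (by exact_mod_cast he.ne'), ← Complex.ofReal_log he.le,
      Real.log_exp]
  simp only
  rw [habs, hlog, hcp, ABT_g, Complex.real_smul]
  push_cast
  have hexp : Complex.exp (-(u : ℂ) / α) * Complex.exp (-(u : ℂ) / α * (-1 + α + τ * I)) =
      Complex.exp (-(u : ℂ)) * Complex.exp (-(τ * u / α : ℂ) * I) := by
    rw [← Complex.exp_add, ← Complex.exp_add]
    congr 1
    field_simp
    ring
  calc (α : ℂ) ^ (M + 1) * (Complex.exp (-(u : ℂ) / α) / α *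
        (φ (Real.exp (-u / α)) * Complex.exp (-(u : ℂ) / α * (-1 + α + τ * I)) * ((u : ℂ) / α) ^ M))
      = ((α : ℂ) ^ (M + 1) / α / α ^ M) * (u : ℂ) ^ M * (Complex.exp (-(u : ℂ) / α) *
        Complex.exp (-(u : ℂ) / α * (-1 + α + τ * I))) * φ (Real.exp (-u / α)) := by
        rw [div_pow]; ring
    _ = (u : ℂ) ^ M * (Complex.exp (-(u : ℂ)) * Complex.exp (-(τ * u / α : ℂ) * I)) *
        φ (Real.exp (-u / α)) := by
        rw [hexp]
        have : (α : ℂ) ^ (M + 1) / α / α ^ M = 1 := by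
          rw [pow_succ]
          field_simp
        rw [this, one_mul]
    _ = _ := by ring

theorem ABT_norm (M : ℕ) (τ α u : ℝ) (hu : 0 < u) :
    ‖(ABT_g M u : ℂ) * Complex.exp (-(τ * u / α : ℝ) * I)‖ = ABT_g M u := by
  rw [norm_mul, Complex.norm_real, Real.norm_of_nonneg (ABT_g_nonneg M u hu)]
  have : Complex.exp (-(τ * u / α : ℝ) * I) = Complex.exp ((-(τ * u / α) : ℝ) * I) := by
    push_cast
    rfl
  rw [this, Complex.norm_exp_ofReal_mul_I, mul_one]

theorem ABT_base_meas (M : ℕ) (τ α : ℝ) :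
    MeasureTheory.AEStronglyMeasurable
      (fun u : ℝ => (ABT_g M u : ℂ) * Complex.exp (-(τ * u / α : ℝ) * I))
      (MeasureTheory.volume.restrict (Set.Ioi 0)) := by
  apply Continuous.aestronglyMeasurable
  unfold ABT_g
  fun_prop

/-- first part: `φ - v` -/
theorem ABT_I1 (φ : ℝ → ℂ) (hm : MeasureTheory.AEStronglyMeasurable φ
      (MeasureTheory.volume.restrict (Set.Ioc 0 1))) (A : ℝ)
    (hb : ∀ y : ℝ, 0 < y → y ≤ 1 → ‖φ y‖ ≤ A) (v : ℂ) (hv : Tendsto φ (𝓝[>] 0) (𝓝 v)) (M : ℕ)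
    (τ : ℝ) :
    Tendsto (fun α : ℝ => ∫ u in Set.Ioi (0 : ℝ), (ABT_g M u : ℂ) *
      Complex.exp (-(τ * u / α : ℝ) * I) * (φ (Real.exp (-u / α)) - v)) (𝓝[>] 0) (𝓝 0) := by
  have h0 : ∫ u in Set.Ioi (0 : ℝ), (0 : ℂ) = 0 := by simp
  rw [← h0]
  have hpos : ∀ᶠ α : ℝ in 𝓝[>] 0, 0 < α := self_mem_nhdsWithin
  apply MeasureTheory.tendsto_integral_filter_of_dominated_convergence
    (fun u => ABT_g M u * (A + ‖v‖))
  · filter_upwards [hpos] with α hα
    exact (ABT_base_meas M τ α).mul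
      ((ABT_meas φ hm A hb α hα).sub MeasureTheory.aestronglyMeasurable_const)
  · filter_upwards [hpos] with α hα
    rw [MeasureTheory.ae_restrict_iff' measurableSet_Ioi]
    refine Filter.Eventually.of_forall (fun u hu => ?_)
    have hu' : 0 < u := hu
    rw [norm_mul, ABT_norm M τ α u hu']
    apply mul_le_mul_of_nonneg_left _ (ABT_g_nonneg M u hu')
    refine (norm_sub_le _ _).trans ?_
    have h1 : Real.exp (-u / α) ≤ 1 := by
      rw [Real.exp_le_one_iff]
      exact (div_neg_of_neg_of_pos (by linarith) hα).le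
    have := hb _ (Real.exp_pos (-u / α)) h1
    linarith
  · exact (ABT_g_int M).mul_const _
  · rw [MeasureTheory.ae_restrict_iff' measurableSet_Ioi]
    refine Filter.Eventually.of_forall (fun u hu => ?_)
    have hu' : 0 < u := hu
    rw [tendsto_zero_iff_norm_tendsto_zero]
    have h1 : Tendsto (fun α : ℝ => Real.exp (-u / α)) (𝓝[>] 0) (𝓝[>] 0) := by
      rw [tendsto_nhdsWithin_iff]
      constructor
      · have h2 : Tendsto (fun α : ℝ => -u / α) (𝓝[>] 0) atBot := by
          have h3 : Tendsto (fun α : ℝ => α⁻¹) (𝓝[>] 0) atTop := tendsto_inv_nhdsGT_zero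
          have h4 := h3.const_mul_atTop_of_neg (show -u < 0 by linarith)
          refine h4.congr (fun α => ?_)
          rw [div_eq_mul_inv]
        exact Real.tendsto_exp_atBot.comp h2
      · exact Filter.Eventually.of_forall (fun α => Real.exp_pos _)
    have h5 : Tendsto (fun α : ℝ => φ (Real.exp (-u / α)) - v) (𝓝[>] 0) (𝓝 0) := by
      have := (hv.comp h1).sub_const v
      rw [sub_self] at this
      exact this
    have h6 := (h5.norm).const_mul (ABT_g M u)
    rw [norm_zero, mul_zero] at h6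
    refine h6.congr' ?_
    filter_upwards [hpos] with α hα
    rw [norm_mul, ABT_norm M τ α u hu']

/-- second part -/
theorem ABT_I2 (M : ℕ) (τ : ℝ) :
    Tendsto (fun α : ℝ => ∫ u in Set.Ioi (0 : ℝ), (ABT_g M u : ℂ) *
      Complex.exp (-(τ * u / α : ℝ) * I)) (𝓝[>] 0)
      (𝓝 (if τ = 0 then (M.factorial : ℂ) else 0)) := by
  by_cases hτ : τ = 0
  · rw [if_pos hτ, hτ]
    have h1 : ∀ α : ℝ, ∫ u in Set.Ioi (0 : ℝ), (ABT_g M u : ℂ) *
        Complex.exp (-(0 * u / α : ℝ) * I) = (M.factorial : ℂ) := by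
      intro α
      have h2 : ∀ u : ℝ, (ABT_g M u : ℂ) * Complex.exp (-(0 * u / α : ℝ) * I) =
          ((ABT_g M u : ℝ) : ℂ) := by
        intro u
        simp
      simp_rw [h2]
      rw [integral_complex_ofReal, ABT_g_val]
      simp
    simp_rw [h1]
    exact tendsto_const_nhds
  · rw [if_neg hτ]
    have hRL := Real.tendsto_integral_exp_smul_cocompact
      (fun u : ℝ => Set.indicator (Set.Ioi (0 : ℝ)) (fun u => (ABT_g M u : ℂ)) u)
    have hw : Tendsto (fun α : ℝ => τ / (2 * Real.pi * α)) (𝓝[>] 0) (cocompact ℝ) := by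
      have h3 : Tendsto (fun α : ℝ => α⁻¹) (𝓝[>] 0) atTop := tendsto_inv_nhdsGT_zero
      have hpi := Real.pi_pos
      rcases lt_or_gt_of_ne hτ with h | h
      · have h4 := h3.const_mul_atTop_of_neg (show τ / (2 * Real.pi) < 0 from
          div_neg_of_neg_of_pos h (by positivity))
        have h5 : Tendsto (fun α : ℝ => τ / (2 * Real.pi * α)) (𝓝[>] 0) atBot := by
          refine h4.congr (fun α => ?_)
          rw [div_mul_eq_div_mul_one_div τ (2 * Real.pi) α, one_div]
        exact h5.mono_right atBot_le_cocompact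
      · have h4 := h3.const_mul_atTop (show 0 < τ / (2 * Real.pi) by positivity)
        have h5 : Tendsto (fun α : ℝ => τ / (2 * Real.pi * α)) (𝓝[>] 0) atTop := by
          refine h4.congr (fun α => ?_)
          rw [div_mul_eq_div_mul_one_div τ (2 * Real.pi) α, one_div]
        exact h5.mono_right atTop_le_cocompact
    have hcomp := hRL.comp hw
    refine hcomp.congr' ?_
    have hpos : ∀ᶠ α : ℝ in 𝓝[>] 0, 0 < α := self_mem_nhdsWithin
    filter_upwards [hpos] with α hα
    simp only [Function.comp_apply]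
    rw [← MeasureTheory.integral_indicator measurableSet_Ioi]
    congr 1
    funext u
    by_cases hu : u ∈ Set.Ioi (0 : ℝ)
    · rw [Set.indicator_of_mem hu, Set.indicator_of_mem hu, Circle.smul_def, Real.fourierChar_apply,
        smul_eq_mul, mul_comm]
      congr 2
      push_cast
      have hpi : (Real.pi : ℂ) ≠ 0 := by exact_mod_cast Real.pi_ne_zero
      have hαc : (α : ℂ) ≠ 0 := by exact_mod_cast hα.ne'
      field_simp
    · rw [Set.indicator_of_notMem hu, Set.indicator_of_notMem hu, smul_zero]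

theorem abelian (φ : ℝ → ℂ) (hm : MeasureTheory.AEStronglyMeasurable φ
      (MeasureTheory.volume.restrict (Set.Ioc 0 1))) (A : ℝ)
    (hb : ∀ y : ℝ, 0 < y → y ≤ 1 → ‖φ y‖ ≤ A) (v : ℂ) (hv : Tendsto φ (𝓝[>] 0) (𝓝 v)) (M : ℕ)
    (τ : ℝ) :
    Tendsto (fun α : ℝ => (α : ℂ) ^ (M + 1) * ∫ y in Set.Ioc (0 : ℝ) 1,
      φ y * (y : ℂ) ^ (-1 + α + τ * I : ℂ) * (((Real.log (1 / y)) ^ M : ℝ) : ℂ)) (𝓝[>] 0)
      (𝓝 (if τ = 0 then v * (M.factorial : ℂ) else 0)) := by
  have h1 := ABT_I1 φ hm A hb v hv M τ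
  have h2 := (ABT_I2 M τ).const_mul v
  have h3 := h1.add h2
  have hlim : (0 : ℂ) + v * (if τ = 0 then (M.factorial : ℂ) else 0) =
      (if τ = 0 then v * (M.factorial : ℂ) else 0) := by
    split_ifs <;> simp
  rw [hlim] at h3
  refine h3.congr' ?_
  have hpos : ∀ᶠ α : ℝ in 𝓝[>] 0, 0 < α := self_mem_nhdsWithin
  filter_upwards [hpos] with α hα
  rw [ABT_subst φ M τ α hα, ← MeasureTheory.integral_const_mul, ← MeasureTheory.integral_add]
  · congr 1
    funext u
    ring
  · have hdom : MeasureTheory.IntegrableOn (fun u => ABT_g M u * (A + ‖v‖)) (Set.Ioi 0) :=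
      (ABT_g_int M).mul_const _
    refine hdom.mono' ((ABT_base_meas M τ α).mul
      ((ABT_meas φ hm A hb α hα).sub MeasureTheory.aestronglyMeasurable_const)) ?_
    rw [MeasureTheory.ae_restrict_iff' measurableSet_Ioi]
    refine Filter.Eventually.of_forall (fun u hu => ?_)
    have hu' : 0 < u := hu
    rw [norm_mul, ABT_norm M τ α u hu']
    apply mul_le_mul_of_nonneg_left _ (ABT_g_nonneg M u hu')
    refine (norm_sub_le _ _).trans ?_
    have h1 : Real.exp (-u / α) ≤ 1 := by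
      rw [Real.exp_le_one_iff]
      exact (div_neg_of_neg_of_pos (by linarith) hα).le
    have := hb _ (Real.exp_pos (-u / α)) h1
    linarith
  · apply MeasureTheory.Integrable.const_mul
    refine (ABT_g_int M).mono' (ABT_base_meas M τ α) ?_
    rw [MeasureTheory.ae_restrict_iff' measurableSet_Ioi]
    refine Filter.Eventually.of_forall (fun u hu => ?_)
    rw [ABT_norm M τ α u hu]

end Pool.Agent.H11.PC
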