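import Mathlib
import Pool.Agent.H11.PC.MEL
import Pool.Agent.H11.PC.ABT
import Pool.Agent.H39.Pol.CLB

/-!
# ABEL: from the behaviour at a cusp to the additive twist near `1 + it`

`h.rad` (`H39/Pol/CLB.lean`): `f(y) y^κ / L^M → v`, `f(y) = gs b 3 (y + βI)`, `κ = 4 + iτ`, `L = log(1/y)`.  Let
`φ(y) = f(y) y^κ / L^M` for `0 < y ≤ 1/e` (there `L^M ≥ 1`) and, say, `φ = 0` on `(1/e, 1]`; `φ` is bounded on `(0,1]` (it has a
limit at `0` and `f` is continuous for `y > 0`).  `mellin_gs` at `s = 1 + it + α`: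
`Γ(s+3) (2π)^(-(s+3)) Es b β s = ∫_0^∞ f(y) y^(3+it+α) dy = ∫_0^{1/e} φ(y) L^M y^(-1+α+i(t-τ)) dy + ∫_{1/e}^∞ f(y) y^(3+it+α) dy`, and the
last integral is bounded for `0 < α ≤ 1` (`gs_bd`).  `abelian` with `τ := t - τ`; `Γ(s+3) (2π)^(-(s+3)) → Γ(4+it) (2π)^(-(4+it)) ≠ 0`.
-/

set_option autoImplicit false

namespace Pool.Agent.H11.PC

open Complex Filter Topology Pool.Agent.H11.SC Pool.Agent.H39.Pol

/-- the constant of the Abelian theorem -/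
noncomputable def abc (M : ℕ) (τ : ℝ) : ℂ :=
  (M.factorial : ℂ) * (2 * (Real.pi : ℂ)) ^ (4 + τ * I : ℂ) / Gamma (4 + τ * I)

theorem abc_ne (M : ℕ) (τ : ℝ) : abc M τ ≠ 0 := by
  unfold abc
  have h2pi : (2 * (Real.pi : ℂ)) ≠ 0 := by
    have := Real.pi_ne_zero
    simp [this]
  refine div_ne_zero (mul_ne_zero ?_ ?_) (Complex.Gamma_ne_zero_of_re_pos (by simp))
  · exact_mod_cast M.factorial_ne_zero
  · rw [Complex.cpow_ne_zero_iff]
    left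
    exact h2pi

private theorem gs_meas {b : ℕ → ℂ}
    (ram : ∀ δ : ℝ, 0 < δ → ∃ C : ℝ, ∀ n : ℕ, 1 ≤ n → ‖b n‖ ≤ C * (n : ℝ) ^ δ) (β : ℝ) :
    MeasureTheory.AEStronglyMeasurable (fun y : ℝ => gs b 3 (y + β * I))
      (MeasureTheory.volume.restrict (Set.Ioi 0)) := by
  have h1 := (mellin_gs ram β 2 (by norm_num)).1.aestronglyMeasurable
  have h2 : MeasureTheory.AEStronglyMeasurable (fun y : ℝ => (y : ℂ) ^ (-(2 + 2) : ℂ))
      (MeasureTheory.volume.restrict (Set.Ioi (0 : ℝ))) :=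
    (Complex.measurable_ofReal.pow_const _).aestronglyMeasurable
  have h3 := h1.mul h2
  refine h3.congr ?_
  filter_upwards [MeasureTheory.ae_restrict_mem measurableSet_Ioi] with y hy
  have hy0 : 0 < y := hy
  have hyc : (y : ℂ) ≠ 0 := by exact_mod_cast hy0.ne'
  simp only [Pi.mul_apply]
  rw [mul_assoc, Complex.cpow_neg, mul_inv_cancel₀, mul_one]
  rw [Complex.cpow_ne_zero_iff]
  left
  exact hyc

/-- the function `φ` -/
private noncomputable def abphi (b : ℕ → ℂ) (β τ : ℝ) (M : ℕ) (y : ℝ) : ℂ :=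
  if y ≤ Real.exp (-1) then
    gs b 3 (y + β * I) * (y : ℂ) ^ (4 + τ * I : ℂ) / (((Real.log (1 / y)) ^ M : ℝ) : ℂ)
  else 0

private theorem abphi_lim {b : ℕ → ℂ} (M : ℕ) (τ β : ℝ) (v : ℂ)
    (h : CL (gs b 3) M (4 + τ * I) β v) : Tendsto (abphi b β τ M) (𝓝[>] 0) (𝓝 v) := by
  refine h.rad.congr' ?_
  have h1 : ∀ᶠ y : ℝ in 𝓝[>] 0, y < Real.exp (-1) :=
    nhdsWithin_le_nhds (Iio_mem_nhds (Real.exp_pos _))
  filter_upwards [h1] with y hy
  unfold abphi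
  rw [if_pos hy.le]

private theorem log_ge_one {y : ℝ} (hy : 0 < y) (hy1 : y ≤ Real.exp (-1)) :
    1 ≤ Real.log (1 / y) := by
  rw [Real.le_log_iff_exp_le (by positivity), le_div_iff₀ hy]
  calc Real.exp 1 * y ≤ Real.exp 1 * Real.exp (-1) := by gcongr
    _ = 1 := by rw [← Real.exp_add]; norm_num

private theorem abphi_meas {b : ℕ → ℂ}
    (ram : ∀ δ : ℝ, 0 < δ → ∃ C : ℝ, ∀ n : ℕ, 1 ≤ n → ‖b n‖ ≤ C * (n : ℝ) ^ δ) (β τ : ℝ) (M : ℕ) :
    MeasureTheory.AEStronglyMeasurable (abphi b β τ M)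
      (MeasureTheory.volume.restrict (Set.Ioc 0 1)) := by
  have h1 : MeasureTheory.AEStronglyMeasurable (fun y : ℝ => gs b 3 (y + β * I))
      (MeasureTheory.volume.restrict (Set.Ioc 0 1)) :=
    (gs_meas ram β).mono_measure (MeasureTheory.Measure.restrict_mono
      (fun y hy => hy.1) le_rfl)
  have h2 : Measurable (fun y : ℝ => (y : ℂ) ^ (4 + τ * I : ℂ)) :=
    Complex.measurable_ofReal.pow_const _
  have h3 : Measurable (fun y : ℝ => ((((Real.log (1 / y)) ^ M : ℝ) : ℂ))⁻¹) := by fun_prop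
  have h4 := (h1.mul h2.aestronglyMeasurable).mul h3.aestronglyMeasurable
  have h5 : MeasurableSet {y : ℝ | y ≤ Real.exp (-1)} := measurableSet_Iic
  have h6 := h4.indicator h5
  refine h6.congr ?_
  refine Filter.Eventually.of_forall (fun y => ?_)
  unfold abphi
  by_cases hy : y ≤ Real.exp (-1)
  · rw [if_pos hy, Set.indicator_of_mem (by exact hy)]
    simp only [Pi.mul_apply]
    exact (div_eq_mul_inv _ _).symm
  · rw [if_neg hy, Set.indicator_of_notMem (by exact hy)]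

private theorem abphi_bd {b : ℕ → ℂ}
    (ram : ∀ δ : ℝ, 0 < δ → ∃ C : ℝ, ∀ n : ℕ, 1 ≤ n → ‖b n‖ ≤ C * (n : ℝ) ^ δ)
    (M : ℕ) (τ β : ℝ) (v : ℂ) (h : CL (gs b 3) M (4 + τ * I) β v) :
    ∃ A : ℝ, ∀ y : ℝ, 0 < y → y ≤ 1 → ‖abphi b β τ M y‖ ≤ A := by
  obtain ⟨C, hC, hbd⟩ := gs_bd ram β
  have h1 := (abphi_lim M τ β v h).norm
  have h2 : ∀ᶠ y : ℝ in 𝓝[>] 0, ‖abphi b β τ M y‖ < ‖v‖ + 1 :=
    h1.eventually (gt_mem_nhds (by linarith))
  rw [eventually_nhdsWithin_iff, Metric.eventually_nhds_iff] at h2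
  obtain ⟨δ, hδ, h2⟩ := h2
  refine ⟨max (‖v‖ + 1) (C * (δ : ℝ) ^ (-5 : ℝ)), ?_⟩
  intro y hy0 hy1
  by_cases hyd : y < δ
  · refine le_trans (h2 ?_ hy0).le (le_max_left _ _)
    rw [Real.dist_eq, sub_zero, abs_of_pos hy0]
    exact hyd
  · push Not at hyd
    refine le_trans ?_ (le_max_right _ _)
    unfold abphi
    split_ifs with hye
    · have hL := log_ge_one hy0 hye
      have hLM : 1 ≤ (Real.log (1 / y)) ^ M := one_le_pow₀ hL
      rw [norm_div, norm_mul, Complex.norm_cpow_eq_rpow_re_of_pos hy0, Complex.norm_real,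
        Real.norm_of_nonneg (by linarith)]
      have e4 : (4 + (τ : ℂ) * I).re = 4 := by simp
      rw [e4]
      have h3 := hbd y hy0
      have h4 : y ^ (4 : ℝ) ≤ 1 := Real.rpow_le_one hy0.le hy1 (by norm_num)
      have h5 : (0 : ℝ) ≤ y ^ (4 : ℝ) := Real.rpow_nonneg hy0.le _
      have h6 : Real.exp (-y) ≤ 1 := Real.exp_le_one_iff.2 (by linarith)
      have h7 : y ^ (-5 : ℝ) ≤ δ ^ (-5 : ℝ) :=
        Real.rpow_le_rpow_of_nonpos hδ hyd (by norm_num)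
      have h8 : (0 : ℝ) ≤ y ^ (-5 : ℝ) := Real.rpow_nonneg hy0.le _
      have h9 : ‖gs b 3 (y + β * I)‖ ≤ C * δ ^ (-5 : ℝ) := by
        refine h3.trans ?_
        calc C * Real.exp (-y) * y ^ (-5 : ℝ) ≤ C * 1 * δ ^ (-5 : ℝ) := by gcongr
          _ = C * δ ^ (-5 : ℝ) := by ring
      have h10 : 0 ≤ C * δ ^ (-5 : ℝ) := le_trans (norm_nonneg _) h9
      rw [div_le_iff₀ (by linarith)]
      calc ‖gs b 3 (y + β * I)‖ * y ^ (4 : ℝ) ≤ C * δ ^ (-5 : ℝ) * 1 := by gcongr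
        _ ≤ C * δ ^ (-5 : ℝ) * (Real.log (1 / y)) ^ M := by gcongr
    · rw [norm_zero]
      positivity

private theorem tail_bd {b : ℕ → ℂ}
    (ram : ∀ δ : ℝ, 0 < δ → ∃ C : ℝ, ∀ n : ℕ, 1 ≤ n → ‖b n‖ ≤ C * (n : ℝ) ^ δ) (β t : ℝ) :
    ∃ K : ℝ, ∀ α : ℝ, 0 < α → α ≤ 1 →
      ‖∫ y in Set.Ioi (Real.exp (-1)), gs b 3 (y + β * I) * (y : ℂ) ^ (3 + t * I + α : ℂ)‖ ≤ K := by
  obtain ⟨C, hC, hbd⟩ := gs_bd ram β
  refine ⟨∫ y in Set.Ioi (Real.exp (-1)), C * Real.exp 2 * Real.exp (-y), ?_⟩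
  intro α hα hα1
  refine MeasureTheory.norm_integral_le_of_norm_le ?_ ?_
  · exact (integrableOn_exp_neg_Ioi _).const_mul _
  · filter_upwards [MeasureTheory.ae_restrict_mem measurableSet_Ioi] with y hy
    have hy1 : Real.exp (-1) < y := hy
    have hy0 : 0 < y := lt_trans (Real.exp_pos _) hy1
    have hlog : -1 < Real.log y := by
      rw [Real.lt_log_iff_exp_lt hy0]
      exact hy1
    rw [norm_mul, Complex.norm_cpow_eq_rpow_re_of_pos hy0]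
    have e1 : (3 + (t : ℂ) * I + α).re = 3 + α := by simp
    rw [e1]
    have h1 := hbd y hy0
    have h2 : y ^ (-5 : ℝ) * y ^ (3 + α) ≤ Real.exp 2 := by
      rw [← Real.rpow_add hy0, Real.rpow_def_of_pos hy0]
      refine Real.exp_le_exp.2 ?_
      nlinarith
    have h3 : (0 : ℝ) ≤ y ^ (3 + α) := Real.rpow_nonneg hy0.le _
    calc ‖gs b 3 (y + β * I)‖ * y ^ (3 + α)
        ≤ (C * Real.exp (-y) * y ^ (-5 : ℝ)) * y ^ (3 + α) := by gcongr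
      _ = C * Real.exp (-y) * (y ^ (-5 : ℝ) * y ^ (3 + α)) := by ring
      _ ≤ C * Real.exp (-y) * Real.exp 2 := by gcongr
      _ = C * Real.exp 2 * Real.exp (-y) := by ring

private theorem split_int {b : ℕ → ℂ}
    (ram : ∀ δ : ℝ, 0 < δ → ∃ C : ℝ, ∀ n : ℕ, 1 ≤ n → ‖b n‖ ≤ C * (n : ℝ) ^ δ)
    (M : ℕ) (τ t β : ℝ) (α : ℝ) (hα : 0 < α) :
    Gamma (4 + t * I + α) * (2 * (Real.pi : ℂ)) ^ (-(4 + t * I + α)) * Es b β (1 + t * I + α) =
      (∫ y in Set.Ioc (0 : ℝ) 1, abphi b β τ M y * (y : ℂ) ^ (-1 + α + ((t - τ : ℝ) : ℂ) * I : ℂ) *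
        (((Real.log (1 / y)) ^ M : ℝ) : ℂ)) +
      ∫ y in Set.Ioi (Real.exp (-1)), gs b 3 (y + β * I) * (y : ℂ) ^ (3 + t * I + α : ℂ) := by
  have hs : 1 < (1 + (t : ℂ) * I + α).re := by simp; exact hα
  obtain ⟨hi, he⟩ := mellin_gs ram β (1 + t * I + α) hs
  have e1 : (1 + (t : ℂ) * I + α + 3) = 4 + t * I + α := by ring
  have e2 : (1 + (t : ℂ) * I + α + 2) = 3 + t * I + α := by ring
  rw [e1, e2] at he
  rw [e2] at hi
  rw [← he]
  have hsub : Set.Ioc (0 : ℝ) (Real.exp (-1)) ∪ Set.Ioi (Real.exp (-1)) = Set.Ioi 0 :=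
    Set.Ioc_union_Ioi_eq_Ioi (Real.exp_pos _).le
  rw [← hsub, MeasureTheory.setIntegral_union Set.Ioc_disjoint_Ioi_same measurableSet_Ioi
    (hi.mono_set (fun y hy => hy.1))
    (hi.mono_set (fun y hy => lt_trans (Real.exp_pos _) hy))]
  congr 1
  have hexp1 : Real.exp (-1) ≤ 1 := Real.exp_le_one_iff.2 (by norm_num)
  rw [MeasureTheory.setIntegral_eq_of_subset_of_forall_sdiff_eq_zero (s := Set.Ioc (0 : ℝ) (Real.exp (-1)))
    (t := Set.Ioc (0 : ℝ) 1) measurableSet_Ioc (Set.Ioc_subset_Ioc_right hexp1)]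
  · refine MeasureTheory.setIntegral_congr_fun measurableSet_Ioc (fun y hy => ?_)
    have hy0 : 0 < y := hy.1
    have hyc : (y : ℂ) ≠ 0 := by exact_mod_cast hy0.ne'
    have hL := log_ge_one hy0 hy.2
    have hLM : (((Real.log (1 / y)) ^ M : ℝ) : ℂ) ≠ 0 := by
      have : (Real.log (1 / y)) ^ M ≠ 0 := by positivity
      exact_mod_cast this
    show gs b 3 (y + β * I) * (y : ℂ) ^ (3 + t * I + α : ℂ) = _
    unfold abphi
    rw [if_pos hy.2]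
    have e3 : (3 + (t : ℂ) * I + α) = (4 + τ * I) + (-1 + α + ((t - τ : ℝ) : ℂ) * I) := by
      push_cast
      ring
    rw [e3, Complex.cpow_add _ _ hyc]
    field_simp
  · intro y hy
    obtain ⟨hy1, hy2⟩ := hy
    have h1 : ¬ y ≤ Real.exp (-1) := fun h => hy2 ⟨hy1.1, h⟩
    unfold abphi
    rw [if_neg h1]
    ring

private theorem abel_gen {b : ℕ → ℂ}
    (ram : ∀ δ : ℝ, 0 < δ → ∃ C : ℝ, ∀ n : ℕ, 1 ≤ n → ‖b n‖ ≤ C * (n : ℝ) ^ δ)
    (M : ℕ) (τ t β : ℝ) (v : ℂ) (h : CL (gs b 3) M (4 + τ * I) β v) :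
    Tendsto (fun α : ℝ => (α : ℂ) ^ (M + 1) * Es b β (1 + t * I + α)) (𝓝[>] 0)
      (𝓝 ((if t - τ = 0 then v * (M.factorial : ℂ) else 0) /
        (Gamma (4 + t * I) * (2 * (Real.pi : ℂ)) ^ (-(4 + t * I : ℂ))))) := by
  obtain ⟨A, hA⟩ := abphi_bd ram M τ β v h
  have hab := abelian (abphi b β τ M) (abphi_meas ram β τ M) A hA v (abphi_lim M τ β v h) M (t - τ)
  obtain ⟨K, hK⟩ := tail_bd ram β t
  have h2pi : (2 * (Real.pi : ℂ)) ≠ 0 := by
    have := Real.pi_ne_zero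
    simp [this]
  have hunit : ∀ᶠ α : ℝ in 𝓝[>] 0, 0 < α ∧ α ≤ 1 := by
    have h1 : ∀ᶠ α : ℝ in 𝓝[>] 0, α < 1 := nhdsWithin_le_nhds (Iio_mem_nhds one_pos)
    filter_upwards [h1, self_mem_nhdsWithin] with α h1 h2
    exact ⟨h2, h1.le⟩
  have hpow : Tendsto (fun α : ℝ => α ^ (M + 1) * K) (𝓝[>] 0) (𝓝 0) := by
    have h1 : Continuous (fun α : ℝ => α ^ (M + 1) * K) := by fun_prop
    have h2 := h1.tendsto 0
    rw [zero_pow (Nat.succ_ne_zero M), zero_mul] at h2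
    exact h2.mono_left nhdsWithin_le_nhds
  have htail : Tendsto (fun α : ℝ => (α : ℂ) ^ (M + 1) *
      ∫ y in Set.Ioi (Real.exp (-1)), gs b 3 (y + β * I) * (y : ℂ) ^ (3 + t * I + α : ℂ))
      (𝓝[>] 0) (𝓝 0) := by
    refine squeeze_zero_norm' ?_ hpow
    filter_upwards [hunit] with α hα
    rw [norm_mul, norm_pow, Complex.norm_real, Real.norm_of_nonneg hα.1.le]
    have := hK α hα.1 hα.2
    have h0 : 0 ≤ α ^ (M + 1) := pow_nonneg hα.1.le _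
    gcongr
  have hsum := hab.add htail
  rw [add_zero] at hsum
  have hG : Tendsto (fun α : ℝ => Gamma (4 + t * I + α) *
      (2 * (Real.pi : ℂ)) ^ (-(4 + t * I + α : ℂ))) (𝓝[>] 0)
      (𝓝 (Gamma (4 + t * I) * (2 * (Real.pi : ℂ)) ^ (-(4 + t * I : ℂ)))) := by
    have hlin : Tendsto (fun α : ℝ => (4 + (t : ℂ) * I + α)) (𝓝[>] 0) (𝓝 (4 + t * I)) := by
      have h1 : Continuous (fun α : ℝ => (4 + (t : ℂ) * I + α)) := by fun_prop
      have h2 := h1.tendsto 0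
      rw [ofReal_zero, add_zero] at h2
      exact h2.mono_left nhdsWithin_le_nhds
    have hne : ∀ m : ℕ, (4 + (t : ℂ) * I) ≠ -m := by
      intro m hm
      have h1 := congrArg Complex.re hm
      simp at h1
      have h2 : (0 : ℝ) ≤ m := Nat.cast_nonneg m
      linarith
    have hg1 := ((Complex.differentiableAt_Gamma _ hne).continuousAt.tendsto).comp hlin
    have hg2 : Tendsto (fun z : ℂ => (2 * (Real.pi : ℂ)) ^ (-z)) (𝓝 (4 + t * I))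
        (𝓝 ((2 * (Real.pi : ℂ)) ^ (-(4 + t * I : ℂ)))) := by
      have h1 : Continuous (fun z : ℂ => (2 * (Real.pi : ℂ)) ^ (-z)) :=
        continuous_neg.const_cpow (Or.inl h2pi)
      exact h1.tendsto _
    exact hg1.mul (hg2.comp hlin)
  have hG0 : Gamma (4 + t * I) * (2 * (Real.pi : ℂ)) ^ (-(4 + t * I : ℂ)) ≠ 0 := by
    refine mul_ne_zero (Complex.Gamma_ne_zero_of_re_pos (by simp)) ?_
    rw [Complex.cpow_ne_zero_iff]
    left
    exact h2pi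
  have hfin := hsum.div hG hG0
  refine hfin.congr' ?_
  filter_upwards [hunit] with α hα
  have h1 := split_int ram M τ t β α hα.1
  have hGα : Gamma (4 + t * I + α) * (2 * (Real.pi : ℂ)) ^ (-(4 + t * I + α : ℂ)) ≠ 0 := by
    refine mul_ne_zero (Complex.Gamma_ne_zero_of_re_pos (by simp; linarith [hα.1])) ?_
    rw [Complex.cpow_ne_zero_iff]
    left
    exact h2pi
  simp only [Pi.div_apply]
  rw [← mul_add, ← h1, div_eq_iff hGα]
  ring

theorem abel {b : ℕ → ℂ}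
    (ram : ∀ δ : ℝ, 0 < δ → ∃ C : ℝ, ∀ n : ℕ, 1 ≤ n → ‖b n‖ ≤ C * (n : ℝ) ^ δ)
    (M : ℕ) (τ β : ℝ) (v : ℂ) (h : CL (gs b 3) M (4 + τ * I) β v) :
    Tendsto (fun α : ℝ => (α : ℂ) ^ (M + 1) * Es b β (1 + τ * I + α)) (𝓝[>] 0)
      (𝓝 (v * abc M τ)) := by
  have h1 := abel_gen ram M τ τ β v h
  rw [sub_self, if_pos rfl] at h1
  have e : v * abc M τ = v * (M.factorial : ℂ) /
      (Gamma (4 + τ * I) * (2 * (Real.pi : ℂ)) ^ (-(4 + τ * I : ℂ))) := by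
    unfold abc
    rw [Complex.cpow_neg]
    field_simp
  rw [e]
  exact h1

theorem abel_zero {b : ℕ → ℂ}
    (ram : ∀ δ : ℝ, 0 < δ → ∃ C : ℝ, ∀ n : ℕ, 1 ≤ n → ‖b n‖ ≤ C * (n : ℝ) ^ δ)
    (M : ℕ) (τ t β : ℝ) (v : ℂ) (h : CL (gs b 3) M (4 + τ * I) β v) (ht : t ≠ τ) :
    Tendsto (fun α : ℝ => (α : ℂ) ^ (M + 1) * Es b β (1 + t * I + α)) (𝓝[>] 0) (𝓝 0) := by
  have h1 := abel_gen ram M τ t β v h
  rw [if_neg (sub_ne_zero.2 ht), zero_div] at h1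
  exact h1

end Pool.Agent.H11.PC
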