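import Mathlib
import Pool.Agent.H11.PC.CMG
import Pool.Agent.H11.PC.SUMM
import Pool.Agent.H11.PC.DIR
import Pool.Agent.H11.PC.SB
import Pool.Agent.H11.PC.BES
import Pool.Agent.H11.PC.NTRIV

/-!
# BAD: only finitely many primes are not good

Let `C` be the constant of `sb_sum`, `K` that of `h.log`.  Suppose there are infinitely many bad primes and choose `J`
distinct ones `r_i`, `J > C`, with `e_i`, `χ_i`, `ψ_i ≠ 1` such that `α^(M+1) LT b (prodChar χ_i ψ_i) (1 - θI + α)` does not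
tend to `0` along `U`.  Since `U` is an ultrafilter there is `ε_i > 0` with `‖...‖ ≥ ε_i` for `U`-almost all `α`
(`Ultrafilter.eventually_not`-type lemma; `¬ ∀ᶠ, ‖.‖ < ε` gives `∀ᶠ, ε ≤ ‖.‖`); let `ε = min ε_i`.  Put
`g_i n = prodChar χ_i ψ_i n * n^(iθ)`, `CM` (`cm_prod`, `cm_pow`).  `LT b g_i (1+α) = LT b (prodChar χ_i ψ_i)(1 - θI + α)`
(`LT_shift`), so by `h.log` `Re PS (b g_i) (1+α) ≥ log ‖LT b g_i (1+α)‖ - K ≥ (M+1) log(1/α) + log ε - K`.
`Re PS (g_i conj g_i) (1+α) ≤ PS 1 (1+α) ≤ log(1/α) + C1` (`dir_one` with `L = 1`; the terms are `≤ p^(-1-α)`);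
`Re PS (g_i conj g_j) (1+α) ≤ C_ij` for `i ≠ j`: `g_i p conj (g_j p) = prodChar .. conj prodChar .. = Ψ p` (`ntriv`;
`p^(iθ) conj p^(iθ) = 1`), `dir_bdd` with `t = 0`.  So `bessel` and `sb_sum` give, for `U`-almost all `α` (all
`0 < α ≤ 1/2`, since `U ≤ 𝓝[>] 0`),
`2J((M+1) log(1/α) - C2) - J log(1/α) - C3 ≤ C log(1/α) + C`, i.e. `(J - C) log(1/α) ≤ C4`, and `log(1/α) → ∞` along
`U`: contradiction.
-/

set_option autoImplicit false

namespace Pool.Agent.H11.PC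

open Complex Filter Topology

theorem bad_re (c : ℕ → ℂ) (hc : ∀ n, ‖c n‖ ≤ 1) (α : ℝ) (hα : 0 < α) :
    (PS c ((1 + α : ℝ) : ℂ)).re ≤ (PS (fun _ => 1) ((1 + α : ℝ) : ℂ)).re := by
  have hs : 1 < (((1 + α : ℝ) : ℂ)).re := by
    rw [Complex.ofReal_re]
    linarith
  have h1 := prime_summable_one c hc _ hs
  have h2 := prime_summable_one (fun _ => 1) (fun _ => by rw [norm_one]) _ hs
  have h3 : ∀ p : Nat.Primes, ‖(1 : ℂ) * ((p : ℕ) : ℂ) ^ (-((1 + α : ℝ) : ℂ))‖ =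
      ((p : ℕ) : ℝ) ^ (-(1 + α)) := by
    intro p
    rw [one_mul, Complex.norm_natCast_cpow_of_pos p.2.pos]
    congr 1
  have h4 : (PS (fun _ => 1) ((1 + α : ℝ) : ℂ)).re =
      ∑' p : Nat.Primes, ((p : ℕ) : ℝ) ^ (-(1 + α)) := by
    unfold PS
    rw [Complex.re_tsum h2.of_norm]
    apply tsum_congr
    intro p
    rw [one_mul]
    have h5 : ((p : ℕ) : ℂ) ^ (-((1 + α : ℝ) : ℂ)) = ((((p : ℕ) : ℝ) ^ (-(1 + α)) : ℝ) : ℂ) := by
      rw [Complex.ofReal_cpow (Nat.cast_nonneg _)]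
      push_cast
      rfl
    rw [h5, Complex.ofReal_re]
  rw [h4]
  calc (PS c ((1 + α : ℝ) : ℂ)).re ≤ ‖PS c ((1 + α : ℝ) : ℂ)‖ := Complex.re_le_norm _
    _ ≤ ∑' p : Nat.Primes, ‖c (p : ℕ) * ((p : ℕ) : ℂ) ^ (-((1 + α : ℝ) : ℂ))‖ :=
        norm_tsum_le_tsum_norm h1
    _ ≤ ∑' p : Nat.Primes, ((p : ℕ) : ℝ) ^ (-(1 + α)) := by
        refine h1.tsum_le_tsum (fun p => ?_) (h2.congr fun p => h3 p)
        rw [norm_mul]
        have h6 : ‖((p : ℕ) : ℂ) ^ (-((1 + α : ℝ) : ℂ))‖ = ((p : ℕ) : ℝ) ^ (-(1 + α)) := by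
          have h7 := h3 p
          rwa [one_mul] at h7
        rw [h6]
        exact mul_le_of_le_one_left (Real.rpow_nonneg (Nat.cast_nonneg _) _) (hc _)

theorem bad_diag : ∃ C : ℝ, ∀ (c : ℕ → ℂ), (∀ n, ‖c n‖ ≤ 1) → ∀ α : ℝ, 0 < α → α ≤ 1 →
    (PS c ((1 + α : ℝ) : ℂ)).re ≤ Real.log (1 / α) + C := by
  obtain ⟨C, hC⟩ := dir_one (L := 1)
  refine ⟨C, fun c hc α hα hα1 => (bad_re c hc α hα).trans ?_⟩
  have h1 := hC α hα hα1
  have h2 : (fun n : ℕ => (1 : DirichletCharacter ℂ 1) (n : ZMod 1)) = fun _ => 1 := by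
    funext n
    rw [MulChar.one_apply]
    rw [ZMod.isUnit_iff_coprime]
    exact Nat.coprime_one_right n
  rw [h2] at h1
  have h3 : ((1 + α : ℝ) : ℂ) = 1 + (α : ℂ) := by push_cast; rfl
  rw [h3]
  have h4 : (PS (fun _ => 1) (1 + (α : ℂ)) + (Real.log α : ℂ)).re ≤ C := (Complex.re_le_norm _).trans h1
  rw [Complex.add_re, Complex.ofReal_re] at h4
  rw [one_div, Real.log_inv]
  linarith

theorem bad_finite {b : ℕ → ℂ} (h : PD b) (N : ℕ) [NeZero N] (M : ℕ) (θ : ℝ) (U : Ultrafilter ℝ)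
    (hU : (U : Filter ℝ) ≤ 𝓝[>] 0) :
    {r : ℕ | r.Prime ∧ ¬ r ∣ N ∧ ¬ Good b N M θ U r}.Finite := by
  classical
  by_contra hinf
  obtain ⟨C, hC0, hC⟩ := sb_sum h
  obtain ⟨J, hJ⟩ := exists_nat_gt C
  obtain ⟨t, ht, htJ⟩ := (show Set.Infinite _ from hinf).exists_subset_card_eq J
  have hbad : ∀ i : t, ∃ (e : ℕ) (χ : DirichletCharacter ℂ N)
      (ψ : DirichletCharacter ℂ ((i : ℕ) ^ e)), ψ ≠ 1 ∧ ¬ Tendsto
      (fun α : ℝ => (α : ℂ) ^ (M + 1) * LT b (prodChar χ ψ) (1 - θ * I + α)) U (𝓝 0) := by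
    intro i
    have h1 := (ht i.2).2.2
    unfold Good at h1
    push Not at h1
    exact h1
  choose e χ ψ hψ hT using hbad
  obtain ⟨g, hg⟩ : ∃ g : t → ℕ → ℂ, ∀ i n, g i n = prodChar (χ i) (ψ i) n * (n : ℂ) ^ ((θ : ℂ) * I) :=
    ⟨_, fun _ _ => rfl⟩
  have hgcm : ∀ i, CM (g i) := by
    intro i
    have h1 : g i = fun n => prodChar (χ i) (ψ i) n * (n : ℂ) ^ ((θ : ℂ) * I) := funext (hg i)
    rw [h1]
    exact (cm_prod (χ i) (ψ i)).times (cm_pow θ)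
  obtain ⟨K, hK0, hK⟩ := h.log
  -- lower bounds
  have hlow : ∀ i : t, ∃ E : ℝ, ∀ᶠ α in (U : Filter ℝ), 0 < α → α ≤ 1 →
      ((M : ℝ) + 1) * Real.log (1 / α) + E ≤ (PS (fun n => b n * g i n) ((1 + α : ℝ) : ℂ)).re := by
    intro i
    have h1 := hT i
    rw [Metric.tendsto_nhds] at h1
    push Not at h1
    obtain ⟨ε, hε, h2⟩ := h1
    refine ⟨Real.log ε - K, ?_⟩
    filter_upwards [h2] with α h3 hα hα1
    have hs : 1 < (((1 + α : ℝ) : ℂ)).re := by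
      rw [Complex.ofReal_re]
      linarith
    obtain ⟨R, hR, hL⟩ := hK (g i) (hgcm i) _ hs
    have h4 : LT b (g i) ((1 + α : ℝ) : ℂ) = LT b (prodChar (χ i) (ψ i)) (1 - θ * I + α) := by
      have h5 : g i = fun n => prodChar (χ i) (ψ i) n * (n : ℂ) ^ ((θ : ℂ) * I) := funext (hg i)
      rw [h5, LT_shift]
      congr 1
      push_cast
      ring
    rw [dist_zero_right, norm_mul, norm_pow, Complex.norm_real, Real.norm_eq_abs, abs_of_pos hα,
      ← h4, hL, Complex.norm_exp] at h3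
    have h6 : Real.log ε ≤ Real.log (α ^ (M + 1) *
        Real.exp ((PS (fun n => b n * g i n) ((1 + α : ℝ) : ℂ) + R).re)) := Real.log_le_log hε h3
    rw [Real.log_mul (pow_ne_zero _ hα.ne') (Real.exp_ne_zero _), Real.log_pow, Real.log_exp,
      Complex.add_re] at h6
    have h7 : R.re ≤ K := (Complex.re_le_norm _).trans hR
    rw [one_div, Real.log_inv]
    rw [Nat.cast_add, Nat.cast_one] at h6
    linarith
  -- upper bounds for the pairs
  have hup : ∀ i j : t, ∃ D : ℝ, ∀ α : ℝ, 0 < α → α ≤ 1 →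
      (PS (fun n => g i n * (starRingEnd ℂ) (g j n)) ((1 + α : ℝ) : ℂ)).re ≤
        (if i = j then Real.log (1 / α) else 0) + D := by
    intro i j
    by_cases hij : i = j
    · obtain ⟨C1, hC1⟩ := bad_diag
      refine ⟨C1, fun α hα hα1 => ?_⟩
      rw [if_pos hij]
      exact hC1 _ ((hgcm i).times (hgcm j).star).bd α hα hα1
    · have hr : (i : ℕ) ≠ (j : ℕ) := fun h1 => hij (Subtype.ext h1)
      obtain ⟨L, hL, Ψ, hΨ, hval⟩ := ntriv (ht i.2).1 (ht j.2).1 hr (ht i.2).2.1 (χ i) (χ j)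
        (ψ i) (ψ j) (hψ i)
      obtain ⟨C1, hC1⟩ := dir_bdd Ψ 0 (Or.inl hΨ)
      refine ⟨C1, fun α hα hα1 => ?_⟩
      rw [if_neg hij, zero_add]
      have h1 : PS (fun n => g i n * (starRingEnd ℂ) (g j n)) ((1 + α : ℝ) : ℂ) =
          PS (fun n => Ψ (n : ZMod L)) (1 + ((0 : ℝ) : ℂ) * I + α) := by
        have h2 : ((1 + α : ℝ) : ℂ) = 1 + ((0 : ℝ) : ℂ) * I + α := by
          push_cast
          ring
        rw [h2]
        unfold PS
        apply tsum_congr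
        intro p
        congr 1
        have h3 : ((p : ℕ) : ℂ) ^ ((θ : ℂ) * I) * (starRingEnd ℂ) (((p : ℕ) : ℂ) ^ ((θ : ℂ) * I)) = 1 := by
          rw [Complex.mul_conj, Complex.normSq_eq_norm_sq,
            Complex.norm_natCast_cpow_of_pos p.2.pos]
          simp
        beta_reduce
        rw [hg, hg, map_mul, ← hval]
        calc prodChar (χ i) (ψ i) (p : ℕ) * ((p : ℕ) : ℂ) ^ ((θ : ℂ) * I) *
            ((starRingEnd ℂ) (prodChar (χ j) (ψ j) (p : ℕ)) *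
              (starRingEnd ℂ) (((p : ℕ) : ℂ) ^ ((θ : ℂ) * I)))
            = prodChar (χ i) (ψ i) (p : ℕ) * (starRingEnd ℂ) (prodChar (χ j) (ψ j) (p : ℕ)) *
              (((p : ℕ) : ℂ) ^ ((θ : ℂ) * I) * (starRingEnd ℂ) (((p : ℕ) : ℂ) ^ ((θ : ℂ) * I))) := by
              ring
          _ = _ := by rw [h3, mul_one]
      rw [h1]
      exact (Complex.re_le_norm _).trans (hC1 α hα hα1)
  choose E hE using hlow
  choose D hD using hup
  have hcard : (Fintype.card t : ℝ) = J := by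
    rw [Fintype.card_coe, htJ]
  -- the inequality
  have key : ∀ᶠ α in (U : Filter ℝ), (J - C) * Real.log (1 / α) ≤
      C + (∑ i, ∑ j, D i j) - 2 * ∑ i, E i := by
    have hsmall : ∀ᶠ α in (U : Filter ℝ), 0 < α ∧ α ≤ 1 / 2 := by
      apply hU
      have h1 : Set.Ioc (0 : ℝ) (1 / 2) ∈ 𝓝[>] (0 : ℝ) := Ioc_mem_nhdsGT (by norm_num)
      exact h1
    filter_upwards [hsmall, Filter.eventually_all.2 hE] with α hα hEα
    have hα1 : α ≤ 1 := hα.2.trans (by norm_num)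
    have hb := bessel h g hgcm (1 + α) (by linarith [hα.1])
    have hc := hC α hα.1 hα.2
    have hl0 : 0 ≤ Real.log (1 / α) := Real.log_nonneg ((one_le_div hα.1).2 hα1)
    have h1 : ∑ i, (((M : ℝ) + 1) * Real.log (1 / α) + E i) ≤
        ∑ i, (PS (fun n => b n * g i n) ((1 + α : ℝ) : ℂ)).re :=
      Finset.sum_le_sum fun i _ => hEα i hα.1 hα1
    have h2 : ∑ i, ∑ j, (PS (fun n => g i n * (starRingEnd ℂ) (g j n)) ((1 + α : ℝ) : ℂ)).re ≤
        ∑ i, ∑ j, ((if i = j then Real.log (1 / α) else 0) + D i j) :=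
      Finset.sum_le_sum fun i _ => Finset.sum_le_sum fun j _ => hD i j α hα.1 hα1
    have h3 : ∑ i, ∑ j, ((if i = j then Real.log (1 / α) else 0) + D i j) =
        (J : ℝ) * Real.log (1 / α) + ∑ i, ∑ j, D i j := by
      simp only [Finset.sum_add_distrib, Finset.sum_ite_eq, Finset.mem_univ, if_true,
        Finset.sum_const, Finset.card_univ, nsmul_eq_mul, hcard]
    have h4 : ∑ i, (((M : ℝ) + 1) * Real.log (1 / α) + E i) =
        (J : ℝ) * (((M : ℝ) + 1) * Real.log (1 / α)) + ∑ i, E i := by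
      simp only [Finset.sum_add_distrib, Finset.sum_const, Finset.card_univ, nsmul_eq_mul, hcard]
    rw [h3] at h2
    rw [h4] at h1
    have h5 : Real.log (1 / α) ≤ ((M : ℝ) + 1) * Real.log (1 / α) := by
      have : (0 : ℝ) ≤ (M : ℝ) := Nat.cast_nonneg M
      nlinarith
    have h6 : (J : ℝ) * Real.log (1 / α) ≤ (J : ℝ) * (((M : ℝ) + 1) * Real.log (1 / α)) :=
      mul_le_mul_of_nonneg_left h5 (Nat.cast_nonneg J)
    linarith
  have hlim : Tendsto (fun α : ℝ => (J - C) * Real.log (1 / α)) U atTop := by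
    have h1 : Tendsto (fun α : ℝ => Real.log (1 / α)) (𝓝[>] 0) atTop := by
      have h2 : Tendsto (fun α : ℝ => (1 / α : ℝ)) (𝓝[>] 0) atTop := by
        simp only [one_div]
        exact tendsto_inv_nhdsGT_zero
      exact Real.tendsto_log_atTop.comp h2
    exact (h1.mono_left hU).const_mul_atTop (by linarith)
  obtain ⟨α, h1, h2⟩ := (key.and (hlim.eventually_gt_atTop
    (C + (∑ i, ∑ j, D i j) - 2 * ∑ i, E i))).exists
  linarith

end Pool.Agent.H11.PC
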