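import Mathlib
import Pool.Agent.H11.PC.Defs
import Pool.Agent.H11.PC.LAMC

/-!
# BR1: the coefficients at the good primes

Multiply the relation for `k = 1` by `r / w` and insert `Lam_one` with `X = χ(r) r^(-1+θI)` (`‖X‖ = 1/r`, `χ(r) ≠ 0`,
`b(r) r X = b(r) r^(θI) χ(r)`): with `c χ = γ χ χ(a0) / w`, `∑ c χ = 1`,
`r^(2θI) = -∑ c_χ (χ r)⁻¹ + b(r) r^(θI) + O(r^(-1/2))`.
-/

set_option autoImplicit false

namespace Pool.Agent.H11.PC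

open Complex Filter Topology

theorem br_one {b : ℕ → ℂ} (h : PD b) (N a0 : ℕ) [NeZero N] (θ : ℝ) (w : ℂ) (hw : w ≠ 0)
    (B : Set ℕ) (hgood : ∀ r : ℕ, r.Prime → r ∉ B → ¬ r ∣ N)
    (γ : DirichletCharacter ℂ N → ℂ)
    (h0 : ∑ χ : DirichletCharacter ℂ N, γ χ * χ (a0 : ZMod N) = w)
    (h1 : ∀ r : ℕ, r.Prime → r ∉ B → w * ((r : ℂ) ^ (-1 + 2 * θ * I : ℂ)) =
          ∑ χ : DirichletCharacter ℂ N, γ χ * χ (a0 : ZMod N) * (χ (r : ZMod N))⁻¹ *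
            Lam b r 1 (χ (r : ZMod N) * (r : ℂ) ^ (-(1 - θ * I : ℂ)))) :
    ∃ C : ℝ, 0 ≤ C ∧ ∀ r : ℕ, r.Prime → r ∉ B →
      ‖b r * (r : ℂ) ^ ((θ : ℂ) * I) - ((r : ℂ) ^ (2 * (θ : ℂ) * I) +
        ∑ χ : DirichletCharacter ℂ N, (γ χ * χ (a0 : ZMod N) / w) * (χ (r : ZMod N))⁻¹)‖ ≤
        C * (r : ℝ) ^ (-(1 / 2) : ℝ) := by
  obtain ⟨C1, hC1, hL⟩ := Lam_one h
  refine ⟨C1 * ∑ χ : DirichletCharacter ℂ N, ‖γ χ * χ (a0 : ZMod N) / w‖,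
    mul_nonneg hC1 (Finset.sum_nonneg fun _ _ => norm_nonneg _), ?_⟩
  intro r hr hrB
  have hrN := hgood r hr hrB
  have hr0 : (r : ℂ) ≠ 0 := Nat.cast_ne_zero.mpr hr.ne_zero
  have hcop : Nat.Coprime r N := (Nat.Prime.coprime_iff_not_dvd hr).mpr hrN
  have hunit : IsUnit (r : ZMod N) := (ZMod.isUnit_iff_coprime r N).mpr hcop
  have hnorm : ∀ χ : DirichletCharacter ℂ N, ‖χ (r : ZMod N)‖ = 1 := by
    intro χ
    obtain ⟨u, hu⟩ := hunit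
    rw [← hu]
    exact χ.unit_norm_eq_one u
  have hne : ∀ χ : DirichletCharacter ℂ N, χ (r : ZMod N) ≠ 0 := by
    intro χ h0'
    have := hnorm χ
    rw [h0', norm_zero] at this
    exact zero_ne_one this
  have hEb : ∀ χ : DirichletCharacter ℂ N,
      ‖(r : ℂ) * Lam b r 1 (χ (r : ZMod N) * (r : ℂ) ^ (-(1 - θ * I : ℂ))) -
        (-1 + b r * ((r : ℂ) * (χ (r : ZMod N) * (r : ℂ) ^ (-(1 - θ * I : ℂ)))))‖ ≤
        C1 * (r : ℝ) ^ (-(1 / 2) : ℝ) := by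
    intro χ
    refine hL r hr _ ?_
    rw [norm_mul, hnorm, one_mul, norm_natCast_cpow_of_pos hr.pos]
    have : (-(1 - (θ : ℂ) * I)).re = -1 := by simp
    rw [this, Real.rpow_neg_one, one_div]
  have hsum1 : ∑ χ : DirichletCharacter ℂ N, γ χ * χ (a0 : ZMod N) / w = 1 := by
    rw [← Finset.sum_div, h0, div_self hw]
  have hX : ∀ χ : DirichletCharacter ℂ N,
      (r : ℂ) * (χ (r : ZMod N) * (r : ℂ) ^ (-(1 - θ * I : ℂ))) =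
        χ (r : ZMod N) * (r : ℂ) ^ ((θ : ℂ) * I) := by
    intro χ
    have e : (r : ℂ) ^ ((θ : ℂ) * I) = (r : ℂ) * (r : ℂ) ^ (-(1 - θ * I : ℂ)) := by
      calc (r : ℂ) ^ ((θ : ℂ) * I) = (r : ℂ) ^ (1 + (-(1 - θ * I : ℂ))) := by
            congr 1
            ring
        _ = _ := by rw [cpow_add _ _ hr0, cpow_one]
    rw [e]
    ring
  have key : (r : ℂ) ^ (2 * (θ : ℂ) * I) = ∑ χ : DirichletCharacter ℂ N,
      (γ χ * χ (a0 : ZMod N) / w) * (χ (r : ZMod N))⁻¹ *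
        ((r : ℂ) * Lam b r 1 (χ (r : ZMod N) * (r : ℂ) ^ (-(1 - θ * I : ℂ)))) := by
    have e := h1 r hr hrB
    have e2 : (r : ℂ) ^ (-1 + 2 * θ * I : ℂ) = (r : ℂ)⁻¹ * (r : ℂ) ^ (2 * (θ : ℂ) * I) := by
      rw [cpow_add _ _ hr0, cpow_neg_one]
    rw [e2] at e
    have e3 : (r : ℂ) ^ (2 * (θ : ℂ) * I) =
        (r / w) * (w * ((r : ℂ)⁻¹ * (r : ℂ) ^ (2 * (θ : ℂ) * I))) := by
      field_simp
    rw [e3, e, Finset.mul_sum]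
    refine Finset.sum_congr rfl fun χ _ => ?_
    ring
  have hexp : ∀ χ : DirichletCharacter ℂ N,
      (γ χ * χ (a0 : ZMod N) / w) * (χ (r : ZMod N))⁻¹ *
        ((r : ℂ) * Lam b r 1 (χ (r : ZMod N) * (r : ℂ) ^ (-(1 - θ * I : ℂ))) -
        (-1 + b r * ((r : ℂ) * (χ (r : ZMod N) * (r : ℂ) ^ (-(1 - θ * I : ℂ)))))) =
      (γ χ * χ (a0 : ZMod N) / w) * (χ (r : ZMod N))⁻¹ *
        ((r : ℂ) * Lam b r 1 (χ (r : ZMod N) * (r : ℂ) ^ (-(1 - θ * I : ℂ)))) +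
      (γ χ * χ (a0 : ZMod N) / w) * (χ (r : ZMod N))⁻¹ -
      b r * (r : ℂ) ^ ((θ : ℂ) * I) * (γ χ * χ (a0 : ZMod N) / w) := by
    intro χ
    rw [hX χ]
    have e := mul_inv_cancel₀ (hne χ)
    linear_combination
      (-(γ χ * χ (a0 : ZMod N) / w * b r * (r : ℂ) ^ ((θ : ℂ) * I))) * e
  have hfin : b r * (r : ℂ) ^ ((θ : ℂ) * I) - ((r : ℂ) ^ (2 * (θ : ℂ) * I) +
        ∑ χ : DirichletCharacter ℂ N, (γ χ * χ (a0 : ZMod N) / w) * (χ (r : ZMod N))⁻¹) =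
      -∑ χ : DirichletCharacter ℂ N, (γ χ * χ (a0 : ZMod N) / w) * (χ (r : ZMod N))⁻¹ *
        ((r : ℂ) * Lam b r 1 (χ (r : ZMod N) * (r : ℂ) ^ (-(1 - θ * I : ℂ))) -
        (-1 + b r * ((r : ℂ) * (χ (r : ZMod N) * (r : ℂ) ^ (-(1 - θ * I : ℂ)))))) := by
    rw [Finset.sum_congr rfl fun χ _ => hexp χ, Finset.sum_sub_distrib, Finset.sum_add_distrib,
      ← key, ← Finset.mul_sum, hsum1]
    ring
  rw [hfin, norm_neg]
  refine (norm_sum_le _ _).trans ?_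
  have hre : C1 * (∑ χ : DirichletCharacter ℂ N, ‖γ χ * χ (a0 : ZMod N) / w‖) *
      (r : ℝ) ^ (-(1 / 2) : ℝ) = ∑ χ : DirichletCharacter ℂ N,
      ‖γ χ * χ (a0 : ZMod N) / w‖ * (C1 * (r : ℝ) ^ (-(1 / 2) : ℝ)) := by
    rw [← Finset.sum_mul]
    ring
  rw [hre]
  refine Finset.sum_le_sum fun χ _ => ?_
  rw [norm_mul, norm_mul (γ χ * χ (a0 : ZMod N) / w), norm_inv, hnorm χ, inv_one, mul_one]
  exact mul_le_mul_of_nonneg_left (hEb χ) (norm_nonneg _)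

end Pool.Agent.H11.PC
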