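import Mathlib
import Pool.Agent.H11.PC.Defs
import Pool.Agent.H11.Selberg.LineFinal

/-!
# LOGZ: the prime sum at the pole

`b n = a n n^(-iδ)`, `θ = -δ`.  `PS b (1 + θI + α) = ∑_p a(p) p^(-1-α) = LSeries (b1 a) (1 + α)`.  `selberg_hasLog a F hS 0`
(`H11/Selberg/Mer.lean`) at `ξ = 0`: `‖LSeries (b1 a)(1+α) - ord F 0 * log α‖ ≤ K`.  So
`‖F(1+α)‖ = exp(Re (LSeries (b1 a)(1+α)) + O(1))` (`selberg_logData`: `F = exp(LSeries c + R)`, `R` bounded) lies between constants times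
`α^(ord F 0)`, and `Es b 0 (1+θI+α) = LSeries a (1+α) = F(1+α)` with `α^(M+1) F(1+α) → w0 ≠ 0` (`hz`); hence
`ord F 0 = -(M+1)`.
-/

set_option autoImplicit false

namespace Pool.Agent.H11.PC

open Complex Filter Topology Pool.Agent.H11.Selberg

private theorem logz_cancel (n : ℕ) (hn : n ≠ 0) (δ α : ℝ) :
    (n : ℂ) ^ (-(δ * I) : ℂ) * (n : ℂ) ^ (-(1 + ((-δ : ℝ) : ℂ) * I + α)) =
      (n : ℂ) ^ (-(1 + (α : ℂ))) := by
  have hnc : (n : ℂ) ≠ 0 := by exact_mod_cast hn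
  rw [← Complex.cpow_add _ _ hnc]
  congr 1
  push_cast
  ring

private theorem logz_ps (a : ℕ → ℂ) (δ α : ℝ) :
    PS (fun n => a n * (n : ℂ) ^ (-(δ * I) : ℂ)) (1 + ((-δ : ℝ) : ℂ) * I + α) =
      LSeries (b1 a) (1 + α) := by
  unfold PS LSeries
  have h1 : ∀ p : Nat.Primes, (a (p : ℕ) * (((p : ℕ) : ℕ) : ℂ) ^ (-(δ * I) : ℂ)) *
      ((p : ℕ) : ℂ) ^ (-(1 + ((-δ : ℝ) : ℂ) * I + α)) =
      LSeries.term (b1 a) (1 + α) (p : ℕ) := by
    intro p
    have hp : (p : ℕ).Prime := p.2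
    rw [mul_assoc, logz_cancel _ hp.ne_zero, LSeries.term_of_ne_zero hp.ne_zero, b1, if_pos hp,
      Complex.cpow_neg, div_eq_mul_inv]
  rw [tsum_congr h1]
  have h2 := tsum_subtype {p : ℕ | p.Prime} (fun n => LSeries.term (b1 a) (1 + (α : ℂ)) n)
  have h3 : ∑' p : Nat.Primes, LSeries.term (b1 a) (1 + (α : ℂ)) (p : ℕ) =
      ∑' p : {p : ℕ | p.Prime}, LSeries.term (b1 a) (1 + (α : ℂ)) (p : ℕ) := rfl
  rw [h3, h2]
  refine tsum_congr fun n => ?_
  by_cases hn : n.Prime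
  · rw [Set.indicator_of_mem (by exact hn)]
  · rw [Set.indicator_of_notMem (by exact hn)]
    by_cases h0 : n = 0
    · subst h0
      simp
    · rw [LSeries.term_of_ne_zero h0, b1, if_neg hn, zero_div]

private theorem logz_es (a : ℕ → ℂ) (δ α : ℝ) :
    Es (fun n => a n * (n : ℂ) ^ (-(δ * I) : ℂ)) 0 (1 + ((-δ : ℝ) : ℂ) * I + α) =
      LSeries a (1 + α) := by
  unfold Es LSeries
  refine tsum_congr fun n => ?_
  by_cases h0 : n = 0
  · subst h0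
    simp
  · rw [LSeries.term_of_ne_zero h0, LSeries.term_of_ne_zero h0, div_eq_mul_inv, div_eq_mul_inv,
      ← Complex.cpow_neg, ← Complex.cpow_neg, ← logz_cancel n h0 δ α]
    simp
    ring

theorem logz (a : ℕ → ℂ) (F : ℂ → ℂ) (hS : IsSelberg a F) (δ : ℝ) (M : ℕ) (w0 : ℂ) (hw0 : w0 ≠ 0)
    (hz : Tendsto (fun α : ℝ => (α : ℂ) ^ (M + 1) *
      Es (fun n => a n * (n : ℂ) ^ (-(δ * I) : ℂ)) 0 (1 + ((-δ : ℝ) : ℂ) * I + α)) (𝓝[>] 0) (𝓝 w0)) :
    ∃ C : ℝ, ∀ α : ℝ, 0 < α → α ≤ 1 →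
      ‖PS (fun n => a n * (n : ℂ) ^ (-(δ * I) : ℂ)) (1 + ((-δ : ℝ) : ℂ) * I + α) +
        ((M : ℂ) + 1) * (Real.log α : ℂ)‖ ≤ C := by
  obtain ⟨R, hR⟩ := selberg_logData a F hS
  obtain ⟨K, hK, hRK⟩ := hR.bound
  obtain ⟨K', N, hK', hlog⟩ := selberg_hasLog a F hS 0
  set m0 : ℤ := ord F 0 with hm0
  have h1 : ∀ α : ℝ, 0 < α → α ≤ 1 →
      ‖LSeries (b1 a) (1 + α) - m0 * (Real.log α : ℂ)‖ ≤ K' := by
    intro α h2 h3
    have h4 := hlog α 0 h2 h3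
    simpa using h4
  have hre : ∀ α : ℝ, 0 < α → 1 < (1 + (α : ℂ)).re := by
    intro α hα
    simp [hα]
  -- size of F
  have h2 : ∀ α : ℝ, 0 < α → α ≤ 1 → |Real.log ‖F (1 + α)‖ - m0 * Real.log α| ≤ K + K' := by
    intro α h3 h4
    rw [hR.exp_eq _ (hre α h3), Complex.norm_exp, Real.log_exp]
    have h5 := Complex.abs_re_le_norm (LSeries (b1 a) (1 + α) - m0 * (Real.log α : ℂ))
    have h6 := Complex.abs_re_le_norm (R (1 + α))
    have h7 : (LSeries (b1 a) (1 + α) - m0 * (Real.log α : ℂ)).re =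
        (LSeries (b1 a) (1 + α)).re - m0 * Real.log α := by
      have : ((m0 : ℂ) * (Real.log α : ℂ)) = ((m0 * Real.log α : ℝ) : ℂ) := by push_cast; ring
      rw [Complex.sub_re, this, Complex.ofReal_re]
    rw [h7] at h5
    have h8 := h1 α h3 h4
    have h9 := hRK (1 + α) (hre α h3)
    have h10 : (LSeries (b1 a) (1 + (α : ℂ)) + R (1 + α)).re - m0 * Real.log α =
        ((LSeries (b1 a) (1 + (α : ℂ))).re - m0 * Real.log α) + (R (1 + α)).re := by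
      rw [Complex.add_re]
      ring
    rw [h10]
    calc _ ≤ _ := abs_add_le _ _
      _ ≤ K' + K := add_le_add (h5.trans h8) (h6.trans h9)
      _ = K + K' := add_comm _ _
  -- the limit of the norm
  have h3 : Tendsto (fun α : ℝ => Real.log (α ^ (M + 1) * ‖F (1 + α)‖)) (𝓝[>] 0)
      (𝓝 (Real.log ‖w0‖)) := by
    have h4 := hz.norm
    have h5 : Tendsto (fun α : ℝ => α ^ (M + 1) * ‖F (1 + α)‖) (𝓝[>] 0) (𝓝 ‖w0‖) := by
      refine h4.congr' ?_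
      filter_upwards [self_mem_nhdsWithin] with α hα
      have hα0 : 0 < α := hα
      rw [logz_es, ← hS.eq_LSeries _ (hre α hα0), norm_mul, norm_pow, Complex.norm_real,
        Real.norm_eq_abs, abs_of_pos hα0]
    exact (Real.continuousAt_log (norm_ne_zero_iff.2 hw0)).tendsto.comp h5
  have hFne : ∀ α : ℝ, 0 < α → ‖F (1 + α)‖ ≠ 0 := by
    intro α hα
    rw [hR.exp_eq _ (hre α hα), Complex.norm_exp]
    exact (Real.exp_pos _).ne'
  -- `(M + 1 + m0) log α` is bounded near zero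
  have h4 : m0 = -((M : ℤ) + 1) := by
    by_contra hne
    have hk : ((M : ℝ) + 1 + m0) ≠ 0 := by
      intro h5
      apply hne
      have h6 : ((M : ℤ) : ℝ) + 1 + (m0 : ℝ) = 0 := by exact_mod_cast h5
      have h7 : (M : ℤ) + 1 + m0 = 0 := by exact_mod_cast h6
      linarith
    have h5 : Tendsto (fun α : ℝ => |((M : ℝ) + 1 + m0) * Real.log α|) (𝓝[>] 0) atTop := by
      have h6 : Tendsto (fun α : ℝ => |Real.log α|) (𝓝[>] 0) atTop :=
        tendsto_abs_atBot_atTop.comp Real.tendsto_log_nhdsGT_zero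
      have h7 := h6.const_mul_atTop (abs_pos.2 hk)
      refine h7.congr fun α => ?_
      rw [abs_mul]
    have h6 : ∀ᶠ α : ℝ in 𝓝[>] 0, |Real.log (α ^ (M + 1) * ‖F (1 + α)‖)| ≤
        |Real.log ‖w0‖| + 1 := by
      have h7 := h3.abs
      exact (h7.eventually_lt_const (lt_add_one _)).mono fun α h => h.le
    have h7 : ∀ᶠ α : ℝ in 𝓝[>] 0, α ≤ 1 := by
      have h71 : ∀ᶠ α : ℝ in 𝓝 0, α < 1 := gt_mem_nhds one_pos
      exact (h71.filter_mono nhdsWithin_le_nhds).mono fun α h => le_of_lt h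
    have h8 := h5.eventually_gt_atTop (|Real.log ‖w0‖| + 1 + (K + K'))
    obtain ⟨α, ⟨h9, h10⟩, h11, h12⟩ := ((h6.and h7).and (h8.and self_mem_nhdsWithin)).exists
    have hα : 0 < α := h12
    have h13 := h2 α hα h10
    rw [Real.log_mul (pow_pos hα _).ne' (hFne α hα), Real.log_pow] at h9
    have h14 : ((M : ℝ) + 1 + m0) * Real.log α =
        (((M + 1 : ℕ) : ℝ) * Real.log α + Real.log ‖F (1 + α)‖) -
          (Real.log ‖F (1 + α)‖ - m0 * Real.log α) := by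
      push_cast
      ring
    rw [h14] at h11
    have h15 := abs_sub (((M + 1 : ℕ) : ℝ) * Real.log α + Real.log ‖F (1 + α)‖)
      (Real.log ‖F (1 + α)‖ - m0 * Real.log α)
    linarith
  refine ⟨K', fun α hα hα1 => ?_⟩
  rw [logz_ps]
  have h5 := h1 α hα hα1
  rw [h4] at h5
  have e : LSeries (b1 a) (1 + (α : ℂ)) + ((M : ℂ) + 1) * (Real.log α : ℂ) =
      LSeries (b1 a) (1 + (α : ℂ)) - ((-((M : ℤ) + 1) : ℤ) : ℂ) * (Real.log α : ℂ) := by
    push_cast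
    ring
  rw [e]
  exact h5

end Pool.Agent.H11.PC
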