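import Mathlib
import Pool.Agent.H11.PC.ABEL
import Pool.Agent.H39.Pol.ZeroC
import Pool.Agent.H39.Pol.WC

/-!
# WB: the values at the cusps `1/(q m)`

`q = sq²`.  `zero_cusp` (`H39/Pol/ZeroC.lean`): `CL (gs b 3) M (4 + θI) 0 ρ`, `ρ ≠ 0`; `CL.per` with `gs_per`: the same at `m`.
`w_cusp` (`H39/Pol/WC.lean`) at `β = 1/(q m)`, `0 < β ≤ 1`, `1/(q β) = m`, `τ = θ`:
`CL (gs b 3) M (4 - θI) β v_m`, `v_m = I ωp (sq β) (q β²)^(-θI) conj ρ`; `sq β = (sq)⁻¹ m⁻¹`, `q β² = 1/(q m²)`, so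
`v_m = (I ωp conj ρ sq⁻¹ q^(θI)) m^(-1 + 2θI)` (`‖ωp‖ = 1`, so the constant is `≠ 0`).  `cusp_cl` records this; `cusp_values`
follows with `abel` (`τ := -θ`, `4 + (-θ) I`), and `zero_values`, `zero_values'` with `abel`, `abel_zero` at `β = 0`.
-/

set_option autoImplicit false

namespace Pool.Agent.H11.PC

open Complex Filter Topology Pool.Agent.H11.SC Pool.Agent.H39.Pol

variable {b : ℕ → ℂ} {sq θ : ℝ} {M : ℕ} {ωp ωm : ℂ} {Rp Rm : Polynomial ℂ} {C : ℝ}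

private theorem wb_pow {sq θ : ℝ} (hsq : 0 < sq) {m : ℕ} (hm : 1 ≤ m) :
    ((sq ^ 2 * (1 / (sq ^ 2 * m)) ^ 2 : ℝ) : ℂ) ^ (-(θ * I)) =
      ((sq ^ 2 : ℝ) : ℂ) ^ (θ * I : ℂ) * (m : ℂ) ^ (2 * θ * I : ℂ) := by
  have hm0 : (0 : ℝ) < m := by exact_mod_cast hm
  have e1 : sq ^ 2 * (1 / (sq ^ 2 * m)) ^ 2 = (sq ^ 2 * (m : ℝ) ^ 2)⁻¹ := by
    field_simp
  rw [e1, Complex.ofReal_inv, Complex.inv_cpow _ _ (by
    rw [Complex.arg_ofReal_of_nonneg (by positivity)]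
    exact Real.pi_pos.ne), ← Complex.cpow_neg, neg_neg, Complex.ofReal_mul,
    Complex.mul_cpow_ofReal_nonneg (by positivity) (by positivity)]
  congr 1
  have e2 : (((m : ℝ) ^ 2 : ℝ) : ℂ) = (m : ℂ) ^ (2 : ℕ) := by push_cast; rfl
  rw [e2, ← Complex.natCast_cpow_natCast_mul]
  congr 1
  push_cast
  ring

theorem cusp_cl (h : Inv2 b sq M θ ωp ωm Rp Rm C) : ∃ v : ℂ, v ≠ 0 ∧
    ∀ m : ℕ, 1 ≤ m → 1 ≤ sq ^ 2 * m →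
      CL (gs b 3) M (4 + ((-θ : ℝ) : ℂ) * I) (1 / (sq ^ 2 * m))
        (v * (m : ℂ) ^ (-1 + 2 * θ * I : ℂ)) := by
  obtain ⟨ρ, hρ, hcl⟩ := zero_cusp h
  have hsq := h.sq0
  have hsqc : (sq : ℂ) ≠ 0 := by exact_mod_cast hsq.ne'
  have hω : ωp ≠ 0 := by
    intro h0
    have h1 := h.hp
    rw [h0, norm_zero] at h1
    exact zero_ne_one h1
  have hconj : (starRingEnd ℂ) ρ ≠ 0 := by
    simpa using hρ
  refine ⟨I * ωp * (sq : ℂ)⁻¹ * ((sq ^ 2 : ℝ) : ℂ) ^ (θ * I : ℂ) * (starRingEnd ℂ) ρ, ?_, ?_⟩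
  · have h1 : ((sq ^ 2 : ℝ) : ℂ) ≠ 0 := by exact_mod_cast (pow_pos hsq 2).ne'
    have h2 : ((sq ^ 2 : ℝ) : ℂ) ^ (θ * I : ℂ) ≠ 0 := by
      rw [Complex.cpow_def_of_ne_zero h1]
      exact Complex.exp_ne_zero _
    refine mul_ne_zero (mul_ne_zero (mul_ne_zero (mul_ne_zero I_ne_zero hω) (inv_ne_zero hsqc)) h2)
      hconj
  · intro m hm hqm
    have hm0 : (0 : ℝ) < m := by exact_mod_cast hm
    have hmc : (m : ℂ) ≠ 0 := by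
      have : m ≠ 0 := by omega
      exact_mod_cast this
    have hβ : (0 : ℝ) < 1 / (sq ^ 2 * m) := by positivity
    have hβ1 : |1 / (sq ^ 2 * (m : ℝ))| ≤ 1 := by
      rw [abs_of_pos hβ, div_le_one (by positivity)]
      exact hqm
    have h1 : CL (gs b 3) M (4 + θ * I) (1 / (sq ^ 2 * (1 / (sq ^ 2 * m)))) ρ := by
      have h2 := CL.per (gs_per b 3) hcl (m : ℤ)
      have e : (0 : ℝ) + ((m : ℤ) : ℝ) = 1 / (sq ^ 2 * (1 / (sq ^ 2 * m))) := by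
        push_cast
        field_simp
        ring
      rw [e] at h2
      exact h2
    have h2 := w_cusp h (1 / (sq ^ 2 * m)) θ ρ hβ.ne' hβ1 h1
    rw [if_pos hβ, abs_of_pos hβ, wb_pow hsq hm] at h2
    have e1 : (4 + ((-θ : ℝ) : ℂ) * I : ℂ) = 4 - θ * I := by
      push_cast
      ring
    rw [e1]
    have e2 : I * ωp * (sq : ℂ)⁻¹ * ((sq ^ 2 : ℝ) : ℂ) ^ (θ * I : ℂ) * (starRingEnd ℂ) ρ *
        (m : ℂ) ^ (-1 + 2 * θ * I : ℂ) =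
        I * ωp * ((sq * (1 / (sq ^ 2 * m)) : ℝ) : ℂ) *
          (((sq ^ 2 : ℝ) : ℂ) ^ (θ * I : ℂ) * (m : ℂ) ^ (2 * θ * I : ℂ)) * (starRingEnd ℂ) ρ := by
      rw [Complex.cpow_add _ _ hmc, Complex.cpow_neg_one]
      have e3 : ((sq * (1 / (sq ^ 2 * m)) : ℝ) : ℂ) = (sq : ℂ)⁻¹ * (m : ℂ)⁻¹ := by
        push_cast
        field_simp
      rw [e3]
      ring
    rw [e2]
    exact h2

theorem cusp_values (h : Inv2 b sq M θ ωp ωm Rp Rm C) : ∃ w : ℂ, w ≠ 0 ∧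
    ∀ m : ℕ, 1 ≤ m → 1 ≤ sq ^ 2 * m →
      Tendsto (fun α : ℝ => (α : ℂ) ^ (M + 1) * Es b (1 / (sq ^ 2 * m)) (1 - θ * I + α)) (𝓝[>] 0)
        (𝓝 (w * (m : ℂ) ^ (-1 + 2 * θ * I : ℂ))) := by
  obtain ⟨v, hv, hcl⟩ := cusp_cl h
  refine ⟨v * abc M (-θ), mul_ne_zero hv (abc_ne M (-θ)), ?_⟩
  intro m hm hqm
  have h1 := abel h.ram M (-θ) (1 / (sq ^ 2 * m)) _ (hcl m hm hqm)
  have e1 : (fun α : ℝ => (α : ℂ) ^ (M + 1) * Es b (1 / (sq ^ 2 * m)) (1 - θ * I + α)) =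
      fun α : ℝ => (α : ℂ) ^ (M + 1) * Es b (1 / (sq ^ 2 * m)) (1 + ((-θ : ℝ) : ℂ) * I + α) := by
    funext α
    congr 2
    push_cast
    ring
  rw [e1]
  have e2 : v * abc M (-θ) * (m : ℂ) ^ (-1 + 2 * θ * I : ℂ) =
      v * (m : ℂ) ^ (-1 + 2 * θ * I : ℂ) * abc M (-θ) := by ring
  rw [e2]
  exact h1

theorem zero_values (h : Inv2 b sq M θ ωp ωm Rp Rm C) : ∃ w0 : ℂ, w0 ≠ 0 ∧
    Tendsto (fun α : ℝ => (α : ℂ) ^ (M + 1) * Es b 0 (1 + θ * I + α)) (𝓝[>] 0) (𝓝 w0) := by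
  obtain ⟨ρ, hρ, hcl⟩ := zero_cusp h
  exact ⟨ρ * abc M θ, mul_ne_zero hρ (abc_ne M θ), abel h.ram M θ 0 ρ hcl⟩

theorem zero_values' (h : Inv2 b sq M θ ωp ωm Rp Rm C) (hθ : θ ≠ 0) :
    Tendsto (fun α : ℝ => (α : ℂ) ^ (M + 1) * Es b 0 (1 - θ * I + α)) (𝓝[>] 0) (𝓝 0) := by
  obtain ⟨ρ, hρ, hcl⟩ := zero_cusp h
  have h1 := abel_zero h.ram M θ (-θ) 0 ρ hcl (by
    intro h2
    apply hθ
    linarith)
  have e1 : (fun α : ℝ => (α : ℂ) ^ (M + 1) * Es b 0 (1 - θ * I + α)) =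
      fun α : ℝ => (α : ℂ) ^ (M + 1) * Es b 0 (1 + ((-θ : ℝ) : ℂ) * I + α) := by
    funext α
    congr 2
    push_cast
    ring
  rw [e1]
  exact h1

end Pool.Agent.H11.PC
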