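import Mathlib
import Pool.Agent.H11.PC.WB
import Pool.Agent.H11.PC.LOGZ
import Pool.Agent.H11.PC.PDOF

/-!
# CDR: the data for a rational conductor

`q = sq²` rational and positive.  Choose `m0 ≥ 1` with `q m0 ≥ 1`; `1/(q m0)` is a positive rational number: write it as `a0/N` in lowest
terms (`Rat.num`, `Rat.den`).  Then `a0/(N m) = 1/(q (m0 m))`, and `(m0 m : ℂ)^z = m0^z m^z` (`natCast_mul_natCast_cpow`), so `val`
holds with `w = w' m0^(-1+2θI)` by `cusp_values` (`q m0 m ≥ 1`).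
-/

set_option autoImplicit false

namespace Pool.Agent.H11.PC

open Complex Filter Topology Pool.Agent.H11.Selberg Pool.Agent.H11.SC Pool.Agent.H39.Pol

theorem cd_of_rat {b : ℕ → ℂ} {sq θ : ℝ} {M : ℕ} {ωp ωm : ℂ} {Rp Rm : Polynomial ℂ} {C : ℝ}
    (h : Inv2 b sq M θ ωp ωm Rp Rm C) (hp : PD b) (hq : ¬ Irrational (sq ^ 2))
    (hl : ∀ w0 : ℂ, w0 ≠ 0 →
      Tendsto (fun α : ℝ => (α : ℂ) ^ (M + 1) * Es b 0 (1 + θ * I + α)) (𝓝[>] 0) (𝓝 w0) →
      ∃ C : ℝ, ∀ α : ℝ, 0 < α → α ≤ 1 →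
        ‖PS b (1 + θ * I + α) + ((M : ℂ) + 1) * (Real.log α : ℂ)‖ ≤ C) :
    ∃ (N a0 : ℕ) (w w0 : ℂ), CD b N a0 M θ w w0 := by
  obtain ⟨w', hw', hval⟩ := cusp_values h
  obtain ⟨w0, hw0, hzero⟩ := zero_values h
  have hsq : 0 < sq ^ 2 := by
    have := h.sq0
    positivity
  unfold Irrational at hq
  rw [not_not] at hq
  obtain ⟨q, hq⟩ := hq
  have hq0 : (0 : ℚ) < q := by
    have h1 : (0 : ℝ) < (q : ℝ) := by rw [hq]; exact hsq
    exact_mod_cast h1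
  obtain ⟨m0, hm0⟩ := exists_nat_gt (1 / sq ^ 2)
  have hm0' : (1 : ℝ) < sq ^ 2 * m0 := by
    rw [div_lt_iff₀ hsq] at hm0
    linarith
  have hm0pos : 0 < m0 := by
    rcases Nat.eq_zero_or_pos m0 with h0 | h0
    · exfalso
      rw [h0] at hm0'
      norm_num at hm0'
    · exact h0
  have hm0R : (1 : ℝ) ≤ (m0 : ℝ) := by exact_mod_cast hm0pos
  set r : ℚ := 1 / (q * m0) with hr
  have hm0Q : (0 : ℚ) < (m0 : ℚ) := by exact_mod_cast hm0pos
  have hr0 : 0 < r := by positivity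
  have hnum : 0 < r.num := Rat.num_pos.2 hr0
  have hrR : ((r.num.natAbs : ℕ) : ℝ) / ((r.den : ℕ) : ℝ) = 1 / (sq ^ 2 * m0) := by
    have h1 : (r : ℝ) = 1 / (sq ^ 2 * m0) := by
      rw [hr, ← hq]
      push_cast
      rfl
    rw [← h1]
    have h2 : ((r.num.natAbs : ℕ) : ℝ) = ((r.num : ℤ) : ℝ) := by
      rw [Nat.cast_natAbs, abs_of_pos hnum]
    rw [h2]
    exact (Rat.cast_def r).symm
  have hden : (0 : ℝ) < ((r.den : ℕ) : ℝ) := by exact_mod_cast r.den_pos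
  refine ⟨r.den, r.num.natAbs, w' * (m0 : ℂ) ^ (-1 + 2 * θ * I : ℂ), w0, ?_⟩
  refine
    { pd := hp
      Npos := r.den_pos
      cop := r.reduced
      a0pos := Int.natAbs_pos.2 hnum.ne'
      w_ne := ?_
      w0_ne := hw0
      val := ?_
      zero := hzero
      zero' := fun hθ => zero_values' h hθ
      logz := hl w0 hw0 hzero }
  · refine mul_ne_zero hw' ?_
    rw [Complex.cpow_ne_zero_iff]
    left
    exact_mod_cast hm0pos.ne'
  · intro m hm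
    have hmR : (1 : ℝ) ≤ (m : ℝ) := by exact_mod_cast hm
    have h1 : 1 ≤ m0 * m := Nat.mul_pos hm0pos hm
    have h2 : 1 ≤ sq ^ 2 * ((m0 * m : ℕ) : ℝ) := by
      push_cast
      nlinarith
    have h3 := hval (m0 * m) h1 h2
    have e1 : 1 / (sq ^ 2 * ((m0 * m : ℕ) : ℝ)) =
        ((r.num.natAbs : ℕ) : ℝ) / (((r.den : ℕ) : ℝ) * m) := by
      have h4 : ((r.num.natAbs : ℕ) : ℝ) / (((r.den : ℕ) : ℝ) * m) =
          ((r.num.natAbs : ℕ) : ℝ) / ((r.den : ℕ) : ℝ) / m := by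
        rw [div_div]
      rw [h4, hrR, div_div]
      push_cast
      ring
    rw [e1] at h3
    have e2 : (((m0 * m : ℕ) : ℂ)) ^ (-1 + 2 * θ * I : ℂ) =
        (m0 : ℂ) ^ (-1 + 2 * θ * I : ℂ) * (m : ℂ) ^ (-1 + 2 * θ * I : ℂ) := by
      rw [Nat.cast_mul, Complex.natCast_mul_natCast_cpow]
    rw [e2, ← mul_assoc] at h3
    exact h3

end Pool.Agent.H11.PC
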