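import Mathlib
import Pool.Agent.H11.PC.FPHASE
import Pool.Agent.H11.PC.FCRA
import Pool.Agent.H11.PC.FCONT
import Pool.Agent.H11.SC7.LFE

/-!
# FCRIT: the functional equation of the quotient on the critical line

`compare` (FCRA) with `f1 t = F(1/2+it)`, `f2 t = ζ(1/2+it)`, `f3 t = L(1/2+it+iτ, χ)`, `P t = LSeries d (1/2+it)`,
`c1 = cF Q lam mu`, `c2 = cF √(1/π) (1/2) 0`, `c3 = cF √(N/π) (1/2) mu'` (`zeta_functional`, `L_functional` of `H11/SC7/LFE.lean` at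
`s = 1/2 + it`, `1 - conj s = s`; if `χ = 1`, `N = 1`, `τ = 0` use `zeta_functional` again), `L1 = ∑ lam = 1`, `L2 = L3 = 1/2`
(`phase`, `cF_ne`, `cF_cont`).  `F(1/2+it) = G(1/2+it)/(1/2+it-1)^m` is continuous.  `hf`: `fcont`.  `hd`: `dense_line`.
`P` is continuous and bounded: `‖P t‖ ≤ ∑ ‖d n‖ n^(-1/2)`.
-/

set_option autoImplicit false

namespace Pool.Agent.H11.PC

open Complex Filter Topology Pool.Agent.H11.Selberg

private theorem fcrit_refl (t : ℝ) :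
    1 - (starRingEnd ℂ) (1 / 2 + t * I : ℂ) = 1 / 2 + t * I := by
  rw [map_add, map_mul, conj_I, conj_ofReal, map_div₀, map_one, map_ofNat]
  ring

private theorem fcrit_re (t : ℝ) : (1 / 2 + t * I : ℂ).re = 1 / 2 := by
  simp

private theorem fcrit_ne (t : ℝ) : (1 / 2 + t * I : ℂ) ≠ 1 := by
  intro h
  have h1 := fcrit_re t
  rw [h, one_re] at h1
  norm_num at h1

private theorem fcrit_line_cont : Continuous fun t : ℝ => (1 / 2 + t * I : ℂ) := by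
  fun_prop

private theorem fcrit_eq (Q : ℝ) {r : ℕ} (lam : Fin r → ℝ) (mu : Fin r → ℂ) (F : ℂ → ℂ) (ε : ℂ)
    (t : ℝ) (h : completed Q lam mu F (1 / 2 + t * I) =
      ε * (starRingEnd ℂ) (completed Q lam mu F (1 - (starRingEnd ℂ) (1 / 2 + t * I)))) :
    cF Q lam mu t * F (1 / 2 + t * I) =
      ε * (starRingEnd ℂ) (cF Q lam mu t * F (1 / 2 + t * I)) := by
  rw [fcrit_refl] at h
  exact h

private theorem fcrit_zeta_cont : Continuous fun t : ℝ => riemannZeta (1 / 2 + t * I) := by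
  rw [continuous_iff_continuousAt]
  intro t
  have h1 : ContinuousAt riemannZeta (1 / 2 + t * I) :=
    (differentiableAt_riemannZeta (fcrit_ne t)).continuousAt
  exact ContinuousAt.comp (f := fun t : ℝ => (1 / 2 + t * I : ℂ)) h1
    fcrit_line_cont.continuousAt

private theorem fcrit_L {N : ℕ} [NeZero N] (χ : DirichletCharacter ℂ N) (hprim : χ.IsPrimitive)
    (τ : ℝ) (hχ : χ ≠ 1 ∨ (N = 1 ∧ τ = 0)) :
    (Continuous fun t : ℝ => χ.LFunction (1 / 2 + t * I + τ * I)) ∧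
    ∃ (Q3 : ℝ) (mu3 ε3 : ℂ), 0 < Q3 ∧ 0 ≤ mu3.re ∧ ‖ε3‖ = 1 ∧
      ∀ t : ℝ, cF Q3 (fun _ : Fin 1 => (1 / 2 : ℝ)) (fun _ : Fin 1 => mu3) t *
        χ.LFunction (1 / 2 + t * I + τ * I) =
        ε3 * (starRingEnd ℂ) (cF Q3 (fun _ : Fin 1 => (1 / 2 : ℝ)) (fun _ : Fin 1 => mu3) t *
        χ.LFunction (1 / 2 + t * I + τ * I)) := by
  by_cases h1 : χ = 1
  · rcases hχ with h | ⟨hN, hτ⟩
    · exact absurd h1 h
    subst hN
    subst hτ
    have h2 : ∀ t : ℝ, χ.LFunction (1 / 2 + t * I + ((0 : ℝ) : ℂ) * I) =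
        riemannZeta (1 / 2 + t * I) := by
      intro t
      rw [DirichletCharacter.LFunction_modOne_eq, ofReal_zero, zero_mul, add_zero]
    simp only [h2]
    refine ⟨fcrit_zeta_cont, Real.sqrt (1 / Real.pi), 0, 1, ?_, ?_, ?_, ?_⟩
    · exact Real.sqrt_pos.2 (by positivity)
    · rw [zero_re]
    · rw [norm_one]
    · intro t
      exact fcrit_eq _ _ _ _ _ _ (SC7.zeta_functional _ (by rw [fcrit_re]; norm_num)
        (by rw [fcrit_re]; norm_num))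
  · have hc : Continuous χ.LFunction := (DirichletCharacter.differentiable_LFunction h1).continuous
    obtain ⟨mu3, ε3, hmu3, hε3, hfe3⟩ := SC7.L_functional χ hprim h1 τ
    refine ⟨?_, Real.sqrt (N / Real.pi), mu3, ε3, ?_, hmu3, hε3, ?_⟩
    · exact hc.comp (by fun_prop)
    · have hN : (0 : ℝ) < N := by exact_mod_cast Nat.pos_of_ne_zero (NeZero.ne N)
      exact Real.sqrt_pos.2 (by positivity)
    · intro t
      exact fcrit_eq _ _ _ (fun s => χ.LFunction (s + τ * I)) _ _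
        (hfe3 _ (by rw [fcrit_re]; norm_num) (by rw [fcrit_re]; norm_num))

private theorem fcrit_F_cont (a : ℕ → ℂ) (F : ℂ → ℂ) (hS : IsSelberg a F) :
    Continuous fun t : ℝ => F (1 / 2 + t * I) := by
  obtain ⟨m, G, hG, _, hGF⟩ := hS.continuation
  have h1 : ∀ t : ℝ, F (1 / 2 + t * I) =
      G (1 / 2 + t * I) / ((1 / 2 + t * I : ℂ) - 1) ^ m := by
    intro t
    have h2 : ((1 / 2 + t * I : ℂ) - 1) ^ m ≠ 0 := pow_ne_zero _ (sub_ne_zero.2 (fcrit_ne t))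
    rw [eq_div_iff h2, hGF _ (fcrit_ne t), mul_comm]
  simp only [h1]
  refine (hG.continuous.comp fcrit_line_cont).div (by fun_prop) fun t => ?_
  exact pow_ne_zero _ (sub_ne_zero.2 (fcrit_ne t))

private theorem fcrit_term (d : ℕ → ℂ) (n : ℕ) (t : ℝ) :
    ‖LSeries.term d (1 / 2 + t * I) n‖ ≤ ‖d n‖ * (n : ℝ) ^ (-(1 / 4) : ℝ) := by
  rcases Nat.eq_zero_or_pos n with h0 | h0
  · subst h0
    rw [LSeries.term_zero, norm_zero]
    positivity
  · rw [LSeries.term_of_ne_zero h0.ne', norm_div, div_eq_mul_inv]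
    have hn : (0 : ℝ) < n := by exact_mod_cast h0
    have h1 : ‖(n : ℂ) ^ (1 / 2 + t * I : ℂ)‖ = (n : ℝ) ^ (1 / 2 : ℝ) := by
      rw [norm_natCast_cpow_of_pos h0, fcrit_re]
    rw [h1, ← Real.rpow_neg hn.le]
    refine mul_le_mul_of_nonneg_left ?_ (norm_nonneg _)
    exact Real.rpow_le_rpow_of_exponent_le (by exact_mod_cast h0) (by norm_num)

private theorem fcrit_P_cont (d : ℕ → ℂ)
    (hd : Summable (fun n : ℕ => ‖d n‖ * (n : ℝ) ^ (-(1 / 4) : ℝ))) :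
    (Continuous fun t : ℝ => LSeries d (1 / 2 + t * I)) ∧
      ∀ t : ℝ, ‖LSeries d (1 / 2 + t * I)‖ ≤ ∑' n : ℕ, ‖d n‖ * (n : ℝ) ^ (-(1 / 4) : ℝ) := by
  constructor
  · unfold LSeries
    refine continuous_tsum (fun n => ?_) hd (fcrit_term d)
    rcases Nat.eq_zero_or_pos n with h0 | h0
    · subst h0
      simp only [LSeries.term_zero]
      exact continuous_const
    · have hn : (n : ℂ) ≠ 0 := by exact_mod_cast h0.ne'
      simp only [LSeries.term_of_ne_zero h0.ne']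
      refine continuous_const.div ?_ fun t => ?_
      · exact Continuous.const_cpow fcrit_line_cont (Or.inl hn)
      · rw [cpow_def_of_ne_zero hn]
        exact exp_ne_zero _
  · intro t
    unfold LSeries
    exact tsum_of_norm_bounded hd.hasSum (fcrit_term d · t)

theorem crit (a : ℕ → ℂ) (F : ℂ → ℂ) (hS : IsSelberg a F)
    (Q : ℝ) (r : ℕ) (lam : Fin r → ℝ) (mu : Fin r → ℂ) (ε : ℂ)
    (hQ : 0 < Q) (hlam : ∀ j, 0 < lam j) (hmu : ∀ j, 0 ≤ (mu j).re) (hε : ‖ε‖ = 1)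
    (hfe : ∀ s : ℂ, 0 < s.re → s.re < 1 →
      completed Q lam mu F s =
        ε * (starRingEnd ℂ) (completed Q lam mu F (1 - (starRingEnd ℂ) s)))
    (hdeg : 2 * ∑ j, lam j = 2) {N : ℕ} [NeZero N]
    (χ : DirichletCharacter ℂ N) (hprim : χ.IsPrimitive) (τ : ℝ)
    (hχ : χ ≠ 1 ∨ (N = 1 ∧ τ = 0)) (d : ℕ → ℂ) (D : DC a χ τ d) :
    ∃ (ω0 : ℂ) (A κ : ℝ), Tendsto (fun t : ℝ => LSeries d (1 / 2 + t * I) -
      ω0 * cexp (((A * t + κ * Real.log t : ℝ) : ℂ) * I) *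
        (starRingEnd ℂ) (LSeries d (1 / 2 + t * I))) atTop (𝓝 0) := by
  have hL1 : ∑ j, lam j = 1 := by linarith
  obtain ⟨hPc, hPb⟩ := fcrit_P_cont d D.sum
  obtain ⟨hLc, Q3, mu3, ε3, hQ3, hmu3, hε3, e3⟩ := fcrit_L χ hprim τ hχ
  have hQ2 : 0 < Real.sqrt (1 / Real.pi) := Real.sqrt_pos.2 (by positivity)
  have hlam2 : ∀ j : Fin 1, 0 < (fun _ : Fin 1 => (1 / 2 : ℝ)) j := fun _ => by norm_num
  have hmu2 : ∀ j : Fin 1, 0 ≤ ((fun _ : Fin 1 => (0 : ℂ)) j).re := fun _ => by simp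
  have hmu3' : ∀ j : Fin 1, 0 ≤ ((fun _ : Fin 1 => mu3) j).re := fun _ => hmu3
  obtain ⟨C1, A1, k1, hC1, p1⟩ := phase Q hQ lam mu hlam hmu
  obtain ⟨C2, A2, k2, hC2, p2⟩ := phase _ hQ2 _ _ hlam2 hmu2
  obtain ⟨C3, A3, k3, hC3, p3⟩ := phase _ hQ3 _ _ hlam2 hmu3'
  refine compare (fun t => F (1 / 2 + t * I)) (fun t => riemannZeta (1 / 2 + t * I))
    (fun t => χ.LFunction (1 / 2 + t * I + τ * I)) (fun t => LSeries d (1 / 2 + t * I))
    (cF Q lam mu) _ _ (fcrit_F_cont a F hS) fcrit_zeta_cont hLc hPc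
    (cF_cont Q hQ lam mu hlam hmu) (cF_cont _ hQ2 _ _ hlam2 hmu2) (cF_cont _ hQ3 _ _ hlam2 hmu3')
    (cF_ne Q hQ lam mu hlam hmu) (cF_ne _ hQ2 _ _ hlam2 hmu2) (cF_ne _ hQ3 _ _ hlam2 hmu3')
    ε 1 ε3 hε norm_one hε3 ?_ ?_ e3 ?_ (dense_line χ τ hχ)
    (∑' n : ℕ, ‖d n‖ * (n : ℝ) ^ (-(1 / 4) : ℝ)) hPb (∑ j, lam j) (∑ _j : Fin 1, (1 / 2 : ℝ))
    (∑ _j : Fin 1, (1 / 2 : ℝ)) A1 A2 A3 k1 k2 k3 ?_ C1 C2 C3 hC1 hC2 hC3 p1 p2 p3
  · intro t
    exact fcrit_eq Q lam mu F ε t (hfe _ (by rw [fcrit_re]; norm_num) (by rw [fcrit_re]; norm_num))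
  · intro t
    exact fcrit_eq _ _ _ _ _ _ (SC7.zeta_functional _ (by rw [fcrit_re]; norm_num)
      (by rw [fcrit_re]; norm_num))
  · intro t
    exact fcont a F hS χ τ hχ d D _ (by rw [fcrit_re]; norm_num) (fcrit_ne t)
  · rw [hL1]
    norm_num

end Pool.Agent.H11.PC
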