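import Mathlib
import Pool.Agent.H11.PC.FAP
import Pool.Agent.H11.PC.FCRIT
import Pool.Agent.H11.PC.FLOC

/-!
# FIN: all Euler factors from almost all Euler factors
-/

set_option autoImplicit false

namespace Pool.Agent.H11.PC

open Complex Filter Topology Pool.Agent.H11.Selberg

theorem finish (a : ℕ → ℂ) (F : ℂ → ℂ) (hS : IsSelberg a F)
    (Q : ℝ) (r : ℕ) (lam : Fin r → ℝ) (mu : Fin r → ℂ) (ε : ℂ)
    (hQ : 0 < Q) (hlam : ∀ j, 0 < lam j) (hmu : ∀ j, 0 ≤ (mu j).re) (hε : ‖ε‖ = 1)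
    (hfe : ∀ s : ℂ, 0 < s.re → s.re < 1 →
      completed Q lam mu F s =
        ε * (starRingEnd ℂ) (completed Q lam mu F (1 - (starRingEnd ℂ) s)))
    (hdeg : 2 * ∑ j, lam j = 2) {N : ℕ} [NeZero N]
    (χ : DirichletCharacter ℂ N) (hprim : χ.IsPrimitive) (τ : ℝ)
    (hχ : χ ≠ 1 ∨ (N = 1 ∧ τ = 0)) (B : Set ℕ) (hB : B.Finite)
    (hloc : ∀ p : ℕ, p.Prime → p ∉ B → ∀ k : ℕ,
      a (p ^ k) = ∑ i ∈ Finset.range (k + 1), zch χ τ p ^ i) :
    ∀ p : ℕ, p.Prime → ∀ k : ℕ, a (p ^ k) = ∑ i ∈ Finset.range (k + 1), zch χ τ p ^ i := by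
  obtain ⟨d, D⟩ := dco a F hS χ τ B hB hloc
  obtain ⟨ω0, A, κ, hT⟩ := crit a F hS Q r lam mu ε hQ hlam hmu hε hfe hdeg χ hprim τ hχ d D
  have hterm : ∀ (t : ℝ) (n : ℕ), LSeries.term d (1 / 2 + t * I) n =
      d n * (n : ℂ) ^ (-(1 / 2) : ℂ) * (n : ℂ) ^ (-(t * I) : ℂ) := by
    intro t n
    rcases Nat.eq_zero_or_pos n with rfl | hn
    · simp [D.zero]
    · rw [LSeries.term_of_ne_zero hn.ne', mul_assoc, ← Complex.cpow_add _ _ (by exact_mod_cast hn.ne'),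
        div_eq_mul_inv, ← Complex.cpow_neg]
      congr 2
      ring
  have hser : ∀ t : ℝ, LSeries d (1 / 2 + t * I) =
      ∑' n : ℕ, (fun n => d n * (n : ℂ) ^ (-(1 / 2) : ℂ)) n * (n : ℂ) ^ (-(t * I) : ℂ) := by
    intro t
    rw [LSeries]
    exact tsum_congr (fun n => hterm t n)
  simp only [hser] at hT
  have hAP := ap_rigid (fun n => d n * (n : ℂ) ^ (-(1 / 2) : ℂ)) ?_ ?_ ?_ ω0 A κ hT
  · obtain ⟨D0, hD0, h1, h2⟩ := hAP
    exact floc a F hS χ τ d D ω0 D0 hD0 h1 h2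
  · refine Summable.of_nonneg_of_le (fun n => norm_nonneg _) (fun n => ?_) D.sum
    rcases Nat.eq_zero_or_pos n with rfl | hn
    · simp [D.zero]
    · have hn' : (1 : ℝ) ≤ n := by exact_mod_cast hn
      rw [norm_mul, Complex.norm_natCast_cpow_of_pos hn]
      apply mul_le_mul_of_nonneg_left _ (norm_nonneg _)
      apply Real.rpow_le_rpow_of_exponent_le hn'
      norm_num
  · simp [D.zero]
  · simp [D.one]

end Pool.Agent.H11.PC
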