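import Mathlib
import Pool.Agent.H11.PC.SUMM
import Pool.Agent.H11.PC.SB
import Pool.Agent.H11.PC.MULTB

/-!
# MS: first and second moments

`ms_bound`: `mult_le_exp` for `f n = ‖b n‖² n^(-(1+α))` (`f 0 = 0`): `∑_{j≥1} f(p^j) ≤ ‖b p‖² p^(-(1+α)) + C p^(-3/2)` (`h.ram (1/8)`
for `j ≥ 2`: `∑_{j≥2} C p^(j/4) p^(-j)`), so the exponent is `≤ C log(1/α) + C'` (`sb_sum`).
`m1_bound`: Cauchy-Schwarz with `∑ n^(-(1+α)) ≤ 1 + 1/α`, or `‖b n‖ ≤ 1 + ‖b n‖²`.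
`m1_exp`: `e^(-m/x) ≤ C m^(-1/log x)`: for `m ≤ x` the right side is `≥ C e^(-1)`; for `m ≥ x ≥ 3`, `log m/log x ≤ 1 + log(m/x) ≤ m/x`.
`α = 1/log x ≤ 1/2` for `x ≥ 16`.
-/

set_option autoImplicit false

namespace Pool.Agent.H11.PC

open Complex Filter Topology

private lemma ms_pow (p : ℝ) (hp : 2 ≤ p) (j : ℕ) :
    (p ^ (j + 2)) ^ (-(3 / 4) : ℝ) ≤ p ^ (-(3 / 2) : ℝ) * (3 / 5) ^ j := by
  have hp0 : 0 < p := by linarith
  have h1 : (p ^ (j + 2)) ^ (-(3 / 4) : ℝ) = p ^ (-(3 / 2) : ℝ) * (p ^ (-(3 / 4) : ℝ)) ^ j := by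
    rw [← Real.rpow_natCast p (j + 2), ← Real.rpow_mul hp0.le, ← Real.rpow_natCast _ j,
      ← Real.rpow_mul hp0.le, ← Real.rpow_add hp0]
    congr 1
    push_cast
    ring
  rw [h1]
  have h2 : p ^ (-(3 / 4) : ℝ) ≤ 3 / 5 := by
    have h3 : p ^ (-(3 / 4) : ℝ) ≤ (2 : ℝ) ^ (-(3 / 4) : ℝ) :=
      Real.rpow_le_rpow_of_nonpos (by norm_num) hp (by norm_num)
    refine h3.trans ?_
    rw [Real.rpow_neg (by norm_num), inv_le_comm₀ (by positivity) (by norm_num)]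
    have h4 : ((3 / 5 : ℝ)⁻¹) = ((5 / 3 : ℝ) ^ (4 : ℕ)) ^ (1 / 4 : ℝ) := by
      rw [← Real.rpow_natCast, ← Real.rpow_mul (by norm_num)]
      norm_num
    have h5 : (2 : ℝ) ^ (3 / 4 : ℝ) = ((2 : ℝ) ^ (3 : ℕ)) ^ (1 / 4 : ℝ) := by
      rw [← Real.rpow_natCast, ← Real.rpow_mul (by norm_num)]
      norm_num
    rw [h4, h5]
    apply Real.rpow_le_rpow (by positivity) (by norm_num) (by norm_num)
  apply mul_le_mul_of_nonneg_left _ (by positivity)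
  exact pow_le_pow_left₀ (by positivity) h2 j

private lemma ms_zeta (α : ℝ) (hα : 0 < α) : Summable (fun n : ℕ => (n : ℝ) ^ (-(1 + α))) ∧
    ∑' n : ℕ, (n : ℝ) ^ (-(1 + α)) ≤ 1 + 1 / α := by
  have hs : Summable (fun n : ℕ => (n : ℝ) ^ (-(1 + α))) := by
    rw [Real.summable_nat_rpow]
    linarith
  refine ⟨hs, ?_⟩
  rw [hs.tsum_eq_zero_add]
  have h1 := ZetaAsymptotics.zeta_limit_aux1 (s := 1 + α) (by linarith)
  have h2 : 0 ≤ ZetaAsymptotics.termTSum (1 + α) :=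
    tsum_nonneg fun n => ZetaAsymptotics.term_nonneg _ _
  have h3 : ∑' n : ℕ, ((n + 1 : ℕ) : ℝ) ^ (-(1 + α)) = ∑' n : ℕ, 1 / ((n : ℝ) + 1) ^ (1 + α) := by
    apply tsum_congr
    intro n
    rw [Real.rpow_neg (by positivity), one_div]
    push_cast
    rfl
  rw [h3]
  have h4 : ((0 : ℕ) : ℝ) ^ (-(1 + α)) = 0 := by
    rw [Nat.cast_zero, Real.zero_rpow (by linarith)]
  rw [h4]
  have h5 : (1 + α - 1) = α := by ring
  rw [h5] at h1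
  have h6 : 0 ≤ (1 + α) * ZetaAsymptotics.termTSum (1 + α) := mul_nonneg (by linarith) h2
  linarith

theorem ms_bound {b : ℕ → ℂ} (h : PD b) : ∃ (K : ℕ) (C : ℝ), 0 ≤ C ∧ ∀ α : ℝ, 0 < α → α ≤ 1 / 2 →
    Summable (fun n : ℕ => ‖b n‖ ^ 2 * (n : ℝ) ^ (-(1 + α))) ∧
    ∑' n : ℕ, ‖b n‖ ^ 2 * (n : ℝ) ^ (-(1 + α)) ≤ C * (1 / α) ^ K := by
  obtain ⟨C₁, hC₁, hsb⟩ := sb_sum h
  obtain ⟨C₂, hC₂⟩ := h.ram (1 / 8) (by norm_num)
  have hsp : Summable fun p : Nat.Primes => ((p : ℕ) : ℝ) ^ (-(3 / 2) : ℝ) :=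
    Nat.Primes.summable_rpow.2 (by norm_num)
  set T : ℝ := ∑' p : Nat.Primes, ((p : ℕ) : ℝ) ^ (-(3 / 2) : ℝ) with hT
  refine ⟨⌈C₁⌉₊, Real.exp (C₁ + C₂ ^ 2 * (5 / 2) * T), (Real.exp_pos _).le, fun α hα hα2 => ?_⟩
  -- the function
  set f : ℕ → ℝ := fun n => ‖b n‖ ^ 2 * (n : ℝ) ^ (-(1 + α)) with hf
  have hf0 : f 0 = 0 := by
    simp only [hf]
    rw [Nat.cast_zero, Real.zero_rpow (by linarith), mul_zero]
  have hf1 : f 1 = 1 := by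
    simp only [hf]
    rw [h.one, Nat.cast_one, Real.one_rpow, norm_one]
    norm_num
  have hfn : ∀ n, 0 ≤ f n := fun n => by
    simp only [hf]
    positivity
  have hfm : ∀ m n : ℕ, Nat.Coprime m n → f (m * n) = f m * f n := by
    intro m n hmn
    simp only [hf]
    rw [h.mul m n hmn, Nat.cast_mul, Real.mul_rpow (Nat.cast_nonneg _) (Nat.cast_nonneg _), norm_mul]
    ring
  -- bound for the values
  have hfb : ∀ n : ℕ, 1 ≤ n → f n ≤ C₂ ^ 2 * (n : ℝ) ^ (-(3 / 4) : ℝ) := by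
    intro n hn
    have hn1 : (1 : ℝ) ≤ n := by exact_mod_cast hn
    have hn0 : (0 : ℝ) < n := by linarith
    simp only [hf]
    have h1 : ‖b n‖ ^ 2 ≤ C₂ ^ 2 * (n : ℝ) ^ (1 / 4 : ℝ) := by
      calc ‖b n‖ ^ 2 ≤ (C₂ * (n : ℝ) ^ (1 / 8 : ℝ)) ^ 2 :=
            pow_le_pow_left₀ (norm_nonneg _) (hC₂ n hn) 2
        _ = C₂ ^ 2 * (n : ℝ) ^ (1 / 4 : ℝ) := by
            rw [mul_pow, ← Real.rpow_natCast ((n : ℝ) ^ (1 / 8 : ℝ)) 2, ← Real.rpow_mul hn0.le]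
            norm_num
    calc ‖b n‖ ^ 2 * (n : ℝ) ^ (-(1 + α))
        ≤ (C₂ ^ 2 * (n : ℝ) ^ (1 / 4 : ℝ)) * (n : ℝ) ^ (-1 : ℝ) := by
          apply mul_le_mul h1 _ (by positivity) (by positivity)
          exact Real.rpow_le_rpow_of_exponent_le hn1 (by linarith)
      _ = C₂ ^ 2 * (n : ℝ) ^ (-(3 / 4) : ℝ) := by
          rw [mul_assoc, ← Real.rpow_add hn0]
          norm_num
  have hgeo : Summable fun j : ℕ => ((3 : ℝ) / 5) ^ j :=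
    summable_geometric_of_lt_one (by norm_num) (by norm_num)
  have hgeo2 : ∑' j : ℕ, ((3 : ℝ) / 5) ^ j = 5 / 2 := by
    rw [tsum_geometric_of_lt_one (by norm_num) (by norm_num)]
    norm_num
  have hp2 : ∀ p : Nat.Primes, (2 : ℝ) ≤ ((p : ℕ) : ℝ) := fun p => by exact_mod_cast p.2.two_le
  have htail : ∀ (p : Nat.Primes) (j : ℕ), f ((p : ℕ) ^ (j + 1 + 1)) ≤
      C₂ ^ 2 * ((p : ℕ) : ℝ) ^ (-(3 / 2) : ℝ) * (3 / 5) ^ j := by
    intro p j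
    have h1 := hfb ((p : ℕ) ^ (j + 1 + 1)) (Nat.one_le_pow _ _ p.2.pos)
    rw [Nat.cast_pow] at h1
    have h2 := ms_pow ((p : ℕ) : ℝ) (hp2 p) j
    calc f ((p : ℕ) ^ (j + 1 + 1)) ≤ _ := h1
      _ ≤ C₂ ^ 2 * (((p : ℕ) : ℝ) ^ (-(3 / 2) : ℝ) * (3 / 5) ^ j) :=
          mul_le_mul_of_nonneg_left h2 (by positivity)
      _ = _ := by ring
  have hsumtail : ∀ p : Nat.Primes, Summable fun j : ℕ => f ((p : ℕ) ^ (j + 1 + 1)) := fun p =>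
    Summable.of_nonneg_of_le (fun j => hfn _) (htail p) (hgeo.mul_left _)
  have hj : ∀ p : Nat.Primes, Summable (fun j : ℕ => f ((p : ℕ) ^ (j + 1))) := fun p =>
    (summable_nat_add_iff 1).1 (hsumtail p)
  have hsum1 : ∀ p : Nat.Primes, ∑' j : ℕ, f ((p : ℕ) ^ (j + 1)) ≤
      ‖b (p : ℕ)‖ ^ 2 * ((p : ℕ) : ℝ) ^ (-(1 + α)) +
        C₂ ^ 2 * (5 / 2) * ((p : ℕ) : ℝ) ^ (-(3 / 2) : ℝ) := by
    intro p
    rw [(hj p).tsum_eq_zero_add]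
    have h1 : ∑' j : ℕ, f ((p : ℕ) ^ (j + 1 + 1)) ≤
        C₂ ^ 2 * ((p : ℕ) : ℝ) ^ (-(3 / 2) : ℝ) * (5 / 2) := by
      rw [← hgeo2, ← tsum_mul_left]
      exact (hsumtail p).tsum_le_tsum (htail p) (hgeo.mul_left _)
    have h2 : f ((p : ℕ) ^ (0 + 1)) = ‖b (p : ℕ)‖ ^ 2 * ((p : ℕ) : ℝ) ^ (-(1 + α)) := by
      simp only [hf, zero_add, pow_one]
    rw [h2]
    linarith
  have hsq : Summable fun p : Nat.Primes => ‖b (p : ℕ)‖ ^ 2 * ((p : ℕ) : ℝ) ^ (-(1 + α)) :=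
    pd_prime_sq h (1 + α) (by linarith)
  have hss : Summable fun p : Nat.Primes => ‖b (p : ℕ)‖ ^ 2 * ((p : ℕ) : ℝ) ^ (-(1 + α)) +
        C₂ ^ 2 * (5 / 2) * ((p : ℕ) : ℝ) ^ (-(3 / 2) : ℝ) := hsq.add (hsp.mul_left _)
  have hs : Summable (fun p : Nat.Primes => ∑' j : ℕ, f ((p : ℕ) ^ (j + 1))) :=
    Summable.of_nonneg_of_le (fun p => tsum_nonneg fun j => hfn _) hsum1 hss
  obtain ⟨hfs, hfe⟩ := mult_le_exp f hf0 hf1 hfm hfn hj hs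
  refine ⟨hfs, hfe.trans ?_⟩
  have h1 : ∑' p : Nat.Primes, ∑' j : ℕ, f ((p : ℕ) ^ (j + 1)) ≤
      C₁ * Real.log (1 / α) + C₁ + C₂ ^ 2 * (5 / 2) * T := by
    refine (hs.tsum_le_tsum hsum1 hss).trans ?_
    rw [hsq.tsum_add (hsp.mul_left _), tsum_mul_left]
    linarith [hsb α hα hα2]
  have hα1 : 1 ≤ 1 / α := by
    rw [le_div_iff₀ hα]
    linarith
  have hlog : 0 ≤ Real.log (1 / α) := Real.log_nonneg hα1
  calc Real.exp (∑' p : Nat.Primes, ∑' j : ℕ, f ((p : ℕ) ^ (j + 1)))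
      ≤ Real.exp ((C₁ + C₂ ^ 2 * (5 / 2) * T) + (⌈C₁⌉₊ : ℝ) * Real.log (1 / α)) := by
        apply Real.exp_le_exp.2
        have := mul_le_mul_of_nonneg_right (Nat.le_ceil C₁) hlog
        linarith
    _ = Real.exp (C₁ + C₂ ^ 2 * (5 / 2) * T) * (1 / α) ^ ⌈C₁⌉₊ := by
        rw [Real.exp_add, Real.exp_nat_mul, Real.exp_log (by positivity)]

theorem m1_bound {b : ℕ → ℂ} (h : PD b) : ∃ (K : ℕ) (C : ℝ), 0 ≤ C ∧ ∀ α : ℝ, 0 < α → α ≤ 1 / 2 →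
    Summable (fun n : ℕ => ‖b n‖ * (n : ℝ) ^ (-(1 + α))) ∧
    ∑' n : ℕ, ‖b n‖ * (n : ℝ) ^ (-(1 + α)) ≤ C * (1 / α) ^ K := by
  obtain ⟨K, C, hC, hb⟩ := ms_bound h
  refine ⟨K + 1, C + 2, by linarith, fun α hα hα2 => ?_⟩
  obtain ⟨hs, hle⟩ := hb α hα hα2
  obtain ⟨hz, hzle⟩ := ms_zeta α hα
  have hcmp : ∀ n : ℕ, ‖b n‖ * (n : ℝ) ^ (-(1 + α)) ≤
      (n : ℝ) ^ (-(1 + α)) + ‖b n‖ ^ 2 * (n : ℝ) ^ (-(1 + α)) := by
    intro n
    have h1 : ‖b n‖ ≤ 1 + ‖b n‖ ^ 2 := by nlinarith [sq_nonneg (‖b n‖ - 1), sq_nonneg (‖b n‖)]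
    have h2 : 0 ≤ (n : ℝ) ^ (-(1 + α)) := Real.rpow_nonneg (Nat.cast_nonneg _) _
    nlinarith [mul_le_mul_of_nonneg_right h1 h2]
  have hsum := Summable.of_nonneg_of_le (fun n : ℕ =>
    mul_nonneg (norm_nonneg (b n)) (Real.rpow_nonneg (Nat.cast_nonneg n) (-(1 + α)))) hcmp
    (hz.add hs)
  refine ⟨hsum, (hsum.tsum_le_tsum hcmp (hz.add hs)).trans ?_⟩
  rw [hz.tsum_add hs]
  have hα1 : 1 ≤ 1 / α := by
    rw [le_div_iff₀ hα]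
    linarith
  have h3 : (1 / α) ^ K ≤ (1 / α) ^ (K + 1) := pow_le_pow_right₀ hα1 (by omega)
  have h4 : 1 / α ≤ (1 / α) ^ (K + 1) := by
    calc 1 / α = (1 / α) ^ 1 := (pow_one _).symm
      _ ≤ _ := pow_le_pow_right₀ hα1 (by omega)
  have h5 := mul_le_mul_of_nonneg_left h3 hC
  linarith

/-- comparison of the weights -/
theorem exp_le_rpow (x : ℝ) (hx : 16 ≤ x) (m : ℕ) (hm : 1 ≤ m) :
    Real.exp (-((m : ℝ) / x)) ≤ 3 * (m : ℝ) ^ (-(1 / Real.log x)) := by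
  have hm1 : (1 : ℝ) ≤ m := by exact_mod_cast hm
  have hm0 : (0 : ℝ) < m := by linarith
  have hx0 : 0 < x := by linarith
  have hl1 : 1 ≤ Real.log x := by
    rw [Real.le_log_iff_exp_le hx0]
    linarith [Real.exp_one_lt_d9]
  have hl0 : 0 < Real.log x := by linarith
  have h3 : (1 : ℝ) ≤ Real.log 3 := by
    rw [Real.le_log_iff_exp_le (by norm_num)]
    linarith [Real.exp_one_lt_d9]
  have h1 : Real.log m ≤ Real.log x + ((m : ℝ) / x - 1) := by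
    have h2 : Real.log m = Real.log x + Real.log ((m : ℝ) / x) := by
      rw [Real.log_div hm0.ne' hx0.ne']
      ring
    rw [h2]
    have := Real.log_le_sub_one_of_pos (show 0 < (m : ℝ) / x by positivity)
    linarith
  have h4 : Real.log m / Real.log x ≤ Real.log 3 + (m : ℝ) / x := by
    rw [div_le_iff₀ hl0]
    have h5 : 0 ≤ (m : ℝ) / x := by positivity
    nlinarith [mul_nonneg (show 0 ≤ Real.log x - 1 by linarith) h5,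
      mul_nonneg (show 0 ≤ Real.log 3 - 1 by linarith) hl0.le]
  rw [Real.rpow_def_of_pos hm0]
  calc Real.exp (-((m : ℝ) / x)) ≤ Real.exp (Real.log 3 + Real.log m * (-(1 / Real.log x))) := by
        apply Real.exp_le_exp.2
        have : Real.log m * (-(1 / Real.log x)) = -(Real.log m / Real.log x) := by ring
        rw [this]
        linarith
    _ = _ := by rw [Real.exp_add, Real.exp_log (by norm_num)]

private lemma ms_exp {c : ℕ → ℝ} (hc : ∀ n, 0 ≤ c n) (h : ∃ (K : ℕ) (C : ℝ), 0 ≤ C ∧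
    ∀ α : ℝ, 0 < α → α ≤ 1 / 2 → Summable (fun n : ℕ => c n * (n : ℝ) ^ (-(1 + α))) ∧
    ∑' n : ℕ, c n * (n : ℝ) ^ (-(1 + α)) ≤ C * (1 / α) ^ K) :
    ∃ (K : ℕ) (C : ℝ), 0 ≤ C ∧ ∀ x : ℝ, 16 ≤ x →
    Summable (fun m : ℕ => c m * (m : ℝ)⁻¹ * Real.exp (-((m : ℝ) / x))) ∧
    ∑' m : ℕ, c m * (m : ℝ)⁻¹ * Real.exp (-((m : ℝ) / x)) ≤ C * (Real.log x) ^ K := by
  obtain ⟨K, C, hC, hb⟩ := h
  refine ⟨K, 3 * C, by positivity, fun x hx => ?_⟩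
  have hx0 : 0 < x := by linarith
  have hl2 : 2 ≤ Real.log x := by
    rw [Real.le_log_iff_exp_le hx0]
    have h1 := Real.exp_one_lt_d9
    have h2 : Real.exp 2 = Real.exp 1 * Real.exp 1 := by
      rw [← Real.exp_add]
      norm_num
    rw [h2]
    nlinarith [Real.exp_pos 1]
  have hl0 : 0 < Real.log x := by linarith
  obtain ⟨hs, hle⟩ := hb (1 / Real.log x) (by positivity) (by
    rw [div_le_div_iff₀ hl0 (by norm_num)]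
    linarith)
  have hcmp : ∀ m : ℕ, c m * (m : ℝ)⁻¹ * Real.exp (-((m : ℝ) / x)) ≤
      3 * (c m * (m : ℝ) ^ (-(1 + 1 / Real.log x))) := by
    intro m
    rcases Nat.eq_zero_or_pos m with rfl | hm
    · rw [Nat.cast_zero, inv_zero, mul_zero, zero_mul, Real.zero_rpow (by
        have : 0 < 1 / Real.log x := by positivity
        linarith)]
      simp
    · have hm0 : (0 : ℝ) < m := by exact_mod_cast hm
      have h1 := exp_le_rpow x hx m hm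
      have h2 : (m : ℝ) ^ (-(1 + 1 / Real.log x)) = (m : ℝ)⁻¹ * (m : ℝ) ^ (-(1 / Real.log x)) := by
        rw [← Real.rpow_neg_one, ← Real.rpow_add hm0]
        congr 1
        ring
      rw [h2]
      calc c m * (m : ℝ)⁻¹ * Real.exp (-((m : ℝ) / x))
          ≤ c m * (m : ℝ)⁻¹ * (3 * (m : ℝ) ^ (-(1 / Real.log x))) :=
            mul_le_mul_of_nonneg_left h1 (mul_nonneg (hc m) (by positivity))
        _ = _ := by ring
  have hsum := Summable.of_nonneg_of_le (fun m : ℕ =>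
    mul_nonneg (mul_nonneg (hc m) (inv_nonneg.2 (Nat.cast_nonneg m))) (Real.exp_pos _).le) hcmp
    (hs.mul_left 3)
  refine ⟨hsum, (hsum.tsum_le_tsum hcmp (hs.mul_left 3)).trans ?_⟩
  rw [tsum_mul_left]
  have e : (1 / (1 / Real.log x)) = Real.log x := one_div_one_div _
  rw [e] at hle
  linarith

theorem m1_exp {b : ℕ → ℂ} (h : PD b) : ∃ (K : ℕ) (C : ℝ), 0 ≤ C ∧ ∀ x : ℝ, 16 ≤ x →
    Summable (fun m : ℕ => ‖b m‖ * (m : ℝ)⁻¹ * Real.exp (-((m : ℝ) / x))) ∧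
    ∑' m : ℕ, ‖b m‖ * (m : ℝ)⁻¹ * Real.exp (-((m : ℝ) / x)) ≤ C * (Real.log x) ^ K :=
  ms_exp (fun _ => norm_nonneg _) (m1_bound h)

theorem m2_exp {b : ℕ → ℂ} (h : PD b) : ∃ (K : ℕ) (C : ℝ), 0 ≤ C ∧ ∀ x : ℝ, 16 ≤ x →
    Summable (fun m : ℕ => ‖b m‖ ^ 2 * (m : ℝ)⁻¹ * Real.exp (-((m : ℝ) / x))) ∧
    ∑' m : ℕ, ‖b m‖ ^ 2 * (m : ℝ)⁻¹ * Real.exp (-((m : ℝ) / x)) ≤ C * (Real.log x) ^ K :=
  ms_exp (fun _ => sq_nonneg _) (ms_bound h)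

end Pool.Agent.H11.PC
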