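import Mathlib

/-!
# VINO: the multiples of `β` near a rational number

`1 ≤ l ≤ P ≤ k/4`: `l a` is not divisible by `k`, and the residues of `l a` modulo `k`, `l ≤ P`, are distinct.
`|lβ - l a/k| ≤ l/k² ≤ 1/(4k)` and the distance of `l a/k` to the nearest integer is `r_l/k`, `r_l ≥ 1` an integer
(`r_l = |l a - k round(l a/k)|`), so the distance of `lβ` to the nearest integer is `≥ (r_l - 1/4)/k ≥ r_l/(2k)`.  Each value of `r_l`
occurs at most twice (residues `± r_l`), so `∑ 1/dist ≤ 2k ∑_l 1/r_l ≤ 4k ∑_{i=1}^{P} 1/i ≤ 4k (1 + log P)`.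
-/

set_option autoImplicit false

namespace Pool.Agent.H11.PC

/-- the distance of `l a` to the multiples of `k` -/
private noncomputable def vinoR (k : ℕ) (a : ℤ) (l : ℕ) : ℕ :=
  ((l : ℤ) * a - (k : ℤ) * round (((l : ℝ) * a) / k)).natAbs

private theorem vino_ndvd (k : ℕ) (a : ℤ) (hc : IsCoprime a (k : ℤ)) (x : ℤ)
    (hx : x ≠ 0) (hxk : |x| < k) : ¬ (k : ℤ) ∣ x * a := by
  intro h
  have h1 : (k : ℤ) ∣ x := hc.symm.dvd_of_dvd_mul_right h
  have h2 := Int.eq_zero_of_abs_lt_dvd h1 hxk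
  exact hx h2

private theorem vinoR_pos (k : ℕ) (a : ℤ) (hc : IsCoprime a (k : ℤ)) (l : ℕ)
    (hl : 1 ≤ l) (hlk : l < k) : 1 ≤ vinoR k a l := by
  rw [Nat.one_le_iff_ne_zero]
  intro h
  unfold vinoR at h
  rw [Int.natAbs_eq_zero, sub_eq_zero] at h
  refine vino_ndvd k a hc (l : ℤ) (by omega) ?_ ⟨_, h⟩
  rw [Nat.abs_cast]
  exact_mod_cast hlk

private theorem vinoR_cast (k : ℕ) (a : ℤ) (hk : 1 ≤ k) (l : ℕ) :
    |((l : ℝ) * a) / k - round (((l : ℝ) * a) / k)| = (vinoR k a l : ℝ) / k := by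
  have hk0 : (0 : ℝ) < k := by exact_mod_cast hk
  have h1 : ((vinoR k a l : ℕ) : ℝ) =
      |(l : ℝ) * a - k * (round (((l : ℝ) * a) / k) : ℤ)| := by
    unfold vinoR
    rw [Nat.cast_natAbs]
    push_cast
    rfl
  rw [h1, eq_div_iff hk0.ne', ← abs_of_pos hk0, ← abs_mul, abs_of_pos hk0]
  congr 1
  field_simp

private theorem vino_dist (k : ℕ) (a : ℤ) (β : ℝ) (hk : 1 ≤ k)
    (hβ : |β - (a : ℝ) / k| ≤ 1 / (k : ℝ) ^ 2) (l : ℕ) (hlk : 4 * l ≤ k)
    (hr : 1 ≤ vinoR k a l) :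
    (vinoR k a l : ℝ) / (2 * k) ≤ |(l : ℝ) * β - round ((l : ℝ) * β)| := by
  have hk0 : (0 : ℝ) < k := by exact_mod_cast hk
  have h1 := vinoR_cast k a hk l
  have h2 : |((l : ℝ) * a) / k - round (((l : ℝ) * a) / k)| ≤
      |((l : ℝ) * a) / k - round ((l : ℝ) * β)| := round_le _ _
  have h3 : |(l : ℝ) * β - ((l : ℝ) * a) / k| ≤ 1 / (4 * k) := by
    have h4 : (l : ℝ) * β - ((l : ℝ) * a) / k = l * (β - (a : ℝ) / k) := by ring
    rw [h4, abs_mul, Nat.abs_cast]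
    have h5 : (4 : ℝ) * l ≤ k := by exact_mod_cast hlk
    calc (l : ℝ) * |β - (a : ℝ) / k| ≤ l * (1 / (k : ℝ) ^ 2) := by gcongr
      _ ≤ (k / 4) * (1 / (k : ℝ) ^ 2) := by
        gcongr
        linarith
      _ = 1 / (4 * k) := by field_simp
  have h4 : |((l : ℝ) * a) / k - round ((l : ℝ) * β)| ≤
      |(l : ℝ) * β - round ((l : ℝ) * β)| + |(l : ℝ) * β - ((l : ℝ) * a) / k| := by
    have h5 := abs_sub_le (((l : ℝ) * a) / k) ((l : ℝ) * β) (round ((l : ℝ) * β) : ℝ)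
    rw [abs_sub_comm (((l : ℝ) * a) / k) ((l : ℝ) * β)] at h5
    linarith
  have h5 : (1 : ℝ) ≤ vinoR k a l := by exact_mod_cast hr
  have h6 : (vinoR k a l : ℝ) / (2 * k) + 1 / (4 * k) ≤ (vinoR k a l : ℝ) / k := by
    rw [div_add_div _ _ (by positivity) (by positivity), div_le_div_iff₀ (by positivity) hk0]
    nlinarith [mul_pos hk0 hk0]
  linarith

private theorem vino_card (k : ℕ) (a : ℤ) (hc : IsCoprime a (k : ℤ)) (P : ℕ) (hP : P < k)
    (j : ℤ) : ((Finset.Icc 1 P).filter fun l : ℕ => (k : ℤ) ∣ (l : ℤ) * a - j).card ≤ 1 := by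
  rw [Finset.card_le_one]
  intro x hx y hy
  rw [Finset.mem_filter, Finset.mem_Icc] at hx hy
  by_contra hne
  have h1 : (k : ℤ) ∣ ((x : ℤ) - y) * a := by
    have h2 := dvd_sub hx.2 hy.2
    have h3 : (x : ℤ) * a - j - ((y : ℤ) * a - j) = ((x : ℤ) - y) * a := by ring
    rwa [h3] at h2
  refine vino_ndvd k a hc ((x : ℤ) - y) (by omega) ?_ h1
  rw [abs_lt]
  constructor <;> omega

private theorem vino_card2 (k : ℕ) (a : ℤ) (hc : IsCoprime a (k : ℤ)) (P : ℕ) (hP : P < k)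
    (i : ℕ) : ((Finset.Icc 1 P).filter fun l : ℕ => vinoR k a l = i).card ≤ 2 := by
  have h1 : ((Finset.Icc 1 P).filter fun l : ℕ => vinoR k a l = i) ⊆
      ((Finset.Icc 1 P).filter fun l : ℕ => (k : ℤ) ∣ (l : ℤ) * a - (i : ℤ)) ∪
      ((Finset.Icc 1 P).filter fun l : ℕ => (k : ℤ) ∣ (l : ℤ) * a - (-(i : ℤ))) := by
    intro l hl
    rw [Finset.mem_filter] at hl
    rw [Finset.mem_union, Finset.mem_filter, Finset.mem_filter]
    have h2 := hl.2
    unfold vinoR at h2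
    rcases Int.natAbs_eq ((l : ℤ) * a - (k : ℤ) * round (((l : ℝ) * a) / k)) with h3 | h3
    · left
      refine ⟨hl.1, round (((l : ℝ) * a) / k), ?_⟩
      rw [h2] at h3
      linarith
    · right
      refine ⟨hl.1, round (((l : ℝ) * a) / k), ?_⟩
      rw [h2] at h3
      linarith
  refine (Finset.card_le_card h1).trans ((Finset.card_union_le _ _).trans ?_)
  have h2 := vino_card k a hc P hP (i : ℤ)
  have h3 := vino_card k a hc P hP (-(i : ℤ))
  omega

private theorem vino_sum (k : ℕ) (a : ℤ) (hc : IsCoprime a (k : ℤ)) (P : ℕ) (hP0 : 1 ≤ P)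
    (hP : P < k) :
    ∑ l ∈ Finset.Icc 1 P, 1 / (vinoR k a l : ℝ) ≤ 3 + 2 * Real.log P := by
  classical
  have hP1 : (0 : ℝ) < P := by exact_mod_cast hP0
  have hpos : ∀ l ∈ Finset.Icc 1 P, 1 ≤ vinoR k a l := by
    intro l hl
    rw [Finset.mem_Icc] at hl
    exact vinoR_pos k a hc l hl.1 (by omega)
  rw [← Finset.sum_filter_add_sum_filter_not (Finset.Icc 1 P) (fun l => vinoR k a l ≤ P)]
  have h1 : ∑ l ∈ (Finset.Icc 1 P).filter (fun l => vinoR k a l ≤ P), 1 / (vinoR k a l : ℝ) ≤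
      2 * (1 + Real.log P) := by
    have hmaps : ∀ l ∈ (Finset.Icc 1 P).filter (fun l => vinoR k a l ≤ P),
        vinoR k a l ∈ Finset.Icc 1 P := by
      intro l hl
      rw [Finset.mem_filter] at hl
      rw [Finset.mem_Icc]
      exact ⟨hpos l hl.1, hl.2⟩
    rw [← Finset.sum_fiberwise_of_maps_to hmaps]
    have h2 : ∀ i ∈ Finset.Icc 1 P,
        ∑ l ∈ ((Finset.Icc 1 P).filter (fun l => vinoR k a l ≤ P)).filter
          (fun l => vinoR k a l = i), 1 / (vinoR k a l : ℝ) ≤ 2 * (i : ℝ)⁻¹ := by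
      intro i hi
      have h3 : ∀ l ∈ ((Finset.Icc 1 P).filter (fun l => vinoR k a l ≤ P)).filter
          (fun l => vinoR k a l = i), 1 / (vinoR k a l : ℝ) = (i : ℝ)⁻¹ := by
        intro l hl
        rw [(Finset.mem_filter.1 hl).2, one_div]
      rw [Finset.sum_congr rfl h3, Finset.sum_const, nsmul_eq_mul]
      refine mul_le_mul_of_nonneg_right ?_ (by positivity)
      have h4 : (((Finset.Icc 1 P).filter (fun l => vinoR k a l ≤ P)).filter
          (fun l => vinoR k a l = i)).card ≤ 2 :=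
        (Finset.card_le_card (Finset.filter_subset_filter _ (Finset.filter_subset _ _))).trans
          (vino_card2 k a hc P hP i)
      exact_mod_cast h4
    refine (Finset.sum_le_sum h2).trans ?_
    rw [← Finset.mul_sum]
    refine mul_le_mul_of_nonneg_left ?_ (by norm_num)
    have h5 := harmonic_le_one_add_log P
    have h6 : ((harmonic P : ℚ) : ℝ) = ∑ i ∈ Finset.Icc 1 P, ((i : ℕ) : ℝ)⁻¹ := by
      rw [harmonic_eq_sum_Icc]
      push_cast
      rfl
    rw [← h6]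
    exact h5
  have h2 : ∑ l ∈ (Finset.Icc 1 P).filter (fun l => ¬ vinoR k a l ≤ P), 1 / (vinoR k a l : ℝ) ≤
      1 := by
    have h3 : ∀ l ∈ (Finset.Icc 1 P).filter (fun l => ¬ vinoR k a l ≤ P),
        1 / (vinoR k a l : ℝ) ≤ 1 / P := by
      intro l hl
      rw [Finset.mem_filter, not_le] at hl
      refine one_div_le_one_div_of_le hP1 ?_
      exact_mod_cast hl.2.le
    refine (Finset.sum_le_card_nsmul _ _ _ h3).trans ?_
    rw [nsmul_eq_mul, mul_one_div, div_le_one hP1]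
    have h4 := Finset.card_le_card (Finset.filter_subset (fun l => ¬ vinoR k a l ≤ P)
      (Finset.Icc 1 P))
    rw [Nat.card_Icc] at h4
    have h5 : ((Finset.Icc 1 P).filter (fun l => ¬ vinoR k a l ≤ P)).card ≤ P := by omega
    exact_mod_cast h5
  linarith

theorem vino (k : ℕ) (a : ℤ) (β : ℝ) (hk : 1 ≤ k) (hc : IsCoprime a (k : ℤ))
    (hβ : |β - (a : ℝ) / k| ≤ 1 / (k : ℝ) ^ 2) (P : ℕ) (hP : 4 * P ≤ k) :
    (∀ l ∈ Finset.Icc 1 P, 0 < |(l : ℝ) * β - round ((l : ℝ) * β)|) ∧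
    ∑ l ∈ Finset.Icc 1 P, 1 / |(l : ℝ) * β - round ((l : ℝ) * β)| ≤
      8 * (k : ℝ) * (1 + Real.log P) := by
  have hk0 : (0 : ℝ) < k := by exact_mod_cast hk
  have hr : ∀ l ∈ Finset.Icc 1 P, 1 ≤ vinoR k a l ∧
      (vinoR k a l : ℝ) / (2 * k) ≤ |(l : ℝ) * β - round ((l : ℝ) * β)| := by
    intro l hl
    rw [Finset.mem_Icc] at hl
    have h1 := vinoR_pos k a hc l hl.1 (by omega)
    exact ⟨h1, vino_dist k a β hk hβ l (by omega) h1⟩
  have hpos : ∀ l ∈ Finset.Icc 1 P, 0 < (vinoR k a l : ℝ) / (2 * k) := by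
    intro l hl
    have h1 : (0 : ℝ) < vinoR k a l := by exact_mod_cast (hr l hl).1
    positivity
  refine ⟨fun l hl => (hpos l hl).trans_le (hr l hl).2, ?_⟩
  rcases Nat.eq_zero_or_pos P with hP0 | hP0
  · subst hP0
    simp
  · have h1 : ∑ l ∈ Finset.Icc 1 P, 1 / |(l : ℝ) * β - round ((l : ℝ) * β)| ≤
        ∑ l ∈ Finset.Icc 1 P, 2 * k * (1 / (vinoR k a l : ℝ)) := by
      refine Finset.sum_le_sum fun l hl => ?_
      refine (one_div_le_one_div_of_le (hpos l hl) (hr l hl).2).trans (le_of_eq ?_)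
      rw [one_div_div]
      ring
    refine h1.trans ?_
    rw [← Finset.mul_sum]
    have h2 := vino_sum k a hc P hP0 (by omega)
    have h3 : 0 ≤ Real.log P := Real.log_nonneg (by exact_mod_cast hP0)
    calc 2 * (k : ℝ) * ∑ l ∈ Finset.Icc 1 P, 1 / (vinoR k a l : ℝ)
        ≤ 2 * k * (3 + 2 * Real.log P) := mul_le_mul_of_nonneg_left h2 (by positivity)
      _ ≤ 8 * (k : ℝ) * (1 + Real.log P) := by nlinarith

end Pool.Agent.H11.PC
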