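import Mathlib
import Pool.Agent.H11.PC.IDEF
import Pool.Agent.H11.PC.SUMM
import Pool.Agent.H11.PC.MS
import Pool.Agent.H11.PC.VINO
import Pool.Agent.H11.PC.VARI
import Pool.Agent.H11.Selberg.Line

/-!
# BILIN: the bilinear sums

`x = k²`, `P ≤ √k` (`P² ≤ k`), `L = log x`.  Interchange: the sum is `T = ∑_m b(m) ν(m) c(m)`, `c(m) = ∑_{p ∈ Q} b(p) ww x (pm) ee β (pm)`.
Cauchy-Schwarz with the weight `e^(-mP/x)`: `|T|² ≤ A1 A2`,
`A1 = ∑_{m≥1} ‖b m‖² e^(-mP/x) ≤ C (x/P) ∑ ‖b m‖² m⁻¹ e^(-mP/(2x)) ≤ C (x/P) L^K` (`m2_exp` at `2x/P ≥ 16`; `t e^(-t/2) ≤ 1`),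
`A2 = ∑_{m≥1} e^(mP/x) ‖c m‖² = ∑_{p,p' ∈ Q} b(p) conj b(p') (p p')³ ∑_m m^6 e^(-c m) e(-(p-p') m β)`, `c = (2π(p+p') - P)/x`,
`P/x ≤ c ≤ 26 P/x ≤ 20`.  By `vari` the inner sum is `≤ C (x/P)^7` if `p = p'` and `≤ C (x/P)^6/dist((p-p')β)` otherwise, and
`(p p')³ ≤ 64 P^6`.  Using `‖b p‖ ‖b p'‖ ≤ ‖b p‖² + ‖b p'‖²` and, for fixed `p`, `∑_{p' ≠ p} 1/dist((p-p')β) ≤ 2 ∑_{l=1}^{P} 1/dist(lβ) ≤
16 k (1 + log P)` (`vino`, `4P ≤ k` for `k ≥ 16`):
`A2 ≤ C x^6 (∑_{p ∈ Q} ‖b p‖²) (x/P + k (1 + log P)) ≤ C x^6 · P L · (x/P + k L) ≤ C x^7 L²` since `P k ≤ k² = x`, where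
`∑_{p ∈ Q} ‖b p‖² ≤ 2P S b (2P) ≤ C P log log(2P + 16) ≤ C P L` (`h.sb`, `S_mono`).
So `|T| ≤ C x⁴ P^(-1/2) L^((K+2)/2)`.  (`log x = 2 log k`; adjust `K`.)
-/

set_option autoImplicit false

namespace Pool.Agent.H11.PC

open Complex Filter Topology Pool.Agent.H11.Selberg

/-- Cauchy-Schwarz for infinite sums -/
private theorem bilin_cs {f : ℕ → ℂ} {U V : ℕ → ℝ} (hU : ∀ m, 0 ≤ U m) (hV : ∀ m, 0 ≤ V m)
    (hf : ∀ m, ‖f m‖ ^ 2 ≤ U m * V m) (hUs : Summable U) (hVs : Summable V) :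
    ‖∑' m, f m‖ ^ 2 ≤ (∑' m, U m) * (∑' m, V m) := by
  have h1 : ∀ m, ‖f m‖ ≤ √(U m) * √(V m) := by
    intro m
    rw [← Real.sqrt_mul (hU m)]
    exact Real.le_sqrt_of_sq_le (hf m)
  have h2 : Summable fun m => ‖f m‖ := by
    refine Summable.of_nonneg_of_le (fun m => norm_nonneg _) (fun m => ?_) (hUs.add hVs)
    refine (h1 m).trans ?_
    have a1 := Real.sq_sqrt (hU m)
    have a2 := Real.sq_sqrt (hV m)
    nlinarith [sq_nonneg (√(U m) - √(V m)), Real.sqrt_nonneg (U m), hU m, hV m]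
  have h3 : ∑' m, ‖f m‖ ≤ √((∑' m, U m) * (∑' m, V m)) := by
    refine h2.tsum_le_of_sum_le (fun F => ?_)
    apply Real.le_sqrt_of_sq_le
    calc (∑ m ∈ F, ‖f m‖) ^ 2 ≤ (∑ m ∈ F, √(U m) * √(V m)) ^ 2 := by
          apply pow_le_pow_left₀ (Finset.sum_nonneg fun _ _ => norm_nonneg _)
          exact Finset.sum_le_sum fun m _ => h1 m
      _ ≤ (∑ m ∈ F, √(U m) ^ 2) * (∑ m ∈ F, √(V m) ^ 2) :=
          Finset.sum_mul_sq_le_sq_mul_sq _ _ _
      _ = (∑ m ∈ F, U m) * (∑ m ∈ F, V m) := by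
          rw [Finset.sum_congr rfl fun m _ => Real.sq_sqrt (hU m),
            Finset.sum_congr rfl fun m _ => Real.sq_sqrt (hV m)]
      _ ≤ _ := mul_le_mul (hUs.sum_le_tsum F fun m _ => hU m)
          (hVs.sum_le_tsum F fun m _ => hV m) (Finset.sum_nonneg fun m _ => hV m)
          (tsum_nonneg hU)
  have h4 : ‖∑' m, f m‖ ≤ √((∑' m, U m) * (∑' m, V m)) := (norm_tsum_le_tsum_norm h2).trans h3
  have h5 : 0 ≤ (∑' m, U m) * (∑' m, V m) := mul_nonneg (tsum_nonneg hU) (tsum_nonneg hV)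
  calc ‖∑' m, f m‖ ^ 2 ≤ √((∑' m, U m) * (∑' m, V m)) ^ 2 :=
        pow_le_pow_left₀ (norm_nonneg _) h4 2
    _ = _ := Real.sq_sqrt h5

private theorem bilin_dist_neg (θ : ℝ) : |-θ - round (-θ)| = |θ - round θ| := by
  have h1 := UnitAddCircle.norm_eq (x := θ)
  have h2 := UnitAddCircle.norm_eq (x := -θ)
  rw [← h1, ← h2, AddCircle.coe_neg, norm_neg]

/-- the distance of `lβ` to the nearest integer -/
private noncomputable def bilin_d (β : ℝ) (l : ℕ) : ℝ := |(l : ℝ) * β - round ((l : ℝ) * β)|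

private theorem bilin_d_eq (β : ℝ) (p p' : ℕ) :
    |((p : ℝ) - p') * β - round (((p : ℝ) - p') * β)| = bilin_d β ((p - p') + (p' - p)) := by
  unfold bilin_d
  rcases le_total p' p with h | h
  · have h1 : (((p - p') + (p' - p) : ℕ) : ℝ) = (p : ℝ) - p' := by
      rw [Nat.sub_eq_zero_of_le h, add_zero, Nat.cast_sub h]
    rw [h1]
  · have h1 : (((p - p') + (p' - p) : ℕ) : ℝ) = -((p : ℝ) - p') := by
      rw [Nat.sub_eq_zero_of_le h, zero_add, Nat.cast_sub h]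
      ring
    rw [h1, neg_mul, bilin_dist_neg]

private theorem bilin_count (P : ℕ) (Q : Finset ℕ) (hQ : ∀ p ∈ Q, P < p ∧ p ≤ 2 * P)
    (g : ℕ → ℝ) (hg : ∀ l, 0 ≤ g l) (p : ℕ) (hp : p ∈ Q) :
    ∑ p' ∈ Q, (if p = p' then 0 else g ((p - p') + (p' - p))) ≤
      2 * ∑ l ∈ Finset.Icc 1 P, g l := by
  classical
  have h1 : ∀ p' ∈ Q, (if p = p' then 0 else g ((p - p') + (p' - p))) =
      (if p' < p then g (p - p') else 0) + (if p < p' then g (p' - p) else 0) := by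
    intro p' _
    rcases lt_trichotomy p' p with h | h | h
    · rw [if_neg (by omega), if_pos h, if_neg (by omega), add_zero]
      congr 1
      omega
    · rw [if_pos h.symm, if_neg (by omega), if_neg (by omega), add_zero]
    · rw [if_neg (by omega), if_neg (by omega), if_pos h, zero_add]
      congr 1
      omega
  rw [Finset.sum_congr rfl h1, Finset.sum_add_distrib, ← Finset.sum_filter, ← Finset.sum_filter,
    two_mul]
  have hpb := hQ p hp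
  refine add_le_add ?_ ?_
  · have h2 : ∑ p' ∈ Q.filter (fun p' => p' < p), g (p - p') =
        ∑ l ∈ (Q.filter (fun p' => p' < p)).image (fun p' => p - p'), g l := by
      rw [Finset.sum_image]
      intro a ha c hc hac
      have ha2 := (Finset.mem_filter.1 ha).2
      have hc2 := (Finset.mem_filter.1 hc).2
      have hac' : p - a = p - c := hac
      omega
    rw [h2]
    apply Finset.sum_le_sum_of_subset_of_nonneg
    · intro l hl
      rw [Finset.mem_image] at hl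
      obtain ⟨p', hp', rfl⟩ := hl
      rw [Finset.mem_filter] at hp'
      have := hQ p' hp'.1
      rw [Finset.mem_Icc]
      omega
    · intro l _ _
      exact hg l
  · have h2 : ∑ p' ∈ Q.filter (fun p' => p < p'), g (p' - p) =
        ∑ l ∈ (Q.filter (fun p' => p < p')).image (fun p' => p' - p), g l := by
      rw [Finset.sum_image]
      intro a ha c hc hac
      have ha2 := (Finset.mem_filter.1 ha).2
      have hc2 := (Finset.mem_filter.1 hc).2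
      have hac' : a - p = c - p := hac
      omega
    rw [h2]
    apply Finset.sum_le_sum_of_subset_of_nonneg
    · intro l hl
      rw [Finset.mem_image] at hl
      obtain ⟨p', hp', rfl⟩ := hl
      rw [Finset.mem_filter] at hp'
      have := hQ p' hp'.1
      rw [Finset.mem_Icc]
      omega
    · intro l _ _
      exact hg l

private theorem bilin_logk {k : ℕ} (hk : 16 ≤ k) : 1 ≤ Real.log k := by
  have hk' : (16 : ℝ) ≤ k := by exact_mod_cast hk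
  rw [Real.le_log_iff_exp_le (by linarith)]
  have := Real.exp_one_lt_d9
  linarith

private theorem bilin_prime {b : ℕ → ℂ} (h : PD b) : ∃ C : ℝ, 0 ≤ C ∧ ∀ k P : ℕ, 16 ≤ k →
    1 ≤ P → P ≤ k → ∀ Q : Finset ℕ, (∀ p ∈ Q, p.Prime ∧ P < p ∧ p ≤ 2 * P) →
      ∑ p ∈ Q, ‖b p‖ ^ 2 ≤ C * P * Real.log k := by
  classical
  obtain ⟨C, hC⟩ := h.sb
  refine ⟨4 * |C|, by positivity, ?_⟩
  intro k P hk hP hPk Q hQ
  have hP0 : (0 : ℝ) < P := by exact_mod_cast hP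
  have hk' : (16 : ℝ) ≤ k := by exact_mod_cast hk
  have hPk' : (P : ℝ) ≤ k := by exact_mod_cast hPk
  have h1 : ∑ p ∈ Q, ‖b p‖ ^ 2 ≤ 2 * P * ∑ p ∈ Q, ‖b p‖ ^ 2 / (p : ℝ) := by
    rw [Finset.mul_sum]
    apply Finset.sum_le_sum
    intro p hp
    have h2 := hQ p hp
    have h3 : (p : ℝ) ≤ 2 * P := by exact_mod_cast h2.2.2
    have h4 : (0 : ℝ) < p := by exact_mod_cast h2.1.pos
    rw [mul_div_assoc', le_div_iff₀ h4, mul_comm]
    exact mul_le_mul_of_nonneg_right h3 (by positivity)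
  have h2 : ∑ p ∈ Q, ‖b p‖ ^ 2 / (p : ℝ) ≤ S b (2 * P + 16) := by
    unfold S
    apply Finset.sum_le_sum_of_subset_of_nonneg
    · intro p hp
      have h2 := hQ p hp
      rw [Finset.mem_filter, Finset.mem_Icc]
      refine ⟨⟨h2.1.one_lt.le, ?_⟩, h2.1⟩
      apply Nat.le_floor
      have h3 : (p : ℝ) ≤ 2 * P := by exact_mod_cast h2.2.2
      linarith
    · intro p _ _
      positivity
  have h3 := hC (2 * P + 16) (by linarith)
  have h4 : 0 < Real.log (2 * P + 16) := Real.log_pos (by linarith)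
  have h5 : Real.log (2 * P + 16) ≤ 2 * Real.log k := by
    have h6 : 2 * Real.log k = Real.log ((k : ℝ) ^ 2) := by
      rw [Real.log_pow]
      push_cast
      ring
    rw [h6]
    apply Real.log_le_log (by linarith)
    nlinarith
  have h6 : 0 ≤ Real.log (Real.log (2 * P + 16)) := by
    apply Real.log_nonneg
    rw [Real.le_log_iff_exp_le (by linarith)]
    have := Real.exp_one_lt_d9
    linarith
  have h7 : Real.log (Real.log (2 * P + 16)) ≤ 2 * Real.log k := by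
    have := Real.log_le_sub_one_of_pos h4
    linarith
  have h8 : S b (2 * P + 16) ≤ |C| * (2 * Real.log k) := by
    refine h3.trans ?_
    calc C * Real.log (Real.log (2 * P + 16)) ≤ |C| * Real.log (Real.log (2 * P + 16)) :=
          mul_le_mul_of_nonneg_right (le_abs_self C) h6
      _ ≤ |C| * (2 * Real.log k) := mul_le_mul_of_nonneg_left h7 (abs_nonneg C)
  calc ∑ p ∈ Q, ‖b p‖ ^ 2 ≤ 2 * P * ∑ p ∈ Q, ‖b p‖ ^ 2 / (p : ℝ) := h1
    _ ≤ 2 * P * (|C| * (2 * Real.log k)) :=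
        mul_le_mul_of_nonneg_left (h2.trans h8) (by positivity)
    _ = 4 * |C| * P * Real.log k := by ring

/-- the inner sums -/
private noncomputable def bilin_G (x β : ℝ) (P p p' : ℕ) (m : ℕ) : ℂ :=
  (((m : ℝ) ^ 6 * Real.exp (-((2 * Real.pi * (p + p') - P) / x * m)) : ℝ) : ℂ) *
    Complex.exp (-(2 * (Real.pi : ℂ) * m * ((((p : ℝ) - p') * β : ℝ) : ℂ) * Complex.I))

private noncomputable def bilin_c (b : ℕ → ℂ) (x β : ℝ) (Q : Finset ℕ) (m : ℕ) : ℂ :=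
  ∑ p ∈ Q, b p * ((ww x (p * m) : ℂ) * ee β (p * m))

private theorem bilin_point (b : ℕ → ℂ) (x β : ℝ) (P : ℕ) (Q : Finset ℕ) (m : ℕ) :
    ((Real.exp (m * P / x) * ‖bilin_c b x β Q m‖ ^ 2 : ℝ) : ℂ) =
      ∑ p ∈ Q, ∑ p' ∈ Q, b p * (starRingEnd ℂ) (b p') * (((p : ℂ) * p') ^ 3) *
        bilin_G x β P p p' m := by
  have h1 : ((Real.exp (m * P / x) * ‖bilin_c b x β Q m‖ ^ 2 : ℝ) : ℂ) =
      (Real.exp (m * P / x) : ℂ) * (bilin_c b x β Q m * (starRingEnd ℂ) (bilin_c b x β Q m)) := by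
    rw [Complex.mul_conj']
    push_cast
    ring
  rw [h1]
  unfold bilin_c
  rw [map_sum, Finset.sum_mul_sum, Finset.mul_sum]
  refine Finset.sum_congr rfl fun p _ => ?_
  rw [Finset.mul_sum]
  refine Finset.sum_congr rfl fun p' _ => ?_
  rw [map_mul, map_mul, Complex.conj_ofReal]
  have h2 : ee β (p * m) * (starRingEnd ℂ) (ee β (p' * m)) =
      Complex.exp (-(2 * (Real.pi : ℂ) * m * ((((p : ℝ) - p') * β : ℝ) : ℂ) * Complex.I)) := by
    unfold ee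
    rw [← Complex.exp_conj, ← Complex.exp_add]
    congr 1
    simp only [map_neg, map_mul, Complex.conj_I, Complex.conj_ofReal, map_ofNat, map_natCast]
    push_cast
    ring
  have h3 : Real.exp (m * P / x) * (ww x (p * m) * ww x (p' * m)) =
      ((p : ℝ) * p') ^ 3 *
        ((m : ℝ) ^ 6 * Real.exp (-((2 * Real.pi * (p + p') - P) / x * m))) := by
    unfold ww
    have h4 : Real.exp (-((2 * Real.pi * (p + p') - P) / x * m)) =
        Real.exp (m * P / x) * (Real.exp (-(2 * Real.pi * ((p * m : ℕ) : ℝ) / x)) *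
          Real.exp (-(2 * Real.pi * ((p' * m : ℕ) : ℝ) / x))) := by
      rw [← Real.exp_add, ← Real.exp_add]
      congr 1
      push_cast
      ring
    rw [h4]
    push_cast
    ring
  have h3' : (Real.exp (m * P / x) : ℂ) * ((ww x (p * m) : ℂ) * (ww x (p' * m) : ℂ)) =
      ((p : ℂ) * p') ^ 3 *
        (((m : ℝ) ^ 6 * Real.exp (-((2 * Real.pi * (p + p') - P) / x * m)) : ℝ) : ℂ) := by
    have := congrArg (fun y : ℝ => (y : ℂ)) h3
    simp only [Complex.ofReal_mul, Complex.ofReal_pow, Complex.ofReal_natCast] at this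
    rw [this]
    simp only [Complex.ofReal_mul, Complex.ofReal_pow, Complex.ofReal_natCast]
  unfold bilin_G
  rw [← h2]
  linear_combination (b p * (starRingEnd ℂ) (b p') * ee β (p * m) *
    (starRingEnd ℂ) (ee β (p' * m))) * h3'

private theorem bilin_four {k P : ℕ} (hk : 16 ≤ k) (hPk : P ^ 2 ≤ k) : 4 * P ≤ k := by
  rcases Nat.lt_or_ge P 4 with h | h
  · omega
  · nlinarith

private theorem bilin_normG (x β : ℝ) (P p p' m : ℕ) : ‖bilin_G x β P p p' m‖ =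
    (m : ℝ) ^ 6 * Real.exp (-((2 * Real.pi * (p + p') - P) / x * m)) := by
  unfold bilin_G
  rw [norm_mul, Complex.norm_real, Real.norm_of_nonneg (by positivity)]
  have h1 : -(2 * (Real.pi : ℂ) * m * ((((p : ℝ) - p') * β : ℝ) : ℂ) * Complex.I) =
      ((-(2 * Real.pi * m * (((p : ℝ) - p') * β)) : ℝ) : ℂ) * Complex.I := by
    push_cast
    ring
  rw [h1, Complex.norm_exp_ofReal_mul_I, mul_one]

private theorem bilin_Gb : ∃ C : ℝ, 0 ≤ C ∧ ∀ (k : ℕ) (a : ℤ) (β : ℝ),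
    16 ≤ k → IsCoprime a (k : ℤ) → |β - (a : ℝ) / k| ≤ 1 / (k : ℝ) ^ 2 →
    ∀ P : ℕ, 1 ≤ P → P ^ 2 ≤ k → ∀ p p' : ℕ, P < p → p ≤ 2 * P → P < p' → p' ≤ 2 * P →
      Summable (bilin_G ((k : ℝ) ^ 2) β P p p') ∧
      ‖∑' m, bilin_G ((k : ℝ) ^ 2) β P p p' m‖ ≤ C * ((k : ℝ) ^ 2 / P) ^ 6 *
        (if p = p' then (k : ℝ) ^ 2 / P else 1 / bilin_d β ((p - p') + (p' - p))) := by
  obtain ⟨C, hC, hv⟩ := vari
  refine ⟨C, hC, ?_⟩
  intro k a β hk hco hβ P hP hPk p p' hp1 hp2 hp1' hp2'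
  have hPk1 : P ≤ k := by nlinarith
  have hk' : (16 : ℝ) ≤ k := by exact_mod_cast hk
  have hP0 : (1 : ℝ) ≤ P := by exact_mod_cast hP
  have hPk' : (P : ℝ) ≤ k := by exact_mod_cast hPk1
  have g1 : (P : ℝ) ≤ p := by exact_mod_cast hp1.le
  have g2 : (P : ℝ) ≤ p' := by exact_mod_cast hp1'.le
  have g3 : (p : ℝ) ≤ 2 * P := by exact_mod_cast hp2
  have g4 : (p' : ℝ) ≤ 2 * P := by exact_mod_cast hp2'
  have hx : (0 : ℝ) < (k : ℝ) ^ 2 := by positivity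
  have hpi := Real.pi_gt_three
  have hpi2 := Real.pi_lt_d2
  obtain ⟨c, hc⟩ : ∃ c : ℝ, c = (2 * Real.pi * (p + p') - P) / (k : ℝ) ^ 2 := ⟨_, rfl⟩
  have hnum : (P : ℝ) ≤ 2 * Real.pi * (p + p') - P := by nlinarith
  have hnum2 : 2 * Real.pi * (p + p') - P ≤ 20 * (k : ℝ) ^ 2 := by nlinarith
  have hc1 : (P : ℝ) / (k : ℝ) ^ 2 ≤ c := by
    rw [hc]
    gcongr
  have hc0 : 0 < c := lt_of_lt_of_le (by positivity) hc1
  have hc2 : c ≤ 20 := by
    rw [hc, div_le_iff₀ hx]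
    exact hnum2
  have hc3 : c⁻¹ ≤ (k : ℝ) ^ 2 / P := by
    rw [← inv_div]
    exact inv_anti₀ (by positivity) hc1
  obtain ⟨h1, h2, h3⟩ := hv c hc0 hc2
  have hns : Summable (fun m => ‖bilin_G ((k : ℝ) ^ 2) β P p p' m‖) := by
    simp only [bilin_normG]
    rw [← hc]
    exact h1
  refine ⟨hns.of_norm, ?_⟩
  have hcinv : 0 ≤ c⁻¹ := by positivity
  by_cases hpp : p = p'
  · rw [if_pos hpp]
    refine (norm_tsum_le_tsum_norm hns).trans ?_
    simp only [bilin_normG]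
    rw [← hc]
    refine h2.trans ?_
    rw [mul_assoc, ← pow_succ]
    gcongr
  · rw [if_neg hpp]
    have hl1 : 1 ≤ (p - p') + (p' - p) := by omega
    have hl2 : (p - p') + (p' - p) ≤ P := by omega
    have h4 := (vino k a β (by omega) hco hβ P (bilin_four hk hPk)).1 _
      (Finset.mem_Icc.2 ⟨hl1, hl2⟩)
    have h5 := bilin_d_eq β p p'
    have h6 := h3 (((p : ℝ) - p') * β) (by rw [h5]; exact h4)
    rw [h5] at h6
    have h7 : (∑' m, bilin_G ((k : ℝ) ^ 2) β P p p' m) =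
        ∑' m : ℕ, (((m : ℝ) ^ 6 * Real.exp (-(c * m)) : ℝ) : ℂ) *
          Complex.exp (-(2 * (Real.pi : ℂ) * m * ((((p : ℝ) - p') * β : ℝ) : ℂ) * Complex.I)) := by
      unfold bilin_G
      rw [← hc]
    rw [h7]
    refine h6.trans ?_
    have h8 : 0 ≤ 1 / bilin_d β ((p - p') + (p' - p)) := by
      unfold bilin_d
      positivity
    gcongr

/-- the second sum -/
private theorem bilin_E {b : ℕ → ℂ} (h : PD b) : ∃ C : ℝ, 0 ≤ C ∧ ∀ (k : ℕ) (a : ℤ) (β : ℝ),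
    16 ≤ k → IsCoprime a (k : ℤ) → |β - (a : ℝ) / k| ≤ 1 / (k : ℝ) ^ 2 →
    ∀ P : ℕ, 1 ≤ P → P ^ 2 ≤ k → ∀ Q : Finset ℕ, (∀ p ∈ Q, p.Prime ∧ P < p ∧ p ≤ 2 * P) →
      Summable (fun m : ℕ => Real.exp (m * P / (k : ℝ) ^ 2) *
        ‖bilin_c b ((k : ℝ) ^ 2) β Q m‖ ^ 2) ∧
      ∑' m : ℕ, Real.exp (m * P / (k : ℝ) ^ 2) * ‖bilin_c b ((k : ℝ) ^ 2) β Q m‖ ^ 2 ≤
        C * ((k : ℝ) ^ 2) ^ 7 * (Real.log k) ^ 2 := by
  obtain ⟨C1, hC1, hG⟩ := bilin_Gb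
  obtain ⟨C2, hC2, hS⟩ := bilin_prime h
  refine ⟨C1 * 64 * C2 * 33, by positivity, ?_⟩
  intro k a β hk hco hβ P hP hPk Q hQ
  have hPk1 : P ≤ k := by nlinarith
  have hk' : (16 : ℝ) ≤ k := by exact_mod_cast hk
  have hP0 : (1 : ℝ) ≤ P := by exact_mod_cast hP
  have hPk' : (P : ℝ) ≤ k := by exact_mod_cast hPk1
  have hL := bilin_logk hk
  obtain ⟨x, hx⟩ : ∃ x : ℝ, x = (k : ℝ) ^ 2 := ⟨_, rfl⟩
  have hx0 : 0 < x := by rw [hx]; positivity
  have hsum : ∀ p ∈ Q, ∀ p' ∈ Q, Summable (bilin_G x β P p p') ∧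
      ‖∑' m, bilin_G x β P p p' m‖ ≤ C1 * (x / P) ^ 6 *
        (if p = p' then x / P else 1 / bilin_d β ((p - p') + (p' - p))) := by
    intro p hp p' hp'
    rw [hx]
    exact hG k a β hk hco hβ P hP hPk p p' (hQ p hp).2.1 (hQ p hp).2.2 (hQ p' hp').2.1
      (hQ p' hp').2.2
  have hcs : Summable (fun m : ℕ => ∑ p ∈ Q, ∑ p' ∈ Q,
      b p * (starRingEnd ℂ) (b p') * (((p : ℂ) * p') ^ 3) * bilin_G x β P p p' m) :=
    summable_sum fun p hp => summable_sum fun p' hp' => (hsum p hp p' hp').1.mul_left _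
  have hpt := bilin_point b x β P Q
  have hcs2 : Summable (fun m : ℕ =>
      ((Real.exp (m * P / x) * ‖bilin_c b x β Q m‖ ^ 2 : ℝ) : ℂ)) := by
    simp only [hpt]
    exact hcs
  have hrs : Summable (fun m : ℕ => Real.exp (m * P / x) * ‖bilin_c b x β Q m‖ ^ 2) :=
    Complex.summable_ofReal.1 hcs2
  rw [← hx]
  refine ⟨hrs, ?_⟩
  have htot : ((∑' m : ℕ, Real.exp (m * P / x) * ‖bilin_c b x β Q m‖ ^ 2 : ℝ) : ℂ) =
      ∑ p ∈ Q, ∑ p' ∈ Q, b p * (starRingEnd ℂ) (b p') * (((p : ℂ) * p') ^ 3) *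
        ∑' m, bilin_G x β P p p' m := by
    rw [Complex.ofReal_tsum]
    simp only [hpt]
    rw [Summable.tsum_finsetSum fun p hp => summable_sum fun p' hp' =>
      (hsum p hp p' hp').1.mul_left _]
    refine Finset.sum_congr rfl fun p hp => ?_
    rw [Summable.tsum_finsetSum fun p' hp' => (hsum p hp p' hp').1.mul_left _]
    refine Finset.sum_congr rfl fun p' _ => ?_
    exact tsum_mul_left
  have hnn : 0 ≤ ∑' m : ℕ, Real.exp (m * P / x) * ‖bilin_c b x β Q m‖ ^ 2 :=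
    tsum_nonneg fun m => by positivity
  have hE : ∑' m : ℕ, Real.exp (m * P / x) * ‖bilin_c b x β Q m‖ ^ 2 =
      ‖∑ p ∈ Q, ∑ p' ∈ Q, b p * (starRingEnd ℂ) (b p') * (((p : ℂ) * p') ^ 3) *
        ∑' m, bilin_G x β P p p' m‖ := by
    rw [← htot, Complex.norm_real, Real.norm_of_nonneg hnn]
  rw [hE]
  obtain ⟨D, hD⟩ : ∃ D : ℕ → ℕ → ℝ, D = fun p p' =>
      if p = p' then x / P else 1 / bilin_d β ((p - p') + (p' - p)) := ⟨_, rfl⟩
  have hdn : ∀ l, 0 ≤ 1 / bilin_d β l := by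
    intro l
    unfold bilin_d
    positivity
  have hDn : ∀ p p', 0 ≤ D p p' := by
    intro p p'
    rw [hD]
    show 0 ≤ if p = p' then x / P else 1 / bilin_d β ((p - p') + (p' - p))
    split_ifs
    · positivity
    · exact hdn _
  have hDs : ∀ p p', D p p' = D p' p := by
    intro p p'
    rw [hD]
    show (if p = p' then x / P else 1 / bilin_d β ((p - p') + (p' - p))) =
      (if p' = p then x / P else 1 / bilin_d β ((p' - p) + (p - p')))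
    by_cases hpp : p = p'
    · rw [if_pos hpp, if_pos hpp.symm]
    · rw [if_neg hpp, if_neg (fun e => hpp e.symm), add_comm (p' - p)]
  have hDrow : ∀ p ∈ Q, ∑ p' ∈ Q, D p p' ≤ x / P + 16 * k * (1 + Real.log k) := by
    intro p hp
    have e1 : ∀ p' ∈ Q, D p p' = (if p = p' then x / P else 0) +
        (if p = p' then 0 else (fun l => 1 / bilin_d β l) ((p - p') + (p' - p))) := by
      intro p' _
      rw [hD]
      by_cases hpp : p = p'
      · simp [hpp]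
      · simp [hpp]
    rw [Finset.sum_congr rfl e1, Finset.sum_add_distrib, Finset.sum_ite_eq, if_pos hp]
    have e2 := bilin_count P Q (fun p hp => (hQ p hp).2) (fun l => 1 / bilin_d β l) hdn p hp
    have e3 := (vino k a β (by omega) hco hβ P (bilin_four hk hPk)).2
    have e4 : Real.log P ≤ Real.log k := Real.log_le_log (by linarith) hPk'
    have e5 : ∑ l ∈ Finset.Icc 1 P, (fun l => 1 / bilin_d β l) l ≤
        8 * (k : ℝ) * (1 + Real.log P) := e3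
    have e6 : 8 * (k : ℝ) * (1 + Real.log P) ≤ 8 * k * (1 + Real.log k) :=
      mul_le_mul_of_nonneg_left (by linarith) (by positivity)
    linarith
  have hterm : ∀ p ∈ Q, ∀ p' ∈ Q,
      ‖b p * (starRingEnd ℂ) (b p') * (((p : ℂ) * p') ^ 3) * ∑' m, bilin_G x β P p p' m‖ ≤
      64 * C1 * x ^ 6 * ((‖b p‖ ^ 2 * D p p' + ‖b p'‖ ^ 2 * D p' p) / 2) := by
    intro p hp p' hp'
    have e1 := (hsum p hp p' hp').2
    have e1' : ‖∑' m, bilin_G x β P p p' m‖ ≤ C1 * (x / P) ^ 6 * D p p' := by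
      rw [hD]
      exact e1
    have e2 : ‖((p : ℂ) * p') ^ 3‖ ≤ 64 * (P : ℝ) ^ 6 := by
      rw [norm_pow, norm_mul, Complex.norm_natCast, Complex.norm_natCast]
      have e3 : (p : ℝ) ≤ 2 * P := by exact_mod_cast (hQ p hp).2.2
      have e4 : (p' : ℝ) ≤ 2 * P := by exact_mod_cast (hQ p' hp').2.2
      calc ((p : ℝ) * p') ^ 3 ≤ ((2 * P) * (2 * P)) ^ 3 := by gcongr
        _ = 64 * (P : ℝ) ^ 6 := by ring
    have e5 : ‖b p‖ * ‖b p'‖ ≤ (‖b p‖ ^ 2 + ‖b p'‖ ^ 2) / 2 := by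
      nlinarith [sq_nonneg (‖b p‖ - ‖b p'‖)]
    rw [norm_mul, norm_mul, norm_mul, RCLike.norm_conj]
    have e6 : 0 ≤ C1 * (x / P) ^ 6 * D p p' := by
      have := hDn p p'
      positivity
    calc ‖b p‖ * ‖b p'‖ * ‖((p : ℂ) * p') ^ 3‖ * ‖∑' m, bilin_G x β P p p' m‖
        ≤ (‖b p‖ ^ 2 + ‖b p'‖ ^ 2) / 2 * (64 * (P : ℝ) ^ 6) * (C1 * (x / P) ^ 6 * D p p') := by
          gcongr
      _ = 64 * C1 * x ^ 6 * ((‖b p‖ ^ 2 * D p p' + ‖b p'‖ ^ 2 * D p p') / 2) := by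
          field_simp
      _ = _ := by rw [hDs p' p]
  have hbound : ‖∑ p ∈ Q, ∑ p' ∈ Q, b p * (starRingEnd ℂ) (b p') * (((p : ℂ) * p') ^ 3) *
        ∑' m, bilin_G x β P p p' m‖ ≤
      64 * C1 * x ^ 6 * ∑ p ∈ Q, ‖b p‖ ^ 2 * ∑ p' ∈ Q, D p p' := by
    refine (norm_sum_le _ _).trans ?_
    refine (Finset.sum_le_sum fun p hp => (norm_sum_le _ _).trans
      (Finset.sum_le_sum fun p' hp' => hterm p hp p' hp')).trans ?_
    have e1 : ∑ p ∈ Q, ∑ p' ∈ Q,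
        64 * C1 * x ^ 6 * ((‖b p‖ ^ 2 * D p p' + ‖b p'‖ ^ 2 * D p' p) / 2) =
        64 * C1 * x ^ 6 * ((∑ p ∈ Q, ∑ p' ∈ Q, ‖b p‖ ^ 2 * D p p' +
          ∑ p ∈ Q, ∑ p' ∈ Q, ‖b p'‖ ^ 2 * D p' p) / 2) := by
      rw [← Finset.sum_add_distrib, Finset.sum_div, Finset.mul_sum]
      refine Finset.sum_congr rfl fun p _ => ?_
      rw [← Finset.sum_add_distrib, Finset.sum_div, Finset.mul_sum]
    rw [e1, Finset.sum_comm (f := fun p p' => ‖b p'‖ ^ 2 * D p' p)]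
    have e2 : ∑ p ∈ Q, ∑ p' ∈ Q, ‖b p‖ ^ 2 * D p p' = ∑ p ∈ Q, ‖b p‖ ^ 2 * ∑ p' ∈ Q, D p p' :=
      Finset.sum_congr rfl fun p _ => (Finset.mul_sum _ _ _).symm
    rw [e2]
    apply le_of_eq
    ring
  refine hbound.trans ?_
  have hrow2 : ∑ p ∈ Q, ‖b p‖ ^ 2 * ∑ p' ∈ Q, D p p' ≤
      (C2 * P * Real.log k) * (x / P + 16 * k * (1 + Real.log k)) := by
    have e1 : ∑ p ∈ Q, ‖b p‖ ^ 2 * ∑ p' ∈ Q, D p p' ≤
        ∑ p ∈ Q, ‖b p‖ ^ 2 * (x / P + 16 * k * (1 + Real.log k)) :=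
      Finset.sum_le_sum fun p hp => mul_le_mul_of_nonneg_left (hDrow p hp) (by positivity)
    refine e1.trans ?_
    rw [← Finset.sum_mul]
    apply mul_le_mul_of_nonneg_right (hS k P hk hP hPk1 Q hQ)
    positivity
  have hfin : (C2 * P * Real.log k) * (x / P + 16 * k * (1 + Real.log k)) ≤
      C2 * 33 * x * (Real.log k) ^ 2 := by
    have e1 : (C2 * P * Real.log k) * (x / P + 16 * k * (1 + Real.log k)) =
        C2 * Real.log k * (x + 16 * (P * k) * (1 + Real.log k)) := by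
      field_simp
    have e2 : (P : ℝ) * k ≤ x := by
      rw [hx, sq]
      exact mul_le_mul_of_nonneg_right hPk' (by positivity)
    rw [e1]
    have e3 : x + 16 * (P * k) * (1 + Real.log k) ≤ x * (33 * Real.log k) := by
      have e4 : 16 * ((P : ℝ) * k) * (1 + Real.log k) ≤ 16 * x * (1 + Real.log k) := by
        gcongr
      nlinarith
    calc C2 * Real.log k * (x + 16 * (P * k) * (1 + Real.log k))
        ≤ C2 * Real.log k * (x * (33 * Real.log k)) :=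
          mul_le_mul_of_nonneg_left e3 (by positivity)
      _ = _ := by ring
  calc 64 * C1 * x ^ 6 * ∑ p ∈ Q, ‖b p‖ ^ 2 * ∑ p' ∈ Q, D p p'
      ≤ 64 * C1 * x ^ 6 * (C2 * 33 * x * (Real.log k) ^ 2) :=
        mul_le_mul_of_nonneg_left (hrow2.trans hfin) (by positivity)
    _ = C1 * 64 * C2 * 33 * x ^ 7 * Real.log k ^ 2 := by ring

private theorem bilin_sum1 {b : ℕ → ℂ} (h : PD b) (x β : ℝ) (hx : 0 < x) (ν : ℕ → ℝ)
    (hν : ∀ m, 0 ≤ ν m ∧ ν m ≤ 1) (p : ℕ) (hp : 0 < p) :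
    Summable (fun m : ℕ => b m * (ν m : ℂ) * (ww x (p * m) : ℂ) * ee β (p * m)) := by
  obtain ⟨C, hC⟩ := h.ram 1 one_pos
  have hp0 : (0 : ℝ) < p := by exact_mod_cast hp
  have h1 := Real.summable_pow_mul_exp_neg_nat_mul 4 (r := 2 * Real.pi * p / x)
    (by positivity)
  refine Summable.of_norm_bounded (h1.mul_left (|C| * (p : ℝ) ^ 3)) ?_
  intro m
  have h2 : ‖ee β (p * m)‖ = 1 := by
    unfold ee
    have h3 : -(2 * (Real.pi : ℂ) * ((p * m : ℕ) : ℂ) * β * Complex.I) =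
        ((-(2 * Real.pi * ((p * m : ℕ) : ℝ) * β) : ℝ) : ℂ) * Complex.I := by
      push_cast
      ring
    rw [h3, Complex.norm_exp_ofReal_mul_I]
  have h4 : 0 ≤ ww x (p * m) := by
    unfold ww
    positivity
  rw [norm_mul, norm_mul, norm_mul, h2, mul_one, Complex.norm_real, Complex.norm_real,
    Real.norm_of_nonneg h4, Real.norm_of_nonneg (hν m).1]
  have h5 : ww x (p * m) = (p : ℝ) ^ 3 * (m : ℝ) ^ 3 *
      Real.exp (-(2 * Real.pi * p / x) * m) := by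
    unfold ww
    push_cast
    rw [mul_pow]
    congr 2
    ring
  rw [h5]
  rcases Nat.eq_zero_or_pos m with rfl | hm
  · simp
  have h6 : ‖b m‖ ≤ |C| * m := by
    have := hC m hm
    rw [Real.rpow_one] at this
    refine this.trans ?_
    exact mul_le_mul_of_nonneg_right (le_abs_self C) (Nat.cast_nonneg m)
  calc ‖b m‖ * ν m * ((p : ℝ) ^ 3 * (m : ℝ) ^ 3 * Real.exp (-(2 * Real.pi * p / x) * m))
      ≤ |C| * m * 1 * ((p : ℝ) ^ 3 * (m : ℝ) ^ 3 * Real.exp (-(2 * Real.pi * p / x) * m)) := by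
        have := (hν m).2
        have := (hν m).1
        gcongr
    _ = |C| * (p : ℝ) ^ 3 * ((m : ℝ) ^ 4 * Real.exp (-(2 * Real.pi * p / x) * m)) := by ring

theorem bilin {b : ℕ → ℂ} (h : PD b) : ∃ (K : ℕ) (C : ℝ), 0 ≤ C ∧ ∀ (k : ℕ) (a : ℤ) (β : ℝ),
    16 ≤ k → IsCoprime a (k : ℤ) → |β - (a : ℝ) / k| ≤ 1 / (k : ℝ) ^ 2 →
    ∀ P : ℕ, 1 ≤ P → P ^ 2 ≤ k → ∀ Q : Finset ℕ, (∀ p ∈ Q, p.Prime ∧ P < p ∧ p ≤ 2 * P) →
    ∀ ν : ℕ → ℝ, (∀ m, 0 ≤ ν m ∧ ν m ≤ 1) →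
      ‖∑ p ∈ Q, b p * ∑' m : ℕ, b m * (ν m : ℂ) * (ww ((k : ℝ) ^ 2) (p * m) : ℂ) *
        ee β (p * m)‖ ≤
        C * ((k : ℝ) ^ 2) ^ 4 * (Real.log k) ^ K * (P : ℝ) ^ (-(1 / 2) : ℝ) := by
  obtain ⟨K1, C1, hC1, hA⟩ := m2_exp h
  obtain ⟨C2, hC2, hE⟩ := bilin_E h
  refine ⟨K1 + 2, √(C1 * 3 ^ K1 * 2 * C2), Real.sqrt_nonneg _, ?_⟩
  intro k a β hk hco hβ P hP hPk Q hQ ν hν
  have hPk1 : P ≤ k := by nlinarith
  have hk' : (16 : ℝ) ≤ k := by exact_mod_cast hk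
  have hP0 : (1 : ℝ) ≤ P := by exact_mod_cast hP
  have hPk' : (P : ℝ) ≤ k := by exact_mod_cast hPk1
  have hL := bilin_logk hk
  obtain ⟨hVs, hVb⟩ := hE k a β hk hco hβ P hP hPk Q hQ
  obtain ⟨x, hx⟩ : ∃ x : ℝ, x = (k : ℝ) ^ 2 := ⟨_, rfl⟩
  have hx0 : 0 < x := by rw [hx]; positivity
  rw [← hx] at hVs hVb ⊢
  have hX16 : 16 ≤ 2 * x / P := by
    rw [le_div_iff₀ (by linarith), hx]
    nlinarith
  have hX3 : 2 * x / P ≤ (k : ℝ) ^ 3 := by
    rw [div_le_iff₀ (by linarith), hx]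
    have : (k : ℝ) ^ 3 * 1 ≤ (k : ℝ) ^ 3 * P := mul_le_mul_of_nonneg_left hP0 (by positivity)
    nlinarith [sq_nonneg (k : ℝ)]
  obtain ⟨X, hX⟩ : ∃ X : ℝ, X = 2 * x / P := ⟨_, rfl⟩
  rw [← hX] at hX16 hX3
  have hX0 : 0 < X := by linarith
  obtain ⟨hUs, hUb⟩ := hA X hX16
  -- interchange
  have hint : ∑ p ∈ Q, b p * ∑' m : ℕ, b m * (ν m : ℂ) * (ww x (p * m) : ℂ) * ee β (p * m) =
      ∑' m : ℕ, b m * (ν m : ℂ) * bilin_c b x β Q m := by
    have e1 : ∀ p ∈ Q, b p * ∑' m : ℕ, b m * (ν m : ℂ) * (ww x (p * m) : ℂ) * ee β (p * m) =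
        ∑' m : ℕ, b p * (b m * (ν m : ℂ) * (ww x (p * m) : ℂ) * ee β (p * m)) := by
      intro p _
      exact tsum_mul_left.symm
    rw [Finset.sum_congr rfl e1, ← Summable.tsum_finsetSum fun p hp =>
      (bilin_sum1 h x β hx0 ν hν p (hQ p hp).1.pos).mul_left _]
    congr 1
    funext m
    unfold bilin_c
    rw [Finset.mul_sum]
    refine Finset.sum_congr rfl fun p _ => ?_
    ring
  rw [hint]
  have hcs := bilin_cs (f := fun m : ℕ => b m * (ν m : ℂ) * bilin_c b x β Q m)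
    (U := fun m : ℕ => ‖b m‖ ^ 2 * (m : ℝ)⁻¹ * Real.exp (-((m : ℝ) / X)))
    (V := fun m : ℕ => X * (Real.exp (m * P / x) * ‖bilin_c b x β Q m‖ ^ 2))
    (fun m => by positivity) (fun m => by positivity) ?_ hUs (hVs.mul_left X)
  · have hlogX : Real.log X ≤ 3 * Real.log k := by
      have := Real.log_le_log hX0 hX3
      rw [Real.log_pow] at this
      exact_mod_cast this
    have hlogX0 : 0 ≤ Real.log X := Real.log_nonneg (by linarith)
    have hU2 : ∑' m : ℕ, ‖b m‖ ^ 2 * (m : ℝ)⁻¹ * Real.exp (-((m : ℝ) / X)) ≤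
        C1 * 3 ^ K1 * (Real.log k) ^ K1 := by
      refine hUb.trans ?_
      rw [mul_assoc, ← mul_pow]
      exact mul_le_mul_of_nonneg_left (pow_le_pow_left₀ hlogX0 hlogX K1) hC1
    have hV2 : ∑' m : ℕ, X * (Real.exp (m * P / x) * ‖bilin_c b x β Q m‖ ^ 2) ≤
        X * (C2 * x ^ 7 * (Real.log k) ^ 2) := by
      rw [tsum_mul_left]
      exact mul_le_mul_of_nonneg_left hVb hX0.le
    have hprod : ‖∑' m : ℕ, b m * (ν m : ℂ) * bilin_c b x β Q m‖ ^ 2 ≤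
        (C1 * 3 ^ K1 * (Real.log k) ^ K1) * (X * (C2 * x ^ 7 * (Real.log k) ^ 2)) := by
      refine hcs.trans ?_
      exact mul_le_mul hU2 hV2 (tsum_nonneg fun m => by positivity) (by positivity)
    apply le_of_sq_le_sq _ (by positivity)
    refine hprod.trans ?_
    have hsq : (√(C1 * 3 ^ K1 * 2 * C2) * x ^ 4 * Real.log k ^ (K1 + 2) *
        (P : ℝ) ^ (-(1 / 2) : ℝ)) ^ 2 =
        (C1 * 3 ^ K1 * 2 * C2) * x ^ 8 * (Real.log k ^ (K1 + 2)) ^ 2 * (P : ℝ)⁻¹ := by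
      have e1 : ((P : ℝ) ^ (-(1 / 2) : ℝ)) ^ 2 = (P : ℝ)⁻¹ := by
        rw [← Real.rpow_natCast, ← Real.rpow_mul (by linarith)]
        norm_num
        rw [Real.rpow_neg_one]
      rw [mul_pow, mul_pow, mul_pow, Real.sq_sqrt (by positivity), e1]
      ring
    rw [hsq, hX]
    have e2 : (C1 * 3 ^ K1 * Real.log k ^ K1) * (2 * x / P * (C2 * x ^ 7 * Real.log k ^ 2)) =
        (C1 * 3 ^ K1 * 2 * C2) * x ^ 8 * (Real.log k ^ (K1 + 2)) * (P : ℝ)⁻¹ := by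
      rw [pow_add]
      field_simp
    rw [e2]
    have e3 : Real.log k ^ (K1 + 2) ≤ (Real.log k ^ (K1 + 2)) ^ 2 := by
      have e4 : 1 ≤ Real.log k ^ (K1 + 2) := one_le_pow₀ hL
      nlinarith
    gcongr
  · intro m
    rcases Nat.eq_zero_or_pos m with rfl | hm
    · have e0 : bilin_c b x β Q 0 = 0 := by
        unfold bilin_c ww
        simp
      rw [e0]
      simp
    have hm0 : (0 : ℝ) < m := by exact_mod_cast hm
    rw [norm_mul, norm_mul, Complex.norm_real, Real.norm_of_nonneg (hν m).1]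
    have e1 : 1 ≤ (m : ℝ)⁻¹ * X * (Real.exp (-((m : ℝ) / X)) * Real.exp (m * P / x)) := by
      rw [← Real.exp_add]
      have e2 : -((m : ℝ) / X) + m * P / x = m / X := by
        rw [hX]
        field_simp
        ring
      rw [e2]
      have e3 : (m : ℝ) / X ≤ Real.exp (m / X) := by
        have := Real.add_one_le_exp ((m : ℝ) / X)
        linarith
      have e4 : (m : ℝ)⁻¹ * X * (m / X) = 1 := by
        field_simp
      calc (1 : ℝ) = (m : ℝ)⁻¹ * X * (m / X) := e4.symm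
        _ ≤ _ := mul_le_mul_of_nonneg_left e3 (by positivity)
    calc (‖b m‖ * ν m * ‖bilin_c b x β Q m‖) ^ 2
        ≤ (‖b m‖ * 1 * ‖bilin_c b x β Q m‖) ^ 2 := by
          have := (hν m).1
          have := (hν m).2
          gcongr
      _ = ‖b m‖ ^ 2 * ‖bilin_c b x β Q m‖ ^ 2 * 1 := by ring
      _ ≤ ‖b m‖ ^ 2 * ‖bilin_c b x β Q m‖ ^ 2 *
          ((m : ℝ)⁻¹ * X * (Real.exp (-((m : ℝ) / X)) * Real.exp (m * P / x))) :=
          mul_le_mul_of_nonneg_left e1 (by positivity)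
      _ = _ := by ring

end Pool.Agent.H11.PC
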