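import Mathlib
import Pool.Agent.H11.PC.IDEF
import Pool.Agent.H11.PC.SUMM

/-!
# HPW: the weight and the higher prime powers

`ww_le`: `n⁴ e^(-2πn/x) ≤ C x⁴ e^(-n/x)` (`t⁴ e^(-5t)` is bounded, `2π > 6`).
`hpw`: `ww x (p^j m) ≤ C x⁴ p^(-j) m⁻¹ e^(-m/x)`, `‖b(p^j)‖ ≤ C p^(j/4)`, and `∑_p ∑_{j≥2} j log p p^(-3j/4) < ∞`.
Here `j` is written as `j + 2`.
-/

set_option autoImplicit false

namespace Pool.Agent.H11.PC

open Complex Filter Topology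

theorem ww_le : ∃ C : ℝ, 0 ≤ C ∧ ∀ x : ℝ, 1 ≤ x → ∀ n : ℕ, 1 ≤ n →
    ww x n ≤ C * x ^ 4 * (n : ℝ)⁻¹ * Real.exp (-((n : ℝ) / x)) := by
  refine ⟨24, by norm_num, fun x hx n hn => ?_⟩
  have hx0 : 0 < x := by linarith
  have hn0 : (0 : ℝ) < n := by exact_mod_cast hn
  have ht : 0 ≤ (n : ℝ) / x := by positivity
  have h1 : ((n : ℝ) / x) ^ 4 ≤ 24 * Real.exp ((n : ℝ) / x) := by
    have h := Real.pow_div_factorial_le_exp ((n : ℝ) / x) ht 4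
    have h4 : (Nat.factorial 4 : ℝ) = 24 := by norm_num [Nat.factorial]
    rw [h4, div_le_iff₀ (by norm_num)] at h
    linarith
  have h2 : (n : ℝ) ^ 4 ≤ 24 * x ^ 4 * Real.exp ((n : ℝ) / x) := by
    rw [div_pow, div_le_iff₀ (by positivity)] at h1
    linarith
  have h3 : Real.exp ((n : ℝ) / x) * Real.exp (-(2 * Real.pi * n / x)) ≤
      Real.exp (-((n : ℝ) / x)) := by
    rw [← Real.exp_add]
    apply Real.exp_le_exp.2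
    have hpi : 3 < Real.pi := Real.pi_gt_three
    have : 2 * Real.pi * n / x = 2 * Real.pi * (n / x) := by ring
    rw [this]
    nlinarith
  have h5 : ww x n = (n : ℝ) ^ 4 * Real.exp (-(2 * Real.pi * n / x)) * (n : ℝ)⁻¹ := by
    unfold ww
    field_simp
  rw [h5]
  calc (n : ℝ) ^ 4 * Real.exp (-(2 * Real.pi * n / x)) * (n : ℝ)⁻¹
      ≤ 24 * x ^ 4 * Real.exp ((n : ℝ) / x) * Real.exp (-(2 * Real.pi * n / x)) * (n : ℝ)⁻¹ := by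
        gcongr
    _ = 24 * x ^ 4 * (n : ℝ)⁻¹ *
        (Real.exp ((n : ℝ) / x) * Real.exp (-(2 * Real.pi * n / x))) := by ring
    _ ≤ 24 * x ^ 4 * (n : ℝ)⁻¹ * Real.exp (-((n : ℝ) / x)) := by
        gcongr

private theorem hpw_summable :
    Summable (fun q : Nat.Primes × ℕ => (4 * ((q.1 : ℕ) : ℝ) ^ (-(5 / 4) : ℝ)) *
      (((q.2 : ℝ) + 2) * ((2 : ℝ) ^ (-(3 / 4) : ℝ)) ^ q.2)) := by
  have h1 : Summable (fun p : Nat.Primes => 4 * ((p : ℕ) : ℝ) ^ (-(5 / 4) : ℝ)) :=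
    (Nat.Primes.summable_rpow.mpr (by norm_num)).mul_left 4
  have hr0 : (0 : ℝ) ≤ (2 : ℝ) ^ (-(3 / 4) : ℝ) := by positivity
  have hr1 : (2 : ℝ) ^ (-(3 / 4) : ℝ) < 1 :=
    Real.rpow_lt_one_of_one_lt_of_neg (by norm_num) (by norm_num)
  have h2 : Summable (fun j : ℕ => ((j : ℝ) + 2) * ((2 : ℝ) ^ (-(3 / 4) : ℝ)) ^ j) := by
    have h3 : Summable (fun j : ℕ => (j : ℝ) ^ 1 * ((2 : ℝ) ^ (-(3 / 4) : ℝ)) ^ j) :=
      summable_pow_mul_geometric_of_norm_lt_one 1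
        (by rw [Real.norm_of_nonneg hr0]; exact hr1)
    have h4 : Summable (fun j : ℕ => 2 * ((2 : ℝ) ^ (-(3 / 4) : ℝ)) ^ j) :=
      (summable_geometric_of_lt_one hr0 hr1).mul_left 2
    refine (h3.add h4).congr fun j => ?_
    ring
  exact h1.mul_of_nonneg h2 (fun p => by positivity) (fun j => by positivity)

theorem hpw {b : ℕ → ℂ} (h : PD b) : ∃ C : ℝ, 0 ≤ C ∧ ∀ x : ℝ, 16 ≤ x → ∀ m : ℕ, 1 ≤ m →
    Summable (fun q : Nat.Primes × ℕ => ((q.2 : ℝ) + 2) * Real.log (q.1 : ℕ) *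
      ‖b ((q.1 : ℕ) ^ (q.2 + 2))‖ * ww x ((q.1 : ℕ) ^ (q.2 + 2) * m)) ∧
    ∑' q : Nat.Primes × ℕ, ((q.2 : ℝ) + 2) * Real.log (q.1 : ℕ) *
      ‖b ((q.1 : ℕ) ^ (q.2 + 2))‖ * ww x ((q.1 : ℕ) ^ (q.2 + 2) * m) ≤
      C * x ^ 4 * (m : ℝ)⁻¹ * Real.exp (-((m : ℝ) / x)) := by
  obtain ⟨C1, hC1, hw⟩ := ww_le
  obtain ⟨C2', hb'⟩ := h.ram (1 / 4) (by norm_num)
  set C2 : ℝ := max C2' 0 with hC2d
  have hC2 : 0 ≤ C2 := le_max_right _ _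
  have hb : ∀ n : ℕ, 1 ≤ n → ‖b n‖ ≤ C2 * (n : ℝ) ^ (1 / 4 : ℝ) := fun n hn =>
    (hb' n hn).trans (mul_le_mul_of_nonneg_right (le_max_left _ _) (by positivity))
  set v : Nat.Primes × ℕ → ℝ := fun q => (4 * ((q.1 : ℕ) : ℝ) ^ (-(5 / 4) : ℝ)) *
      (((q.2 : ℝ) + 2) * ((2 : ℝ) ^ (-(3 / 4) : ℝ)) ^ q.2) with hv
  have hvs : Summable v := hpw_summable
  refine ⟨C1 * C2 * ∑' q, v q, mul_nonneg (mul_nonneg hC1 hC2)
    (tsum_nonneg fun q => by positivity), ?_⟩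
  intro x hx m hm
  have hx0 : 0 < x := by linarith
  have hm0 : (0 : ℝ) < m := by exact_mod_cast hm
  have hterm0 : ∀ q : Nat.Primes × ℕ, 0 ≤ ((q.2 : ℝ) + 2) * Real.log (q.1 : ℕ) *
      ‖b ((q.1 : ℕ) ^ (q.2 + 2))‖ * ww x ((q.1 : ℕ) ^ (q.2 + 2) * m) := by
    intro q
    have h1 : 0 ≤ Real.log (q.1 : ℕ) := Real.log_natCast_nonneg _
    have h2 : 0 ≤ ww x ((q.1 : ℕ) ^ (q.2 + 2) * m) := by unfold ww; positivity
    positivity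
  have hterm : ∀ q : Nat.Primes × ℕ, ((q.2 : ℝ) + 2) * Real.log (q.1 : ℕ) *
      ‖b ((q.1 : ℕ) ^ (q.2 + 2))‖ * ww x ((q.1 : ℕ) ^ (q.2 + 2) * m) ≤
      (C1 * C2 * x ^ 4 * (m : ℝ)⁻¹ * Real.exp (-((m : ℝ) / x))) * v q := by
    rintro ⟨p, j⟩
    have hp2 : (2 : ℝ) ≤ ((p : ℕ) : ℝ) := by exact_mod_cast p.prop.two_le
    have hp0 : (0 : ℝ) < ((p : ℕ) : ℝ) := by linarith
    have hlog0 : 0 ≤ Real.log (p : ℕ) := Real.log_natCast_nonneg _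
    have hlog : Real.log (p : ℕ) ≤ 4 * ((p : ℕ) : ℝ) ^ (1 / 4 : ℝ) := by
      have := Real.log_le_rpow_div hp0.le (ε := 1 / 4) (by norm_num)
      linarith
    have hPn : 1 ≤ (p : ℕ) ^ (j + 2) := Nat.one_le_pow _ _ p.prop.pos
    have hP1 : (1 : ℝ) ≤ ((p : ℕ) : ℝ) ^ (j + 2) := by exact_mod_cast hPn
    have hP0 : (0 : ℝ) < ((p : ℕ) : ℝ) ^ (j + 2) := by linarith
    have hbp : ‖b ((p : ℕ) ^ (j + 2))‖ ≤ C2 * (((p : ℕ) : ℝ) ^ (j + 2)) ^ (1 / 4 : ℝ) := by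
      have := hb ((p : ℕ) ^ (j + 2)) hPn
      push_cast at this
      exact this
    have hww : ww x ((p : ℕ) ^ (j + 2) * m) ≤
        C1 * x ^ 4 * ((((p : ℕ) : ℝ) ^ (j + 2))⁻¹ * (m : ℝ)⁻¹) * Real.exp (-((m : ℝ) / x)) := by
      have h1 := hw x (by linarith) ((p : ℕ) ^ (j + 2) * m) (Nat.mul_pos hPn hm)
      push_cast at h1
      rw [mul_inv] at h1
      refine h1.trans ?_
      have h2 : Real.exp (-(((p : ℕ) : ℝ) ^ (j + 2) * m / x)) ≤ Real.exp (-((m : ℝ) / x)) := by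
        apply Real.exp_le_exp.2
        have h3 : (m : ℝ) / x ≤ ((p : ℕ) : ℝ) ^ (j + 2) * m / x := by
          rw [mul_div_assoc]
          exact le_mul_of_one_le_left (by positivity) hP1
        linarith
      exact mul_le_mul_of_nonneg_left h2 (by positivity)
    have hww0 : 0 ≤ ww x ((p : ℕ) ^ (j + 2) * m) := by unfold ww; positivity
    have hkey : ((p : ℕ) : ℝ) ^ (1 / 4 : ℝ) * ((((p : ℕ) : ℝ) ^ (j + 2)) ^ (1 / 4 : ℝ) *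
        (((p : ℕ) : ℝ) ^ (j + 2))⁻¹) ≤
        ((p : ℕ) : ℝ) ^ (-(5 / 4) : ℝ) * ((2 : ℝ) ^ (-(3 / 4) : ℝ)) ^ j := by
      have e1 : (((p : ℕ) : ℝ) ^ (j + 2)) ^ (1 / 4 : ℝ) * (((p : ℕ) : ℝ) ^ (j + 2))⁻¹ =
          ((p : ℕ) : ℝ) ^ (-(3 / 2) : ℝ) * (((p : ℕ) : ℝ) ^ (-(3 / 4) : ℝ)) ^ j := by
        rw [← Real.rpow_neg_one, ← Real.rpow_add hP0, ← Real.rpow_natCast, ← Real.rpow_natCast,
          ← Real.rpow_mul hp0.le, ← Real.rpow_mul hp0.le, ← Real.rpow_add hp0]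
        congr 1
        push_cast
        ring
      have e2 : ((p : ℕ) : ℝ) ^ (-(3 / 4) : ℝ) ≤ (2 : ℝ) ^ (-(3 / 4) : ℝ) :=
        Real.rpow_le_rpow_of_nonpos (by norm_num) hp2 (by norm_num)
      rw [e1, ← mul_assoc, ← Real.rpow_add hp0]
      have e3 : (1 / 4 + -(3 / 2) : ℝ) = -(5 / 4) := by norm_num
      rw [e3]
      have e4 : (((p : ℕ) : ℝ) ^ (-(3 / 4) : ℝ)) ^ j ≤ ((2 : ℝ) ^ (-(3 / 4) : ℝ)) ^ j :=
        pow_le_pow_left₀ (by positivity) e2 j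
      exact mul_le_mul_of_nonneg_left e4 (by positivity)
    calc ((j : ℝ) + 2) * Real.log (p : ℕ) * ‖b ((p : ℕ) ^ (j + 2))‖ *
          ww x ((p : ℕ) ^ (j + 2) * m)
        ≤ ((j : ℝ) + 2) * (4 * ((p : ℕ) : ℝ) ^ (1 / 4 : ℝ)) *
          (C2 * (((p : ℕ) : ℝ) ^ (j + 2)) ^ (1 / 4 : ℝ)) *
          (C1 * x ^ 4 * ((((p : ℕ) : ℝ) ^ (j + 2))⁻¹ * (m : ℝ)⁻¹) *
            Real.exp (-((m : ℝ) / x))) := by
          gcongr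
      _ = (C1 * C2 * x ^ 4 * (m : ℝ)⁻¹ * Real.exp (-((m : ℝ) / x))) * (4 * ((j : ℝ) + 2)) *
          (((p : ℕ) : ℝ) ^ (1 / 4 : ℝ) * ((((p : ℕ) : ℝ) ^ (j + 2)) ^ (1 / 4 : ℝ) *
        (((p : ℕ) : ℝ) ^ (j + 2))⁻¹)) := by ring
      _ ≤ (C1 * C2 * x ^ 4 * (m : ℝ)⁻¹ * Real.exp (-((m : ℝ) / x))) * (4 * ((j : ℝ) + 2)) *
          (((p : ℕ) : ℝ) ^ (-(5 / 4) : ℝ) * ((2 : ℝ) ^ (-(3 / 4) : ℝ)) ^ j) := by
          refine mul_le_mul_of_nonneg_left hkey ?_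
          positivity
      _ = _ := by rw [hv]; ring
  have hs2 : Summable (fun q => (C1 * C2 * x ^ 4 * (m : ℝ)⁻¹ * Real.exp (-((m : ℝ) / x))) * v q) :=
    hvs.mul_left _
  have hs1 := Summable.of_nonneg_of_le hterm0 hterm hs2
  refine ⟨hs1, (hs1.tsum_le_tsum hterm hs2).trans (le_of_eq ?_)⟩
  rw [tsum_mul_left]
  ring

end Pool.Agent.H11.PC
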