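import Mathlib
import Pool.Agent.H11.PC.IDEF
import Pool.Agent.H11.PC.SUMM
import Pool.Agent.H11.PC.SB
import Pool.Agent.H11.PC.MULTB
import Pool.Agent.H11.PC.MS
import Pool.Agent.H11.Selberg.Line

/-!
# EUB: the logarithmic average of `|b|` over the integers without prime factor in `PP A x` is small

Let `L = log x`, `α = 1/L`.  By `exp_le_rpow` the sum is `≤ 3 ∑ gx m m^(-(1+α))`, and `mult_le_exp` for `f m = gx m m^(-(1+α))`
(multiplicative; for a prime `p ∈ PP A x` all `f(p^j) = 0`, otherwise `∑_j f(p^j) ≤ ‖b p‖ p^(-(1+α)) + C p^(-3/2)`) gives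
`≤ 3 exp(C + ∑_{p ≤ L^A} ‖b p‖/p + ∑_{p > x^(1/4)} ‖b p‖ p^(-(1+α)))`.
First sum: Cauchy-Schwarz `≤ (S b (L^A))^(1/2) (∑_{p ≤ L^A} 1/p)^(1/2) ≤ C (log log L^A + C)` (`h.sb`; `∑_{p≤t} 1/p ≤ log log t + C`: or crude
`∑_{n ≤ t} 1/n ≤ 1 + log t` would give `(log log L^A)^(1/2) (A log L)^(1/2)`, which is also good enough).
Second sum: `≤ (∑ ‖b p‖² p^(-(1+α)))^(1/2) (∑_{p > x^(1/4)} p^(-(1+α)))^(1/2) ≤ (C log L + C)^(1/2) C`
(`sb_sum`; the last sum is `O(1)`: `∑_{p>y} p^(-1-α) ≤ C/(α log y)` by Chebyshev `∑_{p≤t} log p ≤ 2t` and partial summation / dyadic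
blocks, `log y = L/4`).  All together `≤ exp(C (log L)^(1/2) (log log L + 1)^(1/2) + C) ≤ L^(1/4)` for large `x`.
-/

set_option autoImplicit false

namespace Pool.Agent.H11.PC

open Complex Filter Topology Pool.Agent.H11.Selberg

/-! ### sums over the primes -/

open ArithmeticFunction.vonMangoldt in
private theorem eub_logp : ∃ C : ℝ, 0 ≤ C ∧ ∀ α : ℝ, 0 < α → α ≤ 1 →
    Summable (fun p : Nat.Primes => Real.log ((p : ℕ) : ℝ) * ((p : ℕ) : ℝ) ^ (-(1 + α))) ∧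
    ∑' p : Nat.Primes, Real.log ((p : ℕ) : ℝ) * ((p : ℕ) : ℝ) ^ (-(1 + α)) ≤ 1 / α + C := by
  obtain ⟨a, ha⟩ : ∃ a : ZMod 1, IsUnit a := ⟨1, isUnit_one⟩
  have hres : ∀ n : ℕ, residueClass a n = ArithmeticFunction.vonMangoldt n := by
    intro n
    unfold residueClass
    rw [Set.indicator_of_mem]
    exact Subsingleton.elim _ _
  have H : ∀ x : ℝ, 1 < x → ∑' n, residueClass a n / (n : ℝ) ^ x =
      (LFunctionResidueClassAux a x).re + 1 / (x - 1) := by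
    intro x hx
    refine ofReal_injective ?_
    have h1 : (1 : ℝ) / (x - 1) = ((Nat.totient 1 : ℝ)⁻¹) / (x - 1) := by
      rw [Nat.totient_one, Nat.cast_one, inv_one]
    rw [h1]
    simp only [ofReal_tsum, ofReal_div, ofReal_cpow (Nat.cast_nonneg _), ofReal_natCast,
      ofReal_add, ofReal_inv, ofReal_sub, ofReal_one]
    simp_rw [← LFunctionResidueClassAux_real ha hx,
      eqOn_LFunctionResidueClassAux ha <| Set.mem_ofPred.mpr (ofReal_re x ▸ hx), sub_add_cancel,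
      LSeries, LSeries.term]
    refine tsum_congr fun n => ?_
    split_ifs with hn
    · simp only [hn, residueClass_apply_zero, ofReal_zero, zero_div]
    · rfl
  have hcont : ContinuousOn (fun x : ℝ => (LFunctionResidueClassAux a x).re) (Set.Icc 1 2) :=
    continuous_re.continuousOn.comp (t := Set.univ) (continuousOn_LFunctionResidueClassAux a)
      (fun x _ => trivial) |>.comp continuous_ofReal.continuousOn fun x hx => by
        simpa only [Set.mem_ofPred_eq, ofReal_re] using hx.1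
  obtain ⟨C, hC⟩ := bddAbove_def.mp <| IsCompact.bddAbove_image isCompact_Icc hcont
  refine ⟨max C 0, le_max_right _ _, fun α hα hα1 => ?_⟩
  have hx1 : (1 : ℝ) < 1 + α := by linarith
  have hsum : Summable (fun n : ℕ => residueClass a n / (n : ℝ) ^ (1 + α)) :=
    LSeries.summable_real_of_abscissaOfAbsConv_lt <|
      (abscissaOfAbsConv_residueClass_le_one a).trans_lt <| mod_cast hx1
  have hterm : ∀ p : Nat.Primes, Real.log ((p : ℕ) : ℝ) * ((p : ℕ) : ℝ) ^ (-(1 + α)) =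
      residueClass a (p : ℕ) / ((p : ℕ) : ℝ) ^ (1 + α) := by
    intro p
    rw [hres, ArithmeticFunction.vonMangoldt_apply_prime p.2, Real.rpow_neg (Nat.cast_nonneg _),
      div_eq_mul_inv]
  have hinj : Function.Injective (fun p : Nat.Primes => (p : ℕ)) := Subtype.val_injective
  have hsum2 : Summable (fun p : Nat.Primes =>
      Real.log ((p : ℕ) : ℝ) * ((p : ℕ) : ℝ) ^ (-(1 + α))) := by
    simp_rw [hterm]
    exact hsum.comp_injective hinj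
  refine ⟨hsum2, ?_⟩
  have h1 : ∑' p : Nat.Primes, Real.log ((p : ℕ) : ℝ) * ((p : ℕ) : ℝ) ^ (-(1 + α)) ≤
      ∑' n : ℕ, residueClass a n / (n : ℝ) ^ (1 + α) := by
    refine Summable.tsum_le_tsum_of_inj (fun p : Nat.Primes => (p : ℕ)) hinj
      (fun n _ => div_nonneg (residueClass_nonneg a n) (by positivity))
      (fun p => (hterm p).le) hsum2 hsum
  refine h1.trans ?_
  rw [H (1 + α) hx1, add_sub_cancel_left, add_comm]
  have h2 : (LFunctionResidueClassAux a ((1 + α : ℝ) : ℂ)).re ≤ C :=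
    hC _ (Set.mem_image_of_mem (fun x : ℝ => (LFunctionResidueClassAux a x).re)
      ⟨hx1.le, by linarith⟩)
  have h3 := le_max_left C 0
  linarith

private theorem eub_fin (u : ℕ → ℝ) (y : ℝ) (hy : 0 ≤ y) :
    HasSum (fun p : Nat.Primes => if ((p : ℕ) : ℝ) ≤ y then u p else 0)
      (∑ p ∈ (Finset.Icc 1 ⌊y⌋₊).filter Nat.Prime, u p) := by
  classical
  have h1 : HasSum (({p : ℕ | p.Prime}).indicator (fun p : ℕ => if (p : ℝ) ≤ y then u p else 0))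
      (∑ p ∈ (Finset.Icc 1 ⌊y⌋₊).filter Nat.Prime, u p) := by
    have h2 : ∑ p ∈ (Finset.Icc 1 ⌊y⌋₊).filter Nat.Prime, u p =
        ∑ p ∈ (Finset.Icc 1 ⌊y⌋₊).filter Nat.Prime,
          ({p : ℕ | p.Prime}).indicator (fun p : ℕ => if (p : ℝ) ≤ y then u p else 0) p := by
      refine Finset.sum_congr rfl fun p hp => ?_
      rw [Finset.mem_filter, Finset.mem_Icc] at hp
      rw [Set.indicator_of_mem (show p ∈ {p : ℕ | p.Prime} from hp.2), if_pos]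
      exact (Nat.le_floor_iff hy).1 hp.1.2
    rw [h2]
    refine hasSum_sum_of_ne_finset_zero fun p hp => ?_
    by_cases hpp : p.Prime
    · rw [Set.indicator_of_mem (show p ∈ {p : ℕ | p.Prime} from hpp), if_neg]
      intro hle
      apply hp
      rw [Finset.mem_filter, Finset.mem_Icc]
      exact ⟨⟨hpp.one_le, Nat.le_floor hle⟩, hpp⟩
    · rw [Set.indicator_of_notMem (show p ∉ {p : ℕ | p.Prime} from hpp)]
  exact hasSum_subtype_iff_indicator.mpr h1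

/-! ### the function `gx` -/

private theorem eub_gx_nonneg (b : ℕ → ℂ) (A : ℕ) (x : ℝ) (m : ℕ) : 0 ≤ gx b A x m := by
  unfold gx
  split_ifs
  · exact le_rfl
  · exact norm_nonneg _

private theorem eub_gx_le (b : ℕ → ℂ) (A : ℕ) (x : ℝ) (m : ℕ) : gx b A x m ≤ ‖b m‖ := by
  unfold gx
  split_ifs
  · exact norm_nonneg _
  · exact le_rfl

private theorem eub_gx_one {b : ℕ → ℂ} (h : PD b) (A : ℕ) (x : ℝ) : gx b A x 1 = 1 := by
  unfold gx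
  rw [if_neg, h.one, norm_one]
  rintro ⟨p, hp, hp1⟩
  have h1 : p.Prime := by
    unfold PP at hp
    exact (Finset.mem_filter.1 hp).2.1
  exact h1.one_lt.ne' (Nat.dvd_one.1 hp1)

private theorem eub_gx_mul {b : ℕ → ℂ} (h : PD b) (A : ℕ) (x : ℝ) (m n : ℕ)
    (hmn : Nat.Coprime m n) : gx b A x (m * n) = gx b A x m * gx b A x n := by
  have hpr : ∀ p ∈ PP A x, p.Prime := by
    intro p hp
    unfold PP at hp
    exact (Finset.mem_filter.1 hp).2.1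
  unfold gx
  by_cases h1 : ∃ p ∈ PP A x, p ∣ m
  · rw [if_pos h1, if_pos, zero_mul]
    obtain ⟨p, hp, hpm⟩ := h1
    exact ⟨p, hp, hpm.mul_right n⟩
  · by_cases h2 : ∃ p ∈ PP A x, p ∣ n
    · rw [if_pos h2, if_pos, mul_zero]
      obtain ⟨p, hp, hpm⟩ := h2
      exact ⟨p, hp, hpm.mul_left m⟩
    · rw [if_neg h1, if_neg h2, if_neg, h.mul m n hmn, norm_mul]
      rintro ⟨p, hp, hpm⟩
      rcases (hpr p hp).dvd_mul.1 hpm with h3 | h3
      · exact h1 ⟨p, hp, h3⟩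
      · exact h2 ⟨p, hp, h3⟩

/-- the multiplicative function -/
private noncomputable def eubF (b : ℕ → ℂ) (A : ℕ) (x α : ℝ) (m : ℕ) : ℝ :=
  if m = 0 then 0 else gx b A x m * (m : ℝ) ^ (-(1 + α))

private theorem eubF_nonneg (b : ℕ → ℂ) (A : ℕ) (x α : ℝ) (m : ℕ) : 0 ≤ eubF b A x α m := by
  unfold eubF
  split_ifs
  · exact le_rfl
  · exact mul_nonneg (eub_gx_nonneg b A x m) (Real.rpow_nonneg (Nat.cast_nonneg _) _)

private theorem eubF_mul {b : ℕ → ℂ} (h : PD b) (A : ℕ) (x α : ℝ) (m n : ℕ)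
    (hmn : Nat.Coprime m n) : eubF b A x α (m * n) = eubF b A x α m * eubF b A x α n := by
  unfold eubF
  by_cases hm : m = 0
  · rw [hm, zero_mul, if_pos rfl, zero_mul]
  · by_cases hn : n = 0
    · rw [hn, mul_zero, if_pos rfl, mul_zero]
    · rw [if_neg hm, if_neg hn, if_neg (mul_ne_zero hm hn), eub_gx_mul h A x m n hmn,
        Nat.cast_mul, Real.mul_rpow (Nat.cast_nonneg _) (Nat.cast_nonneg _)]
      ring

private theorem eubF_pow {b : ℕ → ℂ} {C1 : ℝ}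
    (hC1 : ∀ n : ℕ, 1 ≤ n → ‖b n‖ ≤ C1 * (n : ℝ) ^ (1 / 4 : ℝ)) (A : ℕ) (x α : ℝ) (hα : 0 < α)
    (p : ℕ) (hp : p.Prime) (j : ℕ) :
    eubF b A x α (p ^ j) ≤ C1 * ((p : ℝ) ^ (-(3 / 4) : ℝ)) ^ j := by
  have hp0 : p ^ j ≠ 0 := pow_ne_zero _ hp.ne_zero
  have h1 : 1 ≤ p ^ j := Nat.one_le_iff_ne_zero.2 hp0
  have h1r : (1 : ℝ) ≤ ((p ^ j : ℕ) : ℝ) := by exact_mod_cast h1
  have hpos : (0 : ℝ) < ((p ^ j : ℕ) : ℝ) := by linarith
  unfold eubF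
  rw [if_neg hp0]
  have hnn : 0 ≤ C1 * ((p ^ j : ℕ) : ℝ) ^ (1 / 4 : ℝ) := (norm_nonneg _).trans (hC1 _ h1)
  calc gx b A x (p ^ j) * ((p ^ j : ℕ) : ℝ) ^ (-(1 + α))
      ≤ (C1 * ((p ^ j : ℕ) : ℝ) ^ (1 / 4 : ℝ)) * ((p ^ j : ℕ) : ℝ) ^ (-1 : ℝ) := by
        apply mul_le_mul ((eub_gx_le b A x _).trans (hC1 _ h1)) _
          (Real.rpow_nonneg hpos.le _) hnn
        exact Real.rpow_le_rpow_of_exponent_le h1r (by linarith)
    _ = C1 * ((p ^ j : ℕ) : ℝ) ^ (-(3 / 4) : ℝ) := by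
        rw [mul_assoc, ← Real.rpow_add hpos]
        norm_num
    _ = C1 * ((p : ℝ) ^ (-(3 / 4) : ℝ)) ^ j := by
        rw [Nat.cast_pow, ← Real.rpow_natCast, ← Real.rpow_natCast, ← Real.rpow_mul
          (Nat.cast_nonneg _), ← Real.rpow_mul (Nat.cast_nonneg _), mul_comm (j : ℝ)]

/-- the local sums -/
private theorem eubF_loc {b : ℕ → ℂ} {C1 : ℝ} (hC10 : 0 ≤ C1)
    (hC1 : ∀ n : ℕ, 1 ≤ n → ‖b n‖ ≤ C1 * (n : ℝ) ^ (1 / 4 : ℝ)) (A : ℕ) (x α : ℝ) (hα : 0 < α)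
    (p : Nat.Primes) :
    Summable (fun j : ℕ => eubF b A x α ((p : ℕ) ^ (j + 1))) ∧
    ∑' j : ℕ, eubF b A x α ((p : ℕ) ^ (j + 1)) ≤ eubF b A x α (p : ℕ) +
      C1 * (1 - (2 : ℝ) ^ (-(3 / 4) : ℝ))⁻¹ * ((p : ℕ) : ℝ) ^ (-(3 / 2) : ℝ) := by
  obtain ⟨r, hr⟩ : ∃ r : ℝ, r = ((p : ℕ) : ℝ) ^ (-(3 / 4) : ℝ) := ⟨_, rfl⟩
  have hp2 : (2 : ℝ) ≤ ((p : ℕ) : ℝ) := by exact_mod_cast p.2.two_le
  have hp0 : (0 : ℝ) < ((p : ℕ) : ℝ) := by linarith
  have hr0 : 0 ≤ r := by rw [hr]; exact Real.rpow_nonneg hp0.le _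
  have h2lt : (2 : ℝ) ^ (-(3 / 4) : ℝ) < 1 := Real.rpow_lt_one_of_one_lt_of_neg (by norm_num)
    (by norm_num)
  have hr2 : r ≤ (2 : ℝ) ^ (-(3 / 4) : ℝ) := by
    rw [hr]
    exact Real.rpow_le_rpow_of_nonpos (by norm_num) hp2 (by norm_num)
  have hr1 : r < 1 := lt_of_le_of_lt hr2 h2lt
  have hb : ∀ j : ℕ, eubF b A x α ((p : ℕ) ^ j) ≤ C1 * r ^ j := by
    intro j
    rw [hr]
    exact eubF_pow hC1 A x α hα p p.2 j
  have hgeo : Summable (fun j : ℕ => r ^ j) := summable_geometric_of_lt_one hr0 hr1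
  have hs1 : Summable (fun j : ℕ => eubF b A x α ((p : ℕ) ^ (j + 1))) := by
    refine Summable.of_nonneg_of_le (fun j => eubF_nonneg _ _ _ _ _) (fun j => hb (j + 1)) ?_
    exact ((summable_nat_add_iff 1).2 hgeo).mul_left C1
  refine ⟨hs1, ?_⟩
  rw [hs1.tsum_eq_zero_add, zero_add, pow_one]
  have hs2 : Summable (fun j : ℕ => eubF b A x α ((p : ℕ) ^ (j + 1 + 1))) :=
    (summable_nat_add_iff 1).2 hs1
  have h3 : ∑' j : ℕ, eubF b A x α ((p : ℕ) ^ (j + 1 + 1)) ≤ ∑' j : ℕ, C1 * r ^ 2 * r ^ j := by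
    refine Summable.tsum_le_tsum (fun j => ?_) hs2 (hgeo.mul_left _)
    refine (hb (j + 1 + 1)).trans (le_of_eq ?_)
    ring
  rw [tsum_mul_left, tsum_geometric_of_lt_one hr0 hr1] at h3
  have h4 : (1 - r)⁻¹ ≤ (1 - (2 : ℝ) ^ (-(3 / 4) : ℝ))⁻¹ :=
    inv_anti₀ (by linarith) (by linarith)
  have h5 : r ^ 2 = ((p : ℕ) : ℝ) ^ (-(3 / 2) : ℝ) := by
    rw [hr, ← Real.rpow_natCast, ← Real.rpow_mul hp0.le]
    norm_num
  have h6 : C1 * r ^ 2 * (1 - r)⁻¹ ≤ C1 * r ^ 2 * (1 - (2 : ℝ) ^ (-(3 / 4) : ℝ))⁻¹ :=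
    mul_le_mul_of_nonneg_left h4 (by positivity)
  rw [← h5]
  have h7 : C1 * r ^ 2 * (1 - (2 : ℝ) ^ (-(3 / 4) : ℝ))⁻¹ =
      C1 * (1 - (2 : ℝ) ^ (-(3 / 4) : ℝ))⁻¹ * r ^ 2 := by ring
  linarith

private theorem eub_amgm (t l : ℝ) (hl : 0 < l) : t ≤ l / 2 * t ^ 2 + 1 / (2 * l) := by
  have h1 : 0 ≤ (l * t - 1) ^ 2 / (2 * l) := by positivity
  have h2 : (l * t - 1) ^ 2 / (2 * l) = l / 2 * t ^ 2 + 1 / (2 * l) - t := by
    field_simp
    ring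
  linarith

/-- the pointwise bound at the primes -/
private theorem eubF_prime (b : ℕ → ℂ) (A : ℕ) (x : ℝ) (hx : 1 ≤ x) (hL : 0 < Real.log x)
    (l1 l2 : ℝ) (h1 : 0 < l1) (h2 : 0 < l2) (p : Nat.Primes) :
    eubF b A x (1 / Real.log x) (p : ℕ) ≤
      (l1 / 2 * (if ((p : ℕ) : ℝ) ≤ Real.log x ^ A then ‖b (p : ℕ)‖ ^ 2 / ((p : ℕ) : ℝ) else 0) +
        1 / (2 * l1) * (if ((p : ℕ) : ℝ) ≤ Real.log x ^ A then ((p : ℕ) : ℝ)⁻¹ else 0)) +
      (l2 / 2 * (‖b (p : ℕ)‖ ^ 2 * ((p : ℕ) : ℝ) ^ (-(1 + 1 / Real.log x))) +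
        1 / (2 * l2) * (4 / Real.log x) *
          (Real.log ((p : ℕ) : ℝ) * ((p : ℕ) : ℝ) ^ (-(1 + 1 / Real.log x)))) := by
  obtain ⟨α, hα⟩ : ∃ α : ℝ, α = 1 / Real.log x := ⟨_, rfl⟩
  have hα0 : 0 < α := by rw [hα]; positivity
  rw [← hα]
  have hp2 : (2 : ℝ) ≤ ((p : ℕ) : ℝ) := by exact_mod_cast p.2.two_le
  have hp0 : (0 : ℝ) < ((p : ℕ) : ℝ) := by linarith
  have hlogp : 0 ≤ Real.log ((p : ℕ) : ℝ) := Real.log_nonneg (by linarith)
  have hpw : 0 ≤ ((p : ℕ) : ℝ) ^ (-(1 + α)) := Real.rpow_nonneg hp0.le _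
  have t1 : 0 ≤ l1 / 2 *
      (if ((p : ℕ) : ℝ) ≤ Real.log x ^ A then ‖b (p : ℕ)‖ ^ 2 / ((p : ℕ) : ℝ) else 0) := by
    split_ifs <;> positivity
  have t2 : 0 ≤ 1 / (2 * l1) *
      (if ((p : ℕ) : ℝ) ≤ Real.log x ^ A then ((p : ℕ) : ℝ)⁻¹ else 0) := by
    split_ifs <;> positivity
  have t3 : 0 ≤ l2 / 2 * (‖b (p : ℕ)‖ ^ 2 * ((p : ℕ) : ℝ) ^ (-(1 + α))) := by positivity
  have t4 : 0 ≤ 1 / (2 * l2) * (4 / Real.log x) *
      (Real.log ((p : ℕ) : ℝ) * ((p : ℕ) : ℝ) ^ (-(1 + α))) := by positivity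
  by_cases hPP : (p : ℕ) ∈ PP A x
  · have h0 : eubF b A x α (p : ℕ) = 0 := by
      unfold eubF gx
      rw [if_neg p.2.ne_zero, if_pos ⟨(p : ℕ), hPP, dvd_rfl⟩, zero_mul]
    rw [h0]
    linarith
  · have hF : eubF b A x α (p : ℕ) ≤ ‖b (p : ℕ)‖ * ((p : ℕ) : ℝ) ^ (-(1 + α)) := by
      unfold eubF
      rw [if_neg p.2.ne_zero]
      exact mul_le_mul_of_nonneg_right (eub_gx_le _ _ _ _) hpw
    by_cases hle : ((p : ℕ) : ℝ) ≤ Real.log x ^ A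
    · rw [if_pos hle, if_pos hle] at *
      have h3 : ((p : ℕ) : ℝ) ^ (-(1 + α)) ≤ ((p : ℕ) : ℝ)⁻¹ := by
        rw [← Real.rpow_neg_one]
        exact Real.rpow_le_rpow_of_exponent_le (by linarith) (by linarith)
      have h4 : ‖b (p : ℕ)‖ * ((p : ℕ) : ℝ) ^ (-(1 + α)) ≤ ‖b (p : ℕ)‖ * ((p : ℕ) : ℝ)⁻¹ :=
        mul_le_mul_of_nonneg_left h3 (norm_nonneg _)
      have h5 := mul_le_mul_of_nonneg_right (eub_amgm ‖b (p : ℕ)‖ l1 h1) (inv_nonneg.2 hp0.le)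
      have h6 : (l1 / 2 * ‖b (p : ℕ)‖ ^ 2 + 1 / (2 * l1)) * ((p : ℕ) : ℝ)⁻¹ =
          l1 / 2 * (‖b (p : ℕ)‖ ^ 2 / ((p : ℕ) : ℝ)) + 1 / (2 * l1) * ((p : ℕ) : ℝ)⁻¹ := by
        rw [div_eq_mul_inv (‖b (p : ℕ)‖ ^ 2)]
        ring
      linarith
    · have hgt : x ^ (1 / 4 : ℝ) < ((p : ℕ) : ℝ) := by
        by_contra hcon
        rw [not_lt] at hcon
        apply hPP
        unfold PP
        rw [Finset.mem_filter, Finset.mem_Icc]
        have hpx : ((p : ℕ) : ℝ) ≤ x := by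
          refine hcon.trans ?_
          calc x ^ (1 / 4 : ℝ) ≤ x ^ (1 : ℝ) :=
                Real.rpow_le_rpow_of_exponent_le hx (by norm_num)
            _ = x := Real.rpow_one x
        exact ⟨⟨p.2.one_le, Nat.le_floor hpx⟩, p.2, not_le.1 hle, hcon⟩
      have hlog : Real.log x / 4 ≤ Real.log ((p : ℕ) : ℝ) := by
        have h7 := Real.log_le_log (Real.rpow_pos_of_pos (by linarith) _) hgt.le
        rw [Real.log_rpow (by linarith)] at h7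
        linarith
      have h8 : 1 ≤ 4 / Real.log x * Real.log ((p : ℕ) : ℝ) := by
        rw [div_mul_eq_mul_div, le_div_iff₀ hL]
        linarith
      have h5 := mul_le_mul_of_nonneg_right (eub_amgm ‖b (p : ℕ)‖ l2 h2) hpw
      have h9 : 1 / (2 * l2) * ((p : ℕ) : ℝ) ^ (-(1 + α)) ≤ 1 / (2 * l2) * (4 / Real.log x) *
          (Real.log ((p : ℕ) : ℝ) * ((p : ℕ) : ℝ) ^ (-(1 + α))) := by
        have h10 : 0 ≤ 1 / (2 * l2) * ((p : ℕ) : ℝ) ^ (-(1 + α)) := by positivity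
        have h11 := mul_le_mul_of_nonneg_left h8 h10
        have h12 : 1 / (2 * l2) * ((p : ℕ) : ℝ) ^ (-(1 + α)) *
            (4 / Real.log x * Real.log ((p : ℕ) : ℝ)) = 1 / (2 * l2) * (4 / Real.log x) *
          (Real.log ((p : ℕ) : ℝ) * ((p : ℕ) : ℝ) ^ (-(1 + α))) := by ring
        linarith
      have h13 : (l2 / 2 * ‖b (p : ℕ)‖ ^ 2 + 1 / (2 * l2)) * ((p : ℕ) : ℝ) ^ (-(1 + α)) =
          l2 / 2 * (‖b (p : ℕ)‖ ^ 2 * ((p : ℕ) : ℝ) ^ (-(1 + α))) +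
            1 / (2 * l2) * ((p : ℕ) : ℝ) ^ (-(1 + α)) := by ring
      linarith

/-- the sum over the primes -/
private theorem eub_exp {b : ℕ → ℂ} (h : PD b) (A : ℕ) : ∃ K : ℝ, ∀ x : ℝ, 1 ≤ x →
    Real.exp 2 ≤ Real.log x →
    (∀ p : Nat.Primes, Summable (fun j : ℕ => eubF b A x (1 / Real.log x) ((p : ℕ) ^ (j + 1)))) ∧
    Summable (fun p : Nat.Primes => ∑' j : ℕ, eubF b A x (1 / Real.log x) ((p : ℕ) ^ (j + 1))) ∧
    ∑' p : Nat.Primes, ∑' j : ℕ, eubF b A x (1 / Real.log x) ((p : ℕ) ^ (j + 1)) ≤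
      5 / 32 * Real.log (Real.log x) + K := by
  obtain ⟨C1, hC1⟩ := h.ram (1 / 4) (by norm_num)
  obtain ⟨C0, hC0⟩ := h.sb
  obtain ⟨C2, hC20, hC2⟩ := sb_sum h
  obtain ⟨C4, hC40, hC4⟩ := eub_logp
  have hC10 : 0 ≤ C1 := by
    have h1 := hC1 1 le_rfl
    rw [Nat.cast_one, Real.one_rpow, mul_one] at h1
    exact (norm_nonneg _).trans h1
  obtain ⟨K1, hK1⟩ : ∃ K1 : ℝ, K1 = C1 * (1 - (2 : ℝ) ^ (-(3 / 4) : ℝ))⁻¹ := ⟨_, rfl⟩
  obtain ⟨D0, hD0⟩ : ∃ D0 : ℝ, D0 = |C0| := ⟨_, rfl⟩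
  have hD00 : 0 ≤ D0 := by rw [hD0]; exact abs_nonneg _
  obtain ⟨l1, hl1⟩ : ∃ l1 : ℝ, l1 = 8 * ((A : ℝ) + 1) := ⟨_, rfl⟩
  have hA0 : (0 : ℝ) ≤ (A : ℝ) := Nat.cast_nonneg _
  have hA1 : (0 : ℝ) < (A : ℝ) + 1 := by positivity
  have hl10 : 0 < l1 := by rw [hl1]; positivity
  obtain ⟨M, hM⟩ : ∃ M : ℝ, M = 16 * l1 * (D0 + 1) * ((A : ℝ) + 1) := ⟨_, rfl⟩
  have hM0 : 0 < M := by rw [hM]; positivity
  obtain ⟨l2, hl2⟩ : ∃ l2 : ℝ, l2 = 1 / (8 * (C2 + 1)) := ⟨_, rfl⟩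
  have hl20 : 0 < l2 := by rw [hl2]; positivity
  have hz : Summable (fun p : Nat.Primes => ((p : ℕ) : ℝ) ^ (-(3 / 2) : ℝ)) :=
    Nat.Primes.summable_rpow.2 (by norm_num)
  refine ⟨l1 / 2 * D0 * |Real.log M| + 3 / 32 + 1 / 16 + 1 / 16 + 16 * (C2 + 1) * (1 + C4) +
    K1 * ∑' p : Nat.Primes, ((p : ℕ) : ℝ) ^ (-(3 / 2) : ℝ), fun x hx1 hx => ?_⟩
  obtain ⟨L, hLdef⟩ : ∃ L : ℝ, L = Real.log x := ⟨_, rfl⟩
  rw [← hLdef] at hx ⊢
  have hL3 : 3 ≤ L := by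
    have := Real.add_one_le_exp (2 : ℝ)
    linarith
  have hL0 : 0 < L := by linarith
  obtain ⟨l, hl⟩ : ∃ l : ℝ, l = Real.log L := ⟨_, rfl⟩
  have hl2' : 2 ≤ l := by
    rw [hl]
    have := Real.log_le_log (Real.exp_pos 2) hx
    rwa [Real.log_exp] at this
  have hl0 : 0 ≤ l := by linarith
  have hα0 : 0 < 1 / L := by positivity
  have hα2 : 1 / L ≤ 1 / 2 := one_div_le_one_div_of_le (by norm_num) (by linarith)
  have hloc := fun p : Nat.Primes => eubF_loc (b := b) hC10 hC1 A x (1 / L) hα0 p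
  -- the components
  have s1 := eub_fin (fun p : ℕ => ‖b p‖ ^ 2 / (p : ℝ)) (L ^ A) (by positivity)
  have s2 := eub_fin (fun p : ℕ => ((p : ℕ) : ℝ)⁻¹) (L ^ A) (by positivity)
  have s3 := pd_prime_sq h (1 + 1 / L) (by linarith)
  obtain ⟨s4, b4⟩ := hC4 (1 / L) hα0 (by linarith)
  have b3 := hC2 (1 / L) hα0 hα2
  have hG := ((s1.mul_left (l1 / 2)).add (s2.mul_left (1 / (2 * l1)))).add
    ((s3.hasSum.mul_left (l2 / 2)).add (s4.hasSum.mul_left (1 / (2 * l2) * (4 / L))))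
  have hGz := hG.add (hz.hasSum.mul_left K1)
  have hpt : ∀ p : Nat.Primes, ∑' j : ℕ, eubF b A x (1 / L) ((p : ℕ) ^ (j + 1)) ≤
      ((l1 / 2 * (if ((p : ℕ) : ℝ) ≤ L ^ A then ‖b (p : ℕ)‖ ^ 2 / ((p : ℕ) : ℝ) else 0) +
        1 / (2 * l1) * (if ((p : ℕ) : ℝ) ≤ L ^ A then ((p : ℕ) : ℝ)⁻¹ else 0)) +
      (l2 / 2 * (‖b (p : ℕ)‖ ^ 2 * ((p : ℕ) : ℝ) ^ (-(1 + 1 / L))) +
        1 / (2 * l2) * (4 / L) *
          (Real.log ((p : ℕ) : ℝ) * ((p : ℕ) : ℝ) ^ (-(1 + 1 / L))))) +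
      K1 * ((p : ℕ) : ℝ) ^ (-(3 / 2) : ℝ) := by
    intro p
    have h1 := eubF_prime b A x hx1 (by rw [← hLdef]; exact hL0) l1 l2 hl10 hl20 p
    rw [← hLdef] at h1
    have h2 := (hloc p).2
    rw [← hK1] at h2
    exact h2.trans (add_le_add_left h1 _)
  have hsT : Summable (fun p : Nat.Primes =>
      ∑' j : ℕ, eubF b A x (1 / L) ((p : ℕ) ^ (j + 1))) :=
    Summable.of_nonneg_of_le (fun p => tsum_nonneg fun j => eubF_nonneg _ _ _ _ _) hpt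
      hGz.summable
  refine ⟨fun p => (hloc p).1, hsT, ?_⟩
  have hle := hsT.tsum_le_tsum hpt hGz.summable
  rw [hGz.tsum_eq] at hle
  refine hle.trans ?_
  -- the estimates
  have hLA1 : 1 ≤ L ^ A := one_le_pow₀ (by linarith)
  have e17 : Real.log 17 ≤ 3 := by
    rw [Real.log_le_iff_le_exp (by norm_num)]
    have h1 := Real.exp_one_gt_d9
    have h2 : Real.exp 3 = Real.exp 1 ^ 3 := by
      rw [← Real.exp_nat_mul]
      norm_num
    rw [h2]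
    have h3 : (2.7 : ℝ) ^ 3 ≤ Real.exp 1 ^ 3 := pow_le_pow_left₀ (by norm_num) (by linarith) 3
    norm_num at h3
    linarith
  have hlogLA : Real.log (L ^ A) = A * l := by rw [Real.log_pow, hl]
  have hlog16 : Real.log (L ^ A + 16) ≤ 3 + A * l := by
    have h1 : L ^ A + 16 ≤ 17 * L ^ A := by linarith
    have h2 := Real.log_le_log (by positivity) h1
    rw [Real.log_mul (by norm_num) (by positivity), hlogLA] at h2
    linarith
  have hlog161 : 1 ≤ Real.log (L ^ A + 16) := by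
    rw [Real.le_log_iff_exp_le (by positivity)]
    have h1 := Real.exp_one_lt_d9
    linarith
  have hll : Real.log (Real.log (L ^ A + 16)) ≤ |Real.log M| + (3 + A * l) / M := by
    have h1 : Real.log (Real.log (L ^ A + 16)) ≤ Real.log (3 + A * l) :=
      Real.log_le_log (by linarith) hlog16
    have h2 : 0 < 3 + A * l := by positivity
    have h3 : Real.log (3 + A * l) = Real.log M + Real.log ((3 + A * l) / M) := by
      rw [Real.log_div h2.ne' hM0.ne']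
      ring
    have h4 := Real.log_le_sub_one_of_pos (show 0 < (3 + A * l) / M by positivity)
    have h5 := le_abs_self (Real.log M)
    linarith
  have hll0 : 0 ≤ Real.log (Real.log (L ^ A + 16)) := Real.log_nonneg hlog161
  have hS : ∑ p ∈ (Finset.Icc 1 ⌊L ^ A⌋₊).filter Nat.Prime, ‖b p‖ ^ 2 / (p : ℝ) ≤
      D0 * (|Real.log M| + (3 + A * l) / M) := by
    have h1 : S b (L ^ A) ≤ S b (L ^ A + 16) := S_mono b _ _ (by linarith)
    have h2 := hC0 (L ^ A + 16) (by linarith)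
    have h3 : C0 * Real.log (Real.log (L ^ A + 16)) ≤ D0 * Real.log (Real.log (L ^ A + 16)) :=
      mul_le_mul_of_nonneg_right (by rw [hD0]; exact le_abs_self _) hll0
    have h4 := mul_le_mul_of_nonneg_left hll hD00
    have h5 : ∑ p ∈ (Finset.Icc 1 ⌊L ^ A⌋₊).filter Nat.Prime, ‖b p‖ ^ 2 / (p : ℝ) =
      S b (L ^ A) := rfl
    linarith
  have hA : (3 + A * l) ≤ ((A : ℝ) + 1) * (3 + l) := by nlinarith
  have hS2 : l1 / 2 * ∑ p ∈ (Finset.Icc 1 ⌊L ^ A⌋₊).filter Nat.Prime, ‖b p‖ ^ 2 / (p : ℝ) ≤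
      l1 / 2 * D0 * |Real.log M| + (3 + l) / 32 := by
    have h1 := mul_le_mul_of_nonneg_left hS (show 0 ≤ l1 / 2 by positivity)
    have h2 : l1 / 2 * (D0 * ((3 + A * l) / M)) ≤
        l1 / 2 * ((D0 + 1) * ((((A : ℝ) + 1) * (3 + l)) / M)) := by
      have h3 : (3 + A * l) / M ≤ (((A : ℝ) + 1) * (3 + l)) / M :=
        div_le_div_of_nonneg_right hA hM0.le
      have h4 : 0 ≤ (3 + A * l) / M := by positivity
      apply mul_le_mul_of_nonneg_left _ (by positivity)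
      exact mul_le_mul (by linarith) h3 h4 (by positivity)
    have h5 : l1 / 2 * ((D0 + 1) * ((((A : ℝ) + 1) * (3 + l)) / M)) = (3 + l) / 32 := by
      rw [hM]
      field_simp
      ring
    have h6 : l1 / 2 * (D0 * (|Real.log M| + (3 + A * l) / M)) =
        l1 / 2 * D0 * |Real.log M| + l1 / 2 * (D0 * ((3 + A * l) / M)) := by ring
    linarith
  have hH : ∑ p ∈ (Finset.Icc 1 ⌊L ^ A⌋₊).filter Nat.Prime, ((p : ℕ) : ℝ)⁻¹ ≤ 1 + A * l := by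
    have h1 : ∑ p ∈ (Finset.Icc 1 ⌊L ^ A⌋₊).filter Nat.Prime, ((p : ℕ) : ℝ)⁻¹ ≤
        ∑ p ∈ Finset.Icc 1 ⌊L ^ A⌋₊, ((p : ℕ) : ℝ)⁻¹ :=
      Finset.sum_le_sum_of_subset_of_nonneg (Finset.filter_subset _ _)
        (fun p _ _ => by positivity)
    have h2 := harmonic_floor_le_one_add_log (L ^ A) hLA1
    rw [hlogLA, harmonic_eq_sum_Icc] at h2
    push_cast at h2
    linarith
  have hH2 : 1 / (2 * l1) * ∑ p ∈ (Finset.Icc 1 ⌊L ^ A⌋₊).filter Nat.Prime, ((p : ℕ) : ℝ)⁻¹ ≤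
      (1 + l) / 16 := by
    have h1 := mul_le_mul_of_nonneg_left hH (show 0 ≤ 1 / (2 * l1) by positivity)
    have h2 : 1 / (2 * l1) * (1 + A * l) ≤ 1 / (2 * l1) * (((A : ℝ) + 1) * (1 + l)) :=
      mul_le_mul_of_nonneg_left (by nlinarith) (by positivity)
    have h3 : 1 / (2 * l1) * (((A : ℝ) + 1) * (1 + l)) = (1 + l) / 16 := by
      rw [hl1]
      field_simp
      ring
    linarith
  have hT3 : l2 / 2 * ∑' p : Nat.Primes, ‖b (p : ℕ)‖ ^ 2 * ((p : ℕ) : ℝ) ^ (-(1 + 1 / L)) ≤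
      (1 + l) / 16 := by
    have h1 := mul_le_mul_of_nonneg_left b3 (show 0 ≤ l2 / 2 by positivity)
    rw [one_div_one_div, ← hl] at h1
    have h2 : l2 / 2 * (C2 * l + C2) ≤ l2 / 2 * ((C2 + 1) * (1 + l)) :=
      mul_le_mul_of_nonneg_left (by nlinarith) (by positivity)
    have h3 : l2 / 2 * ((C2 + 1) * (1 + l)) = (1 + l) / 16 := by
      rw [hl2]
      field_simp
      ring
    linarith
  have hT4 : 1 / (2 * l2) * (4 / L) *
      ∑' p : Nat.Primes, Real.log ((p : ℕ) : ℝ) * ((p : ℕ) : ℝ) ^ (-(1 + 1 / L)) ≤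
      16 * (C2 + 1) * (1 + C4) := by
    have h1 := mul_le_mul_of_nonneg_left b4 (show 0 ≤ 1 / (2 * l2) * (4 / L) by positivity)
    rw [one_div_one_div] at h1
    have h2 : 1 / (2 * l2) * (4 / L) * (L + C4) = 16 * (C2 + 1) * (1 + C4 / L) := by
      rw [hl2]
      field_simp
      ring
    have h3 : C4 / L ≤ C4 := div_le_self hC40 (by linarith)
    have h4 : 16 * (C2 + 1) * (1 + C4 / L) ≤ 16 * (C2 + 1) * (1 + C4) :=
      mul_le_mul_of_nonneg_left (by linarith) (by positivity)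
    linarith
  rw [← hl]
  linarith

theorem eub {b : ℕ → ℂ} (h : PD b) (A : ℕ) : ∃ x0 : ℝ, ∀ x : ℝ, x0 ≤ x →
    Summable (fun m : ℕ => gx b A x m * (m : ℝ)⁻¹ * Real.exp (-((m : ℝ) / x))) ∧
    ∑' m : ℕ, gx b A x m * (m : ℝ)⁻¹ * Real.exp (-((m : ℝ) / x)) ≤
      (Real.log x) ^ (1 / 4 : ℝ) := by
  obtain ⟨K, hK⟩ := eub_exp h A
  obtain ⟨l0, hl0⟩ : ∃ l0 : ℝ, l0 = max 2 (32 / 3 * (K + 2)) := ⟨_, rfl⟩
  refine ⟨Real.exp (Real.exp l0), fun x hx => ?_⟩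
  have hl02 : 2 ≤ l0 := by rw [hl0]; exact le_max_left _ _
  have hl0K : 32 / 3 * (K + 2) ≤ l0 := by rw [hl0]; exact le_max_right _ _
  have hxpos : 0 < x := (Real.exp_pos _).trans_le hx
  have hL : Real.exp l0 ≤ Real.log x := by
    rw [Real.le_log_iff_exp_le hxpos]
    exact hx
  have hL2 : Real.exp 2 ≤ Real.log x := (Real.exp_le_exp.2 hl02).trans hL
  have hL0 : 0 < Real.log x := (Real.exp_pos _).trans_le hL2
  have hll : l0 ≤ Real.log (Real.log x) := by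
    rw [Real.le_log_iff_exp_le hL0]
    exact hL
  have hx16 : 16 ≤ x := by
    have h1 : Real.exp 3 ≤ x := by
      rw [← Real.le_log_iff_exp_le hxpos]
      have := Real.add_one_le_exp (2 : ℝ)
      linarith
    have h2 : Real.exp 3 = Real.exp 1 ^ 3 := by
      rw [← Real.exp_nat_mul]
      norm_num
    have h3 : (2.7 : ℝ) ^ 3 ≤ Real.exp 1 ^ 3 :=
      pow_le_pow_left₀ (by norm_num) (by have := Real.exp_one_gt_d9; linarith) 3
    rw [h2] at h1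
    norm_num at h3
    linarith
  obtain ⟨hj, hs, hE⟩ := hK x (by linarith) hL2
  obtain ⟨hsum, hexp⟩ := mult_le_exp (eubF b A x (1 / Real.log x))
    (by unfold eubF; rw [if_pos rfl])
    (by unfold eubF; rw [if_neg one_ne_zero, eub_gx_one h, Nat.cast_one, Real.one_rpow, mul_one])
    (fun m n hmn => eubF_mul h A x _ m n hmn) (fun n => eubF_nonneg _ _ _ _ _) hj hs
  have hterm : ∀ m : ℕ, gx b A x m * (m : ℝ)⁻¹ * Real.exp (-((m : ℝ) / x)) ≤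
      3 * eubF b A x (1 / Real.log x) m := by
    intro m
    by_cases hm : m = 0
    · rw [hm, Nat.cast_zero, inv_zero, mul_zero, zero_mul]
      exact mul_nonneg (by norm_num) (eubF_nonneg _ _ _ _ _)
    · have hm1 : 1 ≤ m := Nat.one_le_iff_ne_zero.2 hm
      have hm0 : (0 : ℝ) < (m : ℝ) := by exact_mod_cast hm1
      have h1 := exp_le_rpow x hx16 m hm1
      have h2 : 0 ≤ gx b A x m * (m : ℝ)⁻¹ :=
        mul_nonneg (eub_gx_nonneg _ _ _ _) (inv_nonneg.2 hm0.le)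
      have h3 := mul_le_mul_of_nonneg_left h1 h2
      unfold eubF
      rw [if_neg hm]
      have h4 : (m : ℝ) ^ (-(1 + 1 / Real.log x)) = (m : ℝ)⁻¹ * (m : ℝ) ^ (-(1 / Real.log x)) := by
        rw [← Real.rpow_neg_one, ← Real.rpow_add hm0]
        congr 1
        ring
      rw [h4]
      calc _ ≤ gx b A x m * (m : ℝ)⁻¹ * (3 * (m : ℝ) ^ (-(1 / Real.log x))) := h3
        _ = _ := by ring
  have hnn : ∀ m : ℕ, 0 ≤ gx b A x m * (m : ℝ)⁻¹ * Real.exp (-((m : ℝ) / x)) := fun m =>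
    mul_nonneg (mul_nonneg (eub_gx_nonneg _ _ _ _) (inv_nonneg.2 (Nat.cast_nonneg _)))
      (Real.exp_pos _).le
  have hsum2 := Summable.of_nonneg_of_le hnn hterm (hsum.mul_left 3)
  refine ⟨hsum2, (hsum2.tsum_le_tsum hterm (hsum.mul_left 3)).trans ?_⟩
  rw [tsum_mul_left]
  have h3 : (3 : ℝ) ≤ Real.exp 2 := by
    have := Real.add_one_le_exp (2 : ℝ)
    linarith
  calc 3 * ∑' m, eubF b A x (1 / Real.log x) m
      ≤ Real.exp 2 * Real.exp (∑' p : Nat.Primes, ∑' j : ℕ,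
          eubF b A x (1 / Real.log x) ((p : ℕ) ^ (j + 1))) :=
        mul_le_mul h3 hexp (tsum_nonneg fun m => eubF_nonneg _ _ _ _ _) (Real.exp_pos _).le
    _ = Real.exp (2 + ∑' p : Nat.Primes, ∑' j : ℕ,
          eubF b A x (1 / Real.log x) ((p : ℕ) ^ (j + 1))) := (Real.exp_add _ _).symm
    _ ≤ Real.exp (Real.log (Real.log x) * (1 / 4)) := by
        apply Real.exp_le_exp.2
        linarith
    _ = Real.log x ^ (1 / 4 : ℝ) := (Real.rpow_def_of_pos hL0 _).symm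

end Pool.Agent.H11.PC
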