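import Mathlib
import Pool.Agent.H11.PC.IDEF
import Pool.Agent.H11.PC.SUMM
import Pool.Agent.H11.Selberg.Line

/-!
# PSUM: the sum over the primes

`z = x/m`, `ww x (pm) = m³ p³ e^(-2πp/z)`.
`m ≤ x` (`z ≥ 1`): Cauchy-Schwarz: `∑_p ‖b p‖ log p p³ e^(-2πp/z) ≤ A1^(1/2) A2^(1/2)`,
`A1 = ∑ ‖b p‖² p⁻¹ e^(-p/z) ≤ ∑_{i≥0} e^(-i) S b ((i+1) z) ≤ C log log x` (`h.sb`, `(i+1) z ≤ (i+1) x`,
`log log((i+1) x) ≤ log log x + log(i+1) + 1`; `S b t ≤ C log log (max t 16)`), and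
`A2 = ∑ log² p p^7 e^(-(4π-1)p/z) ≤ C z^8 log x` (layers `(iz, (i+1)z]`, `∑_{p ≤ t} log p ≤ 2t`
(`Chebyshev.theta_le_log4_mul_x`, or `primorial_le_4_pow`), `log p ≤ log x + i`).  So the sum is `≤ C x⁴ m⁻¹ (log x log log x)^(1/2)`, and
`e^(-m/x) ≥ e^(-1)`.
`m > x` (`z < 1`): `h.ram (1/4)`: the sum is `≤ m³ ∑_{n≥2} C n^(9/2) e^(-2πn/z) ≤ C m³ e^(-12/z) ≤ C m³ z⁴ e^(-1/z) = C x⁴ m⁻¹ e^(-m/x)`.
-/

set_option autoImplicit false

namespace Pool.Agent.H11.PC

open Complex Filter Topology Pool.Agent.H11.Selberg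

theorem psum_layer (f : ℕ → ℝ) (hf : ∀ n, 0 ≤ f n) (z : ℝ) (hz : 0 < z) (G : ℕ → ℝ)
    (hG : ∀ i : ℕ, ∀ T : Finset ℕ, (∀ p ∈ T, p.Prime ∧ (p : ℝ) ≤ ((i : ℝ) + 1) * z) →
      ∑ p ∈ T, f p ≤ G i)
    (T : Finset ℕ) (hT : ∀ p ∈ T, p.Prime) :
    ∃ N : ℕ, ∑ p ∈ T, f p * Real.exp (-((p : ℝ) / z)) ≤
      ∑ i ∈ Finset.range N, Real.exp (-(i : ℝ)) * G i := by
  classical
  refine ⟨T.sup (fun p => ⌊(p : ℝ) / z⌋₊) + 1, ?_⟩
  set N := T.sup (fun p => ⌊(p : ℝ) / z⌋₊) + 1 with hN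
  have h1 : ∀ p ∈ T, f p * Real.exp (-((p : ℝ) / z)) ≤
      ∑ i ∈ Finset.range N, if (p : ℝ) ≤ ((i : ℝ) + 1) * z then Real.exp (-(i : ℝ)) * f p else 0 := by
    intro p hp
    have hi : ⌊(p : ℝ) / z⌋₊ ∈ Finset.range N := by
      rw [Finset.mem_range, hN]
      exact Nat.lt_succ_of_le (Finset.le_sup (f := fun p : ℕ => ⌊(p : ℝ) / z⌋₊) hp)
    have h2 : (if (p : ℝ) ≤ ((⌊(p : ℝ) / z⌋₊ : ℝ) + 1) * z then
        Real.exp (-(⌊(p : ℝ) / z⌋₊ : ℝ)) * f p else 0) ≤ ∑ i ∈ Finset.range N,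
          if (p : ℝ) ≤ ((i : ℝ) + 1) * z then Real.exp (-(i : ℝ)) * f p else 0 := by
      refine Finset.single_le_sum (f := fun i : ℕ => if (p : ℝ) ≤ ((i : ℝ) + 1) * z then
        Real.exp (-(i : ℝ)) * f p else 0) (fun i _ => ?_) hi
      split_ifs
      · exact mul_nonneg (Real.exp_pos _).le (hf p)
      · exact le_refl 0
    refine le_trans ?_ h2
    have h3 : (p : ℝ) / z < (⌊(p : ℝ) / z⌋₊ : ℝ) + 1 := Nat.lt_floor_add_one _
    rw [if_pos ((div_lt_iff₀ hz).mp h3).le, mul_comm]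
    refine mul_le_mul_of_nonneg_right (Real.exp_le_exp.mpr ?_) (hf p)
    have h4 : (⌊(p : ℝ) / z⌋₊ : ℝ) ≤ (p : ℝ) / z := Nat.floor_le (by positivity)
    linarith
  refine (Finset.sum_le_sum h1).trans ?_
  rw [Finset.sum_comm]
  refine Finset.sum_le_sum (fun i _ => ?_)
  rw [← Finset.sum_filter, ← Finset.mul_sum]
  refine mul_le_mul_of_nonneg_left (hG i _ ?_) (Real.exp_pos _).le
  intro p hp
  rw [Finset.mem_filter] at hp
  exact ⟨hT p hp.1, hp.2⟩

/-- the constant `∑ (i+1) e^(-i)` -/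
noncomputable def psK : ℝ := ∑' i : ℕ, Real.exp (-(i : ℝ)) * ((i : ℝ) + 1)

theorem psK_summable : Summable (fun i : ℕ => Real.exp (-(i : ℝ)) * ((i : ℝ) + 1)) := by
  have h0 := Real.summable_pow_mul_exp_neg_nat_mul 0 (r := 1) one_pos
  have h1 := Real.summable_pow_mul_exp_neg_nat_mul 1 (r := 1) one_pos
  refine (h1.add h0).congr (fun i => ?_)
  simp
  ring

theorem psK_nonneg : 0 ≤ psK := tsum_nonneg (fun i => by positivity)

theorem psK_le (N : ℕ) (c : ℝ) (hc : 0 ≤ c) :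
    ∑ i ∈ Finset.range N, Real.exp (-(i : ℝ)) * (c * ((i : ℝ) + 1)) ≤ psK * c := by
  have h1 : ∑ i ∈ Finset.range N, Real.exp (-(i : ℝ)) * ((i : ℝ) + 1) ≤ psK :=
    psK_summable.sum_le_tsum _ (fun i _ => by positivity)
  calc ∑ i ∈ Finset.range N, Real.exp (-(i : ℝ)) * (c * ((i : ℝ) + 1))
      = (∑ i ∈ Finset.range N, Real.exp (-(i : ℝ)) * ((i : ℝ) + 1)) * c := by
        rw [Finset.sum_mul]
        exact Finset.sum_congr rfl (fun i _ => by ring)
    _ ≤ _ := mul_le_mul_of_nonneg_right h1 hc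

theorem ps_theta (z : ℝ) (hz : 0 < z) (T : Finset ℕ) (hT : ∀ p ∈ T, p.Prime) :
    ∑ p ∈ T, Real.log p * Real.exp (-((p : ℝ) / z)) ≤ psK * (Real.log 4 * z) := by
  obtain ⟨N, hN⟩ := psum_layer (fun p => Real.log p) (fun n => Real.log_natCast_nonneg n) z hz
    (fun i => (Real.log 4 * z) * ((i : ℝ) + 1)) (by
      intro i T hT
      have h1 : ∑ p ∈ T, Real.log p ≤ Chebyshev.theta (((i : ℝ) + 1) * z) := by
        unfold Chebyshev.theta
        refine Finset.sum_le_sum_of_subset_of_nonneg ?_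
          (fun p _ _ => Real.log_natCast_nonneg p)
        intro p hp
        rw [Finset.mem_filter, Finset.mem_Ioc]
        exact ⟨⟨(hT p hp).1.pos, Nat.le_floor (hT p hp).2⟩, (hT p hp).1⟩
      refine h1.trans ((Chebyshev.theta_le_log4_mul_x (by positivity)).trans (le_of_eq ?_))
      ring) T hT
  exact hN.trans (psK_le N _ (by have := Real.log_nonneg (show (1:ℝ) ≤ 4 by norm_num); positivity))

theorem ps_log16 (x : ℝ) (hx : 16 ≤ x) : 1 < Real.log x ∧ 1 < Real.log (Real.log x) := by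
  have h16 : Real.exp 1 < Real.log 16 := by
    have h1 : Real.log 16 = 4 * Real.log 2 := by
      rw [show (16 : ℝ) = 2 ^ 4 by norm_num, Real.log_pow]
      norm_num
    have h2 := Real.log_two_gt_d9
    have h3 := Real.exp_one_lt_d9
    linarith
  have h4 : Real.log 16 ≤ Real.log x := Real.log_le_log (by norm_num) hx
  have h5 : Real.exp 1 < Real.log x := h16.trans_le h4
  have h6 : 1 < Real.exp 1 := by
    have := Real.add_one_lt_exp (show (1:ℝ) ≠ 0 by norm_num)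
    linarith
  refine ⟨h6.trans h5, ?_⟩
  rw [Real.lt_log_iff_exp_lt (by linarith)]
  exact h5

theorem ps_A1 {b : ℕ → ℂ} (C0 : ℝ) (hC0 : 0 ≤ C0)
    (hS : ∀ x : ℝ, 16 ≤ x → S b x ≤ C0 * Real.log (Real.log x)) (x z : ℝ) (hx : 16 ≤ x)
    (hz : 0 < z) (hzx : z ≤ x) (T : Finset ℕ) (hT : ∀ p ∈ T, p.Prime) :
    ∑ p ∈ T, ‖b p‖ ^ 2 / (p : ℝ) * Real.exp (-((p : ℝ) / z)) ≤
      psK * (C0 * Real.log (Real.log x)) := by
  obtain ⟨hL, hLL⟩ := ps_log16 x hx
  obtain ⟨N, hN⟩ := psum_layer (fun p => ‖b p‖ ^ 2 / (p : ℝ)) (fun n => by positivity) z hz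
    (fun i => (C0 * Real.log (Real.log x)) * ((i : ℝ) + 1)) (by
      intro i T hT
      have h1 : ∑ p ∈ T, ‖b p‖ ^ 2 / (p : ℝ) ≤ S b (((i : ℝ) + 1) * x) := by
        rw [S_eq]
        refine Finset.sum_le_sum_of_subset_of_nonneg ?_ (fun p _ _ => by positivity)
        intro p hp
        rw [mem_P]
        refine ⟨(hT p hp).1, (hT p hp).2.trans ?_⟩
        exact mul_le_mul_of_nonneg_left hzx (by positivity)
      have hx0 : 0 < x := by linarith
      have hi0 : (0 : ℝ) ≤ i := Nat.cast_nonneg i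
      have h2 : 16 ≤ ((i : ℝ) + 1) * x := by nlinarith
      have h3 : Real.log (((i : ℝ) + 1) * x) ≤ Real.log x * ((i : ℝ) + 1) := by
        rw [Real.log_mul (by positivity) (by positivity)]
        have : Real.log ((i : ℝ) + 1) ≤ i := by
          have := Real.log_le_sub_one_of_pos (show (0:ℝ) < (i : ℝ) + 1 by positivity)
          linarith
        nlinarith
      have h4 : Real.log (Real.log (((i : ℝ) + 1) * x)) ≤ Real.log (Real.log x) * ((i : ℝ) + 1) := by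
        have h5 : 0 < Real.log (((i : ℝ) + 1) * x) := Real.log_pos (by linarith)
        refine (Real.log_le_log h5 h3).trans ?_
        rw [Real.log_mul (by positivity) (by positivity)]
        have : Real.log ((i : ℝ) + 1) ≤ i := by
          have := Real.log_le_sub_one_of_pos (show (0:ℝ) < (i : ℝ) + 1 by positivity)
          linarith
        nlinarith
      refine h1.trans ((hS _ h2).trans ?_)
      calc C0 * Real.log (Real.log (((i : ℝ) + 1) * x))
          ≤ C0 * (Real.log (Real.log x) * ((i : ℝ) + 1)) := mul_le_mul_of_nonneg_left h4 hC0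
        _ = _ := by ring) T hT
  exact hN.trans (psK_le N _ (by positivity))

/-- the second factor, pointwise -/
theorem ps_point (x z : ℝ) (hx : 16 ≤ x) (hz : 0 < z) (hzx : z ≤ x) (p : ℕ) (hp : 1 ≤ p) :
    Real.log p ^ 2 * (p : ℝ) ^ 7 * Real.exp (-((4 * Real.pi - 1) * ((p : ℝ) / z))) ≤
      2 * z ^ 7 * Real.log x * (Real.log p * Real.exp (-((p : ℝ) / z))) := by
  obtain ⟨hL, hLL⟩ := ps_log16 x hx
  have hp0 : (0 : ℝ) < p := by exact_mod_cast hp
  set t : ℝ := (p : ℝ) / z with ht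
  have ht0 : 0 < t := by positivity
  have hpt : (p : ℝ) = z * t := by
    rw [ht]
    field_simp
  have hlp : 0 ≤ Real.log p := Real.log_natCast_nonneg p
  have h1 : Real.exp (-((4 * Real.pi - 1) * t)) ≤
      Real.exp (-t) ^ 7 * (Real.exp (-t) * Real.exp (-t)) := by
    rw [← Real.exp_nat_mul, ← Real.exp_add, ← Real.exp_add]
    refine Real.exp_le_exp.mpr ?_
    have := Real.pi_gt_three
    push_cast
    nlinarith
  have h2 : t * Real.exp (-t) ≤ 1 := by
    have : t ≤ Real.exp t := by linarith [Real.add_one_le_exp t]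
    calc t * Real.exp (-t) ≤ Real.exp t * Real.exp (-t) :=
          mul_le_mul_of_nonneg_right this (Real.exp_pos _).le
      _ = 1 := by rw [← Real.exp_add]; simp
  have h3 : (p : ℝ) ^ 7 * Real.exp (-t) ^ 7 ≤ z ^ 7 := by
    have e : (p : ℝ) ^ 7 * Real.exp (-t) ^ 7 = z ^ 7 * (t * Real.exp (-t)) ^ 7 := by
      rw [hpt]; ring
    rw [e]
    have : (t * Real.exp (-t)) ^ 7 ≤ 1 := pow_le_one₀ (by positivity) h2
    calc z ^ 7 * (t * Real.exp (-t)) ^ 7 ≤ z ^ 7 * 1 :=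
          mul_le_mul_of_nonneg_left this (by positivity)
      _ = _ := by ring
  have h4 : Real.log p * Real.exp (-t) ≤ 2 * Real.log x := by
    have h5 : Real.log p ≤ Real.log x + t := by
      rw [hpt, Real.log_mul hz.ne' ht0.ne']
      have := Real.log_le_sub_one_of_pos ht0
      have := Real.log_le_log hz hzx
      linarith
    have h6 : Real.exp (-t) ≤ 1 := Real.exp_le_one_iff.mpr (by linarith)
    calc Real.log p * Real.exp (-t) ≤ (Real.log x + t) * Real.exp (-t) :=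
          mul_le_mul_of_nonneg_right h5 (Real.exp_pos _).le
      _ = Real.log x * Real.exp (-t) + t * Real.exp (-t) := by ring
      _ ≤ Real.log x * 1 + 1 := add_le_add (mul_le_mul_of_nonneg_left h6 (by linarith)) h2
      _ ≤ _ := by linarith
  calc Real.log p ^ 2 * (p : ℝ) ^ 7 * Real.exp (-((4 * Real.pi - 1) * t))
      ≤ Real.log p ^ 2 * (p : ℝ) ^ 7 * (Real.exp (-t) ^ 7 * (Real.exp (-t) * Real.exp (-t))) :=
        mul_le_mul_of_nonneg_left h1 (by positivity)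
    _ = ((p : ℝ) ^ 7 * Real.exp (-t) ^ 7) * (Real.log p * Real.exp (-t)) *
          (Real.log p * Real.exp (-t)) := by ring
    _ ≤ z ^ 7 * (2 * Real.log x) * (Real.log p * Real.exp (-t)) := by
        refine mul_le_mul_of_nonneg_right (mul_le_mul h3 h4 (by positivity) (by positivity))
          (by positivity)
    _ = _ := by ring

/-- finite form, `m ≤ x` -/
theorem ps_small {b : ℕ → ℂ} (C0 : ℝ) (hC0 : 0 ≤ C0)
    (hS : ∀ x : ℝ, 16 ≤ x → S b x ≤ C0 * Real.log (Real.log x)) (x z : ℝ) (hx : 16 ≤ x)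
    (hz : 0 < z) (hzx : z ≤ x) (T : Finset ℕ) (hT : ∀ p ∈ T, p.Prime) :
    ∑ p ∈ T, ‖b p‖ * Real.log p * ((p : ℝ) ^ 3 * Real.exp (-(2 * Real.pi * ((p : ℝ) / z)))) ≤
      (psK * C0 / 2 + psK * Real.log 4) * z ^ 4 *
        Real.sqrt (Real.log x * Real.log (Real.log x)) := by
  obtain ⟨hL, hLL⟩ := ps_log16 x hx
  set L := Real.log x with hLdef
  set LL := Real.log L with hLLdef
  have hL0 : 0 < L := by linarith
  have hLL0 : 0 < LL := by linarith
  set R := Real.sqrt (L * LL) with hR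
  have hR0 : 0 < R := Real.sqrt_pos.mpr (by positivity)
  have hR2 : R * R = L * LL := Real.mul_self_sqrt (by positivity)
  set lam : ℝ := z ^ 4 * R / LL with hlam
  have hlam0 : 0 < lam := by positivity
  have hpt : ∀ p ∈ T,
      ‖b p‖ * Real.log p * ((p : ℝ) ^ 3 * Real.exp (-(2 * Real.pi * ((p : ℝ) / z)))) ≤
      (lam / 2) * (‖b p‖ ^ 2 / (p : ℝ) * Real.exp (-((p : ℝ) / z))) +
        (1 / (2 * lam)) * (2 * z ^ 7 * L * (Real.log p * Real.exp (-((p : ℝ) / z)))) := by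
    intro p hp
    have hp1 : 1 ≤ p := (hT p hp).one_le
    have hp0 : (0 : ℝ) < p := by exact_mod_cast hp1
    have h1 := ps_point x z hx hz hzx p hp1
    set t : ℝ := (p : ℝ) / z with ht
    set U : ℝ := ‖b p‖ ^ 2 / (p : ℝ) * Real.exp (-t) with hU
    set V : ℝ := Real.log p ^ 2 * (p : ℝ) ^ 7 * Real.exp (-((4 * Real.pi - 1) * t)) with hV
    set W : ℝ := ‖b p‖ * Real.log p * ((p : ℝ) ^ 3 * Real.exp (-(2 * Real.pi * t))) with hW
    have hU0 : 0 ≤ U := by positivity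
    have hV0 : 0 ≤ V := by positivity
    have hW0 : 0 ≤ W := by
      have := Real.log_natCast_nonneg p
      positivity
    have hWW : W ^ 2 = U * V := by
      have e1 : Real.exp (-(2 * Real.pi * t)) ^ 2 = Real.exp (-t) *
          Real.exp (-((4 * Real.pi - 1) * t)) := by
        rw [← Real.exp_nat_mul, ← Real.exp_add]
        congr 1
        push_cast
        ring
      calc W ^ 2 = ‖b p‖ ^ 2 * Real.log p ^ 2 * (p : ℝ) ^ 6 *
            Real.exp (-(2 * Real.pi * t)) ^ 2 := by rw [hW]; ring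
        _ = ‖b p‖ ^ 2 * Real.log p ^ 2 * (p : ℝ) ^ 6 * (Real.exp (-t) *
          Real.exp (-((4 * Real.pi - 1) * t))) := by rw [e1]
        _ = U * V := by
          rw [hU, hV]
          field_simp
    have h2 : W ≤ (lam / 2) * U + (1 / (2 * lam)) * V := by
      set Y := (lam / 2) * U + (1 / (2 * lam)) * V with hY
      have hY0 : 0 ≤ Y := by positivity
      have h3 : W ^ 2 ≤ Y ^ 2 := by
        rw [hWW, hY]
        have h4 : ((lam / 2) * U + (1 / (2 * lam)) * V) ^ 2 - U * V =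
            ((lam / 2) * U - (1 / (2 * lam)) * V) ^ 2 := by
          field_simp
          ring
        nlinarith [sq_nonneg ((lam / 2) * U - (1 / (2 * lam)) * V)]
      exact (abs_le_of_sq_le_sq' h3 hY0).2
    refine h2.trans (add_le_add (le_refl _) (mul_le_mul_of_nonneg_left h1 (by positivity)))
  refine (Finset.sum_le_sum hpt).trans ?_
  rw [Finset.sum_add_distrib, ← Finset.mul_sum, ← Finset.mul_sum, ← Finset.mul_sum]
  have hA1 := ps_A1 C0 hC0 hS x z hx hz hzx T hT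
  have hA2 := ps_theta z hz T hT
  have hl4 : 0 ≤ Real.log 4 := Real.log_nonneg (by norm_num)
  have hK := psK_nonneg
  calc (lam / 2) * ∑ p ∈ T, ‖b p‖ ^ 2 / (p : ℝ) * Real.exp (-((p : ℝ) / z)) +
        (1 / (2 * lam)) * (2 * z ^ 7 * L * ∑ p ∈ T, Real.log p * Real.exp (-((p : ℝ) / z)))
      ≤ (lam / 2) * (psK * (C0 * LL)) +
        (1 / (2 * lam)) * (2 * z ^ 7 * L * (psK * (Real.log 4 * z))) :=
        add_le_add (mul_le_mul_of_nonneg_left hA1 (by positivity))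
          (mul_le_mul_of_nonneg_left (mul_le_mul_of_nonneg_left hA2 (by positivity))
            (by positivity))
    _ = (psK * C0 / 2) * z ^ 4 * R + psK * Real.log 4 * z ^ 4 * (L * LL / R) := by
        rw [hlam]
        field_simp
    _ = _ := by
        rw [← hR2]
        field_simp

/-- finite form, `m ≥ x` -/
theorem ps_big {b : ℕ → ℂ} (C1 : ℝ) (hC1 : 0 ≤ C1)
    (hb : ∀ n : ℕ, 1 ≤ n → ‖b n‖ ≤ C1 * (n : ℝ)) (y : ℝ) (hy : 1 ≤ y)
    (T : Finset ℕ) (hT : ∀ p ∈ T, p.Prime) :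
    ∑ p ∈ T, ‖b p‖ * Real.log p * ((p : ℝ) ^ 3 * Real.exp (-(2 * Real.pi * ((p : ℝ) * y)))) * y ^ 4 ≤
      C1 * (∑' p : ℕ, (p : ℝ) ^ 5 * Real.exp (-1 * (p : ℝ))) * Real.exp (-y) := by
  have hs := Real.summable_pow_mul_exp_neg_nat_mul 5 (r := 1) one_pos
  have hpt : ∀ p ∈ T,
      ‖b p‖ * Real.log p * ((p : ℝ) ^ 3 * Real.exp (-(2 * Real.pi * ((p : ℝ) * y)))) * y ^ 4 ≤
      C1 * ((p : ℝ) ^ 5 * Real.exp (-1 * (p : ℝ))) * Real.exp (-y) := by
    intro p hp
    have hp1 : 1 ≤ p := (hT p hp).one_le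
    have hp0 : (1 : ℝ) ≤ p := by exact_mod_cast hp1
    have h1 : Real.log p ≤ p := (Real.log_le_sub_one_of_pos (by linarith)).trans (by linarith)
    have h2 : y ^ 4 ≤ Real.exp (4 * y) := by
      have h3 : y ≤ Real.exp y := by linarith [Real.add_one_le_exp y]
      calc y ^ 4 ≤ Real.exp y ^ 4 := pow_le_pow_left₀ (by linarith) h3 4
        _ = _ := by
          rw [← Real.exp_nat_mul]
          norm_num
    have h4 : Real.exp (-(2 * Real.pi * ((p : ℝ) * y))) * y ^ 4 ≤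
        Real.exp (-1 * (p : ℝ)) * Real.exp (-y) := by
      calc Real.exp (-(2 * Real.pi * ((p : ℝ) * y))) * y ^ 4
          ≤ Real.exp (-(2 * Real.pi * ((p : ℝ) * y))) * Real.exp (4 * y) :=
            mul_le_mul_of_nonneg_left h2 (Real.exp_pos _).le
        _ = Real.exp (-(2 * Real.pi * ((p : ℝ) * y)) + 4 * y) := by rw [← Real.exp_add]
        _ ≤ Real.exp (-1 * (p : ℝ) + -y) := by
            refine Real.exp_le_exp.mpr ?_
            have h5 := Real.pi_gt_three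
            have h6 : 6 * ((p : ℝ) * y) ≤ 2 * Real.pi * ((p : ℝ) * y) :=
              mul_le_mul_of_nonneg_right (by linarith) (by positivity)
            have h7 : (p : ℝ) ≤ (p : ℝ) * y := by nlinarith
            have h8 : y ≤ (p : ℝ) * y := by nlinarith
            linarith
        _ = _ := by rw [Real.exp_add]
    calc ‖b p‖ * Real.log p * ((p : ℝ) ^ 3 * Real.exp (-(2 * Real.pi * ((p : ℝ) * y)))) * y ^ 4
        = ‖b p‖ * Real.log p * (p : ℝ) ^ 3 *
          (Real.exp (-(2 * Real.pi * ((p : ℝ) * y))) * y ^ 4) := by ring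
      _ ≤ (C1 * (p : ℝ)) * (p : ℝ) * (p : ℝ) ^ 3 *
          (Real.exp (-1 * (p : ℝ)) * Real.exp (-y)) := by
          refine mul_le_mul (mul_le_mul_of_nonneg_right (mul_le_mul (hb p hp1) h1
            (Real.log_natCast_nonneg p) (by positivity)) (by positivity)) h4
            (by positivity) (by positivity)
      _ = _ := by ring
  refine (Finset.sum_le_sum hpt).trans ?_
  rw [← Finset.sum_mul, ← Finset.mul_sum]
  refine mul_le_mul_of_nonneg_right (mul_le_mul_of_nonneg_left ?_ hC1) (Real.exp_pos _).le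
  exact hs.sum_le_tsum _ (fun i _ => by positivity)

theorem psum {b : ℕ → ℂ} (h : PD b) : ∃ C : ℝ, 0 ≤ C ∧ ∀ x : ℝ, 16 ≤ x → ∀ m : ℕ, 1 ≤ m →
    Summable (fun p : Nat.Primes => ‖b (p : ℕ)‖ * Real.log (p : ℕ) * ww x ((p : ℕ) * m)) ∧
    ∑' p : Nat.Primes, ‖b (p : ℕ)‖ * Real.log (p : ℕ) * ww x ((p : ℕ) * m) ≤
      C * x ^ 4 * (m : ℝ)⁻¹ * Real.exp (-((m : ℝ) / x)) *
        Real.sqrt (Real.log x * Real.log (Real.log x)) := by
  classical
  obtain ⟨C0', hC0'⟩ := h.sb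
  obtain ⟨C1', hC1'⟩ := h.ram 1 one_pos
  set C0 := max C0' 0 with hC0def
  set C1 := max C1' 0 with hC1def
  have hC0 : 0 ≤ C0 := le_max_right _ _
  have hC1 : 0 ≤ C1 := le_max_right _ _
  have hS : ∀ x : ℝ, 16 ≤ x → S b x ≤ C0 * Real.log (Real.log x) := by
    intro x hx
    refine (hC0' x hx).trans (mul_le_mul_of_nonneg_right (le_max_left _ _) ?_)
    linarith [(ps_log16 x hx).2]
  have hb : ∀ n : ℕ, 1 ≤ n → ‖b n‖ ≤ C1 * (n : ℝ) := by
    intro n hn
    have := hC1' n hn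
    rw [Real.rpow_one] at this
    exact this.trans (mul_le_mul_of_nonneg_right (le_max_left _ _) (Nat.cast_nonneg n))
  have hK := psK_nonneg
  have hl4 : 0 ≤ Real.log 4 := Real.log_nonneg (by norm_num)
  set K5 : ℝ := ∑' p : ℕ, (p : ℝ) ^ 5 * Real.exp (-1 * (p : ℝ)) with hK5
  have hK50 : 0 ≤ K5 := tsum_nonneg (fun p => by positivity)
  set D : ℝ := psK * C0 / 2 + psK * Real.log 4 with hD
  have hD0 : 0 ≤ D := by positivity
  refine ⟨D * Real.exp 1 + C1 * K5, by positivity, ?_⟩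
  intro x hx m hm
  obtain ⟨hL, hLL⟩ := ps_log16 x hx
  have hx0 : 0 < x := by linarith
  have hm0 : (0 : ℝ) < m := by exact_mod_cast hm
  set R := Real.sqrt (Real.log x * Real.log (Real.log x)) with hR
  have hR1 : 1 ≤ R := by
    rw [hR]
    refine Real.one_le_sqrt.mpr ?_
    nlinarith
  set B : ℝ := (D * Real.exp 1 + C1 * K5) * x ^ 4 * (m : ℝ)⁻¹ * Real.exp (-((m : ℝ) / x)) * R
    with hB
  have hfin : ∀ T : Finset ℕ, (∀ p ∈ T, p.Prime) →
      ∑ p ∈ T, ‖b p‖ * Real.log p * ww x (p * m) ≤ B := by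
    intro T hT
    rcases le_total (m : ℝ) x with hmx | hmx
    · -- `z = x/m ≥ 1`
      have hz : 0 < x / m := by positivity
      have hzx : x / m ≤ x := div_le_self hx0.le (by exact_mod_cast hm)
      have h1 := ps_small C0 hC0 hS x (x / m) hx hz hzx T hT
      have e1 : ∑ p ∈ T, ‖b p‖ * Real.log p * ww x (p * m) = (m : ℝ) ^ 3 *
          ∑ p ∈ T, ‖b p‖ * Real.log p *
            ((p : ℝ) ^ 3 * Real.exp (-(2 * Real.pi * ((p : ℝ) / (x / m))))) := by
        rw [Finset.mul_sum]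
        refine Finset.sum_congr rfl (fun p _ => ?_)
        unfold ww
        have e2 : -(2 * Real.pi * ((p * m : ℕ) : ℝ) / x) =
            -(2 * Real.pi * ((p : ℝ) / (x / m))) := by
          push_cast
          field_simp
        rw [e2]
        push_cast
        ring
      rw [e1]
      have h2 : 1 ≤ Real.exp 1 * Real.exp (-((m : ℝ) / x)) := by
        rw [← Real.exp_add]
        refine Real.one_le_exp ?_
        have : (m : ℝ) / x ≤ 1 := (div_le_one hx0).mpr hmx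
        linarith
      calc (m : ℝ) ^ 3 * ∑ p ∈ T, ‖b p‖ * Real.log p *
            ((p : ℝ) ^ 3 * Real.exp (-(2 * Real.pi * ((p : ℝ) / (x / m)))))
          ≤ (m : ℝ) ^ 3 * (D * (x / m) ^ 4 * R) := mul_le_mul_of_nonneg_left h1 (by positivity)
        _ = D * x ^ 4 * (m : ℝ)⁻¹ * R * 1 := by field_simp
        _ ≤ D * x ^ 4 * (m : ℝ)⁻¹ * R * (Real.exp 1 * Real.exp (-((m : ℝ) / x))) :=
            mul_le_mul_of_nonneg_left h2 (by positivity)
        _ = (D * Real.exp 1) * (x ^ 4 * (m : ℝ)⁻¹ * Real.exp (-((m : ℝ) / x)) * R) := by ring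
        _ ≤ (D * Real.exp 1 + C1 * K5) * (x ^ 4 * (m : ℝ)⁻¹ * Real.exp (-((m : ℝ) / x)) * R) :=
            mul_le_mul_of_nonneg_right (by linarith [mul_nonneg hC1 hK50]) (by positivity)
        _ = B := by rw [hB]; ring
    · have hy : 1 ≤ (m : ℝ) / x := (one_le_div hx0).mpr hmx
      have h1 := ps_big C1 hC1 hb ((m : ℝ) / x) hy T hT
      have e1 : ∑ p ∈ T, ‖b p‖ * Real.log p * ww x (p * m) = (x ^ 4 * (m : ℝ)⁻¹) *
          ∑ p ∈ T, ‖b p‖ * Real.log p *
            ((p : ℝ) ^ 3 * Real.exp (-(2 * Real.pi * ((p : ℝ) * ((m : ℝ) / x))))) *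
              ((m : ℝ) / x) ^ 4 := by
        rw [Finset.mul_sum]
        refine Finset.sum_congr rfl (fun p _ => ?_)
        unfold ww
        have e2 : -(2 * Real.pi * ((p * m : ℕ) : ℝ) / x) =
            -(2 * Real.pi * ((p : ℝ) * ((m : ℝ) / x))) := by
          push_cast
          field_simp
        rw [e2]
        push_cast
        field_simp
      rw [e1]
      calc (x ^ 4 * (m : ℝ)⁻¹) * ∑ p ∈ T, ‖b p‖ * Real.log p *
            ((p : ℝ) ^ 3 * Real.exp (-(2 * Real.pi * ((p : ℝ) * ((m : ℝ) / x))))) *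
              ((m : ℝ) / x) ^ 4
          ≤ (x ^ 4 * (m : ℝ)⁻¹) * (C1 * K5 * Real.exp (-((m : ℝ) / x))) :=
            mul_le_mul_of_nonneg_left h1 (by positivity)
        _ = (C1 * K5) * (x ^ 4 * (m : ℝ)⁻¹ * Real.exp (-((m : ℝ) / x)) * 1) := by ring
        _ ≤ (C1 * K5) * (x ^ 4 * (m : ℝ)⁻¹ * Real.exp (-((m : ℝ) / x)) * R) :=
            mul_le_mul_of_nonneg_left (mul_le_mul_of_nonneg_left hR1 (by positivity))
              (by positivity)
        _ ≤ (D * Real.exp 1 + C1 * K5) * (x ^ 4 * (m : ℝ)⁻¹ * Real.exp (-((m : ℝ) / x)) * R) :=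
            mul_le_mul_of_nonneg_right (by linarith [mul_nonneg hD0 (Real.exp_pos 1).le])
              (by positivity)
        _ = B := by rw [hB]; ring
  have hnn : ∀ p : Nat.Primes, 0 ≤ ‖b (p : ℕ)‖ * Real.log (p : ℕ) * ww x ((p : ℕ) * m) := by
    intro p
    have := Real.log_natCast_nonneg (p : ℕ)
    unfold ww
    positivity
  have hfin' : ∀ T : Finset Nat.Primes,
      ∑ p ∈ T, ‖b (p : ℕ)‖ * Real.log (p : ℕ) * ww x ((p : ℕ) * m) ≤ B := by
    intro T
    have h1 := hfin (T.map ⟨fun p : Nat.Primes => (p : ℕ), Subtype.val_injective⟩) (by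
      intro p hp
      rw [Finset.mem_map] at hp
      obtain ⟨q, _, rfl⟩ := hp
      exact q.2)
    rw [Finset.sum_map] at h1
    exact h1
  exact ⟨summable_of_sum_le hnn hfin', Real.tsum_le_of_sum_le hnn hfin'⟩

end Pool.Agent.H11.PC
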