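import Mathlib
import Pool.Agent.H11.PC.PSUM
import Pool.Agent.H11.PC.HPW
import Pool.Agent.H11.PC.EUB

/-!
# ROUGH: the integers without prime factor in `PP A x` are negligible

`L = log x`, `g = gx b A x`.  `n ≤ √x`: `∑ ≤ √x · C (√x)^(13/4)`, small against `x⁴`.  `n > √x`: `log n ≥ L/2`, so the rest is
`≤ (2/L) ∑_n g(n) (log n) ww x n`.  `log n = ∑_{p | n} v_p(n) log p`; write `n = p^j m`, `p ∤ m`, `j = v_p(n) ≥ 1`:
`g(p^j m) ≤ ‖b(p^j)‖ g(m)`.  So `∑_n g(n) log n ww x n ≤ ∑_m g(m) (∑_p log p ‖b p‖ ww x (p m) + ∑_p ∑_{j≥2} j log p ‖b(p^j)‖ ww x (p^j m))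
≤ C x⁴ (L log L)^(1/2) ∑_m g(m) m⁻¹ e^(-m/x) ≤ C x⁴ (L log L)^(1/2) L^(1/4)` (`psum`, `hpw`, `eub`), and
`(2/L) (L log L)^(1/2) L^(1/4) → 0`.
-/

set_option autoImplicit false

namespace Pool.Agent.H11.PC

open Complex Filter Topology

theorem gx_nonneg' (b : ℕ → ℂ) (A : ℕ) (x : ℝ) (m : ℕ) : 0 ≤ gx b A x m := by
  unfold gx
  split_ifs
  · exact le_rfl
  · exact norm_nonneg _

theorem ww_nonneg' (x : ℝ) (n : ℕ) : 0 ≤ ww x n := by
  unfold ww
  positivity

theorem ww_zero' (x : ℝ) : ww x 0 = 0 := by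
  unfold ww
  simp

theorem gx_mul_le' {b : ℕ → ℂ} (h : PD b) (A : ℕ) (x : ℝ) {p : ℕ} (hp : p.Prime) (j m : ℕ)
    (hm : ¬ p ∣ m) : gx b A x (p ^ j * m) ≤ ‖b (p ^ j)‖ * gx b A x m := by
  by_cases h1 : ∃ q ∈ PP A x, q ∣ p ^ j * m
  · have h0 : gx b A x (p ^ j * m) = 0 := by unfold gx; rw [if_pos h1]
    rw [h0]
    exact mul_nonneg (norm_nonneg _) (gx_nonneg' b A x m)
  · have h2 : ¬ ∃ q ∈ PP A x, q ∣ m := fun ⟨q, hq, hqm⟩ => h1 ⟨q, hq, Dvd.dvd.mul_left hqm _⟩
    unfold gx
    rw [if_neg h1, if_neg h2,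
      h.mul _ _ (Nat.Coprime.pow_left j ((Nat.Prime.coprime_iff_not_dvd hp).2 hm)), norm_mul]

/-- the terms -/
noncomputable def GG (b : ℕ → ℂ) (x : ℝ) (p j m : ℕ) : ENNReal :=
  ENNReal.ofReal (((j : ℝ) + 1) * Real.log p * ‖b (p ^ (j + 1))‖ * ww x (p ^ (j + 1) * m))

theorem fiber_le {b : ℕ → ℂ} (h : PD b) (A : ℕ) (x : ℝ) {p : ℕ} (hp : p.Prime) :
    ∑' n : ℕ, (if p ∈ n.primeFactors then
      ENNReal.ofReal (gx b A x n * ww x n * (n.factorization p * Real.log p)) else 0) ≤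
    ∑' m : ℕ, ENNReal.ofReal (gx b A x m) * ∑' j : ℕ, GG b x p j m := by
  classical
  set S : Set ℕ := {n : ℕ | p ∈ n.primeFactors} with hS
  set F : ℕ → ENNReal := fun n =>
    ENNReal.ofReal (gx b A x n * ww x n * (n.factorization p * Real.log p)) with hF
  have e1 : ∑' n : ℕ, (if p ∈ n.primeFactors then F n else 0) = ∑' n : S, F n := by
    rw [tsum_subtype S F]
    refine tsum_congr fun n => ?_
    by_cases hn : p ∈ n.primeFactors
    · rw [if_pos hn, Set.indicator_of_mem (show n ∈ S from hn)]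
    · rw [if_neg hn, Set.indicator_of_notMem (show n ∉ S from hn)]
  change ∑' n : ℕ, (if p ∈ n.primeFactors then F n else 0) ≤ _
  rw [e1]
  set Φ : S → ℕ × ℕ := fun n =>
    ((n : ℕ).factorization p - 1, (n : ℕ) / p ^ ((n : ℕ).factorization p)) with hΦ
  have hpos : ∀ n : S, 1 ≤ (n : ℕ).factorization p := by
    rintro ⟨n, hn⟩
    have hn' : p ∈ n.primeFactors := hn
    rw [Nat.mem_primeFactors] at hn'
    exact (Nat.Prime.dvd_iff_one_le_factorization hp hn'.2.2).1 hn'.2.1
  have hdec : ∀ n : S, p ^ ((Φ n).1 + 1) * (Φ n).2 = (n : ℕ) := by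
    intro n
    have h1 := hpos n
    have h2 : (Φ n).1 + 1 = (n : ℕ).factorization p := by
      simp only [hΦ]; omega
    rw [h2]
    exact Nat.ordProj_mul_ordCompl_eq_self _ _
  have inj : Function.Injective Φ := by
    intro a c hac
    apply Subtype.ext
    rw [← hdec a, ← hdec c, hac]
  set G : ℕ × ℕ → ENNReal := fun q => ENNReal.ofReal (gx b A x q.2) * GG b x p q.1 q.2 with hG
  have hle : ∀ n : S, F n ≤ G (Φ n) := by
    intro n
    have h1 := hpos n
    have h2 : (Φ n).1 + 1 = (n : ℕ).factorization p := by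
      simp only [hΦ]; omega
    have hn0 : (n : ℕ) ≠ 0 := by
      have hn2 : p ∈ (n : ℕ).primeFactors := n.2
      rw [Nat.mem_primeFactors] at hn2
      exact hn2.2.2
    have hnd : ¬ p ∣ (Φ n).2 := Nat.not_dvd_ordCompl hp hn0
    have h3 := gx_mul_le' h A x hp ((Φ n).1 + 1) (Φ n).2 hnd
    rw [hdec n] at h3
    have h4 : (((Φ n).1 : ℝ) + 1) = ((n : ℕ).factorization p : ℝ) := by
      rw [← h2]; push_cast; ring
    simp only [hF, hG, GG]
    rw [← ENNReal.ofReal_mul (gx_nonneg' b A x _)]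
    apply ENNReal.ofReal_le_ofReal
    rw [hdec n, h4]
    have h5 : 0 ≤ Real.log (p : ℝ) := Real.log_nonneg (by exact_mod_cast hp.one_lt.le)
    have h6 := ww_nonneg' x (n : ℕ)
    calc gx b A x (n : ℕ) * ww x (n : ℕ) * (((n : ℕ).factorization p : ℝ) * Real.log p)
        ≤ (‖b (p ^ ((Φ n).1 + 1))‖ * gx b A x (Φ n).2) * ww x (n : ℕ) *
          (((n : ℕ).factorization p : ℝ) * Real.log p) := by gcongr
      _ = _ := by ring
  calc ∑' n : S, F n ≤ ∑' n : S, G (Φ n) := ENNReal.tsum_le_tsum hle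
    _ ≤ ∑' q : ℕ × ℕ, G q := ENNReal.tsum_comp_le_tsum_of_injective inj G
    _ = ∑' j : ℕ, ∑' m : ℕ, G (j, m) := ENNReal.tsum_prod (f := fun j m => G (j, m))
    _ = ∑' m : ℕ, ∑' j : ℕ, G (j, m) := ENNReal.tsum_comm
    _ = _ := by
      refine tsum_congr fun m => ?_
      simp only [hG]
      rw [ENNReal.tsum_mul_left]

theorem log_sum_le {b : ℕ → ℂ} (h : PD b) (A : ℕ) (x : ℝ) :
    ∑' n : ℕ, ENNReal.ofReal (gx b A x n * ww x n * Real.log n) ≤
    ∑' m : ℕ, ENNReal.ofReal (gx b A x m) *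
      ∑' p : Nat.Primes, ∑' j : ℕ, GG b x (p : ℕ) j m := by
  classical
  have hA : ∀ n : ℕ, ENNReal.ofReal (gx b A x n * ww x n * Real.log n) =
      ∑' p : ℕ, (if p ∈ n.primeFactors then
        ENNReal.ofReal (gx b A x n * ww x n * (n.factorization p * Real.log p)) else 0) := by
    intro n
    rw [Real.log_nat_eq_sum_factorization n, Finsupp.sum, Nat.support_factorization, Finset.mul_sum,
      ENNReal.ofReal_sum_of_nonneg]
    · rw [tsum_eq_sum (s := n.primeFactors) (fun p hp => if_neg hp)]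
      exact Finset.sum_congr rfl fun p hp => (if_pos hp).symm
    · intro p hp
      have h5 : 0 ≤ Real.log (p : ℝ) := Real.log_nonneg (by
        exact_mod_cast (Nat.prime_of_mem_primeFactors hp).one_lt.le)
      have := gx_nonneg' b A x n
      have := ww_nonneg' x n
      positivity
  calc ∑' n : ℕ, ENNReal.ofReal (gx b A x n * ww x n * Real.log n)
      = ∑' n : ℕ, ∑' p : ℕ, (if p ∈ n.primeFactors then
        ENNReal.ofReal (gx b A x n * ww x n * (n.factorization p * Real.log p)) else 0) :=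
        tsum_congr hA
    _ = ∑' p : ℕ, ∑' n : ℕ, (if p ∈ n.primeFactors then
        ENNReal.ofReal (gx b A x n * ww x n * (n.factorization p * Real.log p)) else 0) :=
        ENNReal.tsum_comm
    _ = ∑' p : ℕ, Set.indicator {p : ℕ | p.Prime} (fun p => ∑' n : ℕ, (if p ∈ n.primeFactors then
        ENNReal.ofReal (gx b A x n * ww x n * (n.factorization p * Real.log p)) else 0)) p := by
        refine tsum_congr fun p => ?_
        by_cases hp : p.Prime
        · rw [Set.indicator_of_mem (show p ∈ {p : ℕ | p.Prime} from hp)]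
        · rw [Set.indicator_of_notMem (show p ∉ {p : ℕ | p.Prime} from hp)]
          refine ENNReal.tsum_eq_zero.2 fun n => if_neg fun hn => hp (Nat.prime_of_mem_primeFactors hn)
    _ = ∑' p : Nat.Primes, ∑' n : ℕ, (if (p : ℕ) ∈ n.primeFactors then
        ENNReal.ofReal (gx b A x n * ww x n * (n.factorization p * Real.log (p : ℕ))) else 0) :=
        (tsum_subtype {p : ℕ | p.Prime} _).symm
    _ ≤ ∑' p : Nat.Primes, ∑' m : ℕ, ENNReal.ofReal (gx b A x m) * ∑' j : ℕ, GG b x p j m :=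
        ENNReal.tsum_le_tsum fun p => fiber_le h A x p.2
    _ = ∑' m : ℕ, ∑' p : Nat.Primes, ENNReal.ofReal (gx b A x m) * ∑' j : ℕ, GG b x p j m :=
        ENNReal.tsum_comm
    _ = _ := by
        refine tsum_congr fun m => ?_
        rw [ENNReal.tsum_mul_left]

theorem inner_le {b : ℕ → ℂ} (h : PD b) : ∃ C : ℝ, 0 ≤ C ∧ ∀ x : ℝ, 16 ≤ x → ∀ m : ℕ,
    ∑' p : Nat.Primes, ∑' j : ℕ, GG b x (p : ℕ) j m ≤
      ENNReal.ofReal (C * x ^ 4 * (Real.sqrt (Real.log x * Real.log (Real.log x)) + 1) *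
        ((m : ℝ)⁻¹ * Real.exp (-((m : ℝ) / x)))) := by
  obtain ⟨C1, hC1, h1⟩ := psum h
  obtain ⟨C2, hC2, h2⟩ := hpw h
  refine ⟨C1 + C2, add_nonneg hC1 hC2, fun x hx m => ?_⟩
  rcases Nat.eq_zero_or_pos m with rfl | hm
  · have : ∀ p : Nat.Primes, ∀ j : ℕ, GG b x (p : ℕ) j 0 = 0 := by
      intro p j
      unfold GG
      rw [mul_zero, ww_zero', mul_zero, ENNReal.ofReal_zero]
    simp [this]
  have hsplit : ∀ p : Nat.Primes, ∑' j : ℕ, GG b x (p : ℕ) j m =
      ENNReal.ofReal (‖b (p : ℕ)‖ * Real.log (p : ℕ) * ww x ((p : ℕ) * m)) +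
      ∑' j : ℕ, ENNReal.ofReal (((j : ℝ) + 2) * Real.log (p : ℕ) *
        ‖b ((p : ℕ) ^ (j + 2))‖ * ww x ((p : ℕ) ^ (j + 2) * m)) := by
    intro p
    rw [tsum_eq_zero_add' ENNReal.summable]
    congr 1
    · unfold GG
      congr 1
      rw [zero_add, pow_one]
      push_cast
      ring
    · refine tsum_congr fun j => ?_
      unfold GG
      congr 1
      push_cast
      ring_nf
  have hp1 : ∀ p : Nat.Primes, 0 ≤ Real.log (p : ℕ) := fun p =>
    Real.log_nonneg (by exact_mod_cast p.2.one_lt.le)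
  calc ∑' p : Nat.Primes, ∑' j : ℕ, GG b x (p : ℕ) j m
      = ∑' p : Nat.Primes, (ENNReal.ofReal (‖b (p : ℕ)‖ * Real.log (p : ℕ) * ww x ((p : ℕ) * m)) +
      ∑' j : ℕ, ENNReal.ofReal (((j : ℝ) + 2) * Real.log (p : ℕ) *
        ‖b ((p : ℕ) ^ (j + 2))‖ * ww x ((p : ℕ) ^ (j + 2) * m))) := tsum_congr hsplit
    _ = ∑' p : Nat.Primes, ENNReal.ofReal (‖b (p : ℕ)‖ * Real.log (p : ℕ) * ww x ((p : ℕ) * m)) +
      ∑' p : Nat.Primes, ∑' j : ℕ, ENNReal.ofReal (((j : ℝ) + 2) * Real.log (p : ℕ) *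
        ‖b ((p : ℕ) ^ (j + 2))‖ * ww x ((p : ℕ) ^ (j + 2) * m)) := ENNReal.tsum_add
    _ = ENNReal.ofReal (∑' p : Nat.Primes, ‖b (p : ℕ)‖ * Real.log (p : ℕ) * ww x ((p : ℕ) * m)) +
      ENNReal.ofReal (∑' q : Nat.Primes × ℕ, ((q.2 : ℝ) + 2) * Real.log (q.1 : ℕ) *
        ‖b ((q.1 : ℕ) ^ (q.2 + 2))‖ * ww x ((q.1 : ℕ) ^ (q.2 + 2) * m)) := by
        rw [ENNReal.ofReal_tsum_of_nonneg _ (h1 x hx m hm).1, ENNReal.ofReal_tsum_of_nonneg _ (h2 x hx m hm).1,
          ENNReal.tsum_prod (f := fun (p : Nat.Primes) (j : ℕ) => ENNReal.ofReal (((j : ℝ) + 2) * Real.log (p : ℕ) *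
        ‖b ((p : ℕ) ^ (j + 2))‖ * ww x ((p : ℕ) ^ (j + 2) * m)))]
        · intro q
          have := hp1 q.1
          have := ww_nonneg' x ((q.1 : ℕ) ^ (q.2 + 2) * m)
          positivity
        · intro p
          have := hp1 p
          have := ww_nonneg' x ((p : ℕ) * m)
          positivity
    _ ≤ ENNReal.ofReal (C1 * x ^ 4 * (m : ℝ)⁻¹ * Real.exp (-((m : ℝ) / x)) *
        Real.sqrt (Real.log x * Real.log (Real.log x))) +
        ENNReal.ofReal (C2 * x ^ 4 * (m : ℝ)⁻¹ * Real.exp (-((m : ℝ) / x))) :=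
        add_le_add (ENNReal.ofReal_le_ofReal (h1 x hx m hm).2) (ENNReal.ofReal_le_ofReal (h2 x hx m hm).2)
    _ = ENNReal.ofReal (C1 * x ^ 4 * (m : ℝ)⁻¹ * Real.exp (-((m : ℝ) / x)) *
        Real.sqrt (Real.log x * Real.log (Real.log x)) +
        C2 * x ^ 4 * (m : ℝ)⁻¹ * Real.exp (-((m : ℝ) / x))) := by
        rw [ENNReal.ofReal_add (by positivity) (by positivity)]
    _ ≤ _ := by
        apply ENNReal.ofReal_le_ofReal
        have h3 : 0 ≤ x ^ 4 * ((m : ℝ)⁻¹ * Real.exp (-((m : ℝ) / x))) := by positivity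
        have h4 : 0 ≤ Real.sqrt (Real.log x * Real.log (Real.log x)) := Real.sqrt_nonneg _
        have h5 := mul_nonneg h3 hC1
        have h6 := mul_nonneg (mul_nonneg h3 hC2) h4
        nlinarith [h5, h6]

theorem rough {b : ℕ → ℂ} (h : PD b) (A : ℕ) (ε : ℝ) (hε : 0 < ε) : ∃ x0 : ℝ, ∀ x : ℝ, x0 ≤ x →
    Summable (fun n : ℕ => gx b A x n * ww x n) ∧
    ∑' n : ℕ, gx b A x n * ww x n ≤ ε * x ^ 4 := by
  obtain ⟨C, hC, hin⟩ := inner_le h
  obtain ⟨D, hD, hw⟩ := ww_le
  obtain ⟨x1, hx1⟩ := eub h A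
  obtain ⟨R0, hR0⟩ := h.ram 1 one_pos
  set R : ℝ := max R0 0 with hR
  have hR1 : ∀ n : ℕ, 1 ≤ n → ‖b n‖ ≤ R * n := by
    intro n hn
    have h1 := hR0 n hn
    rw [Real.rpow_one] at h1
    exact h1.trans (mul_le_mul_of_nonneg_right (le_max_left _ _) (Nat.cast_nonneg n))
  have hRn : 0 ≤ R := le_max_right _ _
  refine ⟨max (max x1 16) (max (4 * R / ε) (Real.exp ((12 * C / ε) ^ 8 + 1))), fun x hx => ?_⟩
  have hxa : x1 ≤ x := (le_max_left _ _).trans ((le_max_left _ _).trans hx)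
  have hxb : (16 : ℝ) ≤ x := (le_max_right _ _).trans ((le_max_left _ _).trans hx)
  have hxc : 4 * R / ε ≤ x := (le_max_left _ _).trans ((le_max_right _ _).trans hx)
  have hxd : Real.exp ((12 * C / ε) ^ 8 + 1) ≤ x := (le_max_right _ _).trans ((le_max_right _ _).trans hx)
  have hx0 : 0 < x := by linarith
  obtain ⟨hs, hsum⟩ := hx1 x hxa
  set L : ℝ := Real.log x with hL
  have hLbig : (12 * C / ε) ^ 8 + 1 ≤ L := by
    rw [hL, Real.le_log_iff_exp_le hx0]; exact hxd
  have hL1 : 1 ≤ L := by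
    have : 0 ≤ (12 * C / ε) ^ 8 := by positivity
    linarith
  have hgn := gx_nonneg' b A x
  have hwn := ww_nonneg' x
  have hsummable : Summable (fun n : ℕ => gx b A x n * ww x n) := by
    refine Summable.of_nonneg_of_le (fun n => mul_nonneg (hgn n) (hwn n)) (fun n => ?_)
      (hs.mul_left (D * x ^ 4))
    rcases Nat.eq_zero_or_pos n with rfl | hn
    · rw [ww_zero', mul_zero]
      have := hgn 0
      positivity
    · have h1 := hw x (by linarith) n hn
      calc gx b A x n * ww x n ≤ gx b A x n * (D * x ^ 4 * (n : ℝ)⁻¹ * Real.exp (-((n : ℝ) / x))) :=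
            mul_le_mul_of_nonneg_left h1 (hgn n)
        _ = _ := by ring
  refine ⟨hsummable, ?_⟩
  -- the split
  set s : ℕ := ⌊Real.sqrt x⌋₊ with hsdef
  have hsle : (s : ℝ) ≤ Real.sqrt x := Nat.floor_le (Real.sqrt_nonneg x)
  have hpt : ∀ n : ℕ, gx b A x n * ww x n ≤
      (if n ∈ Finset.range (s + 1) then R * x ^ 2 else 0) +
      2 / L * (gx b A x n * ww x n * Real.log n) := by
    intro n
    have hln : 0 ≤ Real.log (n : ℝ) := Real.log_natCast_nonneg n
    by_cases hn : n ∈ Finset.range (s + 1)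
    · rw [if_pos hn]
      have h2 : 0 ≤ 2 / L * (gx b A x n * ww x n * Real.log n) := by
        have := hgn n; have := hwn n; positivity
      have hns : (n : ℝ) ≤ Real.sqrt x := by
        rw [Finset.mem_range] at hn
        exact le_trans (by exact_mod_cast Nat.lt_succ_iff.1 hn) hsle
      have h3 : gx b A x n * ww x n ≤ R * x ^ 2 := by
        rcases Nat.eq_zero_or_pos n with rfl | hn1
        · rw [ww_zero', mul_zero]; positivity
        · have hg : gx b A x n ≤ R * n := by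
            unfold gx
            split_ifs
            · positivity
            · exact hR1 n hn1
          have hwl : ww x n ≤ (n : ℝ) ^ 3 := by
            unfold ww
            have : Real.exp (-(2 * Real.pi * n / x)) ≤ 1 := by
              rw [Real.exp_le_one_iff]
              have : 0 ≤ 2 * Real.pi * n / x := by positivity
              linarith
            calc (n : ℝ) ^ 3 * Real.exp (-(2 * Real.pi * n / x)) ≤ (n : ℝ) ^ 3 * 1 := by gcongr
              _ = _ := mul_one _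
          calc gx b A x n * ww x n ≤ (R * n) * (n : ℝ) ^ 3 :=
                mul_le_mul hg hwl (hwn n) (by positivity)
            _ = R * ((n : ℝ) ^ 2) ^ 2 := by ring
            _ ≤ R * ((Real.sqrt x) ^ 2) ^ 2 := by gcongr
            _ = R * x ^ 2 := by rw [Real.sq_sqrt hx0.le]
      linarith
    · rw [if_neg hn, zero_add]
      have hns : Real.sqrt x < n := by
        rw [Finset.mem_range, not_lt] at hn
        exact (Nat.floor_lt (Real.sqrt_nonneg x)).1 (by omega)
      have hlog : L / 2 ≤ Real.log n := by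
        have h4 : Real.log (Real.sqrt x) ≤ Real.log n :=
          Real.log_le_log (Real.sqrt_pos.2 hx0) hns.le
        rwa [Real.log_sqrt hx0.le] at h4
      have h5 : 1 ≤ 2 / L * Real.log n := by
        rw [div_mul_eq_mul_div, le_div_iff₀ (by linarith)]
        linarith
      have h6 : 0 ≤ gx b A x n * ww x n := mul_nonneg (hgn n) (hwn n)
      calc gx b A x n * ww x n = gx b A x n * ww x n * 1 := (mul_one _).symm
        _ ≤ gx b A x n * ww x n * (2 / L * Real.log n) := mul_le_mul_of_nonneg_left h5 h6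
        _ = _ := by ring
  -- bound in ENNReal
  have hmain : ENNReal.ofReal (∑' n : ℕ, gx b A x n * ww x n) ≤ ENNReal.ofReal (ε * x ^ 4) := by
    rw [ENNReal.ofReal_tsum_of_nonneg (fun n => mul_nonneg (hgn n) (hwn n)) hsummable]
    have hK : 0 ≤ C * x ^ 4 * (Real.sqrt (L * Real.log L) + 1) := by positivity
    have hlogsum : ∑' n : ℕ, ENNReal.ofReal (gx b A x n * ww x n * Real.log n) ≤
        ENNReal.ofReal (C * x ^ 4 * (Real.sqrt (L * Real.log L) + 1) * L ^ (1 / 4 : ℝ)) := by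
      calc ∑' n : ℕ, ENNReal.ofReal (gx b A x n * ww x n * Real.log n)
          ≤ ∑' m : ℕ, ENNReal.ofReal (gx b A x m) *
            ∑' p : Nat.Primes, ∑' j : ℕ, GG b x (p : ℕ) j m := log_sum_le h A x
        _ ≤ ∑' m : ℕ, ENNReal.ofReal (gx b A x m) *
            ENNReal.ofReal (C * x ^ 4 * (Real.sqrt (L * Real.log L) + 1) *
              ((m : ℝ)⁻¹ * Real.exp (-((m : ℝ) / x)))) :=
            ENNReal.tsum_le_tsum fun m => mul_le_mul_right (hin x hxb m) _
        _ = ∑' m : ℕ, ENNReal.ofReal ((C * x ^ 4 * (Real.sqrt (L * Real.log L) + 1)) *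
            (gx b A x m * (m : ℝ)⁻¹ * Real.exp (-((m : ℝ) / x)))) := by
            refine tsum_congr fun m => ?_
            rw [← ENNReal.ofReal_mul (hgn m)]
            congr 1
            ring
        _ = ENNReal.ofReal (∑' m : ℕ, (C * x ^ 4 * (Real.sqrt (L * Real.log L) + 1)) *
            (gx b A x m * (m : ℝ)⁻¹ * Real.exp (-((m : ℝ) / x)))) := by
            rw [ENNReal.ofReal_tsum_of_nonneg _ (hs.mul_left _)]
            intro m
            have := hgn m
            positivity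
        _ ≤ _ := by
            apply ENNReal.ofReal_le_ofReal
            rw [tsum_mul_left]
            exact mul_le_mul_of_nonneg_left hsum hK
    have hpt2 : ∀ n : ℕ, ENNReal.ofReal (gx b A x n * ww x n) ≤
        (if n ∈ Finset.range (s + 1) then ENNReal.ofReal (R * x ^ 2) else 0) +
        ENNReal.ofReal (2 / L) * ENNReal.ofReal (gx b A x n * ww x n * Real.log n) := by
      intro n
      have hln : 0 ≤ Real.log (n : ℝ) := Real.log_natCast_nonneg n
      have h2 : 0 ≤ gx b A x n * ww x n * Real.log n := by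
        have := hgn n; have := hwn n; positivity
      rw [← ENNReal.ofReal_mul (by positivity)]
      refine (ENNReal.ofReal_le_ofReal (hpt n)).trans ?_
      rw [ENNReal.ofReal_add (by split_ifs <;> positivity) (by positivity)]
      refine add_le_add ?_ le_rfl
      split_ifs
      · exact le_rfl
      · rw [ENNReal.ofReal_zero]
    have hfin : ∑' n : ℕ, (if n ∈ Finset.range (s + 1) then ENNReal.ofReal (R * x ^ 2) else 0) ≤
        ENNReal.ofReal (2 * R * x ^ 3) := by
      rw [tsum_eq_sum (s := Finset.range (s + 1)) (fun n hn => if_neg hn),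
        Finset.sum_congr rfl (fun n hn => if_pos hn), Finset.sum_const, Finset.card_range, nsmul_eq_mul,
        ← ENNReal.ofReal_natCast, ← ENNReal.ofReal_mul (Nat.cast_nonneg _)]
      apply ENNReal.ofReal_le_ofReal
      have h7 : Real.sqrt x ≤ x := by
        rw [Real.sqrt_le_left hx0.le]
        nlinarith
      have h8 : ((s + 1 : ℕ) : ℝ) ≤ 2 * x := by
        push_cast
        linarith
      calc ((s + 1 : ℕ) : ℝ) * (R * x ^ 2) ≤ (2 * x) * (R * x ^ 2) := by gcongr
        _ = _ := by ring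
    have hLL : Real.sqrt (L * Real.log L) ≤ 2 * L ^ (5 / 8 : ℝ) := by
      rw [Real.sqrt_le_left (by positivity)]
      have h9 : Real.log L ≤ L ^ (1 / 4 : ℝ) / (1 / 4) := Real.log_le_rpow_div (by linarith) (by norm_num)
      have h10 : (2 * L ^ (5 / 8 : ℝ)) ^ 2 = 4 * (L * L ^ (1 / 4 : ℝ)) := by
        rw [mul_pow, ← Real.rpow_natCast (L ^ (5 / 8 : ℝ)) 2, ← Real.rpow_mul (by linarith)]
        have : L * L ^ (1 / 4 : ℝ) = L ^ (5 / 4 : ℝ) := by
          conv_lhs => rw [← Real.rpow_one L, ← Real.rpow_mul (by linarith), ← Real.rpow_add (by linarith)]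
          norm_num
        rw [this]
        norm_num
      rw [h10]
      have : L * Real.log L ≤ L * (L ^ (1 / 4 : ℝ) / (1 / 4)) := mul_le_mul_of_nonneg_left h9 (by linarith)
      linarith
    calc ∑' n : ℕ, ENNReal.ofReal (gx b A x n * ww x n)
        ≤ ∑' n : ℕ, ((if n ∈ Finset.range (s + 1) then ENNReal.ofReal (R * x ^ 2) else 0) +
        ENNReal.ofReal (2 / L) * ENNReal.ofReal (gx b A x n * ww x n * Real.log n)) :=
          ENNReal.tsum_le_tsum hpt2
      _ = ∑' n : ℕ, (if n ∈ Finset.range (s + 1) then ENNReal.ofReal (R * x ^ 2) else 0) +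
        ENNReal.ofReal (2 / L) * ∑' n : ℕ, ENNReal.ofReal (gx b A x n * ww x n * Real.log n) := by
          rw [ENNReal.tsum_add, ENNReal.tsum_mul_left]
      _ ≤ ENNReal.ofReal (2 * R * x ^ 3) + ENNReal.ofReal (2 / L) *
          ENNReal.ofReal (C * x ^ 4 * (Real.sqrt (L * Real.log L) + 1) * L ^ (1 / 4 : ℝ)) :=
          add_le_add hfin (mul_le_mul_right hlogsum _)
      _ = ENNReal.ofReal (2 * R * x ^ 3 + 2 / L *
          (C * x ^ 4 * (Real.sqrt (L * Real.log L) + 1) * L ^ (1 / 4 : ℝ))) := by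
          rw [← ENNReal.ofReal_mul (by positivity), ENNReal.ofReal_add (by positivity) (by positivity)]
      _ ≤ _ := by
          apply ENNReal.ofReal_le_ofReal
          have h11 : 2 * R * x ^ 3 ≤ ε / 2 * x ^ 4 := by
            have : 4 * R ≤ x * ε := (div_le_iff₀ hε).1 hxc
            have hx3 : 0 ≤ x ^ 3 := by positivity
            nlinarith [mul_le_mul_of_nonneg_right this hx3]
          have h12 : 2 / L * (C * x ^ 4 * (Real.sqrt (L * Real.log L) + 1) * L ^ (1 / 4 : ℝ)) ≤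
              6 * C * x ^ 4 * L ^ (-(1 / 8) : ℝ) := by
            have h13 : Real.sqrt (L * Real.log L) + 1 ≤ 3 * L ^ (5 / 8 : ℝ) := by
              have : 1 ≤ L ^ (5 / 8 : ℝ) := Real.one_le_rpow hL1 (by norm_num)
              linarith
            have h14 : L ^ (5 / 8 : ℝ) * L ^ (1 / 4 : ℝ) = L * L ^ (-(1 / 8) : ℝ) := by
              conv_rhs => rw [← Real.rpow_one L, ← Real.rpow_mul (by linarith), ← Real.rpow_add (by linarith)]
              rw [← Real.rpow_add (by linarith)]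
              norm_num
            calc 2 / L * (C * x ^ 4 * (Real.sqrt (L * Real.log L) + 1) * L ^ (1 / 4 : ℝ))
                ≤ 2 / L * (C * x ^ 4 * (3 * L ^ (5 / 8 : ℝ)) * L ^ (1 / 4 : ℝ)) := by gcongr
              _ = 6 * C * x ^ 4 / L * (L ^ (5 / 8 : ℝ) * L ^ (1 / 4 : ℝ)) := by ring
              _ = 6 * C * x ^ 4 / L * (L * L ^ (-(1 / 8) : ℝ)) := by rw [h14]
              _ = _ := by
                field_simp
          have h15 : 6 * C * L ^ (-(1 / 8) : ℝ) ≤ ε / 2 := by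
            have h16 : 12 * C / ε ≤ L ^ (1 / 8 : ℝ) := by
              have h17 : (12 * C / ε) ^ 8 ≤ L := by linarith
              have h18 : 0 ≤ 12 * C / ε := by positivity
              calc 12 * C / ε = ((12 * C / ε) ^ 8) ^ (1 / 8 : ℝ) := by
                    rw [← Real.rpow_natCast, ← Real.rpow_mul h18]
                    norm_num
                _ ≤ _ := Real.rpow_le_rpow (by positivity) h17 (by norm_num)
            have h19 : 0 < L ^ (1 / 8 : ℝ) := Real.rpow_pos_of_pos (by linarith) _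
            rw [Real.rpow_neg (by linarith), ← div_eq_mul_inv, div_le_iff₀ h19]
            have := (div_le_iff₀ hε).1 h16
            linarith
          have hx4 : 0 ≤ x ^ 4 := by positivity
          have h20 := mul_le_mul_of_nonneg_right h15 hx4
          nlinarith [h11, h12, h20]
  have h21 : 0 ≤ ε * x ^ 4 := by positivity
  exact (ENNReal.ofReal_le_ofReal_iff h21).1 hmain

end Pool.Agent.H11.PC
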