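import Mathlib
import Pool.Agent.H11.PC.ROUGH
import Pool.Agent.H11.PC.RAM
import Pool.Agent.H11.PC.BILIN
import Pool.Agent.H39.Pol.CLB

/-!
# IRR: no nonzero value at an irrational cusp

`irr_small`: `β` irrational has infinitely many coprime `a/k` with `|β - a/k| ≤ 1/k²`
(`Real.infinite_rat_abs_sub_lt_one_div_den_sq_of_irrational`), `k → ∞`.  Put `x = k²`, `y = 1/x`:
`gs b 3 (1/x + βI) = ∑ b(n) ww x n ee β n = R1 + R2`, `R1` over the `n` without prime factor in `PP A x` (`rough`: `≤ ε x⁴`), `R2`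
the rest (`ramare`), and `PP A x` is the disjoint union of the sets `Q_i = PP A x ∩ (2^i, 2^(i+1)]`, `2^(i+1) > L^A`, `2^i ≤ x^(1/4) = √k`
(at most `C L` of them): `bilin` with `ν = 1/(om+1)`.  So `‖R2‖ ≤ C x⁴ L^(K+1) (L^A)^(-1/2)`; choose `A = 2K + 4`.
`irr_zero`: `CL.rad`: `gs b 3 (y + βI) y^κ / L^M → v`, `‖y^κ‖ = y⁴` (`κ = 4 + iτ`), `L^M ≥ 1` for small `y`; so `‖v‖ ≤` limit inferior of
`‖gs b 3 (y+βI)‖ y⁴ = 0`.
-/

set_option autoImplicit false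

namespace Pool.Agent.H11.PC

open Complex Filter Topology Pool.Agent.H11.SC Pool.Agent.H39.Pol

private theorem IRR_ee_norm (β : ℝ) (n : ℕ) : ‖ee β n‖ = 1 := by
  unfold ee
  rw [Complex.norm_exp]
  have h1 : (-(2 * (Real.pi : ℂ) * n * β * I)).re = 0 := by
    have h2 : (-(2 * (Real.pi : ℂ) * n * β * I)) = ((-(2 * Real.pi * n * β) : ℝ) : ℂ) * I := by
      push_cast
      ring
    rw [h2, Complex.re_ofReal_mul, Complex.I_re, mul_zero]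
  rw [h1, Real.exp_zero]

private theorem IRR_ww_nonneg (x : ℝ) (n : ℕ) : 0 ≤ ww x n := by
  unfold ww
  positivity

private theorem IRR_summable {b : ℕ → ℂ} (h : PD b) (x : ℝ) (hx : 16 ≤ x) :
    Summable (fun n : ℕ => ‖b n‖ * ww x n) := by
  obtain ⟨C, hC0, hC⟩ := ww_le
  obtain ⟨K, C', hC'0, hC'⟩ := m1_exp h
  have h1 := (hC' x hx).1
  refine Summable.of_nonneg_of_le (fun n => mul_nonneg (norm_nonneg _) (IRR_ww_nonneg x n)) ?_
    (h1.mul_left (C * x ^ 4))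
  intro n
  rcases Nat.eq_zero_or_pos n with hn | hn
  · subst hn
    unfold ww
    simp
  · have h2 := hC x (by linarith) n hn
    calc ‖b n‖ * ww x n ≤ ‖b n‖ * (C * x ^ 4 * (n : ℝ)⁻¹ * Real.exp (-((n : ℝ) / x))) :=
          mul_le_mul_of_nonneg_left h2 (norm_nonneg _)
      _ = C * x ^ 4 * (‖b n‖ * (n : ℝ)⁻¹ * Real.exp (-((n : ℝ) / x))) := by ring

private theorem IRR_gs (b : ℕ → ℂ) (x β : ℝ) :
    gs b 3 (((1 / x : ℝ) : ℂ) + β * I) = ∑' n : ℕ, b n * (ww x n : ℂ) * ee β n := by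
  unfold gs ww ee
  refine tsum_congr (fun n => ?_)
  have h1 : cexp (-(2 * (Real.pi : ℂ) * n * (((1 / x : ℝ) : ℂ) + β * I))) =
      cexp (((-(2 * Real.pi * n / x) : ℝ) : ℂ)) * cexp (-(2 * (Real.pi : ℂ) * n * β * I)) := by
    rw [← Complex.exp_add]
    congr 1
    push_cast
    ring
  rw [h1]
  push_cast
  ring

private theorem IRR_approx (β : ℝ) (hβ : Irrational β) (N : ℕ) :
    ∃ (a : ℤ) (k : ℕ), N ≤ k ∧ IsCoprime a (k : ℤ) ∧ |β - (a : ℝ) / k| ≤ 1 / (k : ℝ) ^ 2 := by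
  have hinf := Real.infinite_rat_abs_sub_lt_one_div_den_sq_of_irrational hβ
  by_contra hcon
  apply hinf
  obtain ⟨R, hR⟩ := exists_nat_gt (|β| + 1)
  have hfin : ((fun p : ℤ × ℕ => ((p.1 : ℚ) / (p.2 : ℚ))) ''
      ((Set.Icc (-((R * N : ℕ) : ℤ)) ((R * N : ℕ) : ℤ)) ×ˢ (Set.Icc 0 N))).Finite :=
    ((Set.finite_Icc _ _).prod (Set.finite_Icc _ _)).image _
  refine hfin.subset ?_
  intro q hq
  have hq1 : |β - q| < 1 / (q.den : ℝ) ^ 2 := hq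
  have hden : (1 : ℝ) ≤ (q.den : ℝ) := by exact_mod_cast q.pos
  have hqeq : (q : ℝ) = (q.num : ℝ) / (q.den : ℝ) := Rat.cast_def q
  have hN : q.den < N := by
    by_contra hN
    apply hcon
    refine ⟨q.num, q.den, not_lt.1 hN, ?_, ?_⟩
    · rw [Int.isCoprime_iff_gcd_eq_one]
      have h2 := q.reduced
      rw [Int.gcd_eq_natAbs, Int.natAbs_natCast]
      exact h2
    · rw [← hqeq]
      exact hq1.le
  have hqabs : |(q : ℝ)| < R := by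
    have h3 : 1 / (q.den : ℝ) ^ 2 ≤ 1 := by
      rw [div_le_one (by positivity)]
      nlinarith
    have h4 : |(q : ℝ)| ≤ |β| + |β - q| := by
      have h5 : (q : ℝ) = β - (β - q) := by ring
      calc |(q : ℝ)| = |β - (β - q)| := by rw [← h5]
        _ ≤ |β| + |β - q| := abs_sub _ _
    linarith
  have hnum : |(q.num : ℝ)| ≤ (R * N : ℕ) := by
    have h6 : (q.num : ℝ) = (q : ℝ) * (q.den : ℝ) := by
      rw [hqeq]
      field_simp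
    rw [h6, abs_mul, abs_of_pos (show (0 : ℝ) < (q.den : ℝ) by linarith)]
    push_cast
    have h7 : (q.den : ℝ) ≤ N := by exact_mod_cast hN.le
    exact mul_le_mul hqabs.le h7 (by linarith) (by positivity)
  rw [abs_le] at hnum
  refine ⟨(q.num, q.den), ⟨⟨?_, ?_⟩, ⟨Nat.zero_le _, hN.le⟩⟩, ?_⟩
  · have h8 := hnum.1
    have h9 : ((-((R * N : ℕ) : ℤ) : ℤ) : ℝ) ≤ ((q.num : ℤ) : ℝ) := by
      push_cast
      push_cast at h8
      exact h8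
    exact_mod_cast h9
  · have h8 := hnum.2
    exact_mod_cast h8
  · exact Rat.num_div_den q

private theorem IRR_PP (f : ℕ → ℂ) (A k : ℕ) (D : ℝ) (hD : 0 ≤ D)
    (hb : ∀ P : ℕ, 1 ≤ P → P ^ 2 ≤ k → (Real.log ((k : ℝ) ^ 2)) ^ A ≤ 2 * (P : ℝ) →
      ∀ Q : Finset ℕ, (∀ p ∈ Q, p.Prime ∧ P < p ∧ p ≤ 2 * P) → ‖∑ p ∈ Q, f p‖ ≤ D) :
    ‖∑ p ∈ PP A ((k : ℝ) ^ 2), f p‖ ≤ ((Nat.log 2 k + 1 : ℕ) : ℝ) * D := by
  have hmem : ∀ p ∈ PP A ((k : ℝ) ^ 2), p.Prime ∧ (Real.log ((k : ℝ) ^ 2)) ^ A < (p : ℝ) ∧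
      p ^ 2 ≤ k := by
    intro p hp
    unfold PP at hp
    obtain ⟨-, h1, h2, h3⟩ := Finset.mem_filter.1 hp
    refine ⟨h1, h2, ?_⟩
    have h4 : (((k : ℝ) ^ 2) ^ (1 / 4 : ℝ)) ^ (4 : ℕ) = (k : ℝ) ^ 2 := by
      rw [← Real.rpow_natCast, ← Real.rpow_mul (by positivity)]
      norm_num
    have h5 : (p : ℝ) ^ 4 ≤ (k : ℝ) ^ 2 := by
      rw [← h4]
      exact pow_le_pow_left₀ (by positivity) h3 4
    have h6 : (p ^ 2) ^ 2 ≤ k ^ 2 := by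
      have h7 : ((p ^ 2) ^ 2 : ℕ) ≤ (k ^ 2 : ℕ) := by
        have h8 : (((p ^ 2) ^ 2 : ℕ) : ℝ) ≤ ((k ^ 2 : ℕ) : ℝ) := by
          push_cast
          calc ((p : ℝ) ^ 2) ^ 2 = (p : ℝ) ^ 4 := by ring
            _ ≤ (k : ℝ) ^ 2 := h5
        exact_mod_cast h8
      exact h7
    exact (Nat.pow_le_pow_iff_left (by norm_num)).1 h6
  have hmaps : ∀ p ∈ PP A ((k : ℝ) ^ 2), Nat.log 2 (p - 1) ∈ Finset.range (Nat.log 2 k + 1) := by
    intro p hp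
    obtain ⟨h1, -, h3⟩ := hmem p hp
    rw [Finset.mem_range, Nat.lt_succ_iff]
    refine Nat.log_mono_right ?_
    have h4 : p ≤ p ^ 2 := Nat.le_self_pow (by norm_num) p
    omega
  rw [← Finset.sum_fiberwise_of_maps_to hmaps f]
  refine (norm_sum_le _ _).trans ?_
  have hcard : ((Nat.log 2 k + 1 : ℕ) : ℝ) * D =
      ∑ _i ∈ Finset.range (Nat.log 2 k + 1), D := by
    rw [Finset.sum_const, Finset.card_range, nsmul_eq_mul]
  rw [hcard]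
  refine Finset.sum_le_sum ?_
  intro i _
  rcases ((PP A ((k : ℝ) ^ 2)).filter (fun p => Nat.log 2 (p - 1) = i)).eq_empty_or_nonempty with
    he | ⟨p0, hp0⟩
  · rw [he, Finset.sum_empty, norm_zero]
    exact hD
  · have hbd : ∀ p ∈ (PP A ((k : ℝ) ^ 2)).filter (fun p => Nat.log 2 (p - 1) = i),
        p.Prime ∧ 2 ^ i < p ∧ p ≤ 2 * 2 ^ i := by
      intro p hp
      obtain ⟨h1, h2⟩ := Finset.mem_filter.1 hp
      obtain ⟨h3, -, -⟩ := hmem p h1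
      have h4 := h3.two_le
      have h5 : 2 ^ i ≤ p - 1 := by
        rw [← h2]
        exact Nat.pow_log_le_self 2 (by omega)
      have h6 : p - 1 < 2 ^ (i + 1) := by
        rw [← h2]
        exact Nat.lt_pow_succ_log_self (by norm_num) _
      rw [pow_succ] at h6
      exact ⟨h3, by omega, by omega⟩
    obtain ⟨h1, h2⟩ := Finset.mem_filter.1 hp0
    obtain ⟨h3, h4, h5⟩ := hmem p0 h1
    obtain ⟨-, h6, h7⟩ := hbd p0 hp0
    refine hb (2 ^ i) Nat.one_le_two_pow ?_ ?_ _ hbd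
    · exact (Nat.pow_le_pow_left h6.le 2).trans h5
    · refine h4.le.trans ?_
      exact_mod_cast h7

private theorem IRR_log (k : ℕ) (hk : 16 ≤ k) :
    ((Nat.log 2 k + 1 : ℕ) : ℝ) ≤ 3 * Real.log k ∧ 1 ≤ Real.log k := by
  have hk0 : (16 : ℝ) ≤ (k : ℝ) := by exact_mod_cast hk
  have hl2 : (1 / 2 : ℝ) ≤ Real.log 2 := by
    have := Real.log_two_gt_d9
    linarith
  have h1 : 1 ≤ Real.log k := by
    have h2 : Real.log 16 ≤ Real.log k := Real.log_le_log (by norm_num) hk0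
    have h3 : Real.log 16 = 4 * Real.log 2 := by
      rw [show (16 : ℝ) = 2 ^ 4 by norm_num, Real.log_pow]
      norm_num
    linarith
  refine ⟨?_, h1⟩
  have h4 : (2 : ℝ) ^ (Nat.log 2 k) ≤ (k : ℝ) := by
    exact_mod_cast Nat.pow_log_le_self 2 (by omega)
  have h5 : (Nat.log 2 k : ℝ) * Real.log 2 ≤ Real.log k := by
    rw [← Real.log_pow]
    exact Real.log_le_log (by positivity) h4
  have h6 : (Nat.log 2 k : ℝ) * (1 / 2) ≤ (Nat.log 2 k : ℝ) * Real.log 2 :=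
    mul_le_mul_of_nonneg_left hl2 (by positivity)
  push_cast
  linarith

private theorem IRR_rpow (u : ℝ) (hu : 0 < u) : (u ^ 2) ^ (-(1 / 2) : ℝ) = u⁻¹ := by
  rw [← Real.rpow_natCast, ← Real.rpow_mul hu.le, ← Real.rpow_neg_one]
  norm_num

open Classical in
private theorem IRR_split {b : ℕ → ℂ} (h : PD b) (A : ℕ) (x : ℝ) (hx : 16 ≤ x) (β : ℝ) (G : ℝ)
    (hs : Summable (fun n : ℕ => gx b A x n * ww x n))
    (hG : ∑' n : ℕ, gx b A x n * ww x n ≤ G) :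
    ‖∑' n : ℕ, b n * (ww x n : ℂ) * ee β n‖ ≤
      G + ‖∑' n : ℕ, if ∃ p ∈ PP A x, p ∣ n then b n * (ww x n : ℂ) * ee β n else 0‖ := by
  have hn : ∀ n : ℕ, ‖b n * (ww x n : ℂ) * ee β n‖ = ‖b n‖ * ww x n := by
    intro n
    rw [norm_mul, norm_mul, IRR_ee_norm, mul_one, Complex.norm_real,
      Real.norm_of_nonneg (IRR_ww_nonneg x n)]
  have hsum := IRR_summable h x hx
  have h1 : Summable (fun n : ℕ => if ∃ p ∈ PP A x, p ∣ n then (0 : ℂ) else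
      b n * (ww x n : ℂ) * ee β n) := by
    refine Summable.of_norm_bounded hsum ?_
    intro n
    split_ifs
    · rw [norm_zero]
      exact mul_nonneg (norm_nonneg _) (IRR_ww_nonneg x n)
    · exact (hn n).le
  have h2 : Summable (fun n : ℕ => if ∃ p ∈ PP A x, p ∣ n then
      b n * (ww x n : ℂ) * ee β n else (0 : ℂ)) := by
    refine Summable.of_norm_bounded hsum ?_
    intro n
    split_ifs
    · exact (hn n).le
    · rw [norm_zero]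
      exact mul_nonneg (norm_nonneg _) (IRR_ww_nonneg x n)
  have h3 : ∑' n : ℕ, b n * (ww x n : ℂ) * ee β n =
      (∑' n : ℕ, if ∃ p ∈ PP A x, p ∣ n then (0 : ℂ) else b n * (ww x n : ℂ) * ee β n) +
      ∑' n : ℕ, if ∃ p ∈ PP A x, p ∣ n then b n * (ww x n : ℂ) * ee β n else (0 : ℂ) := by
    rw [← Summable.tsum_add h1 h2]
    refine tsum_congr (fun n => ?_)
    split_ifs
    · rw [zero_add]
    · rw [add_zero]
  rw [h3]
  refine (norm_add_le _ _).trans ?_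
  have h4 : ‖∑' n : ℕ, if ∃ p ∈ PP A x, p ∣ n then (0 : ℂ) else
      b n * (ww x n : ℂ) * ee β n‖ ≤ ∑' n : ℕ, gx b A x n * ww x n := by
    refine tsum_of_norm_bounded hs.hasSum ?_
    intro n
    unfold gx
    split_ifs
    · rw [norm_zero, zero_mul]
    · exact (hn n).le
  linarith

private theorem IRR_tri (X Y : ℂ) (u v : ℝ) (h1 : ‖X - Y‖ ≤ u) (h2 : ‖Y‖ ≤ v) : ‖X‖ ≤ u + v := by
  have h3 := norm_add_le (X - Y) Y
  rw [sub_add_cancel] at h3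
  linarith

theorem irr_small {b : ℕ → ℂ} (h : PD b) (β : ℝ) (hβ : Irrational β) (ε : ℝ) (hε : 0 < ε) (y0 : ℝ)
    (hy0 : 0 < y0) : ∃ y : ℝ, 0 < y ∧ y < y0 ∧ ‖gs b 3 (y + β * I)‖ * y ^ 4 ≤ ε := by
  obtain ⟨K1, C1, hC1, hram⟩ := ramare h
  obtain ⟨K2, C2, hC2, hbil⟩ := bilin h
  obtain ⟨B, hB⟩ : ∃ B : ℕ, B = max K1 (K2 + 1) + 1 := ⟨_, rfl⟩
  obtain ⟨x0, hx0⟩ := rough h (2 * B) (ε / 2) (half_pos hε)
  obtain ⟨N, hN⟩ := exists_nat_gt (max (max 16 x0) (max (1 / y0)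
    (Real.exp (2 * (C1 + 6 * C2) / ε))))
  obtain ⟨a, k, hkN, hcop, happ⟩ := IRR_approx β hβ N
  have hkN' : (N : ℝ) ≤ (k : ℝ) := by exact_mod_cast hkN
  have hk16 : (16 : ℝ) < (k : ℝ) :=
    (lt_of_le_of_lt ((le_max_left _ _).trans (le_max_left _ _)) hN).trans_le hkN'
  have hkx0 : x0 < (k : ℝ) :=
    (lt_of_le_of_lt ((le_max_right _ _).trans (le_max_left _ _)) hN).trans_le hkN'
  have hky0 : 1 / y0 < (k : ℝ) :=
    (lt_of_le_of_lt ((le_max_left _ _).trans (le_max_right _ _)) hN).trans_le hkN'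
  have hkexp : Real.exp (2 * (C1 + 6 * C2) / ε) < (k : ℝ) :=
    (lt_of_le_of_lt ((le_max_right _ _).trans (le_max_right _ _)) hN).trans_le hkN'
  have hk : 16 ≤ k := by exact_mod_cast hk16.le
  have hkpos : (0 : ℝ) < (k : ℝ) := by linarith
  have hksq : (k : ℝ) ≤ (k : ℝ) ^ 2 := by nlinarith
  obtain ⟨hlog3, hlog1⟩ := IRR_log k hk
  have hlogk : 2 * (C1 + 6 * C2) / ε < Real.log k := by
    rw [Real.lt_log_iff_exp_lt hkpos]
    exact hkexp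
  have hL : Real.log ((k : ℝ) ^ 2) = 2 * Real.log k := by
    rw [Real.log_pow]
    norm_num
  have hx16 : (16 : ℝ) ≤ (k : ℝ) ^ 2 := by linarith
  have hL1 : 1 ≤ Real.log ((k : ℝ) ^ 2) := by
    rw [hL]
    linarith
  refine ⟨1 / (k : ℝ) ^ 2, by positivity, ?_, ?_⟩
  · rw [div_lt_iff₀ (by positivity)]
    have h1 : 1 < y0 * (k : ℝ) := by
      rw [div_lt_iff₀ hy0] at hky0
      linarith
    nlinarith
  rw [IRR_gs b ((k : ℝ) ^ 2) β]
  obtain ⟨hs, hG⟩ := hx0 ((k : ℝ) ^ 2) (by linarith)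
  have hsp := IRR_split h (2 * B) ((k : ℝ) ^ 2) hx16 β _ hs hG
  have hr := hram (2 * B) ((k : ℝ) ^ 2) hx16 β
  have hLB : (0 : ℝ) < (Real.log ((k : ℝ) ^ 2)) ^ B := by positivity
  have hpw : ((Real.log ((k : ℝ) ^ 2)) ^ (2 * B)) ^ (-(1 / 2) : ℝ) =
      ((Real.log ((k : ℝ) ^ 2)) ^ B)⁻¹ := by
    rw [mul_comm 2 B, pow_mul]
    exact IRR_rpow _ hLB
  rw [hpw] at hr
  have hD0 : 0 ≤ C2 * ((k : ℝ) ^ 2) ^ 4 * (Real.log k) ^ K2 *
      (2 * ((Real.log ((k : ℝ) ^ 2)) ^ B)⁻¹) := by positivity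
  have hPP := IRR_PP (fun p => b p * ∑' m : ℕ, b m *
    ((1 / ((om (2 * B) ((k : ℝ) ^ 2) m : ℝ) + 1) : ℝ) : ℂ) *
    (ww ((k : ℝ) ^ 2) (p * m) : ℂ) * ee β (p * m)) (2 * B) k
    (C2 * ((k : ℝ) ^ 2) ^ 4 * (Real.log k) ^ K2 * (2 * ((Real.log ((k : ℝ) ^ 2)) ^ B)⁻¹)) hD0 (by
      intro P hP1 hP2 hP3 Q hQ
      have h5 := hbil k a β hk hcop happ P hP1 hP2 Q hQ
        (fun m => 1 / ((om (2 * B) ((k : ℝ) ^ 2) m : ℝ) + 1)) (by
          intro m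
          refine ⟨by positivity, ?_⟩
          rw [div_le_one (by positivity)]
          have h6 : (0 : ℝ) ≤ (om (2 * B) ((k : ℝ) ^ 2) m : ℝ) := Nat.cast_nonneg _
          linarith)
      refine h5.trans ?_
      refine mul_le_mul_of_nonneg_left ?_ (by positivity)
      have hPpos : (0 : ℝ) < (P : ℝ) := by exact_mod_cast hP1
      have h7 : ((Real.log ((k : ℝ) ^ 2)) ^ B) ^ 2 ≤ 2 * (P : ℝ) := by
        rw [← pow_mul, mul_comm B 2]
        exact hP3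
      have h8 : (((Real.log ((k : ℝ) ^ 2)) ^ B) / 2) ^ 2 ≤ (P : ℝ) := by
        have h9 : (((Real.log ((k : ℝ) ^ 2)) ^ B) / 2) ^ 2 =
          ((Real.log ((k : ℝ) ^ 2)) ^ B) ^ 2 / 4 := by ring
        rw [h9]
        linarith
      have h10 : (P : ℝ) ^ (-(1 / 2) : ℝ) ≤
          ((((Real.log ((k : ℝ) ^ 2)) ^ B) / 2) ^ 2) ^ (-(1 / 2) : ℝ) :=
        Real.rpow_le_rpow_of_nonpos (by positivity) h8 (by norm_num)
      rw [IRR_rpow _ (by positivity)] at h10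
      refine h10.trans (le_of_eq ?_)
      rw [inv_div, div_eq_mul_inv])
  have hfin := IRR_tri _ _ _ _ hr hPP
  have hinv : ∀ e : ℕ, e + 1 ≤ B → (Real.log ((k : ℝ) ^ 2)) ^ e *
      ((Real.log ((k : ℝ) ^ 2)) ^ B)⁻¹ ≤ (Real.log k)⁻¹ := by
    intro e he
    have h12 : (Real.log ((k : ℝ) ^ 2)) ^ e * Real.log k ≤ (Real.log ((k : ℝ) ^ 2)) ^ B := by
      calc (Real.log ((k : ℝ) ^ 2)) ^ e * Real.log k ≤
          (Real.log ((k : ℝ) ^ 2)) ^ e * Real.log ((k : ℝ) ^ 2) := by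
            refine mul_le_mul_of_nonneg_left ?_ (by positivity)
            rw [hL]
            linarith
        _ = (Real.log ((k : ℝ) ^ 2)) ^ (e + 1) := (pow_succ _ _).symm
        _ ≤ (Real.log ((k : ℝ) ^ 2)) ^ B := pow_le_pow_right₀ hL1 he
    rw [← div_eq_mul_inv, div_le_iff₀ hLB, ← div_eq_inv_mul, le_div_iff₀ (by linarith)]
    exact h12
  have hA1 : C1 * ((k : ℝ) ^ 2) ^ 4 * (Real.log ((k : ℝ) ^ 2)) ^ K1 *
        ((Real.log ((k : ℝ) ^ 2)) ^ B)⁻¹ ≤ ((k : ℝ) ^ 2) ^ 4 * (C1 * (Real.log k)⁻¹) := by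
    have h13 := hinv K1 (by omega)
    calc C1 * ((k : ℝ) ^ 2) ^ 4 * (Real.log ((k : ℝ) ^ 2)) ^ K1 *
        ((Real.log ((k : ℝ) ^ 2)) ^ B)⁻¹ = (C1 * ((k : ℝ) ^ 2) ^ 4) *
        ((Real.log ((k : ℝ) ^ 2)) ^ K1 * ((Real.log ((k : ℝ) ^ 2)) ^ B)⁻¹) := by ring
      _ ≤ (C1 * ((k : ℝ) ^ 2) ^ 4) * (Real.log k)⁻¹ :=
        mul_le_mul_of_nonneg_left h13 (by positivity)
      _ = _ := by ring
  have hA2 : ((Nat.log 2 k + 1 : ℕ) : ℝ) * (C2 * ((k : ℝ) ^ 2) ^ 4 * (Real.log k) ^ K2 *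
        (2 * ((Real.log ((k : ℝ) ^ 2)) ^ B)⁻¹)) ≤
      ((k : ℝ) ^ 2) ^ 4 * (6 * C2 * (Real.log k)⁻¹) := by
    have h13 := hinv (K2 + 1) (by omega)
    have h14 : (Real.log k) ^ (K2 + 1) ≤ (Real.log ((k : ℝ) ^ 2)) ^ (K2 + 1) := by
      refine pow_le_pow_left₀ (by linarith) ?_ _
      rw [hL]
      linarith
    calc ((Nat.log 2 k + 1 : ℕ) : ℝ) * (C2 * ((k : ℝ) ^ 2) ^ 4 * (Real.log k) ^ K2 *
        (2 * ((Real.log ((k : ℝ) ^ 2)) ^ B)⁻¹)) ≤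
        (3 * Real.log k) * (C2 * ((k : ℝ) ^ 2) ^ 4 * (Real.log k) ^ K2 *
        (2 * ((Real.log ((k : ℝ) ^ 2)) ^ B)⁻¹)) := mul_le_mul_of_nonneg_right hlog3 hD0
      _ = (6 * C2 * ((k : ℝ) ^ 2) ^ 4) * ((Real.log k) ^ (K2 + 1) *
        ((Real.log ((k : ℝ) ^ 2)) ^ B)⁻¹) := by ring
      _ ≤ (6 * C2 * ((k : ℝ) ^ 2) ^ 4) * ((Real.log ((k : ℝ) ^ 2)) ^ (K2 + 1) *
        ((Real.log ((k : ℝ) ^ 2)) ^ B)⁻¹) := by
          refine mul_le_mul_of_nonneg_left ?_ (by positivity)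
          exact mul_le_mul_of_nonneg_right h14 (by positivity)
      _ ≤ (6 * C2 * ((k : ℝ) ^ 2) ^ 4) * (Real.log k)⁻¹ :=
          mul_le_mul_of_nonneg_left h13 (by positivity)
      _ = _ := by ring
  have hA3 : (C1 + 6 * C2) * (Real.log k)⁻¹ ≤ ε / 2 := by
    rw [← div_eq_mul_inv, div_le_iff₀ (by linarith)]
    rw [div_lt_iff₀ hε] at hlogk
    linarith
  have hx4 : (0 : ℝ) < ((k : ℝ) ^ 2) ^ 4 := by positivity
  have htot : ‖∑' n : ℕ, b n * (ww ((k : ℝ) ^ 2) n : ℂ) * ee β n‖ ≤ ε * ((k : ℝ) ^ 2) ^ 4 := by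
    have h15 : ((k : ℝ) ^ 2) ^ 4 * ((C1 + 6 * C2) * (Real.log k)⁻¹) ≤
      ((k : ℝ) ^ 2) ^ 4 * (ε / 2) := mul_le_mul_of_nonneg_left hA3 hx4.le
    have h16 := hsp.trans (add_le_add le_rfl (hfin.trans (add_le_add hA1 hA2)))
    refine h16.trans ?_
    have h17 : ((k : ℝ) ^ 2) ^ 4 * (C1 * (Real.log k)⁻¹) +
      ((k : ℝ) ^ 2) ^ 4 * (6 * C2 * (Real.log k)⁻¹) =
      ((k : ℝ) ^ 2) ^ 4 * ((C1 + 6 * C2) * (Real.log k)⁻¹) := by ring
    rw [h17]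
    linarith
  calc ‖∑' n : ℕ, b n * (ww ((k : ℝ) ^ 2) n : ℂ) * ee β n‖ * (1 / (k : ℝ) ^ 2) ^ 4 ≤
      (ε * ((k : ℝ) ^ 2) ^ 4) * (1 / (k : ℝ) ^ 2) ^ 4 :=
        mul_le_mul_of_nonneg_right htot (by positivity)
    _ = ε := by
        field_simp

theorem irr_zero {b : ℕ → ℂ} (h : PD b) (β : ℝ) (hβ : Irrational β) (M : ℕ) (τ : ℝ) (v : ℂ)
    (hv : CL (gs b 3) M (4 + τ * I) β v) : v = 0 := by
  have hr := CL.rad hv
  by_contra hv0
  have hvpos : 0 < ‖v‖ := norm_pos_iff.2 hv0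
  have hn := hr.norm
  have hev : ∀ᶠ y : ℝ in 𝓝[>] 0, ‖v‖ / 2 < ‖gs b 3 (y + β * I) * (y : ℂ) ^ (4 + τ * I) /
      (((Real.log (1 / y)) ^ M : ℝ) : ℂ)‖ := hn.eventually (lt_mem_nhds (half_lt_self hvpos))
  rw [eventually_nhdsWithin_iff, Metric.eventually_nhds_iff] at hev
  obtain ⟨δ, hδ, hev⟩ := hev
  obtain ⟨y, hy, hyδ, hyb⟩ := irr_small h β hβ (‖v‖ / 2) (half_pos hvpos)
    (min δ (Real.exp (-1))) (lt_min hδ (Real.exp_pos _))
  have h1 := hev (y := y) (by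
    rw [Real.dist_eq, sub_zero, abs_of_pos hy]
    exact hyδ.trans_le (min_le_left _ _)) hy
  have hy1 : y < Real.exp (-1) := hyδ.trans_le (min_le_right _ _)
  have hlog : 1 ≤ Real.log (1 / y) := by
    rw [one_div, Real.log_inv]
    have h2 : Real.log y < -1 := by
      rw [Real.log_lt_iff_lt_exp hy]
      exact hy1
    linarith
  have hpow : (1 : ℝ) ≤ (Real.log (1 / y)) ^ M := one_le_pow₀ hlog
  rw [norm_div, norm_mul, Complex.norm_real, Real.norm_of_nonneg (by linarith),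
    Complex.norm_cpow_eq_rpow_re_of_pos hy] at h1
  have hre : (4 + τ * I : ℂ).re = 4 := by simp
  rw [hre] at h1
  have h3 : y ^ (4 : ℝ) = y ^ (4 : ℕ) := by
    rw [← Real.rpow_natCast]
    norm_num
  rw [h3] at h1
  have h4 : ‖gs b 3 (y + β * I)‖ * y ^ 4 / (Real.log (1 / y)) ^ M ≤
      ‖gs b 3 (y + β * I)‖ * y ^ 4 := div_le_self (by positivity) hpow
  linarith

end Pool.Agent.H11.PC
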