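import Mathlib
import Pool.Agent.H11.PC.CMG
import Pool.Agent.H11.PC.SUMM
import Pool.Agent.H11.PC.DIR

/-!
# ECH: size of the twisted series from the coefficients at the primes

`hb`: `b(r) r^(iθ) = r^(2iθ) + ∑_χ' c_χ' χ'(r)⁻¹ + O(r^(-1/2))` for all primes outside the finite set `B`, which contains the primes
dividing `N`.
`ech`: `PS (b χ)(1 - θI + α) = ∑_p b(p) p^(iθ) χ(p) p^(-1-α)`.  Up to `O(1)` (finitely many primes, and
`∑ p^(-1/2) p^(-1-α) ≤ ∑ n^(-3/2)`) this is `∑_p p^(2iθ) χ(p) p^(-1-α) + ∑_χ' c_χ' ∑_p χ'⁻¹(p) χ(p) p^(-1-α)` (for `p ∤ N`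
`(χ' p)⁻¹ = χ'⁻¹ p`).  By `dir_bdd`, `dir_one` (`PS χ (1 - 2θI + α)`): the first sum is `log(1/α) + O(1)` if
`θ = 0`, `χ = 1` and `O(1)` otherwise; in the second `χ'⁻¹ χ = 1` iff `χ' = χ`, so it is `c_χ log(1/α) + O(1)`.  Then
`log ‖LT b χ s‖ = Re PS + O(1)` by `h.log` (`cm_char`).
`ech_one`: `PS b (1 + θI + α) = ∑_p b(p) p^(iθ) p^(-2iθ) p^(-1-α)`, the same computation: `log(1/α) + ∑_χ' c_χ'
∑_p χ'⁻¹(p) p^(-1-2iθ-α) + O(1)`, and the inner sum is `O(1)` unless `θ = 0`, `χ' = 1`.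
-/

set_option autoImplicit false

namespace Pool.Agent.H11.PC

open Complex Filter Topology Classical

theorem ECH_shift (f : ℕ → ℂ) (t : ℝ) (s : ℂ) :
    PS f (s - t * I) = PS (fun n => (n : ℂ) ^ ((t : ℂ) * I) * f n) s := by
  unfold PS
  refine tsum_congr fun p => ?_
  have hp : ((p : ℕ) : ℂ) ≠ 0 := Nat.cast_ne_zero.2 p.2.ne_zero
  rw [show -(s - t * I) = t * I + -s by ring, cpow_add _ _ hp]
  ring

theorem ECH_split {b : ℕ → ℂ} (h : PD b) (N : ℕ) [NeZero N] (θ : ℝ) (B : Set ℕ) (hB : B.Finite)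
    (c : DirichletCharacter ℂ N → ℂ)
    (hb : ∃ C : ℝ, 0 ≤ C ∧ ∀ r : ℕ, r.Prime → r ∉ B →
      ‖b r * (r : ℂ) ^ ((θ : ℂ) * I) - ((r : ℂ) ^ (2 * (θ : ℂ) * I) +
        ∑ χ : DirichletCharacter ℂ N, c χ * (χ (r : ZMod N))⁻¹)‖ ≤
        C * (r : ℝ) ^ (-(1 / 2) : ℝ)) :
    ∃ C : ℝ, ∀ G : ℕ → ℂ, (∀ n, ‖G n‖ ≤ 1) → ∀ α : ℝ, 0 < α →
      ‖PS (fun n => b n * ((n : ℂ) ^ ((θ : ℂ) * I) * G n)) (1 + α) -
        (PS (fun n => (n : ℂ) ^ (2 * (θ : ℂ) * I) * G n) (1 + α) +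
          ∑ χ : DirichletCharacter ℂ N, c χ *
            PS (fun n => (χ (n : ZMod N))⁻¹ * G n) (1 + α))‖ ≤ C := by
  obtain ⟨C1, hC1, hb1⟩ := hb
  obtain ⟨D, hD⟩ : ∃ D : ℕ → ℂ, ∀ r : ℕ, D r = b r * (r : ℂ) ^ ((θ : ℂ) * I) -
      ((r : ℂ) ^ (2 * (θ : ℂ) * I) +
        ∑ χ : DirichletCharacter ℂ N, c χ * (χ (r : ZMod N))⁻¹) := ⟨_, fun _ => rfl⟩
  obtain ⟨E, hE⟩ : ∃ E : Nat.Primes → ℝ, ∀ p, E p = if (p : ℕ) ∈ B then ‖D p‖ else 0 :=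
    ⟨_, fun _ => rfl⟩
  have hEs : Summable E := by
    apply summable_of_hasFiniteSupport
    have h1 : (Function.support E) ⊆ (fun p : Nat.Primes => (p : ℕ)) ⁻¹' B := by
      intro p hp
      rw [Function.mem_support, hE] at hp
      by_contra hpB
      exact hp (if_neg hpB)
    refine Set.Finite.subset (Set.Finite.preimage ?_ hB) h1
    intro p _ q _ hpq
    exact Subtype.ext hpq
  have hM1 : Summable (fun p : Nat.Primes => C1 * ((p : ℕ) : ℝ) ^ (-(3 / 2) : ℝ)) :=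
    (Nat.Primes.summable_rpow.2 (by norm_num)).mul_left C1
  have hM := (hM1.add hEs).hasSum
  refine ⟨∑' p : Nat.Primes, (C1 * ((p : ℕ) : ℝ) ^ (-(3 / 2) : ℝ) + E p), fun G hG α hα => ?_⟩
  · have hs : 1 < ((1 : ℂ) + α).re := by
      simp only [add_re, one_re, ofReal_re]
      linarith
    have hc1 : ∀ n : ℕ, ‖(n : ℂ) ^ ((θ : ℂ) * I) * G n‖ ≤ 1 := by
      intro n
      rw [norm_mul]
      exact mul_le_one₀ ((cm_pow θ).bd n) (norm_nonneg _) (hG n)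
    have hc2 : ∀ n : ℕ, ‖(n : ℂ) ^ (2 * (θ : ℂ) * I) * G n‖ ≤ 1 := by
      intro n
      rw [norm_mul]
      refine mul_le_one₀ ?_ (norm_nonneg _) (hG n)
      have := (cm_pow (2 * θ)).bd n
      simpa using this
    have hc3 : ∀ (χ : DirichletCharacter ℂ N) (n : ℕ), ‖(χ (n : ZMod N))⁻¹ * G n‖ ≤ 1 := by
      intro χ n
      rw [norm_mul]
      refine mul_le_one₀ ?_ (norm_nonneg _) (hG n)
      rw [← MulChar.inv_apply_eq_inv']
      exact (χ⁻¹).norm_le_one _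
    have h1 := (pd_prime_summable h _ hc1 _ hs).of_norm.hasSum
    have h2 := (prime_summable_one _ hc2 _ hs).of_norm.hasSum
    have h3 : ∀ χ : DirichletCharacter ℂ N, _ := fun χ =>
      ((prime_summable_one _ (hc3 χ) _ hs).of_norm.hasSum).mul_left (c χ)
    have h4 := (h1.sub (h2.add (hasSum_sum (s := Finset.univ) fun χ _ => h3 χ)))
    have h5 := h4.tsum_eq
    unfold PS
    rw [← h5]
    refine tsum_of_norm_bounded hM fun p => ?_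
    have h6 : b (p : ℕ) * (((p : ℕ) : ℂ) ^ ((θ : ℂ) * I) * G p) * ((p : ℕ) : ℂ) ^ (-((1 : ℂ) + α)) -
        (((p : ℕ) : ℂ) ^ (2 * (θ : ℂ) * I) * G p * ((p : ℕ) : ℂ) ^ (-((1 : ℂ) + α)) +
          ∑ χ : DirichletCharacter ℂ N,
            c χ * ((χ ((p : ℕ) : ZMod N))⁻¹ * G p * ((p : ℕ) : ℂ) ^ (-((1 : ℂ) + α)))) =
        D p * G p * ((p : ℕ) : ℂ) ^ (-((1 : ℂ) + α)) := by
      rw [hD]
      have h7 : ∑ χ : DirichletCharacter ℂ N,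
            c χ * ((χ ((p : ℕ) : ZMod N))⁻¹ * G p * ((p : ℕ) : ℂ) ^ (-((1 : ℂ) + α))) =
          (∑ χ : DirichletCharacter ℂ N, c χ * (χ ((p : ℕ) : ZMod N))⁻¹) *
            (G p * ((p : ℕ) : ℂ) ^ (-((1 : ℂ) + α))) := by
        rw [Finset.sum_mul]
        refine Finset.sum_congr rfl fun χ _ => ?_
        ring
      rw [h7]
      ring
    rw [h6, norm_mul, norm_mul, norm_natCast_cpow_of_pos p.2.pos]
    have hp1 : (1 : ℝ) ≤ ((p : ℕ) : ℝ) := by exact_mod_cast p.2.one_lt.le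
    have hp0 : (0 : ℝ) < ((p : ℕ) : ℝ) := by linarith
    have hre : (-((1 : ℂ) + α)).re = -(1 + α) := by simp
    rw [hre]
    have h8 : ((p : ℕ) : ℝ) ^ (-(1 + α)) ≤ ((p : ℕ) : ℝ) ^ (-1 : ℝ) :=
      Real.rpow_le_rpow_of_exponent_le hp1 (by linarith)
    have h9 : ((p : ℕ) : ℝ) ^ (-1 : ℝ) ≤ 1 := by
      rw [← Real.rpow_zero ((p : ℕ) : ℝ)]
      exact Real.rpow_le_rpow_of_exponent_le hp1 (by norm_num)
    have h10 : ‖D p‖ * ‖G p‖ * ((p : ℕ) : ℝ) ^ (-(1 + α)) ≤ ‖D p‖ * ((p : ℕ) : ℝ) ^ (-1 : ℝ) := by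
      apply mul_le_mul _ h8 (Real.rpow_nonneg hp0.le _) (norm_nonneg _)
      exact mul_le_of_le_one_right (norm_nonneg _) (hG _)
    refine h10.trans ?_
    rw [hE]
    by_cases hpB : (p : ℕ) ∈ B
    · rw [if_pos hpB]
      have h11 : ‖D p‖ * ((p : ℕ) : ℝ) ^ (-1 : ℝ) ≤ ‖D p‖ :=
        mul_le_of_le_one_right (norm_nonneg _) h9
      have h12 : 0 ≤ C1 * ((p : ℕ) : ℝ) ^ (-(3 / 2) : ℝ) :=
        mul_nonneg hC1 (Real.rpow_nonneg hp0.le _)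
      linarith
    · rw [if_neg hpB, add_zero]
      have h11 := hb1 p p.2 hpB
      rw [← hD] at h11
      have h12 : ((p : ℕ) : ℝ) ^ (-(3 / 2) : ℝ) =
          ((p : ℕ) : ℝ) ^ (-(1 / 2) : ℝ) * ((p : ℕ) : ℝ) ^ (-1 : ℝ) := by
        rw [← Real.rpow_add hp0]
        norm_num
      rw [h12, ← mul_assoc]
      exact mul_le_mul_of_nonneg_right h11 (Real.rpow_nonneg hp0.le _)

theorem ECH_char {N : ℕ} [NeZero N] (Ψ : DirichletCharacter ℂ N) (t : ℝ) :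
    ∃ C : ℝ, ∀ α : ℝ, 0 < α → α ≤ 1 →
      ‖PS (fun n => Ψ (n : ZMod N)) (1 + t * I + α) +
        (if Ψ = 1 ∧ t = 0 then 1 else 0) * (Real.log α : ℂ)‖ ≤ C := by
  by_cases h : Ψ = 1 ∧ t = 0
  · obtain ⟨C, hC⟩ := dir_one (L := N)
    refine ⟨C, fun α h0 h1 => ?_⟩
    rw [if_pos h, one_mul, h.1, h.2]
    have h2 := hC α h0 h1
    simpa using h2
  · obtain ⟨C, hC⟩ := dir_bdd Ψ t (by
      by_contra hc
      push Not at hc
      exact h hc)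
    refine ⟨C, fun α h0 h1 => ?_⟩
    rw [if_neg h, zero_mul, add_zero]
    exact hC α h0 h1

/-- the sums over the characters -/
theorem ECH_comb {b : ℕ → ℂ} (h : PD b) (N : ℕ) [NeZero N] (θ : ℝ) (B : Set ℕ) (hB : B.Finite)
    (c : DirichletCharacter ℂ N → ℂ)
    (hb : ∃ C : ℝ, 0 ≤ C ∧ ∀ r : ℕ, r.Prime → r ∉ B →
      ‖b r * (r : ℂ) ^ ((θ : ℂ) * I) - ((r : ℂ) ^ (2 * (θ : ℂ) * I) +
        ∑ χ : DirichletCharacter ℂ N, c χ * (χ (r : ZMod N))⁻¹)‖ ≤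
        C * (r : ℝ) ^ (-(1 / 2) : ℝ)) (G : ℕ → ℂ) (hG : ∀ n, ‖G n‖ ≤ 1)
    (u : ℂ) (v : DirichletCharacter ℂ N → ℂ)
    (hu : ∃ C : ℝ, ∀ α : ℝ, 0 < α → α ≤ 1 →
      ‖PS (fun n => (n : ℂ) ^ (2 * (θ : ℂ) * I) * G n) (1 + α) + u * (Real.log α : ℂ)‖ ≤ C)
    (hv : ∀ χ : DirichletCharacter ℂ N, ∃ C : ℝ, ∀ α : ℝ, 0 < α → α ≤ 1 →
      ‖PS (fun n => (χ (n : ZMod N))⁻¹ * G n) (1 + α) + v χ * (Real.log α : ℂ)‖ ≤ C) :
    ∃ C : ℝ, ∀ α : ℝ, 0 < α → α ≤ 1 →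
      ‖PS (fun n => b n * ((n : ℂ) ^ ((θ : ℂ) * I) * G n)) (1 + α) +
        (u + ∑ χ : DirichletCharacter ℂ N, c χ * v χ) * (Real.log α : ℂ)‖ ≤ C := by
  obtain ⟨C1, hC1⟩ := ECH_split h N θ B hB c hb
  obtain ⟨C2, hC2⟩ := hu
  choose C3 hC3 using hv
  refine ⟨C1 + (C2 + ∑ χ : DirichletCharacter ℂ N, ‖c χ‖ * C3 χ), fun α h0 h1 => ?_⟩
  have e1 := hC1 G hG α h0
  have e2 := hC2 α h0 h1
  have e3 : ‖∑ χ : DirichletCharacter ℂ N, c χ *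
      (PS (fun n => (χ (n : ZMod N))⁻¹ * G n) (1 + α) + v χ * (Real.log α : ℂ))‖ ≤
      ∑ χ : DirichletCharacter ℂ N, ‖c χ‖ * C3 χ := by
    refine norm_sum_le_of_le _ fun χ _ => ?_
    rw [norm_mul]
    exact mul_le_mul_of_nonneg_left (hC3 χ α h0 h1) (norm_nonneg _)
  have e4 : PS (fun n => b n * ((n : ℂ) ^ ((θ : ℂ) * I) * G n)) (1 + α) +
        (u + ∑ χ : DirichletCharacter ℂ N, c χ * v χ) * (Real.log α : ℂ) =
      (PS (fun n => b n * ((n : ℂ) ^ ((θ : ℂ) * I) * G n)) (1 + α) -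
        (PS (fun n => (n : ℂ) ^ (2 * (θ : ℂ) * I) * G n) (1 + α) +
          ∑ χ : DirichletCharacter ℂ N, c χ *
            PS (fun n => (χ (n : ZMod N))⁻¹ * G n) (1 + α))) +
      ((PS (fun n => (n : ℂ) ^ (2 * (θ : ℂ) * I) * G n) (1 + α) + u * (Real.log α : ℂ)) +
        ∑ χ : DirichletCharacter ℂ N, c χ *
          (PS (fun n => (χ (n : ZMod N))⁻¹ * G n) (1 + α) + v χ * (Real.log α : ℂ))) := by
    have e5 : ∑ χ : DirichletCharacter ℂ N, c χ *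
          (PS (fun n => (χ (n : ZMod N))⁻¹ * G n) (1 + α) + v χ * (Real.log α : ℂ)) =
        (∑ χ : DirichletCharacter ℂ N, c χ *
          PS (fun n => (χ (n : ZMod N))⁻¹ * G n) (1 + α)) +
        (∑ χ : DirichletCharacter ℂ N, c χ * v χ) * (Real.log α : ℂ) := by
      rw [Finset.sum_mul, ← Finset.sum_add_distrib]
      refine Finset.sum_congr rfl fun χ _ => ?_
      ring
    rw [e5]
    ring
  rw [e4]
  exact (norm_add_le _ _).trans (add_le_add e1 ((norm_add_le _ _).trans (add_le_add e2 e3)))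

theorem ech {b : ℕ → ℂ} (h : PD b) (N : ℕ) [NeZero N] (θ : ℝ) (B : Set ℕ) (hB : B.Finite)
    (hgood : ∀ r : ℕ, r.Prime → r ∉ B → ¬ r ∣ N) (c : DirichletCharacter ℂ N → ℂ)
    (hb : ∃ C : ℝ, 0 ≤ C ∧ ∀ r : ℕ, r.Prime → r ∉ B →
      ‖b r * (r : ℂ) ^ ((θ : ℂ) * I) - ((r : ℂ) ^ (2 * (θ : ℂ) * I) +
        ∑ χ : DirichletCharacter ℂ N, c χ * (χ (r : ZMod N))⁻¹)‖ ≤
        C * (r : ℝ) ^ (-(1 / 2) : ℝ)) (χ : DirichletCharacter ℂ N) :
    ∃ C : ℝ, ∀ α : ℝ, 0 < α → α ≤ 1 →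
      |Real.log ‖LT b (fun n => χ (n : ZMod N)) (1 - θ * I + α)‖ +
        ((c χ).re + if θ = 0 ∧ χ = 1 then 1 else 0) * Real.log α| ≤ C := by
  have _ := hgood
  obtain ⟨K, hK, hlog⟩ := h.log
  obtain ⟨C, hC⟩ := ECH_comb h N θ B hB c hb (fun n => χ (n : ZMod N))
    (fun n => χ.norm_le_one _) (if χ = 1 ∧ -(2 * θ) = 0 then 1 else 0)
    (fun χ' => if χ'⁻¹ * χ = 1 ∧ (0 : ℝ) = 0 then 1 else 0) (by
      obtain ⟨C, hC⟩ := ECH_char χ (-(2 * θ))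
      refine ⟨C, fun α h0 h1 => ?_⟩
      have h2 := hC α h0 h1
      have h3 := ECH_shift (fun n => χ (n : ZMod N)) (2 * θ) (1 + α)
      have h4 : (1 : ℂ) + α - ((2 * θ : ℝ) : ℂ) * I = 1 + ((-(2 * θ) : ℝ) : ℂ) * I + α := by
        push_cast
        ring
      rw [h4] at h3
      rw [h3] at h2
      have h5 : (((2 * θ : ℝ) : ℂ) * I) = 2 * (θ : ℂ) * I := by push_cast; ring
      rw [h5] at h2
      exact h2) (by
      intro χ'
      obtain ⟨C, hC⟩ := ECH_char (χ'⁻¹ * χ) 0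
      refine ⟨C, fun α h0 h1 => ?_⟩
      have h2 := hC α h0 h1
      have h3 : (fun n : ℕ => (χ' (n : ZMod N))⁻¹ * χ (n : ZMod N)) =
          fun n : ℕ => (χ'⁻¹ * χ) (n : ZMod N) := by
        funext n
        rw [MulChar.mul_apply, MulChar.inv_apply_eq_inv']
      rw [h3]
      have h4 : (1 : ℂ) + ((0 : ℝ) : ℂ) * I + α = 1 + α := by
        push_cast
        ring
      rw [h4] at h2
      exact h2)
  refine ⟨C + K, fun α h0 h1 => ?_⟩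
  have h2 := hC α h0 h1
  have hs : 1 < ((1 : ℂ) - θ * I + α).re := by
    simp
    exact h0
  obtain ⟨R, hR, hLT⟩ := hlog (fun n => χ (n : ZMod N)) (cm_char χ) _ hs
  rw [hLT, norm_exp, Real.log_exp]
  have h3 : PS (fun n => b n * χ (n : ZMod N)) (1 - θ * I + α) =
      PS (fun n => b n * ((n : ℂ) ^ ((θ : ℂ) * I) * χ (n : ZMod N))) (1 + α) := by
    have h4 : (1 : ℂ) - θ * I + α = 1 + α - θ * I := by ring
    rw [h4, ECH_shift]
    congr 1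
    funext n
    ring
  rw [h3]
  have h5 : ∑ χ' : DirichletCharacter ℂ N, c χ' *
      (if χ'⁻¹ * χ = 1 ∧ (0 : ℝ) = 0 then 1 else 0) = c χ := by
    have h6 : ∀ χ' : DirichletCharacter ℂ N, c χ' *
      (if χ'⁻¹ * χ = 1 ∧ (0 : ℝ) = 0 then 1 else 0) = if χ' = χ then c χ' else 0 := by
      intro χ'
      have h7 : (χ'⁻¹ * χ = 1 ∧ (0 : ℝ) = 0) ↔ χ' = χ := by
        rw [inv_mul_eq_one]
        simp
      by_cases h8 : χ' = χ
      · rw [if_pos (h7.2 h8), if_pos h8, mul_one]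
      · rw [if_neg (fun h9 => h8 (h7.1 h9)), if_neg h8, mul_zero]
    rw [Finset.sum_congr rfl fun χ' _ => h6 χ', Finset.sum_ite_eq' Finset.univ χ c,
      if_pos (Finset.mem_univ _)]
  rw [h5] at h2
  have h8 : ((if χ = 1 ∧ -(2 * θ) = 0 then 1 else 0 : ℂ)) =
      ((if θ = 0 ∧ χ = 1 then 1 else 0 : ℝ) : ℂ) := by
    have h9 : (χ = 1 ∧ -(2 * θ) = 0) ↔ (θ = 0 ∧ χ = 1) := by
      constructor
      · rintro ⟨h10, h11⟩
        exact ⟨by linarith, h10⟩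
      · rintro ⟨h10, h11⟩
        exact ⟨h11, by rw [h10]; ring⟩
    by_cases h10 : θ = 0 ∧ χ = 1
    · rw [if_pos h10, if_pos (h9.2 h10), ofReal_one]
    · rw [if_neg h10, if_neg (fun h11 => h10 (h9.1 h11)), ofReal_zero]
  rw [h8] at h2
  set P := PS (fun n => b n * ((n : ℂ) ^ ((θ : ℂ) * I) * χ (n : ZMod N))) (1 + α) with hP
  set e : ℝ := if θ = 0 ∧ χ = 1 then 1 else 0 with he
  have h9 : (P + R).re + ((c χ).re + e) * Real.log α =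
      (P + ((e : ℂ) + c χ) * (Real.log α : ℂ) + R).re := by
    simp only [add_re, mul_re, ofReal_re, ofReal_im, mul_zero, sub_zero, add_im]
    ring
  rw [h9]
  refine (abs_re_le_norm _).trans ((norm_add_le _ _).trans (add_le_add h2 hR))

theorem ech_one {b : ℕ → ℂ} (h : PD b) (N : ℕ) [NeZero N] (θ : ℝ) (B : Set ℕ) (hB : B.Finite)
    (hgood : ∀ r : ℕ, r.Prime → r ∉ B → ¬ r ∣ N) (c : DirichletCharacter ℂ N → ℂ)
    (hb : ∃ C : ℝ, 0 ≤ C ∧ ∀ r : ℕ, r.Prime → r ∉ B →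
      ‖b r * (r : ℂ) ^ ((θ : ℂ) * I) - ((r : ℂ) ^ (2 * (θ : ℂ) * I) +
        ∑ χ : DirichletCharacter ℂ N, c χ * (χ (r : ZMod N))⁻¹)‖ ≤
        C * (r : ℝ) ^ (-(1 / 2) : ℝ)) :
    ∃ C : ℝ, ∀ α : ℝ, 0 < α → α ≤ 1 →
      ‖PS b (1 + θ * I + α) + (1 + if θ = 0 then c 1 else 0) * (Real.log α : ℂ)‖ ≤ C := by
  have _ := hgood
  have hpw : ∀ n : ℕ, (n : ℂ) ^ (((-(2 * θ) : ℝ) : ℂ) * I) =
      (n : ℂ) ^ (-(2 * (θ : ℂ) * I)) := by
    intro n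
    congr 1
    push_cast
    ring
  obtain ⟨C, hC⟩ := ECH_comb h N θ B hB c hb (fun n => (n : ℂ) ^ (((-(2 * θ) : ℝ) : ℂ) * I))
    (fun n => (cm_pow (-(2 * θ))).bd n) 1
    (fun χ' => if χ'⁻¹ = 1 ∧ 2 * θ = 0 then 1 else 0) (by
      obtain ⟨C, hC⟩ := dir_one (L := 1)
      refine ⟨C, fun α h0 h1 => ?_⟩
      have h2 := hC α h0 h1
      have h3 : PS (fun n => (n : ℂ) ^ (2 * (θ : ℂ) * I) *
          (n : ℂ) ^ (((-(2 * θ) : ℝ) : ℂ) * I)) (1 + α) =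
          PS (fun n => (1 : DirichletCharacter ℂ 1) (n : ZMod 1)) (1 + α) := by
        unfold PS
        refine tsum_congr fun p => ?_
        have hp : ((p : ℕ) : ℂ) ≠ 0 := Nat.cast_ne_zero.2 p.2.ne_zero
        have h4 : (1 : DirichletCharacter ℂ 1) (((p : ℕ)) : ZMod 1) = 1 := by
          rw [MulChar.one_apply (isUnit_of_subsingleton _)]
        simp only
        rw [h4, ← cpow_add _ _ hp]
        have h5 : 2 * (θ : ℂ) * I + ((-(2 * θ) : ℝ) : ℂ) * I = 0 := by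
          push_cast
          ring
        rw [h5, cpow_zero]
      rw [h3, one_mul]
      exact h2) (by
      intro χ'
      obtain ⟨C, hC⟩ := ECH_char (χ'⁻¹) (2 * θ)
      refine ⟨C, fun α h0 h1 => ?_⟩
      have h2 := hC α h0 h1
      have h3 : (fun n : ℕ => (χ' (n : ZMod N))⁻¹ * (n : ℂ) ^ (((-(2 * θ) : ℝ) : ℂ) * I)) =
          fun n : ℕ => (n : ℂ) ^ (((-(2 * θ) : ℝ) : ℂ) * I) * (χ'⁻¹) (n : ZMod N) := by
        funext n
        rw [MulChar.inv_apply_eq_inv', mul_comm]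
      rw [h3, ← ECH_shift (fun n => (χ'⁻¹) (n : ZMod N)) (-(2 * θ)) (1 + α)]
      have h4 : (1 : ℂ) + α - ((-(2 * θ) : ℝ) : ℂ) * I = 1 + ((2 * θ : ℝ) : ℂ) * I + α := by
        push_cast
        ring
      rw [h4]
      exact h2)
  refine ⟨C, fun α h0 h1 => ?_⟩
  have h2 := hC α h0 h1
  have h3 : PS b (1 + θ * I + α) =
      PS (fun n => b n * ((n : ℂ) ^ ((θ : ℂ) * I) *
        (n : ℂ) ^ (((-(2 * θ) : ℝ) : ℂ) * I))) (1 + α) := by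
    unfold PS
    refine tsum_congr fun p => ?_
    have hp : ((p : ℕ) : ℂ) ≠ 0 := Nat.cast_ne_zero.2 p.2.ne_zero
    simp only
    rw [mul_assoc, ← cpow_add _ _ hp, ← cpow_add _ _ hp]
    congr 2
    push_cast
    ring
  rw [h3]
  have h5 : ∑ χ' : DirichletCharacter ℂ N, c χ' *
      (if χ'⁻¹ = 1 ∧ 2 * θ = 0 then 1 else 0) = if θ = 0 then c 1 else 0 := by
    by_cases hθ : θ = 0
    · rw [if_pos hθ]
      have h6 : ∀ χ' : DirichletCharacter ℂ N, c χ' *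
        (if χ'⁻¹ = 1 ∧ 2 * θ = 0 then 1 else 0) = if χ' = 1 then c χ' else 0 := by
        intro χ'
        have h7 : (χ'⁻¹ = 1 ∧ 2 * θ = 0) ↔ χ' = 1 := by
          rw [inv_eq_one, hθ]
          simp
        by_cases h8 : χ' = 1
        · rw [if_pos (h7.2 h8), if_pos h8, mul_one]
        · rw [if_neg (fun h9 => h8 (h7.1 h9)), if_neg h8, mul_zero]
      rw [Finset.sum_congr rfl fun χ' _ => h6 χ', Finset.sum_ite_eq' Finset.univ 1 c,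
        if_pos (Finset.mem_univ _)]
    · rw [if_neg hθ]
      refine Finset.sum_eq_zero fun χ' _ => ?_
      rw [if_neg (fun h9 => hθ (by linarith [h9.2])), mul_zero]
  rw [h5] at h2
  exact h2

end Pool.Agent.H11.PC
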