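import Mathlib
import Pool.Agent.H11.PC.Defs
import Pool.Agent.H11.PC.KAPB
import Pool.Agent.H11.PC.TWN
import Pool.Agent.H11.PC.ECH
import Pool.Agent.H11.PC.VSP
import Pool.Agent.H11.PC.LAMC

/-!
# ONEC: exactly one character occurs

`c χ = γ χ χ(a0) / w`, `∑ c χ = 1` (hypothesis `h0`).
(1) `ech_one` and `D.logz`: `‖((M+1) - 1 - [θ=0] c 1) log α‖ ≤ C` for all small `α`, so `M = [θ = 0] c 1`:
`θ ≠ 0 → M = 0`, `θ = 0 → c 1 = M`.
(2) If `c χ ≠ 0` then `γ χ ≠ 0`; `gam = kap * LT b χ`, `‖kap‖ ≤ K` (`kap_bound`), so for `U`-almost all `α`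
`K α^(M+1) ‖LT b χ (1-θI+α)‖ ≥ ‖γ χ‖/2`, and `ech` gives
`((c χ).re + [θ=0,χ=1]) log(1/α) ≥ (M+1) log(1/α) - C` along `U`, so `(c χ).re + [θ = 0 ∧ χ = 1] ≥ M + 1`
(`log(1/α) → ∞`).
(3) `θ ≠ 0`: `M = 0`, every `χ` with `c χ ≠ 0` has `(c χ).re ≥ 1`, and the sum of the real parts is `1`: exactly one `χX`, and
`c χX = ∑ c = 1`.  `χX ≠ 1`: otherwise `γ 1 ≠ 0`, so `α ‖LT b 1 (1 - θI + α)‖` is bounded below along `U`; but
`Es b 0 (1 - θI + α) = LT b (fun _ => 1)` and `LT b (χ = 1 mod N) = Es b 0 (s) / ∏_{p | N} FL b p (p^(-s))`-type relation shows it is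
`≤ C ‖Es b 0 (1 - θI + α)‖` (remove the primes `p | N` one after the other with `prime_split` of `VSP.lean`, `g = ` product of
`ind`'s; `‖FL b p (g p p^(-s))‖ ≥ c > 0` by `FL_cont`, `h.loc` and compactness), and `α^(M+1) Es b 0 (1 - θI + α) → 0`
(`D.zero'`): contradiction.
(4) `θ = 0`: `c 1 = M`.  If `M ≥ 1` then `(c 1).re = M ≥ 1`, all other `χ` with `c χ ≠ 0` have `(c χ).re ≥ M + 1`, sum of real parts
`1`: so no other one, `M = 1`, `c 1 = 1`, `χX = 1`.  If `M = 0` then `c 1 = 0`, the others have `(c χ).re ≥ 1`: exactly one, `χX ≠ 1`.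
-/

set_option autoImplicit false

namespace Pool.Agent.H11.PC

open Complex Filter Topology

/-- a number whose product with `log α` is bounded vanishes -/
private theorem onec_log {z : ℂ} {C : ℝ}
    (h : ∀ α : ℝ, 0 < α → α ≤ 1 → ‖z * (Real.log α : ℂ)‖ ≤ C) : z = 0 := by
  by_contra hz
  have hz' : 0 < ‖z‖ := norm_pos_iff.2 hz
  have hC : 0 ≤ C := (norm_nonneg _).trans (h 1 one_pos le_rfl)
  have hα : Real.exp (-((C + 1) / ‖z‖)) ≤ 1 := by
    rw [Real.exp_le_one_iff, neg_nonpos]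
    positivity
  have h1 := h _ (Real.exp_pos _) hα
  rw [Real.log_exp, norm_mul, Complex.norm_real, norm_neg, Real.norm_of_nonneg (by positivity),
    mul_div_cancel₀ _ hz'.ne'] at h1
  linarith

private theorem onec_sum {ι : Type*} [Fintype ι] (c : ι → ℂ) (h1 : ∑ i, c i = 1)
    (h : ∀ i, c i ≠ 0 → 1 ≤ (c i).re) : ∃ i, c i = 1 ∧ ∀ j, j ≠ i → c j = 0 := by
  classical
  obtain ⟨i, hi⟩ : ∃ i, c i ≠ 0 := by
    by_contra hn
    push Not at hn
    rw [Finset.sum_eq_zero fun i _ => hn i] at h1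
    exact zero_ne_one h1
  have hnn : ∀ j, 0 ≤ (c j).re := by
    intro j
    by_cases hj : c j = 0
    · rw [hj, zero_re]
    · exact zero_le_one.trans (h j hj)
  have h2 : ∀ j, j ≠ i → c j = 0 := by
    intro j hj
    by_contra hj0
    have h3 : ∑ k, (c k).re = 1 := by
      rw [← re_sum, h1, one_re]
    have h4 : ∑ k ∈ ({i, j} : Finset ι), (c k).re ≤ ∑ k, (c k).re :=
      Finset.sum_le_sum_of_subset_of_nonneg (Finset.subset_univ _) fun k _ _ => hnn k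
    rw [Finset.sum_pair hj.symm, h3] at h4
    have h5 := h i hi
    have h6 := h j hj0
    linarith
  refine ⟨i, ?_, h2⟩
  rw [← h1]
  exact (Finset.sum_eq_single i (fun j _ hj => h2 j hj)
    (fun hn => absurd (Finset.mem_univ i) hn)).symm

/-- the product of the indicator functions -/
private noncomputable def onec_g (S : Finset ℕ) (n : ℕ) : ℂ := ∏ r ∈ S, ind r n

private theorem onec_cm (S : Finset ℕ) (hS : ∀ r ∈ S, r.Prime) : CM (onec_g S) := by
  classical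
  induction S using Finset.induction_on with
  | empty =>
    have h : onec_g ∅ = fun _ => 1 := by
      funext n
      rw [onec_g, Finset.prod_empty]
    rw [h]
    exact cm_one
  | insert r S hr ih =>
    have h : onec_g (insert r S) = fun n => ind r n * onec_g S n := by
      funext n
      rw [onec_g, Finset.prod_insert hr]
      rfl
    rw [h]
    exact CM.times (cm_ind r (hS r (Finset.mem_insert_self r S)))
      (ih fun q hq => hS q (Finset.mem_insert_of_mem hq))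

private theorem onec_norm_cpow (r : ℕ) (hr : r.Prime) (s : ℂ) (hs : 1 < s.re) :
    ‖(r : ℂ) ^ (-s)‖ ≤ (r : ℝ) ^ (-(1 / 2) : ℝ) := by
  rw [Complex.norm_natCast_cpow_of_pos hr.pos, neg_re]
  exact Real.rpow_le_rpow_of_exponent_le (by exact_mod_cast hr.one_lt.le) (by linarith)

private theorem onec_FL {b : ℕ → ℂ} (h : PD b) (r : ℕ) (hr : r.Prime) :
    ∃ c : ℝ, 0 < c ∧ ∀ X : ℂ, ‖X‖ ≤ (r : ℝ) ^ (-(1 / 2) : ℝ) → c ≤ ‖FL b r X‖ := by
  have h1 := (FL_cont h r hr).norm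
  have hr0 : (0 : ℝ) ≤ (r : ℝ) ^ (-(1 / 2) : ℝ) := by positivity
  obtain ⟨x, hx, hmin⟩ := (isCompact_closedBall (0 : ℂ) ((r : ℝ) ^ (-(1 / 2) : ℝ))).exists_isMinOn
    ⟨0, Metric.mem_closedBall_self hr0⟩ h1
  refine ⟨‖FL b r x‖, ?_, fun X hX => ?_⟩
  · rw [norm_pos_iff]
    rw [mem_closedBall_zero_iff] at hx
    exact h.loc r hr x hx
  · exact hmin (by rw [mem_closedBall_zero_iff]; exact hX)

private theorem onec_remove {b : ℕ → ℂ} (h : PD b) (S : Finset ℕ) (hS : ∀ r ∈ S, r.Prime) :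
    ∃ C : ℝ, 0 ≤ C ∧ ∀ s : ℂ, 1 < s.re → ‖LT b (onec_g S) s‖ ≤ C * ‖LT b (fun _ => 1) s‖ := by
  classical
  induction S using Finset.induction_on with
  | empty =>
    refine ⟨1, zero_le_one, fun s _ => ?_⟩
    have h : onec_g ∅ = fun _ => 1 := by
      funext n
      rw [onec_g, Finset.prod_empty]
    rw [h, one_mul]
  | insert r S hr ih =>
    obtain ⟨C, hC, hCs⟩ := ih fun q hq => hS q (Finset.mem_insert_of_mem hq)
    have hrp := hS r (Finset.mem_insert_self r S)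
    obtain ⟨c, hc, hcF⟩ := onec_FL h r hrp
    have hcm := onec_cm S fun q hq => hS q (Finset.mem_insert_of_mem hq)
    refine ⟨C / c, by positivity, fun s hs => ?_⟩
    have h1 : onec_g (insert r S) = fun n => ind r n * onec_g S n := by
      funext n
      rw [onec_g, Finset.prod_insert hr]
      rfl
    have h2 := prime_split h (onec_g S) hcm r hrp s hs
    rw [← h1] at h2
    have h3 : c ≤ ‖FL b r (onec_g S r * (r : ℂ) ^ (-s))‖ := by
      apply hcF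
      rw [norm_mul]
      calc ‖onec_g S r‖ * ‖(r : ℂ) ^ (-s)‖ ≤ 1 * ‖(r : ℂ) ^ (-s)‖ :=
            mul_le_mul_of_nonneg_right (hcm.bd r) (norm_nonneg _)
        _ = ‖(r : ℂ) ^ (-s)‖ := one_mul _
        _ ≤ _ := onec_norm_cpow r hrp s hs
    have h4 : c * ‖LT b (onec_g (insert r S)) s‖ ≤ C * ‖LT b (fun _ => 1) s‖ := by
      refine le_trans ?_ (hCs s hs)
      rw [h2, norm_mul]
      exact mul_le_mul_of_nonneg_right h3 (norm_nonneg _)
    rw [div_mul_eq_mul_div, le_div_iff₀ hc, mul_comm]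
    exact h4

private theorem onec_char_one (N : ℕ) [NeZero N] (n : ℕ) :
    (1 : DirichletCharacter ℂ N) (n : ZMod N) = onec_g N.primeFactors n := by
  have hN : N ≠ 0 := NeZero.ne N
  by_cases hn : Nat.Coprime n N
  · rw [MulChar.one_apply ((ZMod.isUnit_iff_coprime n N).2 hn), onec_g]
    refine (Finset.prod_eq_one fun r hr => ?_).symm
    rw [ind, if_neg]
    intro hrn
    have hr' := Nat.mem_primeFactors.1 hr
    have h1 : r ∣ Nat.gcd n N := Nat.dvd_gcd hrn hr'.2.1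
    rw [hn] at h1
    exact hr'.1.one_lt.ne' (Nat.dvd_one.1 h1)
  · have h1 : ¬ IsUnit (n : ZMod N) := fun h => hn ((ZMod.isUnit_iff_coprime n N).1 h)
    rw [MulChar.map_nonunit _ h1, onec_g]
    obtain ⟨r, hr, hrd⟩ := Nat.exists_prime_and_dvd (n := Nat.gcd n N) hn
    refine (Finset.prod_eq_zero (i := r) ?_ ?_).symm
    · exact Nat.mem_primeFactors.2 ⟨hr, hrd.trans (Nat.gcd_dvd_right _ _), hN⟩
    · rw [ind, if_pos (hrd.trans (Nat.gcd_dvd_left _ _))]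

private theorem onec_Es (b : ℕ → ℂ) (s : ℂ) : Es b 0 s = LT b (fun _ => 1) s := by
  rw [Es, LT]
  congr 1
  funext n
  rw [ofReal_zero, mul_zero, zero_mul, neg_zero, Complex.exp_zero]

private theorem onec_re (θ α : ℝ) : (1 - θ * I + α : ℂ).re = 1 + α := by
  simp

private theorem onec_rho {b : ℕ → ℂ} {N a0 M : ℕ} [NeZero N] {θ : ℝ} {w w0 : ℂ}
    (D : CD b N a0 M θ w w0) (U : Ultrafilter ℝ) (hU : (U : Filter ℝ) ≤ 𝓝[>] 0) (g : ℂ)
    (χ : DirichletCharacter ℂ N) (ρ : ℝ)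
    (hγ : Tendsto (fun α : ℝ => (α : ℂ) ^ (M + 1) * gam b N χ (1 - θ * I + α)) U (𝓝 g))
    (hρ : ∃ C : ℝ, ∀ α : ℝ, 0 < α → α ≤ 1 →
      |Real.log ‖LT b (fun n => χ (n : ZMod N)) (1 - θ * I + α)‖ + ρ * Real.log α| ≤ C)
    (hg : g ≠ 0) : (M : ℝ) + 1 ≤ ρ := by
  by_contra hlt
  push Not at hlt
  apply hg
  obtain ⟨C, hC⟩ := hρ
  obtain ⟨K, hK, hKb⟩ := kap_bound D.pd N
  have hδ : 0 < (M : ℝ) + 1 - ρ := by linarith
  have hlim : Tendsto (fun α : ℝ => K * Real.exp C * α ^ ((M : ℝ) + 1 - ρ)) (𝓝[>] 0) (𝓝 0) := by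
    have h1 : Tendsto (fun α : ℝ => α ^ ((M : ℝ) + 1 - ρ)) (𝓝[>] 0) (𝓝 0) := by
      have h2 := (Real.continuousAt_rpow_const 0 ((M : ℝ) + 1 - ρ) (Or.inr hδ.le)).tendsto
      rw [Real.zero_rpow hδ.ne'] at h2
      exact h2.mono_left nhdsWithin_le_nhds
    have h3 := h1.const_mul (K * Real.exp C)
    rwa [mul_zero] at h3
  have hz : Tendsto (fun α : ℝ => (α : ℂ) ^ (M + 1) * gam b N χ (1 - θ * I + α)) (𝓝[>] 0)
      (𝓝 0) := by
    refine squeeze_zero_norm' ?_ hlim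
    have hev : ∀ᶠ α : ℝ in 𝓝[>] 0, 0 < α ∧ α ≤ 1 := by
      filter_upwards [Ioc_mem_nhdsGT (zero_lt_one' ℝ)] with α hα
      exact hα
    filter_upwards [hev] with α hα
    obtain ⟨hα0, hα1⟩ := hα
    have h1 : ‖kap b N (fun _ => 1) χ (1 - θ * I + α)‖ ≤ K := by
      apply hKb
      · intro n
        rw [norm_one]
      · rw [onec_re]
        linarith
    have h2 : ‖LT b (fun n => χ (n : ZMod N)) (1 - θ * I + α)‖ ≤
        Real.exp (C - ρ * Real.log α) := by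
      refine (Real.le_exp_log _).trans ?_
      rw [Real.exp_le_exp]
      have := (abs_le.1 (hC α hα0 hα1)).2
      linarith
    rw [norm_mul, gam, norm_mul, norm_pow, Complex.norm_real, Real.norm_of_nonneg hα0.le]
    have h3 : α ^ (M + 1) = Real.exp (Real.log α * ((M : ℝ) + 1)) := by
      rw [← Real.rpow_def_of_pos hα0, ← Real.rpow_natCast]
      push_cast
      rfl
    have h4 : α ^ ((M : ℝ) + 1 - ρ) = Real.exp (Real.log α * ((M : ℝ) + 1 - ρ)) :=
      Real.rpow_def_of_pos hα0 _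
    calc α ^ (M + 1) * (‖kap b N (fun _ => 1) χ (1 - θ * I + α)‖ *
          ‖LT b (fun n => χ (n : ZMod N)) (1 - θ * I + α)‖)
        ≤ α ^ (M + 1) * (K * Real.exp (C - ρ * Real.log α)) := by gcongr
      _ = K * Real.exp C * α ^ ((M : ℝ) + 1 - ρ) := by
          rw [h3, h4]
          have e : Real.exp (Real.log α * ((M : ℝ) + 1)) * Real.exp (C - ρ * Real.log α) =
              Real.exp C * Real.exp (Real.log α * ((M : ℝ) + 1 - ρ)) := by
            rw [← Real.exp_add, ← Real.exp_add]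
            congr 1
            ring
          linear_combination K * e
  exact tendsto_nhds_unique hγ (hz.mono_left hU)

private theorem onec_ne_one {b : ℕ → ℂ} {N a0 M : ℕ} [NeZero N] {θ : ℝ} {w w0 : ℂ}
    (D : CD b N a0 M θ w w0) (U : Ultrafilter ℝ) (hU : (U : Filter ℝ) ≤ 𝓝[>] 0) (g : ℂ)
    (hγ : Tendsto (fun α : ℝ => (α : ℂ) ^ (M + 1) * gam b N 1 (1 - θ * I + α)) U (𝓝 g))
    (hθ : θ ≠ 0) : g = 0 := by
  obtain ⟨K, hK, hKb⟩ := kap_bound D.pd N
  obtain ⟨C, hC, hCs⟩ := onec_remove D.pd N.primeFactors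
    (fun r hr => (Nat.mem_primeFactors.1 hr).1)
  have hlim : Tendsto (fun α : ℝ => K * C * ‖(α : ℂ) ^ (M + 1) * Es b 0 (1 - θ * I + α)‖)
      (𝓝[>] 0) (𝓝 0) := by
    have h3 := ((D.zero' hθ).norm).const_mul (K * C)
    rwa [norm_zero, mul_zero] at h3
  have hz : Tendsto (fun α : ℝ => (α : ℂ) ^ (M + 1) * gam b N 1 (1 - θ * I + α)) (𝓝[>] 0)
      (𝓝 0) := by
    refine squeeze_zero_norm' ?_ hlim
    have hev : ∀ᶠ α : ℝ in 𝓝[>] 0, 0 < α ∧ α ≤ 1 := by
      filter_upwards [Ioc_mem_nhdsGT (zero_lt_one' ℝ)] with α hα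
      exact hα
    filter_upwards [hev] with α hα
    obtain ⟨hα0, hα1⟩ := hα
    have hs : 1 < (1 - θ * I + α : ℂ).re := by
      rw [onec_re]
      linarith
    have h1 : ‖kap b N (fun _ => 1) 1 (1 - θ * I + α)‖ ≤ K := by
      apply hKb
      · intro n
        rw [norm_one]
      · exact hs.le
    have h2 : ‖LT b (fun n => (1 : DirichletCharacter ℂ N) (n : ZMod N)) (1 - θ * I + α)‖ ≤
        C * ‖Es b 0 (1 - θ * I + α)‖ := by
      rw [onec_Es]
      have e : (fun n : ℕ => (1 : DirichletCharacter ℂ N) (n : ZMod N)) =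
          onec_g N.primeFactors := by
        funext n
        exact onec_char_one N n
      rw [e]
      exact hCs _ hs
    rw [norm_mul, gam, norm_mul, norm_mul]
    calc ‖(α : ℂ) ^ (M + 1)‖ * (‖kap b N (fun _ => 1) 1 (1 - θ * I + α)‖ *
          ‖LT b (fun n => (1 : DirichletCharacter ℂ N) (n : ZMod N)) (1 - θ * I + α)‖)
        ≤ ‖(α : ℂ) ^ (M + 1)‖ * (K * (C * ‖Es b 0 (1 - θ * I + α)‖)) := by gcongr
      _ = _ := by ring
  exact tendsto_nhds_unique hγ (hz.mono_left hU)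

theorem one_char {b : ℕ → ℂ} {N a0 M : ℕ} [NeZero N] {θ : ℝ} {w w0 : ℂ} (D : CD b N a0 M θ w w0)
    (U : Ultrafilter ℝ) (hU : (U : Filter ℝ) ≤ 𝓝[>] 0) (B : Set ℕ) (hB : B.Finite)
    (hgood : ∀ r : ℕ, r.Prime → r ∉ B → ¬ r ∣ N) (γ : DirichletCharacter ℂ N → ℂ)
    (hγ : ∀ χ, Tendsto (fun α : ℝ => (α : ℂ) ^ (M + 1) * gam b N χ (1 - θ * I + α)) U (𝓝 (γ χ)))
    (h0 : ∑ χ : DirichletCharacter ℂ N, γ χ * χ (a0 : ZMod N) = w)
    (hb : ∃ C : ℝ, 0 ≤ C ∧ ∀ r : ℕ, r.Prime → r ∉ B →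
      ‖b r * (r : ℂ) ^ ((θ : ℂ) * I) - ((r : ℂ) ^ (2 * (θ : ℂ) * I) +
        ∑ χ : DirichletCharacter ℂ N, (γ χ * χ (a0 : ZMod N) / w) * (χ (r : ZMod N))⁻¹)‖ ≤
        C * (r : ℝ) ^ (-(1 / 2) : ℝ)) :
    ∃ χX : DirichletCharacter ℂ N, γ χX * χX (a0 : ZMod N) = w ∧
      (∀ χ : DirichletCharacter ℂ N, χ ≠ χX → γ χ = 0) ∧
      ((θ = 0 ∧ χX = 1 ∧ M = 1) ∨ χX ≠ 1) := by
  classical
  have hunit : IsUnit (a0 : ZMod N) := (ZMod.isUnit_iff_coprime a0 N).2 D.cop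
  have hχa : ∀ χ : DirichletCharacter ℂ N, χ (a0 : ZMod N) ≠ 0 := fun χ =>
    (hunit.map χ).ne_zero
  obtain ⟨c, hc⟩ : ∃ c : DirichletCharacter ℂ N → ℂ,
      ∀ χ, c χ = γ χ * χ (a0 : ZMod N) / w := ⟨_, fun _ => rfl⟩
  have hb' : ∃ C : ℝ, 0 ≤ C ∧ ∀ r : ℕ, r.Prime → r ∉ B →
      ‖b r * (r : ℂ) ^ ((θ : ℂ) * I) - ((r : ℂ) ^ (2 * (θ : ℂ) * I) +
        ∑ χ : DirichletCharacter ℂ N, c χ * (χ (r : ZMod N))⁻¹)‖ ≤
        C * (r : ℝ) ^ (-(1 / 2) : ℝ) := by
    obtain ⟨C, hC, h⟩ := hb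
    refine ⟨C, hC, fun r hr hrB => ?_⟩
    have e : ∑ χ : DirichletCharacter ℂ N, c χ * (χ (r : ZMod N))⁻¹ =
        ∑ χ : DirichletCharacter ℂ N, (γ χ * χ (a0 : ZMod N) / w) * (χ (r : ZMod N))⁻¹ :=
      Finset.sum_congr rfl fun χ _ => by rw [hc]
    rw [e]
    exact h r hr hrB
  have hsum : ∑ χ, c χ = 1 := by
    have e : ∑ χ, c χ = ∑ χ : DirichletCharacter ℂ N, γ χ * χ (a0 : ZMod N) / w :=
      Finset.sum_congr rfl fun χ _ => hc χ
    rw [e, ← Finset.sum_div, h0, div_self D.w_ne]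
  have hc0 : ∀ χ, c χ ≠ 0 → γ χ ≠ 0 := by
    intro χ h1 h2
    apply h1
    rw [hc, h2, zero_mul, zero_div]
  -- the exponent at the pole
  have hM : (if θ = 0 then c 1 else 0) = (M : ℂ) := by
    obtain ⟨C1, hC1⟩ := ech_one D.pd N θ B hB hgood c hb'
    obtain ⟨C2, hC2⟩ := D.logz
    have h3 : (if θ = 0 then c 1 else 0) - (M : ℂ) = 0 := by
      refine onec_log (C := C1 + C2) fun α hα0 hα1 => ?_
      have h4 := hC1 α hα0 hα1
      have h5 := hC2 α hα0 hα1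
      have h6 : ((if θ = 0 then c 1 else 0) - (M : ℂ)) * (Real.log α : ℂ) =
          (PS b (1 + θ * I + α) + (1 + if θ = 0 then c 1 else 0) * (Real.log α : ℂ)) -
          (PS b (1 + θ * I + α) + ((M : ℂ) + 1) * (Real.log α : ℂ)) := by ring
      rw [h6]
      exact (norm_sub_le _ _).trans (add_le_add h4 h5)
    exact sub_eq_zero.1 h3
  have hrho : ∀ χ, c χ ≠ 0 →
      (M : ℝ) + 1 ≤ (c χ).re + if θ = 0 ∧ χ = 1 then 1 else 0 := by
    intro χ h1
    refine onec_rho D U hU (γ χ) χ _ (hγ χ) ?_ (hc0 χ h1)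
    obtain ⟨C, hC⟩ := ech D.pd N θ B hB hgood c hb' χ
    exact ⟨C, hC⟩
  have hre : ∀ χ, c χ ≠ 0 → 1 ≤ (c χ).re := by
    intro χ h1
    have h2 := hrho χ h1
    by_cases hθ : θ = 0
    · by_cases hχ : χ = 1
      · rw [if_pos hθ] at hM
        subst hχ
        rw [hM] at h1 ⊢
        rw [natCast_re]
        have h3 : M ≠ 0 := by
          rintro rfl
          exact h1 Nat.cast_zero
        exact_mod_cast Nat.one_le_iff_ne_zero.2 h3
      · rw [if_neg (fun h => hχ h.2), add_zero] at h2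
        have : (0 : ℝ) ≤ M := Nat.cast_nonneg M
        linarith
    · rw [if_neg (fun h => hθ h.1), add_zero] at h2
      have : (0 : ℝ) ≤ M := Nat.cast_nonneg M
      linarith
  obtain ⟨χX, hX1, hX2⟩ := onec_sum c hsum hre
  have hw : γ χX * χX (a0 : ZMod N) = w := by
    have h1 := hc χX
    rw [hX1, eq_div_iff D.w_ne, one_mul] at h1
    exact h1.symm
  refine ⟨χX, hw, ?_, ?_⟩
  · intro χ hχ
    have h1 := hc χ
    rw [hX2 χ hχ] at h1
    have h2 : γ χ * χ (a0 : ZMod N) = 0 := by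
      rcases div_eq_zero_iff.1 h1.symm with h3 | h3
      · exact h3
      · exact absurd h3 D.w_ne
    rcases mul_eq_zero.1 h2 with h3 | h3
    · exact h3
    · exact absurd h3 (hχa χ)
  · by_cases hX : χX = 1
    · left
      subst hX
      by_cases hθ : θ = 0
      · refine ⟨hθ, rfl, ?_⟩
        rw [if_pos hθ, hX1] at hM
        exact_mod_cast hM.symm
      · exfalso
        have h1 := onec_ne_one D U hU (γ 1) (hγ 1) hθ
        rw [h1, zero_mul] at hw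
        exact D.w_ne hw.symm
    · exact Or.inr hX

end Pool.Agent.H11.PC
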