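import Mathlib
import Pool.Agent.H11.PC.CMG
import Pool.Agent.H11.PC.SUMM
import Pool.Agent.H11.PC.KAPB
import Pool.Agent.H11.PC.TWN
import Pool.Agent.H11.PC.VSP
import Pool.Agent.H11.PC.EXPC

/-!
# MLIM: the main identity, in the limit

`s = 1 - θI + α`, `f n = e(-n a0/(N r^k))`, `q = r^(-s)`.  `vsplit` for `Es b (a0/(N r^k)) s` (`Es` is the L-series of
`b n * f n`).  Terms:
* `j < k`: with `e = k - j`, `f (r^j n) = e(-n a0/(N r^e))`; by `exp_char` (for `r ∤ n`, and `ind r n = 0` otherwise)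
  `LSeries (b n (ind r n f(r^j n))) s = [e = 1](-1/(r-1)) H(u_1) + ∑_{ψ ≠ 1} c_ψ LSeries (b n (ψ n eN(n u_e))) s`, where
  `H(x) = LSeries (b n (ind r n eN(n x))) s`, `u_e = a0 r^(-e)` (`c 1 = 0`, and `ind r n ψ n = ψ n` as `e ≥ 1`);
* `j ≥ k`: `f (r^j n) = eN N (n a0 r^(j-k))`, so the L-series is `H(a0 r^(j-k))`.
`twist_N` with `g = ind r` (`kap_congr`: `ind r d = 1` for `Smo N d`, as `r ∤ N`), and `prime_split` with `g = χ`:
`H(x) = ∑_χ χ(x) kap b N 1 χ s LT b (ind χ) s = ∑_χ χ(x) gam b N χ s / FL b r (χ(r) q)` (`FL ≠ 0` by `h.loc`: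
`‖χ(r) q‖ ≤ 1/r ≤ r^(-1/2)`).  `χ(u_1) = χ(a0) χ(r)⁻¹`.  With `X = χ(r) q`: `b(r^j) q^j χ(r)^(j-k) =
(χ r)⁻¹^k b(r^j) X^j`, so the `H`-terms sum up to `∑_χ gam χ(a0) (χ r)⁻¹^k Lam b r k X` exactly.
The remaining terms are `∑_{j<k} b(r^j) q^j ∑_{ψ ≠ 1} c_ψ ∑_χ χ(u_e) kap b N ψ χ s LT b (ψ χ) s` (`twist_N` with
`g = ψ`); times `α^(M+1)` each tends to `0` along `U`, because `kap` is bounded (`kap_bound`), `‖q‖ ≤ 1` and `hgood`
(`ψ n χ n = prodChar χ ψ n`).  `U ≤ 𝓝[>] 0` gives `α > 0` eventually.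
-/

set_option autoImplicit false

namespace Pool.Agent.H11.PC

open Complex Filter Topology

private theorem mlim_exp (x : ℂ) (hx : x.im = 0) : ‖cexp (-(x * I))‖ = 1 := by
  rw [Complex.norm_exp]
  have : (-(x * I)).re = 0 := by simp [hx]
  rw [this, Real.exp_zero]

private theorem mlim_bdd {U : Filter ℝ} {f g : ℝ → ℂ} {C : ℝ} (hf : ∀ᶠ α in U, ‖f α‖ ≤ C)
    (hg : Tendsto g U (𝓝 0)) : Tendsto (fun α => f α * g α) U (𝓝 0) := by
  refine squeeze_zero_norm' (a := fun α => C * ‖g α‖) ?_ ?_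
  · filter_upwards [hf] with α h
    rw [norm_mul]
    exact mul_le_mul_of_nonneg_right h (norm_nonneg _)
  · have := hg.norm.const_mul C
    rwa [norm_zero, mul_zero] at this

/-- the component at `χ` of the series over the integers prime to `r` -/
private noncomputable def Pc (b : ℕ → ℂ) (N : ℕ) [NeZero N] (r : ℕ) (χ : DirichletCharacter ℂ N)
    (s : ℂ) : ℂ := gam b N χ s / FL b r (χ (r : ZMod N) * (r : ℂ) ^ (-s))

private theorem mlim_X (N : ℕ) (r : ℕ) (hr : r.Prime) (χ : DirichletCharacter ℂ N) (s : ℂ)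
    (hs : 1 < s.re) : ‖χ (r : ZMod N) * (r : ℂ) ^ (-s)‖ ≤ (r : ℝ) ^ (-(1 / 2) : ℝ) := by
  have hrR : (1 : ℝ) ≤ r := by exact_mod_cast hr.one_le
  rw [norm_mul, norm_natCast_cpow_of_pos hr.pos, neg_re]
  calc ‖χ (r : ZMod N)‖ * (r : ℝ) ^ (-s.re) ≤ 1 * (r : ℝ) ^ (-(1 / 2) : ℝ) :=
        mul_le_mul (χ.norm_le_one _) (Real.rpow_le_rpow_of_exponent_le hrR (by linarith))
          (Real.rpow_nonneg (by linarith) _) zero_le_one
    _ = _ := one_mul _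

private theorem mlim_H {b : ℕ → ℂ} (h : PD b) (N : ℕ) [NeZero N] (r : ℕ) (hr : r.Prime)
    (hrN : ¬ r ∣ N) (x : (ZMod N)ˣ) (s : ℂ) (hs : 1 < s.re) :
    LSeries (fun n => b n * (ind r n * eN N ((n : ZMod N) * (x : ZMod N)))) s =
      ∑ χ : DirichletCharacter ℂ N, χ (x : ZMod N) * Pc b N r χ s := by
  rw [twist_N h N (ind r) (cm_ind r hr) x s hs]
  refine Finset.sum_congr rfl fun χ _ => ?_
  rw [kap_congr b N (ind r) (fun _ => 1) (fun d hd => by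
    unfold ind
    rw [if_neg]
    exact fun h1 => hrN (hd.2 r hr h1)) χ s]
  unfold Pc gam
  rw [prime_split h (fun n => χ (n : ZMod N)) (cm_char χ) r hr s hs]
  have h0 : FL b r (χ (r : ZMod N) * (r : ℂ) ^ (-s)) ≠ 0 := h.loc r hr _ (mlim_X N r hr χ s hs)
  field_simp

private theorem mlim_W {b : ℕ → ℂ} (h : PD b) (N : ℕ) [NeZero N] (a0 : ℕ) (ha : Nat.Coprime a0 N)
    (M : ℕ) (θ : ℝ) (U : Filter ℝ) (hU : U ≤ 𝓝[>] 0) (r : ℕ) (hr : r.Prime) (hrN : ¬ r ∣ N)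
    (hra : ¬ r ∣ a0) (hgood : Good b N M θ U r) (e : ℕ) (he : 1 ≤ e) :
    Tendsto (fun α : ℝ => (α : ℂ) ^ (M + 1) *
      (LSeries (fun n => b n * (ind r n *
        cexp (-(2 * (Real.pi : ℂ) * n * (((a0 : ℝ) / ((N : ℝ) * (r : ℝ) ^ e) : ℝ) : ℂ) * I))))
          (1 - θ * I + α) -
        (if e = 1 then -(1 / ((r : ℂ) - 1)) else 0) *
        ∑ χ : DirichletCharacter ℂ N, χ (a0 : ZMod N) * (χ (r : ZMod N))⁻¹ *
          Pc b N r χ (1 - θ * I + α)))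
      U (𝓝 0) := by
  have hrcop : Nat.Coprime r N := (Nat.Prime.coprime_iff_not_dvd hr).2 hrN
  have : NeZero (r ^ e) := ⟨pow_ne_zero _ hr.ne_zero⟩
  obtain ⟨c, hc1, hc⟩ := exp_char N r hr hrcop a0 ha hra e he
  obtain ⟨C, hC0, hC⟩ := kap_bound h N
  have hpos : ∀ᶠ α in U, (0 : ℝ) < α := hU self_mem_nhdsWithin
  -- the exact form
  have key : ∀ s : ℂ, 1 < s.re →
      LSeries (fun n => b n * (ind r n *
        cexp (-(2 * (Real.pi : ℂ) * n * (((a0 : ℝ) / ((N : ℝ) * (r : ℝ) ^ e) : ℝ) : ℂ) * I)))) s -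
        (if e = 1 then -(1 / ((r : ℂ) - 1)) else 0) *
        ∑ χ : DirichletCharacter ℂ N, χ (a0 : ZMod N) * (χ (r : ZMod N))⁻¹ * Pc b N r χ s =
      ∑ ψ : DirichletCharacter ℂ (r ^ e), ∑ χ : DirichletCharacter ℂ N,
        (c ψ * χ (((ZMod.unitOfCoprime a0 ha) * ((ZMod.unitOfCoprime r hrcop)⁻¹) ^ e :
          (ZMod N)ˣ) : ZMod N) * kap b N (fun n => ψ (n : ZMod (r ^ e))) χ s) *
          LT b (prodChar χ ψ) s := by
    intro s hs
    obtain ⟨u, hu⟩ : ∃ u : (ZMod N)ˣ, u = (ZMod.unitOfCoprime a0 ha) *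
      ((ZMod.unitOfCoprime r hrcop)⁻¹) ^ e := ⟨_, rfl⟩
    rw [← hu] at hc ⊢
    obtain ⟨κ, hκ⟩ : ∃ κ : ℂ, κ = if e = 1 then -(1 / ((r : ℂ) - 1)) else 0 := ⟨_, rfl⟩
    rw [← hκ]
    simp only [← hκ] at hc
    have hfun : (fun n : ℕ => b n * (ind r n *
        cexp (-(2 * (Real.pi : ℂ) * n * (((a0 : ℝ) / ((N : ℝ) * (r : ℝ) ^ e) : ℝ) : ℂ) * I)))) =
        κ • (fun n : ℕ => b n * (ind r n * eN N ((n : ZMod N) * (u : ZMod N)))) +
        ∑ ψ : DirichletCharacter ℂ (r ^ e), c ψ •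
          (fun n : ℕ => b n * (ψ (n : ZMod (r ^ e)) * eN N ((n : ZMod N) * (u : ZMod N)))) := by
      funext n
      rw [Pi.add_apply, Pi.smul_apply, Finset.sum_apply]
      simp only [Pi.smul_apply, smul_eq_mul]
      by_cases hn : r ∣ n
      · have hi : ind r n = 0 := by unfold ind; rw [if_pos hn]
        have hψ : ∀ ψ : DirichletCharacter ℂ (r ^ e), ψ (n : ZMod (r ^ e)) = 0 := by
          intro ψ
          refine ψ.map_nonunit ?_
          intro hunit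
          rw [ZMod.isUnit_iff_coprime] at hunit
          have h1 : r ∣ Nat.gcd n (r ^ e) := Nat.dvd_gcd hn (dvd_pow_self r (by omega))
          rw [Nat.Coprime] at hunit
          rw [hunit] at h1
          exact hr.one_lt.ne' (Nat.dvd_one.1 h1)
        rw [hi, Finset.sum_eq_zero fun ψ _ => by rw [hψ ψ]; ring]
        ring
      · have hi : ind r n = 1 := by unfold ind; rw [if_neg hn]
        rw [hi, hc n hn]
        have : ∑ ψ : DirichletCharacter ℂ (r ^ e), c ψ * (b n * (ψ (n : ZMod (r ^ e)) *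
            eN N ((n : ZMod N) * (u : ZMod N)))) = b n * eN N ((n : ZMod N) * (u : ZMod N)) *
            ∑ ψ : DirichletCharacter ℂ (r ^ e), c ψ * ψ (n : ZMod (r ^ e)) := by
          rw [Finset.mul_sum]
          refine Finset.sum_congr rfl fun ψ _ => ?_
          ring
        rw [this]
        ring
    have hsum1 : LSeriesSummable (fun n : ℕ => b n * (ind r n *
        eN N ((n : ZMod N) * (u : ZMod N)))) s := by
      refine pd_summable h (fun n => ind r n * eN N ((n : ZMod N) * (u : ZMod N))) (fun n => ?_) s hs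
      rw [norm_mul, eN_norm, mul_one]
      exact (cm_ind r hr).bd n
    have hsum2 : ∀ ψ : DirichletCharacter ℂ (r ^ e), LSeriesSummable (fun n : ℕ => b n *
        (ψ (n : ZMod (r ^ e)) * eN N ((n : ZMod N) * (u : ZMod N)))) s := by
      intro ψ
      refine pd_summable h (fun n => ψ (n : ZMod (r ^ e)) * eN N ((n : ZMod N) * (u : ZMod N)))
        (fun n => ?_) s hs
      rw [norm_mul, eN_norm, mul_one]
      exact ψ.norm_le_one _
    rw [hfun, LSeries_add (hsum1.smul κ) (LSeriesSummable.sum fun ψ _ => (hsum2 ψ).smul (c ψ)),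
      LSeries_smul, LSeries_sum fun ψ _ => (hsum2 ψ).smul (c ψ), mlim_H h N r hr hrN u s hs]
    have hκH : κ * ∑ χ : DirichletCharacter ℂ N, χ (u : ZMod N) * Pc b N r χ s =
        κ * ∑ χ : DirichletCharacter ℂ N, χ (a0 : ZMod N) * (χ (r : ZMod N))⁻¹ * Pc b N r χ s := by
      by_cases he1 : e = 1
      · congr 1
        refine Finset.sum_congr rfl fun χ _ => ?_
        rw [hu, he1, pow_one, Units.val_mul, map_mul, map_units_inv, ZMod.coe_unitOfCoprime,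
          ZMod.coe_unitOfCoprime]
      · rw [hκ, if_neg he1, zero_mul, zero_mul]
    rw [hκH, add_sub_cancel_left]
    refine Finset.sum_congr rfl fun ψ _ => ?_
    rw [LSeries_smul, twist_N h N (fun n => ψ (n : ZMod (r ^ e))) (cm_char ψ) u s hs,
      Finset.mul_sum]
    refine Finset.sum_congr rfl fun χ _ => ?_
    have hpc : (fun n : ℕ => ψ (n : ZMod (r ^ e)) * χ (n : ZMod N)) = prodChar χ ψ := by
      funext n
      exact mul_comm _ _
    rw [hpc]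
    ring
  have hlim : Tendsto (fun α : ℝ => ∑ ψ : DirichletCharacter ℂ (r ^ e),
      ∑ χ : DirichletCharacter ℂ N,
        (c ψ * χ (((ZMod.unitOfCoprime a0 ha) * ((ZMod.unitOfCoprime r hrcop)⁻¹) ^ e :
          (ZMod N)ˣ) : ZMod N) * kap b N (fun n => ψ (n : ZMod (r ^ e))) χ (1 - θ * I + α)) *
          ((α : ℂ) ^ (M + 1) * LT b (prodChar χ ψ) (1 - θ * I + α))) U (𝓝 0) := by
    have h0 : (0 : ℂ) = ∑ ψ : DirichletCharacter ℂ (r ^ e), ∑ χ : DirichletCharacter ℂ N, 0 := by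
      simp
    rw [h0]
    refine tendsto_finsetSum _ fun ψ _ => tendsto_finsetSum _ fun χ _ => ?_
    by_cases hψ : ψ = 1
    · rw [hψ, hc1]
      simp only [zero_mul]
      exact tendsto_const_nhds
    · refine mlim_bdd (C := ‖c ψ‖ * 1 * C) ?_ (hgood e χ ψ hψ)
      filter_upwards [hpos] with α hα
      rw [norm_mul, norm_mul]
      refine mul_le_mul (mul_le_mul_of_nonneg_left (χ.norm_le_one _) (norm_nonneg _))
        (hC χ _ (fun n => ψ.norm_le_one _) _ ?_) (norm_nonneg _) (by positivity)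
      have : (1 - θ * I + α : ℂ).re = 1 + α := by simp
      rw [this]
      linarith
  refine hlim.congr' ?_
  filter_upwards [hpos] with α hα
  have hs : 1 < (1 - θ * I + α : ℂ).re := by
    have : (1 - θ * I + α : ℂ).re = 1 + α := by simp
    rw [this]
    linarith
  rw [key _ hs, Finset.mul_sum]
  refine Finset.sum_congr rfl fun ψ _ => ?_
  rw [Finset.mul_sum]
  refine Finset.sum_congr rfl fun χ _ => ?_
  ring

private theorem mlim_tail {b : ℕ → ℂ} (h : PD b) (r : ℕ) (hr : r.Prime) (k : ℕ) (X : ℂ)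
    (hX : ‖X‖ ≤ (r : ℝ) ^ (-(1 / 2) : ℝ)) :
    Summable (fun j : ℕ => b (r ^ (j + k)) * X ^ (j + k)) := by
  obtain ⟨C, hC⟩ := h.ram (1 / 4) (by norm_num)
  have hr0 : (0 : ℝ) < r := by exact_mod_cast hr.pos
  have hq0 : 0 ≤ (r : ℝ) ^ (1 / 4 : ℝ) * (r : ℝ) ^ (-(1 / 2) : ℝ) := by positivity
  have hq1 : (r : ℝ) ^ (1 / 4 : ℝ) * (r : ℝ) ^ (-(1 / 2) : ℝ) < 1 := by
    rw [← Real.rpow_add hr0]
    exact Real.rpow_lt_one_of_one_lt_of_neg (by exact_mod_cast hr.one_lt) (by norm_num)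
  refine Summable.of_norm_bounded (g := fun j : ℕ =>
    C * ((r : ℝ) ^ (1 / 4 : ℝ) * (r : ℝ) ^ (-(1 / 2) : ℝ)) ^ (j + k)) ?_ ?_
  · refine Summable.mul_left _ ?_
    exact (summable_nat_add_iff k).2 (summable_geometric_of_lt_one hq0 hq1)
  · intro j
    have h1 := hC (r ^ (j + k)) (Nat.one_le_pow _ _ hr.pos)
    have h2 : (((r ^ (j + k) : ℕ) : ℝ)) ^ (1 / 4 : ℝ) = ((r : ℝ) ^ (1 / 4 : ℝ)) ^ (j + k) := by
      rw [Nat.cast_pow, ← Real.rpow_natCast, ← Real.rpow_mul (Nat.cast_nonneg _),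
        ← Real.rpow_natCast, ← Real.rpow_mul (Nat.cast_nonneg _), mul_comm]
    rw [h2] at h1
    rw [norm_mul, norm_pow, mul_pow, ← mul_assoc]
    exact mul_le_mul h1 (pow_le_pow_left₀ (norm_nonneg _) hX _) (pow_nonneg (norm_nonneg _) _)
      ((norm_nonneg _).trans h1)

private theorem mlim_exact {b : ℕ → ℂ} (h : PD b) (N : ℕ) [NeZero N] (a0 : ℕ)
    (ha : Nat.Coprime a0 N) (r : ℕ) (hr : r.Prime) (hrN : ¬ r ∣ N) (k : ℕ) (hk : 1 ≤ k)
    (s : ℂ) (hs : 1 < s.re) :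
    Es b ((a0 : ℝ) / ((N : ℝ) * (r : ℝ) ^ k)) s -
        ∑ χ : DirichletCharacter ℂ N, gam b N χ s * χ (a0 : ZMod N) *
          (χ (r : ZMod N))⁻¹ ^ k * Lam b r k (χ (r : ZMod N) * (r : ℂ) ^ (-s)) =
      ∑ j ∈ Finset.range k, b (r ^ j) * ((r : ℂ) ^ (-s)) ^ j *
        (LSeries (fun n => b n * (ind r n *
        cexp (-(2 * (Real.pi : ℂ) * n * (((a0 : ℝ) / ((N : ℝ) * (r : ℝ) ^ (k - j)) : ℝ) : ℂ) * I))))
          s -
        (if k - j = 1 then -(1 / ((r : ℂ) - 1)) else 0) *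
        ∑ χ : DirichletCharacter ℂ N, χ (a0 : ZMod N) * (χ (r : ZMod N))⁻¹ * Pc b N r χ s) := by
  have hrcop : Nat.Coprime r N := (Nat.Prime.coprime_iff_not_dvd hr).2 hrN
  have hN0 : (N : ℝ) ≠ 0 := by exact_mod_cast NeZero.ne N
  have hr0 : (r : ℝ) ≠ 0 := by exact_mod_cast hr.ne_zero
  have hsp := vsplit h (fun n => cexp (-(2 * (Real.pi : ℂ) * n *
    (((a0 : ℝ) / ((N : ℝ) * (r : ℝ) ^ k) : ℝ) : ℂ) * I))) (fun n => by
      refine le_of_eq (mlim_exp _ ?_)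
      have : (2 * (Real.pi : ℂ) * n * (((a0 : ℝ) / ((N : ℝ) * (r : ℝ) ^ k) : ℝ) : ℂ)) =
        ((2 * Real.pi * n * ((a0 : ℝ) / ((N : ℝ) * (r : ℝ) ^ k)) : ℝ) : ℂ) := by push_cast; ring
      rw [this, ofReal_im]) r hr s hs
  have hEs : Es b ((a0 : ℝ) / ((N : ℝ) * (r : ℝ) ^ k)) s = LSeries (fun n => b n *
    cexp (-(2 * (Real.pi : ℂ) * n *
    (((a0 : ℝ) / ((N : ℝ) * (r : ℝ) ^ k) : ℝ) : ℂ) * I))) s := rfl
  rw [hEs, ← hsp.tsum_eq, ← hsp.summable.sum_add_tsum_nat_add k]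
  -- the terms of the tail
  have hχr : ∀ χ : DirichletCharacter ℂ N, χ (r : ZMod N) ≠ 0 := by
    intro χ h0
    have : IsUnit (χ (r : ZMod N)) := (ZMod.unitOfCoprime r hrcop).isUnit.map χ
    rw [h0] at this
    exact not_isUnit_zero this
  have htail : ∀ j : ℕ, b (r ^ (j + k)) * ((r : ℂ) ^ (-s)) ^ (j + k) *
      LSeries (fun n => b n * (ind r n * cexp (-(2 * (Real.pi : ℂ) * ((r ^ (j + k) * n : ℕ) : ℂ) *
        (((a0 : ℝ) / ((N : ℝ) * (r : ℝ) ^ k) : ℝ) : ℂ) * I)))) s =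
      ∑ χ : DirichletCharacter ℂ N, Pc b N r χ s * χ (a0 : ZMod N) * (χ (r : ZMod N))⁻¹ ^ k *
        (b (r ^ (j + k)) * (χ (r : ZMod N) * (r : ℂ) ^ (-s)) ^ (j + k)) := by
    intro j
    have hx : ∀ n : ℕ, cexp (-(2 * (Real.pi : ℂ) * ((r ^ (j + k) * n : ℕ) : ℂ) *
        (((a0 : ℝ) / ((N : ℝ) * (r : ℝ) ^ k) : ℝ) : ℂ) * I)) =
        eN N ((n : ZMod N) * (((ZMod.unitOfCoprime a0 ha) * (ZMod.unitOfCoprime r hrcop) ^ j :
          (ZMod N)ˣ) : ZMod N)) := by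
      intro n
      have e1 : ((n : ZMod N) * (((ZMod.unitOfCoprime a0 ha) * (ZMod.unitOfCoprime r hrcop) ^ j :
          (ZMod N)ˣ) : ZMod N)) = ((n * (a0 * r ^ j) : ℕ) : ZMod N) := by
        rw [Units.val_mul, Units.val_pow_eq_pow_val, ZMod.coe_unitOfCoprime,
          ZMod.coe_unitOfCoprime]
        push_cast
        ring
      rw [e1, eN_coe]
      congr 1
      have hN0' : (N : ℂ) ≠ 0 := by exact_mod_cast NeZero.ne N
      have hr0' : (r : ℂ) ≠ 0 := by exact_mod_cast hr.ne_zero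
      push_cast
      rw [pow_add]
      field_simp
    have hfun : (fun n : ℕ => b n * (ind r n * cexp (-(2 * (Real.pi : ℂ) *
        ((r ^ (j + k) * n : ℕ) : ℂ) * (((a0 : ℝ) / ((N : ℝ) * (r : ℝ) ^ k) : ℝ) : ℂ) * I)))) =
        fun n : ℕ => b n * (ind r n * eN N ((n : ZMod N) *
          (((ZMod.unitOfCoprime a0 ha) * (ZMod.unitOfCoprime r hrcop) ^ j :
          (ZMod N)ˣ) : ZMod N))) := by
      funext n
      rw [hx n]
    rw [hfun, mlim_H h N r hr hrN _ s hs, Finset.mul_sum]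
    refine Finset.sum_congr rfl fun χ _ => ?_
    rw [Units.val_mul, Units.val_pow_eq_pow_val, ZMod.coe_unitOfCoprime, ZMod.coe_unitOfCoprime,
      map_mul, map_pow, mul_pow, pow_add (χ (r : ZMod N)) j k, inv_pow]
    have := hχr χ
    field_simp
  have hT : ∑' j : ℕ, b (r ^ (j + k)) * ((r : ℂ) ^ (-s)) ^ (j + k) *
      LSeries (fun n => b n * (ind r n * cexp (-(2 * (Real.pi : ℂ) * ((r ^ (j + k) * n : ℕ) : ℂ) *
        (((a0 : ℝ) / ((N : ℝ) * (r : ℝ) ^ k) : ℝ) : ℂ) * I)))) s =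
      ∑ χ : DirichletCharacter ℂ N, Pc b N r χ s * χ (a0 : ZMod N) * (χ (r : ZMod N))⁻¹ ^ k *
        ∑' j : ℕ, b (r ^ (j + k)) * (χ (r : ZMod N) * (r : ℂ) ^ (-s)) ^ (j + k) := by
    rw [tsum_congr htail, Summable.tsum_finsetSum fun χ _ =>
      (mlim_tail h r hr k _ (mlim_X N r hr χ s hs)).mul_left _]
    refine Finset.sum_congr rfl fun χ _ => ?_
    rw [tsum_mul_left]
  rw [hT]
  -- the head
  have hhead : ∀ j ∈ Finset.range k, b (r ^ j) * ((r : ℂ) ^ (-s)) ^ j *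
      LSeries (fun n => b n * (ind r n * cexp (-(2 * (Real.pi : ℂ) * ((r ^ j * n : ℕ) : ℂ) *
        (((a0 : ℝ) / ((N : ℝ) * (r : ℝ) ^ k) : ℝ) : ℂ) * I)))) s =
      b (r ^ j) * ((r : ℂ) ^ (-s)) ^ j *
        (LSeries (fun n => b n * (ind r n *
        cexp (-(2 * (Real.pi : ℂ) * n * (((a0 : ℝ) / ((N : ℝ) * (r : ℝ) ^ (k - j)) : ℝ) : ℂ) * I))))
          s -
        (if k - j = 1 then -(1 / ((r : ℂ) - 1)) else 0) *
        ∑ χ : DirichletCharacter ℂ N, χ (a0 : ZMod N) * (χ (r : ZMod N))⁻¹ * Pc b N r χ s) +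
      (if k - j = 1 then b (r ^ j) * ((r : ℂ) ^ (-s)) ^ j * (-(1 / ((r : ℂ) - 1)) *
        ∑ χ : DirichletCharacter ℂ N, χ (a0 : ZMod N) * (χ (r : ZMod N))⁻¹ * Pc b N r χ s)
        else 0) := by
    intro j hj
    have hjk := Finset.mem_range.1 hj
    have hfun : (fun n : ℕ => b n * (ind r n * cexp (-(2 * (Real.pi : ℂ) *
        ((r ^ j * n : ℕ) : ℂ) * (((a0 : ℝ) / ((N : ℝ) * (r : ℝ) ^ k) : ℝ) : ℂ) * I)))) =
        fun n : ℕ => b n * (ind r n *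
        cexp (-(2 * (Real.pi : ℂ) * n *
          (((a0 : ℝ) / ((N : ℝ) * (r : ℝ) ^ (k - j)) : ℝ) : ℂ) * I))) := by
      funext n
      congr 3
      have hN0' : (N : ℂ) ≠ 0 := by exact_mod_cast NeZero.ne N
      have hr0' : (r : ℂ) ≠ 0 := by exact_mod_cast hr.ne_zero
      have e2 : (r : ℂ) ^ k = (r : ℂ) ^ j * (r : ℂ) ^ (k - j) := by
        rw [← pow_add]
        congr 1
        omega
      push_cast
      rw [e2]
      field_simp
    rw [hfun]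
    split_ifs with h1
    · ring
    · ring
  rw [Finset.sum_congr rfl hhead, Finset.sum_add_distrib]
  have hone : ∑ j ∈ Finset.range k, (if k - j = 1 then b (r ^ j) * ((r : ℂ) ^ (-s)) ^ j *
      (-(1 / ((r : ℂ) - 1)) *
        ∑ χ : DirichletCharacter ℂ N, χ (a0 : ZMod N) * (χ (r : ZMod N))⁻¹ * Pc b N r χ s)
        else 0) = b (r ^ (k - 1)) * ((r : ℂ) ^ (-s)) ^ (k - 1) * (-(1 / ((r : ℂ) - 1)) *
        ∑ χ : DirichletCharacter ℂ N, χ (a0 : ZMod N) * (χ (r : ZMod N))⁻¹ * Pc b N r χ s) := by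
    rw [Finset.sum_eq_single (k - 1)]
    · rw [if_pos (by omega)]
    · intro j hj hne
      have := Finset.mem_range.1 hj
      rw [if_neg (by omega)]
    · intro hnot
      exact absurd (Finset.mem_range.2 (by omega)) hnot
  rw [hone]
  have hfin : b (r ^ (k - 1)) * ((r : ℂ) ^ (-s)) ^ (k - 1) * (-(1 / ((r : ℂ) - 1)) *
        ∑ χ : DirichletCharacter ℂ N, χ (a0 : ZMod N) * (χ (r : ZMod N))⁻¹ * Pc b N r χ s) +
      ∑ χ : DirichletCharacter ℂ N, Pc b N r χ s * χ (a0 : ZMod N) * (χ (r : ZMod N))⁻¹ ^ k *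
        ∑' j : ℕ, b (r ^ (j + k)) * (χ (r : ZMod N) * (r : ℂ) ^ (-s)) ^ (j + k) =
      ∑ χ : DirichletCharacter ℂ N, gam b N χ s * χ (a0 : ZMod N) *
          (χ (r : ZMod N))⁻¹ ^ k * Lam b r k (χ (r : ZMod N) * (r : ℂ) ^ (-s)) := by
    rw [Finset.mul_sum, Finset.mul_sum, ← Finset.sum_add_distrib]
    refine Finset.sum_congr rfl fun χ _ => ?_
    unfold Lam Pc
    obtain ⟨k', rfl⟩ : ∃ k', k = k' + 1 := ⟨k - 1, by omega⟩
    rw [Nat.add_sub_cancel, mul_pow]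
    have h1 := hχr χ
    have h2 : (χ (r : ZMod N))⁻¹ ^ (k' + 1) * (χ (r : ZMod N)) ^ k' = (χ (r : ZMod N))⁻¹ := by
      rw [pow_succ, inv_pow]
      field_simp
    linear_combination (-(gam b N χ s / FL b r (χ (r : ZMod N) * (r : ℂ) ^ (-s)) *
      χ (a0 : ZMod N) * (-(1 / ((r : ℂ) - 1)) * b (r ^ k') * ((r : ℂ) ^ (-s)) ^ k'))) * h2
  rw [← hfin]
  ring

theorem main_lim {b : ℕ → ℂ} (h : PD b) (N : ℕ) [NeZero N] (a0 : ℕ) (ha : Nat.Coprime a0 N) (M : ℕ)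
    (θ : ℝ) (U : Filter ℝ) (hU : U ≤ 𝓝[>] 0) (r : ℕ) (hr : r.Prime) (hrN : ¬ r ∣ N)
    (hra : ¬ r ∣ a0) (hgood : Good b N M θ U r) (k : ℕ) (hk : 1 ≤ k) :
    Tendsto (fun α : ℝ => (α : ℂ) ^ (M + 1) *
      (Es b ((a0 : ℝ) / ((N : ℝ) * (r : ℝ) ^ k)) (1 - θ * I + α) -
        ∑ χ : DirichletCharacter ℂ N, gam b N χ (1 - θ * I + α) * χ (a0 : ZMod N) *
          (χ (r : ZMod N))⁻¹ ^ k * Lam b r k (χ (r : ZMod N) * (r : ℂ) ^ (-(1 - θ * I + α : ℂ)))))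
      U (𝓝 0) := by
  have hpos : ∀ᶠ α in U, (0 : ℝ) < α := hU self_mem_nhdsWithin
  have hrR : (1 : ℝ) ≤ r := by exact_mod_cast hr.one_le
  have hlim : Tendsto (fun α : ℝ => ∑ j ∈ Finset.range k,
      (b (r ^ j) * ((r : ℂ) ^ (-(1 - θ * I + α : ℂ))) ^ j) * ((α : ℂ) ^ (M + 1) *
        (LSeries (fun n => b n * (ind r n *
        cexp (-(2 * (Real.pi : ℂ) * n * (((a0 : ℝ) / ((N : ℝ) * (r : ℝ) ^ (k - j)) : ℝ) : ℂ) * I))))
          (1 - θ * I + α) -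
        (if k - j = 1 then -(1 / ((r : ℂ) - 1)) else 0) *
        ∑ χ : DirichletCharacter ℂ N, χ (a0 : ZMod N) * (χ (r : ZMod N))⁻¹ *
          Pc b N r χ (1 - θ * I + α)))) U (𝓝 0) := by
    have h0 : 𝓝 (0 : ℂ) = 𝓝 (∑ j ∈ Finset.range k, (0 : ℂ)) := by rw [Finset.sum_const_zero]
    rw [h0]
    refine tendsto_finsetSum _ fun j hj => ?_
    have hjk := Finset.mem_range.1 hj
    refine mlim_bdd (C := ‖b (r ^ j)‖ * 1) ?_
      (mlim_W h N a0 ha M θ U hU r hr hrN hra hgood (k - j) (by omega))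
    filter_upwards [hpos] with α hα
    rw [norm_mul, norm_pow, norm_natCast_cpow_of_pos hr.pos]
    refine mul_le_mul_of_nonneg_left (pow_le_one₀ (Real.rpow_nonneg (by linarith) _) ?_)
      (norm_nonneg _)
    refine Real.rpow_le_one_of_one_le_of_nonpos hrR ?_
    have : (-(1 - θ * I + α : ℂ)).re = -(1 + α) := by simp
    rw [this]
    linarith
  refine hlim.congr' ?_
  filter_upwards [hpos] with α hα
  have hs : 1 < (1 - θ * I + α : ℂ).re := by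
    have : (1 - θ * I + α : ℂ).re = 1 + α := by simp
    rw [this]
    linarith
  rw [mlim_exact h N a0 ha r hr hrN k hk _ hs, Finset.mul_sum]
  refine Finset.sum_congr rfl fun j _ => ?_
  ring

end Pool.Agent.H11.PC
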