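import Mathlib
import Pool.Agent.H11.PC.MLIM
import Pool.Agent.H11.PC.LAMC
import Mathlib.NumberTheory.LSeries.PrimesInAP

/-!
# VEC: the limits `γ_χ` along the ultrafilter

`G χ α = α^(M+1) gam b N χ (1 - θI + α)`, `e k r α = α^(M+1) Es b (a0/(N r^k)) (1 - θI + α) → w (r^k)^(-1+2θI)` (`D.val` with
`m = r^k`), and `∑_χ G χ α χ(a0) → w` (`base_id`, `D.val` with `m = 1`).
(1) `max_χ ‖G χ α‖` is bounded along `U` (i.e. `∃ A, ∀ᶠ α in U, ∀ χ, ‖G χ α‖ ≤ A`).  Otherwise, `U` being an ultrafilter, for each `A`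
`∀ᶠ α in U, m α > A` where `m α = ∑_χ ‖G χ α‖` (so `m → ∞` along `U`).  The bounded functions `G χ α / m α` converge along `U`
(`Ultrafilter` on a compact disc: `IsCompact.ultrafilter_le_nhds'`) to `g_χ` with `∑ ‖g_χ‖ = 1`.  Divide `base_id` and `main_lim`
(`k = 1`) by `m α`: `∑ g_χ χ(a0) = 0` and for every `r ∉ B`, `∑ g_χ χ(a0) (χ r)⁻¹ Lam b r 1 (χ(r) r^(-1+θI)) = 0`
(`Lam_tendsto`).  Multiply by `r` and use `Lam_one`: `X = χ(r) r^(-1+θI)`, `b(r) r X = b(r) r^(θI) χ(r)`: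
`-∑ g_χ χ(a0) (χ r)⁻¹ + b(r) r^(θI) ∑ g_χ χ(a0) = O(r^(-1/2))`, so `∑_χ g_χ χ(a0) (χ r)⁻¹ = O(r^(-1/2))`.  By Dirichlet's theorem
(`Nat.infinite_setOf_prime_and_eq_mod` or the like) every unit `x` modulo `N` is the class of infinitely many primes `r ∉ B`, so
`∑_χ g_χ χ(a0) χ(x)⁻¹ = 0` for every unit `x`; by orthogonality (`sum over x of χ'(x) χ(x)⁻¹`) all `g_χ χ(a0) = 0`, so `g_χ = 0`:
contradiction.
(2) So `G χ` converges along `U` to some `γ χ` (compactness), `∑ γ_χ χ(a0) = w` (`tendsto_nhds_unique`), and for `r ∉ B`, `k ≥ 1`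
`main_lim` and `Lam_tendsto` give the last claim; `((r^k : ℕ) : ℂ)^z = ((r : ℂ)^z)^k`.
-/

set_option autoImplicit false

namespace Pool.Agent.H11.PC

open Complex Filter Topology

private theorem vec_lim (U : Ultrafilter ℝ) (f : ℝ → ℂ) (C : ℝ) (hf : ∀ᶠ α in (U : Filter ℝ), ‖f α‖ ≤ C) :
    ∃ x : ℂ, Tendsto f U (𝓝 x) := by
  have h1 : (U.map f : Filter ℂ) ≤ 𝓟 (Metric.closedBall 0 C) := by
    rw [Ultrafilter.coe_map, le_principal_iff, mem_map]
    filter_upwards [hf] with α h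
    show f α ∈ Metric.closedBall 0 C
    rwa [mem_closedBall_zero_iff]
  obtain ⟨x, -, hx⟩ := (isCompact_closedBall (0 : ℂ) C).ultrafilter_le_nhds (U.map f) h1
  exact ⟨x, by rwa [Ultrafilter.coe_map] at hx⟩

/-- orthogonality -/
private theorem vec_orth (N : ℕ) [NeZero N] (g : DirichletCharacter ℂ N → ℂ)
    (hg : ∀ x : ZMod N, IsUnit x → ∑ χ : DirichletCharacter ℂ N, g χ * (χ x)⁻¹ = 0)
    (χ' : DirichletCharacter ℂ N) : g χ' = 0 := by
  classical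
  have h1 : ∀ x : ZMod N, ∑ χ : DirichletCharacter ℂ N, g χ * (χ' * χ⁻¹) x = 0 := by
    intro x
    by_cases hx : IsUnit x
    · have h2 := hg x hx
      have h3 : ∀ χ : DirichletCharacter ℂ N, (χ' * χ⁻¹) x = χ' x * (χ x)⁻¹ := by
        intro χ
        rw [MulChar.mul_apply, MulChar.inv_apply_eq_inv']
      simp only [h3]
      have h4 : ∑ χ : DirichletCharacter ℂ N, g χ * (χ' x * (χ x)⁻¹) =
          χ' x * ∑ χ : DirichletCharacter ℂ N, g χ * (χ x)⁻¹ := by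
        rw [Finset.mul_sum]
        exact Finset.sum_congr rfl fun χ _ => by ring
      rw [h4, h2, mul_zero]
    · refine Finset.sum_eq_zero fun χ _ => ?_
      rw [MulChar.map_nonunit _ hx, mul_zero]
  have h5 : ∑ x : ZMod N, ∑ χ : DirichletCharacter ℂ N, g χ * (χ' * χ⁻¹) x = 0 :=
    Finset.sum_eq_zero fun x _ => h1 x
  rw [Finset.sum_comm, Finset.sum_eq_single χ'] at h5
  · rw [← Finset.mul_sum, mul_inv_cancel, MulChar.sum_one_eq_card_units] at h5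
    rcases mul_eq_zero.1 h5 with h6 | h6
    · exact h6
    · exfalso
      have : Fintype.card (ZMod N)ˣ ≠ 0 := Fintype.card_ne_zero
      exact this (by exact_mod_cast h6)
  · intro χ _ hne
    rw [← Finset.mul_sum, MulChar.sum_eq_zero_of_ne_one, mul_zero]
    intro h6
    exact hne (mul_inv_eq_one.1 h6).symm
  · intro h6
    exact absurd (Finset.mem_univ _) h6

private theorem vec_pos {U : Ultrafilter ℝ} (hU : (U : Filter ℝ) ≤ 𝓝[>] 0) :
    ∀ᶠ α in (U : Filter ℝ), (0 : ℝ) < α := hU self_mem_nhdsWithin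

private theorem vec_base {b : ℕ → ℂ} {N a0 M : ℕ} [NeZero N] {θ : ℝ} {w w0 : ℂ}
    (D : CD b N a0 M θ w w0) (U : Ultrafilter ℝ) (hU : (U : Filter ℝ) ≤ 𝓝[>] 0) :
    Tendsto (fun α : ℝ => ∑ χ : DirichletCharacter ℂ N,
      ((α : ℂ) ^ (M + 1) * gam b N χ (1 - θ * I + α)) * χ (a0 : ZMod N)) U (𝓝 w) := by
  have h1 := (D.val 1 le_rfl).mono_left hU
  rw [Nat.cast_one, Nat.cast_one, one_cpow, mul_one, mul_one] at h1
  refine h1.congr' ?_
  filter_upwards [vec_pos hU] with α hα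
  rw [base_id D.pd N a0 D.cop _ (by
    have : (1 - θ * I + α : ℂ).re = 1 + α := by simp
    rw [this]
    linarith), Finset.mul_sum]
  exact Finset.sum_congr rfl fun χ _ => by ring

private theorem vec_pow (r k : ℕ) (z : ℂ) : ((r ^ k : ℕ) : ℂ) ^ z = ((r : ℂ) ^ z) ^ k := by
  induction k with
  | zero => simp
  | succ k ih => rw [pow_succ r, Nat.cast_mul, natCast_mul_natCast_cpow, ih, pow_succ]

private theorem vec_main {b : ℕ → ℂ} {N a0 M : ℕ} [NeZero N] {θ : ℝ} {w w0 : ℂ}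
    (D : CD b N a0 M θ w w0) (U : Ultrafilter ℝ) (hU : (U : Filter ℝ) ≤ 𝓝[>] 0)
    (r : ℕ) (hr : r.Prime) (hrN : ¬ r ∣ N) (hra : ¬ r ∣ a0) (hgood : Good b N M θ U r)
    (k : ℕ) (hk : 1 ≤ k) :
    Tendsto (fun α : ℝ => ∑ χ : DirichletCharacter ℂ N,
      ((α : ℂ) ^ (M + 1) * gam b N χ (1 - θ * I + α)) * (χ (a0 : ZMod N) * (χ (r : ZMod N))⁻¹ ^ k *
        Lam b r k (χ (r : ZMod N) * (r : ℂ) ^ (-(1 - θ * I + α : ℂ))))) U
      (𝓝 (w * ((r : ℂ) ^ (-1 + 2 * θ * I : ℂ)) ^ k)) := by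
  have h1 := (D.val (r ^ k) (Nat.one_le_pow _ _ hr.pos)).mono_left hU
  have h2 := main_lim D.pd N a0 D.cop M θ U hU r hr hrN hra hgood k hk
  have h3 := h1.sub h2
  rw [sub_zero] at h3
  have h4 := vec_pow r k (-1 + 2 * θ * I)
  rw [h4] at h3
  refine h3.congr fun α => ?_
  have h5 : ((r ^ k : ℕ) : ℝ) = (r : ℝ) ^ k := by push_cast; ring
  rw [h5, ← mul_sub, sub_sub_cancel, Finset.mul_sum]
  exact Finset.sum_congr rfl fun χ _ => by ring

private theorem vec_coprime {N r : ℕ} (hr : r.Prime) (hrN : ¬ r ∣ N) (χ : DirichletCharacter ℂ N) :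
    ‖χ (r : ZMod N)‖ = 1 ∧ χ (r : ZMod N) ≠ 0 := by
  have hc : Nat.Coprime r N := (Nat.Prime.coprime_iff_not_dvd hr).2 hrN
  have h1 : ‖χ (r : ZMod N)‖ = 1 := by
    rw [← ZMod.coe_unitOfCoprime r hc]
    exact χ.unit_norm_eq_one _
  refine ⟨h1, fun h0 => ?_⟩
  rw [h0, norm_zero] at h1
  exact zero_ne_one h1

theorem vec {b : ℕ → ℂ} {N a0 M : ℕ} [NeZero N] {θ : ℝ} {w w0 : ℂ} (D : CD b N a0 M θ w w0)
    (U : Ultrafilter ℝ) (hU : (U : Filter ℝ) ≤ 𝓝[>] 0) (B : Set ℕ) (hB : B.Finite)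
    (hgood : ∀ r : ℕ, r.Prime → r ∉ B → ¬ r ∣ N ∧ ¬ r ∣ a0 ∧ Good b N M θ U r) :
    ∃ γ : DirichletCharacter ℂ N → ℂ,
      (∀ χ, Tendsto (fun α : ℝ => (α : ℂ) ^ (M + 1) * gam b N χ (1 - θ * I + α)) U (𝓝 (γ χ))) ∧
      ∑ χ : DirichletCharacter ℂ N, γ χ * χ (a0 : ZMod N) = w ∧
      ∀ r : ℕ, r.Prime → r ∉ B → ∀ k : ℕ, 1 ≤ k →
        w * ((r : ℂ) ^ (-1 + 2 * θ * I : ℂ)) ^ k =
          ∑ χ : DirichletCharacter ℂ N, γ χ * χ (a0 : ZMod N) * (χ (r : ZMod N))⁻¹ ^ k *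
            Lam b r k (χ (r : ZMod N) * (r : ℂ) ^ (-(1 - θ * I : ℂ))) := by
  classical
  obtain ⟨G, hG⟩ : ∃ G : DirichletCharacter ℂ N → ℝ → ℂ, G = fun χ (α : ℝ) =>
    (α : ℂ) ^ (M + 1) * gam b N χ (1 - θ * I + α) := ⟨_, rfl⟩
  have hGe : ∀ χ α, G χ α = (α : ℂ) ^ (M + 1) * gam b N χ (1 - θ * I + α) := fun χ α => by rw [hG]
  have hbase := vec_base D U hU
  have hmain := fun (r : ℕ) (hr : r.Prime) (hrB : r ∉ B) (k : ℕ) (hk : 1 ≤ k) =>
    vec_main D U hU r hr (hgood r hr hrB).1 (hgood r hr hrB).2.1 (hgood r hr hrB).2.2 k hk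
  simp only [← hGe] at hbase hmain ⊢
  have hLam : ∀ (r : ℕ) (_ : r.Prime) (k : ℕ) (_ : 1 ≤ k) (χ : DirichletCharacter ℂ N),
      Tendsto (fun α : ℝ => χ (a0 : ZMod N) * (χ (r : ZMod N))⁻¹ ^ k *
        Lam b r k (χ (r : ZMod N) * (r : ℂ) ^ (-(1 - θ * I + α : ℂ)))) U
        (𝓝 (χ (a0 : ZMod N) * (χ (r : ZMod N))⁻¹ ^ k *
        Lam b r k (χ (r : ZMod N) * (r : ℂ) ^ (-(1 - θ * I : ℂ))))) := by
    intro r hr k hk χ
    exact ((Lam_tendsto D.pd r hr k hk _ (χ.norm_le_one _) θ).mono_left hU).const_mul _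
  have hbdd : ∃ A : ℝ, ∀ᶠ α in (U : Filter ℝ), ∑ χ : DirichletCharacter ℂ N, ‖G χ α‖ ≤ A := by
    by_contra hcon
    obtain ⟨m, hm⟩ : ∃ m : ℝ → ℝ, m = fun α => ∑ χ : DirichletCharacter ℂ N, ‖G χ α‖ := ⟨_, rfl⟩
    have hme : ∀ α, m α = ∑ χ : DirichletCharacter ℂ N, ‖G χ α‖ := fun α => by rw [hm]
    have hm0 : ∀ α, 0 ≤ m α := fun α => by
      rw [hme]
      exact Finset.sum_nonneg fun χ _ => norm_nonneg _
    have hA : ∀ A : ℝ, ∀ᶠ α in (U : Filter ℝ), ¬ (m α ≤ A) := by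
      intro A
      refine Ultrafilter.eventually_not.2 fun h => hcon ⟨A, ?_⟩
      simpa only [hme] using h
    have hminf : Tendsto m U atTop := tendsto_atTop.2 fun A => (hA A).mono fun α h =>
      (not_le.1 h).le
    have hinv : Tendsto (fun α => (((m α)⁻¹ : ℝ) : ℂ)) U (𝓝 0) := by
      have h1 : Tendsto (fun α => (m α)⁻¹) U (𝓝 0) := tendsto_inv_atTop_zero.comp hminf
      have h2 := (continuous_ofReal.tendsto 0).comp h1
      rwa [ofReal_zero] at h2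
    have hle : ∀ χ α, ‖(((m α)⁻¹ : ℝ) : ℂ) * G χ α‖ ≤ 1 := by
      intro χ α
      rw [norm_mul, Complex.norm_real, Real.norm_of_nonneg (inv_nonneg.2 (hm0 α))]
      have h1 : ‖G χ α‖ ≤ m α := by
        rw [hme]
        exact Finset.single_le_sum (f := fun χ => ‖G χ α‖) (fun _ _ => norm_nonneg _)
          (Finset.mem_univ χ)
      exact (mul_le_mul_of_nonneg_left h1 (inv_nonneg.2 (hm0 α))).trans inv_mul_le_one
    choose γ' hγ' using fun χ => vec_lim U (fun α => (((m α)⁻¹ : ℝ) : ℂ) * G χ α) 1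
      (Eventually.of_forall (hle χ))
    have hsum1 : ∑ χ : DirichletCharacter ℂ N, ‖γ' χ‖ = 1 := by
      have h1 : Tendsto (fun α => ∑ χ : DirichletCharacter ℂ N, ‖(((m α)⁻¹ : ℝ) : ℂ) * G χ α‖) U
          (𝓝 (∑ χ : DirichletCharacter ℂ N, ‖γ' χ‖)) :=
        tendsto_finsetSum _ fun χ _ => (hγ' χ).norm
      refine tendsto_nhds_unique h1 (tendsto_const_nhds.congr' ?_)
      filter_upwards [hA 0] with α hα
      have h2 : 0 < m α := not_le.1 hα
      simp only [norm_mul, Complex.norm_real, Real.norm_of_nonneg (inv_nonneg.2 (hm0 α))]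
      rw [← Finset.mul_sum, ← hme, inv_mul_cancel₀ h2.ne']
    have hlim : ∀ (Φ : DirichletCharacter ℂ N → ℝ → ℂ) (L : DirichletCharacter ℂ N → ℂ) (c : ℂ),
        (∀ χ, Tendsto (Φ χ) U (𝓝 (L χ))) →
        Tendsto (fun α => ∑ χ : DirichletCharacter ℂ N, G χ α * Φ χ α) U (𝓝 c) →
        ∑ χ : DirichletCharacter ℂ N, γ' χ * L χ = 0 := by
      intro Φ L c h1 h2
      have h3 := hinv.mul h2
      rw [zero_mul] at h3
      have h4 : Tendsto (fun α => ∑ χ : DirichletCharacter ℂ N,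
          (((m α)⁻¹ : ℝ) : ℂ) * G χ α * Φ χ α) U (𝓝 (∑ χ : DirichletCharacter ℂ N, γ' χ * L χ)) :=
        tendsto_finsetSum _ fun χ _ => (hγ' χ).mul (h1 χ)
      refine tendsto_nhds_unique h4 (h3.congr fun α => ?_)
      rw [Finset.mul_sum]
      exact Finset.sum_congr rfl fun χ _ => by ring
    have hE0 : ∑ χ : DirichletCharacter ℂ N, γ' χ * χ (a0 : ZMod N) = 0 :=
      hlim (fun χ _ => χ (a0 : ZMod N)) (fun χ => χ (a0 : ZMod N)) w
        (fun χ => tendsto_const_nhds) hbase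
    have hE1 : ∀ r : ℕ, r.Prime → r ∉ B → ∑ χ : DirichletCharacter ℂ N, γ' χ *
        (χ (a0 : ZMod N) * (χ (r : ZMod N))⁻¹ ^ 1 *
        Lam b r 1 (χ (r : ZMod N) * (r : ℂ) ^ (-(1 - θ * I : ℂ)))) = 0 :=
      fun r hr hrB => hlim _ _ _ (fun χ => hLam r hr 1 le_rfl χ) (hmain r hr hrB 1 le_rfl)
    obtain ⟨C, hC0, hC⟩ := Lam_one D.pd
    have hbound : ∀ r : ℕ, r.Prime → r ∉ B →
        ‖∑ χ : DirichletCharacter ℂ N, γ' χ * χ (a0 : ZMod N) * (χ (r : ZMod N))⁻¹‖ ≤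
          C * (r : ℝ) ^ (-(1 / 2) : ℝ) := by
      intro r hr hrB
      have hrN := (hgood r hr hrB).1
      obtain ⟨ρ, hρ⟩ : ∃ ρ : ℂ, ρ = (r : ℂ) ^ (-(1 - θ * I : ℂ)) := ⟨_, rfl⟩
      have h1 := hE1 r hr hrB
      rw [← hρ] at h1
      have hρn : ‖ρ‖ = 1 / (r : ℝ) := by
        rw [hρ, norm_natCast_cpow_of_pos hr.pos]
        have : (-(1 - θ * I : ℂ)).re = -1 := by simp
        rw [this, Real.rpow_neg_one, one_div]
      obtain ⟨E, hE⟩ : ∃ E : DirichletCharacter ℂ N → ℂ, E = fun χ =>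
        (r : ℂ) * Lam b r 1 (χ (r : ZMod N) * ρ) -
          (-1 + b r * ((r : ℂ) * (χ (r : ZMod N) * ρ))) := ⟨_, rfl⟩
      have hEle : ∀ χ, ‖E χ‖ ≤ C * (r : ℝ) ^ (-(1 / 2) : ℝ) := by
        intro χ
        rw [hE]
        refine hC r hr _ ?_
        rw [norm_mul, (vec_coprime hr hrN χ).1, one_mul, hρn]
      have h2 : ∑ χ : DirichletCharacter ℂ N, γ' χ * χ (a0 : ZMod N) * (χ (r : ZMod N))⁻¹ =
          ∑ χ : DirichletCharacter ℂ N, γ' χ * χ (a0 : ZMod N) * (χ (r : ZMod N))⁻¹ * E χ := by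
        have h3 : ∑ χ : DirichletCharacter ℂ N, γ' χ * χ (a0 : ZMod N) * (χ (r : ZMod N))⁻¹ * E χ =
            (r : ℂ) * (∑ χ : DirichletCharacter ℂ N, γ' χ *
              (χ (a0 : ZMod N) * (χ (r : ZMod N))⁻¹ ^ 1 * Lam b r 1 (χ (r : ZMod N) * ρ))) +
            ∑ χ : DirichletCharacter ℂ N, γ' χ * χ (a0 : ZMod N) * (χ (r : ZMod N))⁻¹ -
            b r * (r : ℂ) * ρ * ∑ χ : DirichletCharacter ℂ N, γ' χ * χ (a0 : ZMod N) := by
          rw [Finset.mul_sum, Finset.mul_sum, ← Finset.sum_add_distrib, ← Finset.sum_sub_distrib]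
          refine Finset.sum_congr rfl fun χ _ => ?_
          have h0 := (vec_coprime hr hrN χ).2
          have e1 : (χ (r : ZMod N))⁻¹ * χ (r : ZMod N) = 1 := inv_mul_cancel₀ h0
          rw [hE, pow_one]
          linear_combination (-(γ' χ * χ (a0 : ZMod N) * b r * r * ρ)) * e1
        rw [h3, h1, hE0, mul_zero, mul_zero, zero_add, sub_zero]
      rw [h2]
      refine (norm_sum_le _ _).trans ?_
      calc ∑ χ : DirichletCharacter ℂ N, ‖γ' χ * χ (a0 : ZMod N) * (χ (r : ZMod N))⁻¹ * E χ‖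
          ≤ ∑ χ : DirichletCharacter ℂ N, ‖γ' χ‖ * (C * (r : ℝ) ^ (-(1 / 2) : ℝ)) := by
            refine Finset.sum_le_sum fun χ _ => ?_
            rw [norm_mul, norm_mul, norm_mul, norm_inv, (vec_coprime hr hrN χ).1, inv_one, mul_one]
            refine mul_le_mul ?_ (hEle χ) (norm_nonneg _) (norm_nonneg _)
            exact mul_le_of_le_one_right (norm_nonneg _) (χ.norm_le_one _)
        _ = _ := by rw [← Finset.sum_mul, hsum1, one_mul]
    have hzero : ∀ x : ZMod N, IsUnit x →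
        ∑ χ : DirichletCharacter ℂ N, (γ' χ * χ (a0 : ZMod N)) * (χ x)⁻¹ = 0 := by
      intro x hx
      by_contra hne
      obtain ⟨δ, hδ⟩ : ∃ δ : ℝ, δ = ‖∑ χ : DirichletCharacter ℂ N,
        (γ' χ * χ (a0 : ZMod N)) * (χ x)⁻¹‖ := ⟨_, rfl⟩
      have hδ0 : 0 < δ := by
        rw [hδ]
        exact norm_pos_iff.2 hne
      have ht : Tendsto (fun n : ℕ => C * (n : ℝ) ^ (-(1 / 2) : ℝ)) atTop (𝓝 0) := by
        have := ((tendsto_rpow_neg_atTop (y := 1 / 2) (by norm_num)).comp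
          tendsto_natCast_atTop_atTop).const_mul C
        rwa [mul_zero] at this
      obtain ⟨n1, hn1⟩ := eventually_atTop.1 (ht.eventually (gt_mem_nhds hδ0))
      obtain ⟨n2, hn2⟩ := hB.bddAbove
      obtain ⟨r, hrn, hr, hrx⟩ := Nat.forall_exists_prime_gt_and_eq_mod hx (max n1 n2)
      have hr1 : n1 ≤ r := ((le_max_left _ _).trans_lt hrn).le
      have hr2 : r ∉ B := fun h =>
        absurd (hn2 h) (not_le.2 ((le_max_right _ _).trans_lt hrn))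
      have h3 := hbound r hr hr2
      rw [hrx, ← hδ] at h3
      exact absurd (h3.trans_lt (hn1 r hr1)) (lt_irrefl _)
    have hall : ∀ χ : DirichletCharacter ℂ N, γ' χ = 0 := by
      intro χ
      have h1 := vec_orth N (fun χ => γ' χ * χ (a0 : ZMod N)) hzero χ
      rcases mul_eq_zero.1 h1 with h2 | h2
      · exact h2
      · exfalso
        have h3 : ‖χ (a0 : ZMod N)‖ = 1 := by
          rw [← ZMod.coe_unitOfCoprime a0 D.cop]
          exact χ.unit_norm_eq_one _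
        rw [h2, norm_zero] at h3
        exact zero_ne_one h3
    rw [Finset.sum_eq_zero fun χ _ => by rw [hall χ, norm_zero]] at hsum1
    exact zero_ne_one hsum1
  obtain ⟨A, hA⟩ := hbdd
  choose γ hγ using fun χ => vec_lim U (G χ) A (hA.mono fun α h => (Finset.single_le_sum
    (f := fun χ => ‖G χ α‖) (fun _ _ => norm_nonneg _) (Finset.mem_univ χ)).trans h)
  refine ⟨γ, hγ, ?_, ?_⟩
  · refine tendsto_nhds_unique (tendsto_finsetSum _ fun χ _ => (hγ χ).mul_const _) hbase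
  · intro r hr hrB k hk
    have h1 := tendsto_finsetSum Finset.univ fun (χ : DirichletCharacter ℂ N) _ =>
      (hγ χ).mul (hLam r hr k hk χ)
    rw [tendsto_nhds_unique (hmain r hr hrB k hk) h1]
    exact Finset.sum_congr rfl fun χ _ => by ring

end Pool.Agent.H11.PC
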