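import Mathlib
import Pool.Agent.H39.Pol.MainP
import Pool.Agent.H11.PC.CDR
import Pool.Agent.H11.PC.LOGZ
import Pool.Agent.H11.PC.IRR
import Pool.Agent.H11.PC.BAD
import Pool.Agent.H11.PC.VEC
import Pool.Agent.H11.PC.BR1
import Pool.Agent.H11.PC.ONEC
import Pool.Agent.H11.PC.EULX
import Pool.Agent.H11.PC.FIN
import Pool.Agent.H11.SC7.Factor
import Pool.Agent.H11.SC6.Prim7
import Pool.Agent.H11.Selberg.LineFinal

/-!
# ASM: the classification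
-/

set_option autoImplicit false

namespace Pool.Agent.H11.PC

open Complex Filter Topology Pool.Agent.H11.Selberg Pool.Agent.H11.SC Pool.Agent.H39.Pol

private theorem asm_ultra : ∃ U : Ultrafilter ℝ, (U : Filter ℝ) ≤ 𝓝[>] 0 :=
  ⟨Ultrafilter.of (𝓝[>] (0 : ℝ)), Ultrafilter.of_le _⟩

/-- the Euler factors at the good primes -/
theorem good_primes {b : ℕ → ℂ} {N a0 M : ℕ} [NeZero N] {θ : ℝ} {w w0 : ℂ}
    (D : CD b N a0 M θ w w0) : ∃ (χ : DirichletCharacter ℂ N) (B : Set ℕ), B.Finite ∧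
      ((θ = 0 ∧ χ = 1) ∨ χ ≠ 1) ∧ ∀ r : ℕ, r.Prime → r ∉ B → ¬ r ∣ N ∧
        ∀ k : ℕ, b (r ^ k) * (χ (r : ZMod N) * (r : ℂ) ^ (-(1 - θ * I : ℂ))) ^ k =
          (1 / (r : ℂ)) ^ k * ∑ i ∈ Finset.range (k + 1),
            (χ (r : ZMod N) * (r : ℂ) ^ (2 * (θ : ℂ) * I)) ^ i := by
  obtain ⟨U, hU⟩ := asm_ultra
  have hbad := bad_finite D.pd N M θ U hU
  have hN0 : N ≠ 0 := NeZero.ne N
  have ha0 : a0 ≠ 0 := by have := D.a0pos; omega
  obtain ⟨B, hBdef⟩ : ∃ B : Set ℕ, B = {r : ℕ | r.Prime ∧ ¬ r ∣ N ∧ ¬ Good b N M θ U r} ∪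
      (↑(Nat.divisors N) ∪ ↑(Nat.divisors a0) : Set ℕ) := ⟨_, rfl⟩
  have hB : B.Finite := by
    rw [hBdef]
    exact hbad.union ((Finset.finite_toSet _).union (Finset.finite_toSet _))
  have hg : ∀ r : ℕ, r.Prime → r ∉ B → ¬ r ∣ N ∧ ¬ r ∣ a0 ∧ Good b N M θ U r := by
    intro r hr hrB
    rw [hBdef] at hrB
    simp only [Set.mem_union, Set.mem_ofPred_eq, Finset.mem_coe, Nat.mem_divisors, not_or] at hrB
    obtain ⟨h1, h2, h3⟩ := hrB
    have hN : ¬ r ∣ N := fun h => h2 ⟨h, hN0⟩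
    refine ⟨hN, fun h => h3 ⟨h, ha0⟩, ?_⟩
    by_contra hG
    exact h1 ⟨hr, hN, hG⟩
  obtain ⟨γ, hγ, h0, hrel⟩ := vec D U hU B hB hg
  have hb := br_one D.pd N a0 θ w D.w_ne B (fun r hr h => (hg r hr h).1) γ h0 (by
    intro r hr h
    have := hrel r hr h 1 le_rfl
    simpa using this)
  obtain ⟨χX, hX1, hX2, hX3⟩ := one_char D U hU B hB (fun r hr h => (hg r hr h).1) γ hγ h0 hb
  refine ⟨χX, B, hB, ?_, ?_⟩
  · rcases hX3 with ⟨h1, h2, _⟩ | h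
    · exact Or.inl ⟨h1, h2⟩
    · exact Or.inr h
  intro r hr hrB
  refine ⟨(hg r hr hrB).1, ?_⟩
  have hcop : Nat.Coprime r N := (Nat.Prime.coprime_iff_not_dvd hr).2 (hg r hr hrB).1
  have hχu : χX (r : ZMod N) = χX ((ZMod.unitOfCoprime r hcop : (ZMod N)ˣ) : ZMod N) := by
    rw [ZMod.coe_unitOfCoprime]
  have hχn : ‖χX (r : ZMod N)‖ = 1 := by
    rw [hχu]
    exact DirichletCharacter.unit_norm_eq_one χX _
  have hχ0 : χX (r : ZMod N) ≠ 0 := by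
    intro h
    rw [h, norm_zero] at hχn
    exact zero_ne_one hχn
  have hr0 : (0 : ℝ) < r := by exact_mod_cast hr.pos
  have hrc : (r : ℂ) ≠ 0 := by exact_mod_cast hr.ne_zero
  have hr1 : (1 : ℝ) ≤ r := by exact_mod_cast hr.one_lt.le
  apply local_exact D.pd r hr
  · rw [norm_mul, hχn, one_mul, Complex.norm_natCast_cpow_of_pos hr.pos]
    simp
  · rw [norm_mul, hχn, one_mul, Complex.norm_natCast_cpow_of_pos hr.pos]
    apply Real.rpow_le_rpow_of_exponent_le hr1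
    simp
    norm_num
  · intro k hk
    have h1 := hrel r hr hrB k hk
    rw [Finset.sum_eq_single χX] at h1
    · rw [hX1] at h1
      have h2 : (r : ℂ) ^ (-1 + 2 * θ * I : ℂ) = (r : ℂ) ^ (2 * (θ : ℂ) * I) / r := by
        rw [Complex.cpow_add _ _ hrc, Complex.cpow_neg_one]
        rw [div_eq_mul_inv, mul_comm]
      rw [h2] at h1
      have hw := D.w_ne
      have h3 : (χX (r : ZMod N))⁻¹ ^ k * χX (r : ZMod N) ^ k = 1 := by
        rw [← mul_pow, inv_mul_cancel₀ hχ0, one_pow]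
      have h4 : ((r : ℂ) ^ (2 * (θ : ℂ) * I) / r) ^ k = (χX (r : ZMod N))⁻¹ ^ k *
          Lam b r k (χX (r : ZMod N) * (r : ℂ) ^ (-(1 - θ * I : ℂ))) := by
        apply mul_left_cancel₀ hw
        rw [h1]
        ring
      calc Lam b r k (χX (r : ZMod N) * (r : ℂ) ^ (-(1 - θ * I : ℂ)))
          = χX (r : ZMod N) ^ k * ((χX (r : ZMod N))⁻¹ ^ k *
              Lam b r k (χX (r : ZMod N) * (r : ℂ) ^ (-(1 - θ * I : ℂ)))) := by
            rw [← mul_assoc, mul_comm (χX (r : ZMod N) ^ k), h3, one_mul]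
        _ = χX (r : ZMod N) ^ k * ((r : ℂ) ^ (2 * (θ : ℂ) * I) / r) ^ k := by rw [← h4]
        _ = (χX (r : ZMod N) * (r : ℂ) ^ (2 * (θ : ℂ) * I) / r) ^ k := by
            rw [← mul_pow, mul_div_assoc]
    · intro χ _ hne
      rw [hX2 χ hne]
      ring
    · intro h
      exact absurd (Finset.mem_univ _) h

/-- the coefficients `a` at the powers of the good primes -/
theorem good_coeff (a : ℕ → ℂ) (δ : ℝ) {N : ℕ} [NeZero N] (χ : DirichletCharacter ℂ N) (r : ℕ)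
    (hr : r.Prime) (hrN : ¬ r ∣ N)
    (h : ∀ k : ℕ, (fun n : ℕ => a n * (n : ℂ) ^ (-(δ * I) : ℂ)) (r ^ k) *
      (χ (r : ZMod N) * (r : ℂ) ^ (-(1 - ((-δ : ℝ) : ℂ) * I : ℂ))) ^ k =
        (1 / (r : ℂ)) ^ k * ∑ i ∈ Finset.range (k + 1),
          (χ (r : ZMod N) * (r : ℂ) ^ (2 * ((-δ : ℝ) : ℂ) * I)) ^ i) (k : ℕ) :
    a (r ^ k) = ∑ i ∈ Finset.range (k + 1),
      (χ⁻¹ (r : ZMod N) * (r : ℂ) ^ (-(((2 * (-δ) : ℝ) : ℂ) * I))) ^ i := by
  have hcop : Nat.Coprime r N := (Nat.Prime.coprime_iff_not_dvd hr).2 hrN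
  have hχu : χ (r : ZMod N) = χ ((ZMod.unitOfCoprime r hcop : (ZMod N)ˣ) : ZMod N) := by
    rw [ZMod.coe_unitOfCoprime]
  have hχ0 : χ (r : ZMod N) ≠ 0 := by
    intro h0
    have : ‖χ (r : ZMod N)‖ = 1 := by
      rw [hχu]; exact DirichletCharacter.unit_norm_eq_one χ _
    rw [h0, norm_zero] at this
    exact zero_ne_one this
  have hrc : (r : ℂ) ≠ 0 := by exact_mod_cast hr.ne_zero
  have hinv : χ⁻¹ (r : ZMod N) = (χ (r : ZMod N))⁻¹ := by
    rw [MulChar.inv_apply_eq_inv']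
  obtain ⟨x, hx⟩ : ∃ x : ℂ, x = (r : ℂ) ^ (-(δ * I) : ℂ) := ⟨_, rfl⟩
  have hx0 : x ≠ 0 := by
    rw [hx]
    exact Complex.cpow_ne_zero_iff.2 (Or.inl hrc)
  have e1 : ((r ^ k : ℕ) : ℂ) ^ (-(δ * I) : ℂ) = x ^ k := by
    rw [hx, ← Complex.cpow_nat_mul, Complex.natCast_cpow_natCast_mul, Nat.cast_pow]
  have e2 : (r : ℂ) ^ (-(1 - ((-δ : ℝ) : ℂ) * I : ℂ)) = (r : ℂ)⁻¹ * x := by
    rw [hx, ← Complex.cpow_neg_one, ← Complex.cpow_add _ _ hrc]
    congr 1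
    push_cast
    ring
  have e3 : (r : ℂ) ^ (2 * ((-δ : ℝ) : ℂ) * I) = x ^ 2 := by
    rw [hx, ← Complex.cpow_nat_mul]
    congr 1
    push_cast
    ring
  have e4 : (r : ℂ) ^ (-(((2 * (-δ) : ℝ) : ℂ) * I)) = (x ^ 2)⁻¹ := by
    rw [← e3, ← Complex.cpow_neg]
    congr 1
    push_cast
    ring
  have h1 := h k
  simp only at h1
  rw [e1, e2, e3] at h1
  rw [hinv, e4, ← mul_inv]
  obtain ⟨y, hy⟩ : ∃ y : ℂ, y = χ (r : ZMod N) * x ^ 2 := ⟨_, rfl⟩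
  have hy0 : y ≠ 0 := by rw [hy]; exact mul_ne_zero hχ0 (pow_ne_zero _ hx0)
  rw [← hy] at h1 ⊢
  have h2 : a (r ^ k) * y ^ k = ∑ i ∈ Finset.range (k + 1), y ^ i := by
    have h3 : (1 / (r : ℂ)) ^ k ≠ 0 := pow_ne_zero _ (one_div_ne_zero hrc)
    apply mul_left_cancel₀ h3
    rw [← h1, hy, one_div]
    ring
  rw [← Finset.sum_range_reflect] at h2
  apply mul_right_cancel₀ (pow_ne_zero k hy0)
  rw [h2, Finset.sum_mul]
  apply Finset.sum_congr rfl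
  intro i hi
  have hik : i ≤ k := Nat.lt_succ_iff.mp (Finset.mem_range.mp hi)
  have h4 : k + 1 - 1 - i = k - i := by omega
  rw [h4, inv_pow, eq_comm, inv_mul_eq_iff_eq_mul₀ (pow_ne_zero i hy0), ← pow_add]
  congr 1
  omega

/-- almost all Euler factors, with a primitive character -/
theorem almost_all (a : ℕ → ℂ) (F : ℂ → ℂ) (hS : IsSelberg a F)
    (hpole : ¬ ∃ G : ℂ → ℂ, Differentiable ℂ G ∧ ∀ s, s ≠ 1 → G s = F s)
    (Q : ℝ) (r : ℕ) (lam : Fin r → ℝ) (mu : Fin r → ℂ) (ε : ℂ)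
    (hQ : 0 < Q) (hlam : ∀ j, 0 < lam j) (hmu : ∀ j, 0 ≤ (mu j).re) (hε : ‖ε‖ = 1)
    (hfe : ∀ s : ℂ, 0 < s.re → s.re < 1 →
      completed Q lam mu F s =
        ε * (starRingEnd ℂ) (completed Q lam mu F (1 - (starRingEnd ℂ) s)))
    (hdeg : 2 * ∑ j, lam j = 2)
    (hO : ∃ C : ℝ, ∀ x : ℝ, 16 ≤ x → S a x ≤ C * Real.log (Real.log x)) :
    ∃ (N : ℕ) (_ : NeZero N) (χ : DirichletCharacter ℂ N) (τ : ℝ) (B : Set ℕ), χ.IsPrimitive ∧
      (χ ≠ 1 ∨ (N = 1 ∧ τ = 0)) ∧ B.Finite ∧ ∀ p : ℕ, p.Prime → p ∉ B → ∀ k : ℕ,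
        a (p ^ k) = ∑ i ∈ Finset.range (k + 1), zch χ τ p ^ i := by
  obtain ⟨q, hq⟩ : ∃ q : ℝ, (2 * Real.pi) ^ 2 * Q ^ 2 * ∏ j, (lam j) ^ (2 * lam j) = q := ⟨_, rfl⟩
  obtain ⟨δ, M, ωp, ωm, Rp, Rm, C, hI, -⟩ := inv_data a F hS hpole Q r lam mu ε hQ hlam hmu hε hfe
    hdeg q hq
  have hPD := pd_of a F hS hO δ
  have hrat : ¬ Irrational ((Real.sqrt q) ^ 2) := by
    intro hirr
    obtain ⟨v, hv, hc⟩ := cusp_cl hI
    have hq2 : (Real.sqrt q) ^ 2 ≠ 0 := fun h => by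
      rw [h] at hirr
      exact hirr ⟨0, by simp⟩
    have hqpos : 0 < (Real.sqrt q) ^ 2 := lt_of_le_of_ne (sq_nonneg _) (Ne.symm hq2)
    obtain ⟨m, hm⟩ := exists_nat_gt (1 / (Real.sqrt q) ^ 2)
    have hm0 : 0 < m := by
      rcases Nat.eq_zero_or_pos m with rfl | h
      · have : (0 : ℝ) < 1 / (Real.sqrt q) ^ 2 := by positivity
        simp at hm
        linarith [hm, this]
      · exact h
    have hm0' : (0 : ℝ) < m := by exact_mod_cast hm0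
    have h1 : 1 ≤ (Real.sqrt q) ^ 2 * m := by
      rw [div_lt_iff₀ hqpos] at hm
      linarith
    have h2 := irr_zero hPD (1 / ((Real.sqrt q) ^ 2 * m)) (by
      rw [one_div]
      apply Irrational.inv
      exact hirr.mul_natCast hm0.ne') M (-(-δ)) _ (hc m hm0 h1)
    have h3 : (m : ℂ) ^ (-1 + 2 * ((-δ : ℝ) : ℂ) * I : ℂ) ≠ 0 :=
      Complex.cpow_ne_zero_iff.2 (Or.inl (by exact_mod_cast hm0.ne'))
    exact mul_ne_zero hv h3 h2
  obtain ⟨N, a0, w, w0, D⟩ := cd_of_rat hI hPD hrat (fun w0 hw0 hz => logz a F hS δ M w0 hw0 hz)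
  have : NeZero N := ⟨by have := D.Npos; omega⟩
  obtain ⟨χX, B, hB, hX, hg⟩ := good_primes D
  have hcoef : ∀ p : ℕ, p.Prime → p ∉ B → ∀ k : ℕ, a (p ^ k) = ∑ i ∈ Finset.range (k + 1),
      (χX⁻¹ (p : ZMod N) * (p : ℂ) ^ (-(((2 * (-δ) : ℝ) : ℂ) * I))) ^ i := by
    intro p hp hpB k
    exact good_coeff a δ χX p hp (hg p hp hpB).1 (hg p hp hpB).2 k
  have hc0 : (χX⁻¹).conductor ≠ 0 := DirichletCharacter.conductor_ne_zero _
  have : NeZero (χX⁻¹).conductor := ⟨hc0⟩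
  refine ⟨(χX⁻¹).conductor, this, (χX⁻¹).primitiveCharacter, 2 * (-δ), B,
    DirichletCharacter.primitiveCharacter_isPrimitive _, ?_, hB, ?_⟩
  · rcases hX with ⟨hθ, h1⟩ | h1
    · right
      refine ⟨?_, by rw [hθ]; ring⟩
      rw [h1, inv_one]
      exact DirichletCharacter.conductor_one
    · left
      intro h
      apply h1
      have h2 := DirichletCharacter.changeLevel_primitiveCharacter (χX⁻¹)
      rw [h, DirichletCharacter.changeLevel_one] at h2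
      exact inv_eq_one.1 h2.symm
  · intro p hp hpB k
    rw [hcoef p hp hpB k]
    apply Finset.sum_congr rfl
    intro i _
    congr 1
    unfold zch
    congr 1
    have hcop : IsCoprime ((p : ℕ) : ℤ) (N : ℤ) :=
      Nat.isCoprime_iff_coprime.2 ((Nat.Prime.coprime_iff_not_dvd hp).2 (hg p hp hpB).1)
    have h3 := DirichletCharacter.primitiveCharacter_apply_of_isCoprime (χX⁻¹) hcop
    push_cast at h3
    exact h3.symm

/-- all Euler factors -/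
theorem all_primes (a : ℕ → ℂ) (F : ℂ → ℂ) (hS : IsSelberg a F)
    (hpole : ¬ ∃ G : ℂ → ℂ, Differentiable ℂ G ∧ ∀ s, s ≠ 1 → G s = F s)
    (Q : ℝ) (r : ℕ) (lam : Fin r → ℝ) (mu : Fin r → ℂ) (ε : ℂ)
    (hQ : 0 < Q) (hlam : ∀ j, 0 < lam j) (hmu : ∀ j, 0 ≤ (mu j).re) (hε : ‖ε‖ = 1)
    (hfe : ∀ s : ℂ, 0 < s.re → s.re < 1 →
      completed Q lam mu F s =
        ε * (starRingEnd ℂ) (completed Q lam mu F (1 - (starRingEnd ℂ) s)))
    (hdeg : 2 * ∑ j, lam j = 2)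
    (hO : ∃ C : ℝ, ∀ x : ℝ, 16 ≤ x → S a x ≤ C * Real.log (Real.log x)) :
    ∃ (N : ℕ) (_ : NeZero N) (χ : DirichletCharacter ℂ N) (τ : ℝ), χ.IsPrimitive ∧
      (χ ≠ 1 ∨ (N = 1 ∧ τ = 0)) ∧ ∀ p : ℕ, p.Prime → ∀ k : ℕ,
        a (p ^ k) = ∑ i ∈ Finset.range (k + 1), zch χ τ p ^ i := by
  obtain ⟨N, hN, χ, τ, B, hprim, hχ, hB, hloc⟩ :=
    almost_all a F hS hpole Q r lam mu ε hQ hlam hmu hε hfe hdeg hO
  exact ⟨N, hN, χ, τ, hprim, hχ,
    finish a F hS Q r lam mu ε hQ hlam hmu hε hfe hdeg χ hprim τ hχ B hB hloc⟩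

/-- the order at `s = 1` of a function with a pole there -/
theorem ord_pole (a : ℕ → ℂ) (F : ℂ → ℂ) (hS : IsSelberg a F)
    (hpole : ¬ ∃ G : ℂ → ℂ, Differentiable ℂ G ∧ ∀ s, s ≠ 1 → G s = F s) : ord F 0 ≤ -1 := by
  obtain ⟨m, hm, G, hG, -, hGF, hG1⟩ := exact_order F hS.continuation hpole
  have h1 : meromorphicOrderAt F 1 = ((-(m : ℤ) : ℤ) : WithTop ℤ) := by
    have han : AnalyticAt ℂ G 1 := hG.analyticAt 1
    have heq : (fun z : ℂ => (z - 1) ^ (-(m : ℤ)) * G z) =ᶠ[𝓝[≠] 1] F := by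
      filter_upwards [self_mem_nhdsWithin] with z hz
      have hz1 : z - 1 ≠ 0 := sub_ne_zero.2 hz
      rw [hGF z hz, zpow_neg, zpow_natCast, ← mul_assoc, inv_mul_cancel₀ (pow_ne_zero m hz1),
        one_mul]
    have hmer : MeromorphicAt F 1 := by
      have h2 : MeromorphicAt (fun z : ℂ => (z - 1) ^ (-(m : ℤ)) * G z) 1 := by
        apply MeromorphicAt.mul _ han.meromorphicAt
        fun_prop
      exact h2.congr heq
    rw [meromorphicOrderAt_eq_int_iff hmer]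
    refine ⟨G, han, hG1, ?_⟩
    filter_upwards [heq] with z hz
    rw [← hz, smul_eq_mul]
  unfold ord
  have h2 : (1 : ℂ) + ((0 : ℝ) : ℂ) * I = 1 := by simp
  rw [h2, h1, WithTop.untop₀_coe]
  omega

private theorem asm_loglog (x : ℝ) (hx : 16 ≤ x) : 1 ≤ Real.log (Real.log x) := by
  have h1 : Real.exp 1 ≤ Real.log x := by
    have h2 : Real.log 16 ≤ Real.log x := Real.log_le_log (by norm_num) hx
    have h3 : Real.log 16 = 4 * Real.log 2 := by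
      rw [show (16 : ℝ) = 2 ^ 4 by norm_num, Real.log_pow]
      norm_num
    have h4 := Real.log_two_gt_d9
    have h5 := Real.exp_one_lt_d9
    linarith
  rw [Real.le_log_iff_exp_le (lt_of_lt_of_le (Real.exp_pos 1) h1)]
  exact h1

/-- the formula of Q1 fails for every function with a pole of degree two -/
theorem formula_fails (a : ℕ → ℂ) (F : ℂ → ℂ) (hS : IsSelberg a F)
    (hpole : ¬ ∃ G : ℂ → ℂ, Differentiable ℂ G ∧ ∀ s, s ≠ 1 → G s = F s)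
    (Q : ℝ) (r : ℕ) (lam : Fin r → ℝ) (mu : Fin r → ℂ) (ε : ℂ)
    (hQ : 0 < Q) (hlam : ∀ j, 0 < lam j) (hmu : ∀ j, 0 ≤ (mu j).re) (hε : ‖ε‖ = 1)
    (hfe : ∀ s : ℂ, 0 < s.re → s.re < 1 →
      completed Q lam mu F s =
        ε * (starRingEnd ℂ) (completed Q lam mu F (1 - (starRingEnd ℂ) s)))
    (hdeg : 2 * ∑ j, lam j = 2) :
    ¬ ∃ C : ℝ, ∀ x : ℝ, 2 ≤ x → |S a x - Real.log (Real.log x)| ≤ C := by
  rintro ⟨C, hC⟩
  have hO : ∃ C : ℝ, ∀ x : ℝ, 16 ≤ x → S a x ≤ C * Real.log (Real.log x) := by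
    refine ⟨1 + |C|, fun x hx => ?_⟩
    have h1 := (abs_le.1 (hC x (by linarith))).2
    have h2 := asm_loglog x hx
    have h3 : C ≤ |C| := le_abs_self C
    have h4 : |C| ≤ |C| * Real.log (Real.log x) := le_mul_of_one_le_right (abs_nonneg C) h2
    linarith
  obtain ⟨N, hN, χ, τ, hprim, hχ, hloc⟩ :=
    all_primes a F hS hpole Q r lam mu ε hQ hlam hmu hε hfe hdeg hO
  have hord := ord_pole a F hS hpole
  obtain ⟨⟨C1, hC1⟩, hiff⟩ := line_bound a F hS {0}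
  simp only [Finset.sum_singleton] at hC1 hiff
  have hsq : (ord F 0 : ℝ) ^ 2 ≤ 1 := by
    by_contra hlt
    push Not at hlt
    have hd : 0 < (ord F 0 : ℝ) ^ 2 - 1 := by linarith
    obtain ⟨y, hy⟩ : ∃ y : ℝ, y = |(C + C1) / ((ord F 0 : ℝ) ^ 2 - 1)| + 1 := ⟨_, rfl⟩
    have hy1 : 1 ≤ y := by rw [hy]; linarith [abs_nonneg ((C + C1) / ((ord F 0 : ℝ) ^ 2 - 1))]
    have hx2 : 2 ≤ Real.exp (Real.exp y) := by
      have h1 : y + 1 ≤ Real.exp y := Real.add_one_le_exp y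
      have h2 : Real.exp y + 1 ≤ Real.exp (Real.exp y) := Real.add_one_le_exp _
      linarith
    have h1 := hC1 _ hx2
    have h2 := (abs_le.1 (hC _ hx2)).2
    rw [Real.log_exp, Real.log_exp] at h1 h2
    have h3 : ((ord F 0 : ℝ) ^ 2 - 1) * y ≤ C + C1 := by linarith
    have h4 : y ≤ (C + C1) / ((ord F 0 : ℝ) ^ 2 - 1) := by
      rw [le_div_iff₀ hd]; linarith
    have h5 := le_abs_self ((C + C1) / ((ord F 0 : ℝ) ^ 2 - 1))
    linarith
  have hone : ord F 0 = -1 := by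
    have h1 : (ord F 0) ^ 2 ≤ 1 := by exact_mod_cast hsq
    nlinarith
  have h2 := hiff.1 ⟨C, fun x hx => by
    rw [hone]
    have := hC x hx
    simpa using this⟩
  have h3 : ∀ p : ℕ, p.Prime → ¬ p ∣ N → ‖a p - 1‖ = 1 := by
    intro p hp hpN
    have h4 := hloc p hp 1
    rw [pow_one] at h4
    rw [h4, Finset.sum_range_succ, Finset.sum_range_one, pow_zero, pow_one, add_sub_cancel_left]
    have hcop : Nat.Coprime p N := (Nat.Prime.coprime_iff_not_dvd hp).2 hpN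
    have h5 := DirichletCharacter.unit_norm_eq_one χ (ZMod.unitOfCoprime p hcop)
    rw [ZMod.coe_unitOfCoprime] at h5
    unfold zch
    rw [norm_mul, h5, one_mul, Complex.norm_natCast_cpow_of_pos hp.pos]
    simp
  have h4 : Summable (fun p : Nat.Primes => (1 : ℝ) / ((p : ℕ) : ℝ)) := by
    have h5 : {p : Nat.Primes | (p : ℕ) ∣ N}.Finite := by
      have h6 : ((Nat.divisors N : Finset ℕ) : Set ℕ).Finite := Finset.finite_toSet _
      refine Set.Finite.preimage (f := fun p : Nat.Primes => (p : ℕ)) ?_ h6 |>.subset ?_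
      · exact fun x _ y _ h => Subtype.ext h
      · intro p hp
        simp only [Set.mem_preimage, Finset.mem_coe, Nat.mem_divisors]
        exact ⟨hp, NeZero.ne N⟩
    have h7 : Summable (fun p : Nat.Primes => ‖a p - 1‖ ^ 2 / ((p : ℕ) : ℝ)) := by
      refine h2.congr (fun p => ?_)
      rw [hone]
      congr 2
      simp [sub_eq_add_neg]
    refine h7.congr_cofinite ?_
    filter_upwards [h5.compl_mem_cofinite] with p hp
    rw [h3 p p.2 hp]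
    norm_num
  exact Nat.Primes.not_summable_one_div h4

/-- a primitive function of degree two with a pole does not satisfy `S_F(x) = O(log log x)` -/
theorem primitive_fails (a : ℕ → ℂ) (F : ℂ → ℂ) (hP : IsPrimitive a F)
    (hpole : ¬ ∃ G : ℂ → ℂ, Differentiable ℂ G ∧ ∀ s, s ≠ 1 → G s = F s)
    (Q : ℝ) (r : ℕ) (lam : Fin r → ℝ) (mu : Fin r → ℂ) (ε : ℂ)
    (hQ : 0 < Q) (hlam : ∀ j, 0 < lam j) (hmu : ∀ j, 0 ≤ (mu j).re) (hε : ‖ε‖ = 1)
    (hfe : ∀ s : ℂ, 0 < s.re → s.re < 1 →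
      completed Q lam mu F s =
        ε * (starRingEnd ℂ) (completed Q lam mu F (1 - (starRingEnd ℂ) s)))
    (hdeg : 2 * ∑ j, lam j = 2) :
    ¬ ∃ C : ℝ, ∀ x : ℝ, 16 ≤ x → S a x ≤ C * Real.log (Real.log x) := by
  intro hO
  have hS := hP.1
  obtain ⟨N, hN, χ, τ, hprim, hχ, hloc⟩ :=
    all_primes a F hS hpole Q r lam mu ε hQ hlam hmu hε hfe hdeg hO
  rcases hχ with h1 | ⟨rfl, rfl⟩
  · exact SC6.not_primitive_L a F hS χ hprim h1 τ hloc hP
  · obtain ⟨-, -, h⟩ := hP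
    have hf := SC7.factor_zeta_L a F hS χ 0 hloc
    rcases h _ _ _ _ SC7.isSelberg_zeta SC7.isSelberg_zeta (fun s hs => by
      rw [hf s hs]
      congr 1
      simp [DirichletCharacter.LFunction_modOne_eq]) with h3 | h3 <;>
    exact SC6.lseries_ne_one _ 2 le_rfl one_ne_zero _ SC7.isSelberg_zeta h3

end Pool.Agent.H11.PC
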